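import Mathlib
import Pool.Graph.R_pool_sql_team_seeded_1acbe0a2.Y562.SX.Main

/-!
Project NT (helper57): Ax's theorem on leaves.
-/

set_option autoImplicit false

namespace Pool.Agent.Helper57.NT

open Filter Topology Metric Pool.Agent.Y890.SP Pool.Agent.Y562.SX
open scoped Polynomial

/-- algebraically independent elements in the algebraic closure of one element -/
theorem indep_le_one {R L : Type} [CommRing R] [IsDomain R] [Field L] [Algebra R L] [FaithfulSMul R L] (e : L)
    {X : Set L} (hX : AlgebraicIndepOn R id X) (h : ∀ x ∈ X, IsAlgebraic (Algebra.adjoin R {e}) x) :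
    X.encard ≤ 1 := by
  have h1 : (AlgebraicIndependent.matroid R L).Indep X :=
    AlgebraicIndependent.matroid_indep_iff.2 hX
  have h2 : X ⊆ (AlgebraicIndependent.matroid R L).closure {e} := by
    intro x hx
    rw [AlgebraicIndependent.matroid_closure_eq]
    exact (Subalgebra.mem_algebraicClosure _ _).2 (h x hx)
  calc X.encard ≤ (AlgebraicIndependent.matroid R L).eRk
        ((AlgebraicIndependent.matroid R L).closure {e}) := h1.encard_le_eRk_of_subset h2
    _ = (AlgebraicIndependent.matroid R L).eRk {e} := Matroid.eRk_closure_eq _ _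
    _ ≤ ({e} : Set L).encard := Matroid.eRk_le_encard _ _
    _ = 1 := Set.encard_singleton e

/-- no transcendental elements in the closure of an algebraic element -/
theorem indep_le_zero {R L : Type} [CommRing R] [IsDomain R] [Field L] [Algebra R L] [FaithfulSMul R L]
    {e : L} (he : IsAlgebraic R e)
    {X : Set L} (hX : AlgebraicIndepOn R id X) (h : ∀ x ∈ X, IsAlgebraic (Algebra.adjoin R {e}) x) :
    X.encard ≤ 0 := by
  have h1 : (AlgebraicIndependent.matroid R L).Indep X :=
    AlgebraicIndependent.matroid_indep_iff.2 hX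
  have h2 : X ⊆ (AlgebraicIndependent.matroid R L).closure {e} := by
    intro x hx
    rw [AlgebraicIndependent.matroid_closure_eq]
    exact (Subalgebra.mem_algebraicClosure _ _).2 (h x hx)
  have h3 : ({e} : Set L) ⊆ (AlgebraicIndependent.matroid R L).closure ∅ := by
    intro x hx
    rw [Set.mem_singleton_iff] at hx
    subst hx
    rw [AlgebraicIndependent.matroid_closure_eq]
    refine (Subalgebra.mem_algebraicClosure _ _).2 (he.extendScalars ?_)
    have h4 : Function.Injective (algebraMap (Algebra.adjoin R (∅ : Set L)) L ∘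
        algebraMap R (Algebra.adjoin R (∅ : Set L))) := by
      have h5 : (algebraMap (Algebra.adjoin R (∅ : Set L)) L ∘
        algebraMap R (Algebra.adjoin R (∅ : Set L))) = algebraMap R L := by
        funext y
        rfl
      rw [h5]
      exact FaithfulSMul.algebraMap_injective R L
    exact h4.of_comp
  calc X.encard ≤ (AlgebraicIndependent.matroid R L).eRk
        ((AlgebraicIndependent.matroid R L).closure {e}) := h1.encard_le_eRk_of_subset h2
    _ = (AlgebraicIndependent.matroid R L).eRk {e} := Matroid.eRk_closure_eq _ _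
    _ ≤ (AlgebraicIndependent.matroid R L).eRk ((AlgebraicIndependent.matroid R L).closure ∅) :=
        Matroid.eRk_mono _ h3
    _ = (AlgebraicIndependent.matroid R L).eRk ∅ := Matroid.eRk_closure_eq _ _
    _ ≤ (∅ : Set L).encard := Matroid.eRk_le_encard _ _
    _ = 0 := Set.encard_empty

section

variable {κ : Type} {V : Set ℂ} {fs : κ → ℂ → ℂ}
  {L : Type} [Field L] [Algebra ℂ[X] L] [FaithfulSMul ℂ[X] L] {F : κ → L}

/-- `a(x, T)` as a polynomial in the functions -/
noncomputable def psi (j0 : κ) : MvPolynomial (Fin 2) ℂ →ₐ[ℂ] MvPolynomial κ ℂ[X] :=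
  MvPolynomial.aeval ![MvPolynomial.C Polynomial.X, MvPolynomial.X j0]

theorem evF_psi (j0 : κ) (x : ℂ) (a : MvPolynomial (Fin 2) ℂ) :
    evF fs x (psi j0 a) = MvPolynomial.eval ![x, fs j0 x] a := by
  induction a using MvPolynomial.induction_on with
  | C c =>
    rw [psi, MvPolynomial.aeval_C, MvPolynomial.eval_C, evF]
    have : algebraMap ℂ (MvPolynomial κ ℂ[X]) c = MvPolynomial.C (Polynomial.C c) := rfl
    rw [this, MvPolynomial.eval₂_C, Polynomial.coe_evalRingHom, Polynomial.eval_C]
  | add p q hp hq =>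
    rw [map_add, map_add, ← hp, ← hq]
    exact MvPolynomial.eval₂_add _ _
  | mul_X p i hp =>
    rw [map_mul, map_mul, ← hp, MvPolynomial.eval_X]
    have h1 : evF fs x (psi j0 p * psi j0 (MvPolynomial.X i)) =
        evF fs x (psi j0 p) * evF fs x (psi j0 (MvPolynomial.X i)) := MvPolynomial.eval₂_mul _ _
    rw [h1]
    refine congrArg₂ (· * ·) rfl ?_
    fin_cases i
    · simp [psi, evF]
    · simp [psi, evF]

/-- relations over the functions of `x` and `T` -/
def RelT (V : Set ℂ) (T g : ℂ → ℂ) : Prop :=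
  ∃ A : Polynomial (MvPolynomial (Fin 2) ℂ),
    (∀ x ∈ V, MvPolynomial.eval ![x, T x] A.leadingCoeff ≠ 0) ∧
    ∀ x ∈ V, (A.map (MvPolynomial.eval ![x, T x])).eval (g x) = 0

theorem alg_of_rel (hne : V.Nonempty)
    (hF : ∀ p : MvPolynomial κ ℂ[X], MvPolynomial.aeval F p = 0 ↔ ∀ x ∈ V, evF fs x p = 0)
    (j0 i : κ) (h : RelT V (fs j0) (fs i)) : IsAlgebraic (Algebra.adjoin ℂ[X] {F j0}) (F i) := by
  classical
  obtain ⟨A, h1, h2⟩ := h
  have hmem : ∀ a : MvPolynomial (Fin 2) ℂ, MvPolynomial.aeval F (psi j0 a) ∈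
      Algebra.adjoin ℂ[X] {F j0} := by
    intro a
    induction a using MvPolynomial.induction_on with
    | C c =>
      have : psi (κ := κ) j0 (MvPolynomial.C c) = MvPolynomial.C (Polynomial.C c) := by
        rw [psi, MvPolynomial.aeval_C]; rfl
      rw [this, MvPolynomial.aeval_C]
      exact Subalgebra.algebraMap_mem _ _
    | add p q hp hq => rw [map_add, map_add]; exact Subalgebra.add_mem _ hp hq
    | mul_X p i hp =>
      rw [map_mul, map_mul]
      refine Subalgebra.mul_mem _ hp ?_
      fin_cases i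
      · simp only [psi, MvPolynomial.aeval_X, Fin.zero_eta, Matrix.cons_val_zero,
          MvPolynomial.aeval_C]
        exact Subalgebra.algebraMap_mem _ _
      · simp only [psi, MvPolynomial.aeval_X, Fin.mk_one, Matrix.cons_val_one,
          Matrix.cons_val_fin_one]
        exact Algebra.subset_adjoin (Set.mem_singleton _)
  let θ : MvPolynomial (Fin 2) ℂ →+* Algebra.adjoin ℂ[X] {F j0} :=
    ((MvPolynomial.aeval F : MvPolynomial κ ℂ[X] →ₐ[ℂ[X]] L).toRingHom.comp
      (psi j0).toRingHom).codRestrict (Algebra.adjoin ℂ[X] {F j0}).toSubring hmem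
  have hθ : ∀ a, ((θ a : Algebra.adjoin ℂ[X] {F j0}) : L) = MvPolynomial.aeval F (psi j0 a) :=
    fun a => rfl
  refine ⟨A.map θ, ?_, ?_⟩
  · intro h0
    obtain ⟨x, hx⟩ := hne
    apply h1 x hx
    have h3 := congrArg (fun p => Polynomial.coeff p A.natDegree) h0
    simp only [Polynomial.coeff_map, Polynomial.coeff_zero] at h3
    have h4 : MvPolynomial.aeval F (psi j0 A.leadingCoeff) = 0 := by
      rw [← hθ]
      show ((θ (A.coeff A.natDegree) : Algebra.adjoin ℂ[X] {F j0}) : L) = 0
      rw [h3]; rfl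
    have h5 := (hF _).1 h4 x hx
    rwa [evF_psi] at h5
  · have h3 : Polynomial.aeval (F i) (A.map θ) = MvPolynomial.aeval F
        (∑ j ∈ Finset.range (A.natDegree + 1), psi j0 (A.coeff j) * MvPolynomial.X i ^ j) := by
      rw [Polynomial.aeval_def, Polynomial.eval₂_map, Polynomial.eval₂_eq_sum_range, map_sum]
      refine Finset.sum_congr rfl fun j _ => ?_
      rw [map_mul, map_pow, MvPolynomial.aeval_X, ← hθ]
      rfl
    rw [h3, hF]
    intro x hx
    have h4 := h2 x hx
    rw [Polynomial.eval_map, Polynomial.eval₂_eq_sum_range] at h4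
    rw [← h4]
    show MvPolynomial.eval₂ (Polynomial.evalRingHom x) (fun i => fs i x) _ = _
    rw [MvPolynomial.eval₂_sum]
    refine Finset.sum_congr rfl fun j _ => ?_
    rw [MvPolynomial.eval₂_mul, MvPolynomial.eval₂_pow, MvPolynomial.eval₂_X]
    exact congrArg₂ (· * ·) (evF_psi j0 x _) rfl

end

theorem image_indep {R L κ : Type} [CommRing R] [Field L] [Algebra R L] {F : κ → L}
    {I : Set κ} (hI : AlgebraicIndepOn R F I) [Nontrivial R] :
    AlgebraicIndepOn R id (F '' I) ∧ Set.InjOn F I := by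
  have hinj : Set.InjOn F I := by
    intro a ha b hb hab
    have := hI.injective (a₁ := ⟨a, ha⟩) (a₂ := ⟨b, hb⟩) hab
    exact congrArg Subtype.val this
  exact ⟨hI.image, hinj⟩

variable {V : Set ℂ}

/-- **Ax, two functions** -/
theorem ax_two (hV : IsPreconnected V) (hVo : IsOpen V) (hne : V.Nonempty) {T W : ℂ → ℂ}
    (hT : AnalyticOnNhd ℂ T V) (hW : AnalyticOnNhd ℂ W V) (rW : RelT V T W)
    (rT' : RelT V T fun x => Complex.exp (T x)) (rW' : RelT V T fun x => Complex.exp (W x)) :
    ∃ q : Fin 2 → ℚ, q ≠ 0 ∧ ∃ c : ℂ, ∀ x ∈ V, (q 0 : ℂ) * T x + (q 1 : ℂ) * W x = c := by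
  classical
  by_contra hcon
  push Not at hcon
  set z : Fin 2 → ℂ → ℂ := ![T, W] with hz
  have hza : ∀ i, AnalyticOnNhd ℂ (z i) V := by
    intro i; fin_cases i
    · exact hT
    · exact hW
  have hq : ∀ q : Fin 2 → ℚ, (∃ c : ℂ, ∀ x ∈ V, ∑ i, (q i : ℂ) * z i x = c) → q = 0 := by
    rintro q ⟨c, hc⟩
    by_contra h0
    obtain ⟨x, hx, hx2⟩ := hcon q h0 c
    apply hx2
    have := hc x hx
    rw [Fin.sum_univ_two] at this
    exact this
  obtain ⟨L, _, _, _, F, hF, -⟩ := exists_field hV hVo hne (f := ze z) (fun i => ze_an hza i)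
  obtain ⟨I, hI, hIn⟩ := fun_ax (n := 2) (by norm_num) hV hVo hne hza hq F hF
  obtain ⟨h1, h2⟩ := image_indep hI
  have rT : RelT V T T := by
    refine ⟨Polynomial.X - Polynomial.C (MvPolynomial.X 1), fun x hx => ?_, fun x hx => ?_⟩
    · rw [Polynomial.leadingCoeff_X_sub_C, map_one]; exact one_ne_zero
    · simp
  have hall : ∀ i, IsAlgebraic (Algebra.adjoin ℂ[X] {F (Sum.inl 0)}) (F i) := by
    intro i
    refine alg_of_rel hne hF (Sum.inl 0) i ?_
    show RelT V T (ze z i)
    rcases i with i | i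
    · fin_cases i
      · exact rT
      · exact rW
    · fin_cases i
      · exact rT'
      · exact rW'
  have h3 := indep_le_one (F (Sum.inl 0)) h1 (by
    rintro _ ⟨i, -, rfl⟩
    exact hall i)
  rw [h2.encard_image] at h3
  have h4 : I.ncard ≤ 1 := by
    have hfin : I.Finite := Set.toFinite I
    rw [← hfin.cast_ncard_eq] at h3
    exact_mod_cast h3
  omega

/-- **Ax, one function**: the leaf is not algebraic -/
theorem ax_one (hV : IsPreconnected V) (hVo : IsOpen V) (hne : V.Nonempty) {T : ℂ → ℂ}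
    (hT : AnalyticOnNhd ℂ T V) (hTn : ¬ ∃ c, ∀ x ∈ V, T x = c)
    (rT' : RelT V T fun x => Complex.exp (T x)) {Φ : MvPolynomial (Fin 2) ℂ}
    (hΦ : ∀ x ∈ V, MvPolynomial.eval ![x, T x] Φ = 0) : Φ = 0 := by
  classical
  by_contra hΦ0
  set z : Fin 1 → ℂ → ℂ := fun _ => T with hz
  have hza : ∀ i, AnalyticOnNhd ℂ (z i) V := fun _ => hT
  have hq : ∀ q : Fin 1 → ℚ, (∃ c : ℂ, ∀ x ∈ V, ∑ i, (q i : ℂ) * z i x = c) → q = 0 := by
    rintro q ⟨c, hc⟩
    by_contra h0
    apply hTn
    have hq0 : (q 0 : ℂ) ≠ 0 := by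
      intro h
      apply h0
      funext i
      have : i = 0 := Subsingleton.elim _ _
      subst this
      exact_mod_cast h
    refine ⟨c / q 0, fun x hx => ?_⟩
    have := hc x hx
    rw [Fin.sum_univ_one] at this
    rw [eq_div_iff hq0, mul_comm]
    exact this
  obtain ⟨L, _, _, _, F, hF, -⟩ := exists_field hV hVo hne (f := ze z) (fun i => ze_an hza i)
  obtain ⟨I, hI, hIn⟩ := fun_ax (n := 1) (by norm_num) hV hVo hne hza hq F hF
  obtain ⟨h1, h2⟩ := image_indep hI
  have rT : RelT V T T := by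
    refine ⟨Polynomial.X - Polynomial.C (MvPolynomial.X 1), fun x hx => ?_, fun x hx => ?_⟩
    · rw [Polynomial.leadingCoeff_X_sub_C, map_one]; exact one_ne_zero
    · simp
  have hall : ∀ i, IsAlgebraic (Algebra.adjoin ℂ[X] {F (Sum.inl 0)}) (F i) := by
    intro i
    refine alg_of_rel hne hF (Sum.inl 0) i ?_
    show RelT V T (ze z i)
    rcases i with i | i
    · exact rT
    · exact rT'
  -- `T` is algebraic
  have halg : IsAlgebraic ℂ[X] (F (Sum.inl 0)) := by
    set Ψ : ℂ[X][X] := MvPolynomial.aeval ![Polynomial.C Polynomial.X, Polynomial.X] Φ with hΨ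
    have hev : ∀ (x y : ℂ) (a : MvPolynomial (Fin 2) ℂ),
        ((MvPolynomial.aeval ![Polynomial.C Polynomial.X, Polynomial.X] a : ℂ[X][X]).map
          (Polynomial.evalRingHom x)).eval y = MvPolynomial.eval ![x, y] a := by
      intro x y a
      induction a using MvPolynomial.induction_on with
      | C c =>
        rw [MvPolynomial.aeval_C, MvPolynomial.eval_C]
        have : algebraMap ℂ ℂ[X][X] c = Polynomial.C (Polynomial.C c) := rfl
        rw [this]; simp
      | add p q hp hq => rw [map_add, Polynomial.map_add, Polynomial.eval_add, hp, hq, map_add]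
      | mul_X p i hp =>
        rw [map_mul, Polynomial.map_mul, Polynomial.eval_mul, hp, map_mul]
        refine congrArg₂ (· * ·) rfl ?_
        fin_cases i <;> simp
    have hΨ0 : Ψ ≠ 0 := by
      intro h
      apply hΦ0
      apply MvPolynomial.funext
      intro t
      have h3 := hev (t 0) (t 1) Φ
      rw [← hΨ, h, Polynomial.map_zero, Polynomial.eval_zero] at h3
      have h4 : ![t 0, t 1] = t := by
        funext i
        fin_cases i <;> rfl
      rw [h4] at h3
      rw [map_zero, ← h3]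
    refine ⟨Ψ, hΨ0, ?_⟩
    have hae : ∀ a : MvPolynomial (Fin 2) ℂ, Polynomial.aeval (F (Sum.inl 0))
        (MvPolynomial.aeval ![Polynomial.C Polynomial.X, Polynomial.X] a : ℂ[X][X]) =
        MvPolynomial.aeval F (psi (Sum.inl 0) a) := by
      intro a
      induction a using MvPolynomial.induction_on with
      | C c =>
        have e1 : (MvPolynomial.aeval ![Polynomial.C Polynomial.X, Polynomial.X]
          (MvPolynomial.C c : MvPolynomial (Fin 2) ℂ) : ℂ[X][X]) = Polynomial.C (Polynomial.C c) := by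
          rw [MvPolynomial.aeval_C]; rfl
        have e2 : psi (κ := Fin 1 ⊕ Fin 1) (Sum.inl 0) (MvPolynomial.C c) =
            MvPolynomial.C (Polynomial.C c) := by
          rw [psi, MvPolynomial.aeval_C]; rfl
        rw [e1, e2, Polynomial.aeval_C, MvPolynomial.aeval_C]
      | add p q hp hq => rw [map_add, map_add, hp, hq, map_add, map_add]
      | mul_X p i hp =>
        rw [map_mul, map_mul, hp, map_mul, map_mul]
        refine congrArg₂ (· * ·) rfl ?_
        fin_cases i <;> simp [psi]
    rw [hae, hF]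
    intro x hx
    rw [evF_psi]
    exact hΦ x hx
  have h3 := indep_le_zero halg h1 (by
    rintro _ ⟨i, -, rfl⟩
    exact hall i)
  rw [h2.encard_image] at h3
  have h4 : I.ncard ≤ 0 := by
    have hfin : I.Finite := Set.toFinite I
    rw [← hfin.cast_ncard_eq] at h3
    exact_mod_cast h3
  omega

/-- **Ax**: nonconstant functions `W` with `W` and `exp W` algebraic do not exist -/
theorem ax_zero (hV : IsPreconnected V) (hVo : IsOpen V) (hne : V.Nonempty) {W : ℂ → ℂ}
    (hW : AnalyticOnNhd ℂ W V) {A A' : ℂ[X][X]} (hA0 : A ≠ 0) (hA0' : A' ≠ 0)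
    (hA : ∀ x ∈ V, (A.map (Polynomial.evalRingHom x)).eval (W x) = 0)
    (hA' : ∀ x ∈ V, (A'.map (Polynomial.evalRingHom x)).eval (Complex.exp (W x)) = 0) :
    ∃ c, ∀ x ∈ V, W x = c := by
  classical
  by_contra hTn
  set z : Fin 1 → ℂ → ℂ := fun _ => W with hz
  have hza : ∀ i, AnalyticOnNhd ℂ (z i) V := fun _ => hW
  have hq : ∀ q : Fin 1 → ℚ, (∃ c : ℂ, ∀ x ∈ V, ∑ i, (q i : ℂ) * z i x = c) → q = 0 := by
    rintro q ⟨c, hc⟩
    by_contra h0
    apply hTn
    have hq0 : (q 0 : ℂ) ≠ 0 := by
      intro h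
      apply h0
      funext i
      have : i = 0 := Subsingleton.elim _ _
      subst this
      exact_mod_cast h
    refine ⟨c / q 0, fun x hx => ?_⟩
    have := hc x hx
    rw [Fin.sum_univ_one] at this
    rw [eq_div_iff hq0, mul_comm]
    exact this
  obtain ⟨L, _, _, _, F, hF, -⟩ := exists_field hV hVo hne (f := ze z) (fun i => ze_an hza i)
  obtain ⟨I, hI, hIn⟩ := fun_ax (n := 1) (by norm_num) hV hVo hne hza hq F hF
  have key : ∀ (i : Fin 1 ⊕ Fin 1) (P : ℂ[X][X]), P ≠ 0 →
      (∀ x ∈ V, (P.map (Polynomial.evalRingHom x)).eval (ze z i x) = 0) →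
      IsAlgebraic ℂ[X] (F i) := by
    intro i P hP h
    refine ⟨P, hP, ?_⟩
    have h3 : Polynomial.aeval (F i) P = MvPolynomial.aeval F
        (∑ j ∈ Finset.range (P.natDegree + 1), MvPolynomial.C (P.coeff j) * MvPolynomial.X i ^ j) := by
      rw [Polynomial.aeval_def, Polynomial.eval₂_eq_sum_range, map_sum]
      refine Finset.sum_congr rfl fun j _ => ?_
      rw [map_mul, map_pow, MvPolynomial.aeval_X, MvPolynomial.aeval_C]
    rw [h3, hF]
    intro x hx
    have h4 := h x hx
    rw [Polynomial.eval_map, Polynomial.eval₂_eq_sum_range] at h4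
    rw [← h4]
    show MvPolynomial.eval₂ (Polynomial.evalRingHom x) (fun i => ze z i x) _ = _
    rw [MvPolynomial.eval₂_sum]
    refine Finset.sum_congr rfl fun j _ => ?_
    rw [MvPolynomial.eval₂_mul, MvPolynomial.eval₂_pow, MvPolynomial.eval₂_X, MvPolynomial.eval₂_C]
  have hall : ∀ i, IsAlgebraic ℂ[X] (F i) := by
    intro i
    rcases i with i | i
    · exact key _ A hA0 hA
    · exact key _ A' hA0' hA'
  have hIne : I.Nonempty := by
    rw [Set.nonempty_iff_ne_empty]
    rintro rfl
    rw [Set.ncard_empty] at hIn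
    omega
  obtain ⟨i, hi⟩ := hIne
  exact hI.transcendental ⟨i, hi⟩ (hall i)

end Pool.Agent.Helper57.NT
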