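import Pool.Agent.Helper57.HT.Lim
import Pool.Agent.Helper57.HT.Stl

/-!
Project NT (helper57): exponential sums with coefficients in a function field along the leaves of
`dx_1 = dy_1 / y_1`; they have zeros unless all frequencies coincide.
-/

set_option autoImplicit false

namespace Pool.Agent.Helper57.NT

open MvPolynomial Filter Topology Metric Pool.Agent.Q72.EG

variable {σ : Type} [Fintype σ] {E : Type} [Field E] [Algebra ℂ E]

/-- the polynomial vector field with the coefficients `A` -/
noncomputable def DD (A : σ → MvPolynomial σ ℂ) (a : MvPolynomial σ ℂ) : MvPolynomial σ ℂ :=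
  ∑ i, A i * pderiv i a

/-- leaves of a polynomial vector field, parametrized by `s` with `x_3 = exp (m + s)` -/
structure Lf (ξ : σ → E) (i2 i3 : σ) (p : ℕ → ℂ → σ → ℂ) where
  B : MvPolynomial σ ℂ
  A : σ → MvPolynomial σ ℂ
  hB : aeval ξ B ≠ 0
  hp : ∀ᶠ m : ℕ in atTop, ∀ s ∈ ball (0 : ℂ) 13, p m s ∈ Pt ξ
  dif : ∀ᶠ m : ℕ in atTop, ∀ s ∈ ball (0 : ℂ) 13, ∀ i,
    HasDerivAt (fun s => p m s i) (eval (p m s) (A i) / eval (p m s) B) s
  lo : ∀ a, aeval ξ a ≠ 0 → ∃ C : ℝ, ∀ᶠ m : ℕ in atTop, ∀ s ∈ ball (0 : ℂ) 13,
    Real.exp (-(C * m)) ≤ ‖eval (p m s) a‖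
  up : ∀ a, ∃ C : ℝ, ∀ᶠ m : ℕ in atTop, ∀ s ∈ ball (0 : ℂ) 13,
    ‖eval (p m s) a‖ ≤ Real.exp (C * m)
  x3 : ∀ᶠ m : ℕ in atTop, ∀ s ∈ ball (0 : ℂ) 13, p m s i3 = Complex.exp m * Complex.exp s
  x2 : ∃ C : ℝ, ∀ᶠ m : ℕ in atTop, ∀ s ∈ ball (0 : ℂ) 13, ‖p m s i2‖ ≤ C * Real.exp m
  ax : ∀ a b, aeval ξ a ≠ 0 → aeval ξ b ≠ 0 → ∀ k : ℤ × ℤ, k ≠ 0 →
    aeval ξ (b * DD A a - a * DD A b + a * b * (C (k.1 : ℂ) * A i2 + C (k.2 : ℂ) * A i3)) ≠ 0

variable {ξ : σ → E} {i2 i3 : σ} {p : ℕ → ℂ → σ → ℂ}

/-- chain rule -/
theorem hasDeriv_eval {A : σ → MvPolynomial σ ℂ} {b : ℂ} {q : ℂ → σ → ℂ} {s : ℂ}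
    (h : ∀ i, HasDerivAt (fun s => q s i) (eval (q s) (A i) / b) s) (a : MvPolynomial σ ℂ) :
    HasDerivAt (fun s => eval (q s) a) (eval (q s) (DD A a) / b) s := by
  classical
  induction a using MvPolynomial.induction_on with
  | C c =>
    simp only [DD, pderiv_C, mul_zero, Finset.sum_const_zero, map_zero, zero_div, eval_C]
    exact hasDerivAt_const _ _
  | add f g hf hg =>
    have h1 := hf.add hg
    have e1 : DD A (f + g) = DD A f + DD A g := by
      simp only [DD, map_add, mul_add, Finset.sum_add_distrib]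
    rw [e1, map_add, add_div]
    refine h1.congr_of_eventuallyEq (Eventually.of_forall fun s => ?_)
    simp
  | mul_X f i hf =>
    have h1 := hf.mul (h i)
    have e1 : DD A (f * X i) = DD A f * X i + f * A i := by
      simp only [DD, Derivation.leibniz, smul_eq_mul, pderiv_X]
      rw [Finset.sum_mul]
      have h2 : f * A i = ∑ j, if j = i then f * A j else 0 := by
        rw [Finset.sum_ite_eq' Finset.univ i]; simp
      rw [h2, ← Finset.sum_add_distrib]
      refine Finset.sum_congr rfl fun j _ => ?_
      by_cases hj : j = i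
      · subst hj; simp; ring
      · have : (Pi.single j 1 : σ → MvPolynomial σ ℂ) i = 0 := by
          rw [Pi.single_apply, if_neg (fun h => hj h.symm)]
        rw [this, if_neg hj]; ring
    have e2 : eval (q s) (DD A (f * X i)) / b =
        eval (q s) (DD A f) / b * q s i + eval (q s) f * (eval (q s) (A i) / b) := by
      rw [e1, map_add, map_mul, map_mul, eval_X]; ring
    rw [e2]
    refine h1.congr_of_eventuallyEq (Eventually.of_forall fun s => ?_)
    simp

/-- the exponents -/
noncomputable def ex (i2 i3 : σ) (q : σ → ℂ) (k : ℤ × ℤ) : ℂ := (k.1 : ℂ) * q i2 + (k.2 : ℂ) * q i3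

/-- frequencies -/
noncomputable def fr (κ : ℂ) (k : ℤ × ℤ) : ℂ := (k.1 : ℂ) * κ + (k.2 : ℂ)

/-- eventual domination of `exp (C m)` by `exp (ε exp m)` -/
theorem small_ev (K C ε : ℝ) (hε : 0 < ε) : ∀ᶠ m : ℕ in atTop,
    K * Real.exp (C * m) ≤ Real.exp (ε * Real.exp m) := by
  have h1 : Tendsto (fun x : ℝ => ε * Real.exp x - C * x) atTop atTop := by
    have h2 : Tendsto (fun x : ℝ => x * (ε * (Real.exp x / x ^ 1) - C)) atTop atTop := by
      refine tendsto_id.atTop_mul_atTop₀ ?_
      exact tendsto_atTop_add_const_right _ _ ((Real.tendsto_exp_div_pow_atTop 1).const_mul_atTop hε)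
    refine h2.congr' ?_
    filter_upwards [eventually_gt_atTop 0] with x hx
    field_simp
  have h3 := h1.comp tendsto_natCast_atTop_atTop
  filter_upwards [h3.eventually (eventually_ge_atTop (Real.log (|K| + 1)))] with m hm
  simp only [Function.comp] at hm
  have h4 : (|K| + 1) ≤ Real.exp (ε * Real.exp m - C * m) := by
    rw [← Real.log_le_iff_le_exp (by positivity)]
    exact hm
  calc K * Real.exp (C * m) ≤ (|K| + 1) * Real.exp (C * m) := by
        gcongr
        linarith [le_abs_self K]
    _ ≤ Real.exp (ε * Real.exp m - C * m) * Real.exp (C * m) := by gcongr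
    _ = Real.exp (ε * Real.exp m) := by rw [← Real.exp_add]; congr 1; ring

theorem norm_exp_nat (m : ℕ) : ‖Complex.exp (m : ℂ)‖ = Real.exp (m : ℝ) := by
  rw [Complex.norm_exp]; simp

/-- slow exponential sums are not exponentially small -/
theorem nonsmall (L : Lf ξ i2 i3 p) (U : Ultrafilter ℕ) (hU : (U : Filter ℕ) ≤ atTop) {κ : ℂ}
    (hκ : ∀ s ∈ ball (0 : ℂ) 13,
      Tendsto (fun m : ℕ => p m s i2 / Complex.exp m) U (𝓝 (κ * Complex.exp s))) (l : ℤ × ℤ)
    (S : Finset (ℤ × ℤ)) : S.Nonempty → (∀ k ∈ S, fr κ k = fr κ l) →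
    ∀ (c : ℤ × ℤ → MvPolynomial σ ℂ), (∀ k ∈ S, aeval ξ (c k) ≠ 0) →
    ∀ (z : ℂ) (r : ℝ), 0 < r → ball z r ⊆ ball 0 13 → ∀ ε : ℝ, 0 < ε → ∀ᶠ m : ℕ in (U : Filter ℕ),
      ∃ s ∈ ball z r, Real.exp (-(ε * Real.exp m)) ≤
        ‖∑ k ∈ S, eval (p m s) (c k) * Complex.exp (ex i2 i3 (p m s) (k - l))‖ := by
  classical
  induction S using Finset.induction_on with
  | empty => intro h; exact absurd h Finset.not_nonempty_empty
  | insert a S ha ih =>
    intro _ hfr c hc z r hr hsub ε hε
    have hz : z ∈ ball (0 : ℂ) 13 := hsub (mem_ball_self hr)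
    rcases S.eq_empty_or_nonempty with rfl | hS
    · -- one term
      obtain ⟨C, hC⟩ := L.lo _ (hc a (by simp))
      have hlim : Tendsto (fun m : ℕ => ex i2 i3 (p m z) (a - l) / Complex.exp m) U (𝓝 0) := by
        have h1 := ((hκ z hz).const_mul (((a - l).1 : ℤ) : ℂ)).add_const
          ((((a - l).2 : ℤ) : ℂ) * Complex.exp z)
        have h2 : ((((a - l).1 : ℤ) : ℂ) * (κ * Complex.exp z)) +
            ((((a - l).2 : ℤ) : ℂ) * Complex.exp z) = 0 := by
          have h3 := hfr a (by simp)
          simp only [fr] at h3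
          simp only [Prod.fst_sub, Prod.snd_sub]
          push_cast
          linear_combination Complex.exp z * h3
        rw [h2] at h1
        refine h1.congr' ?_
        filter_upwards [hU L.x3] with m hm
        have h4 : Complex.exp (m : ℂ) ≠ 0 := Complex.exp_ne_zero _
        simp only [ex]
        rw [hm z hz]
        field_simp
      have h5 : ∀ᶠ m : ℕ in (U : Filter ℕ), ‖ex i2 i3 (p m z) (a - l) / Complex.exp m‖ < ε / 2 := by
        have := hlim.norm
        rw [norm_zero] at this
        exact this.eventually (gt_mem_nhds (by positivity))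
      filter_upwards [h5, hU hC, hU (small_ev 1 C (ε / 2) (by positivity))] with m h5 hC hs
      refine ⟨z, mem_ball_self hr, ?_⟩
      simp only [insert_empty_eq, Finset.sum_singleton]
      rw [norm_mul, Complex.norm_exp]
      rw [norm_div, norm_exp_nat, div_lt_iff₀ (Real.exp_pos _)] at h5
      have h6 : -(ε / 2 * Real.exp m) ≤ (ex i2 i3 (p m z) (a - l)).re := by
        have := Complex.abs_re_le_norm (ex i2 i3 (p m z) (a - l))
        rw [abs_le] at this
        linarith [this.1]
      have h7 : Real.exp (-(ε / 2 * Real.exp m)) ≤ Real.exp (-(C * m)) := by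
        rw [one_mul, Real.exp_le_exp] at hs
        exact Real.exp_le_exp.2 (neg_le_neg hs)
      calc Real.exp (-(ε * Real.exp m)) =
            Real.exp (-(ε / 2 * Real.exp m)) * Real.exp (-(ε / 2 * Real.exp m)) := by
            rw [← Real.exp_add]; congr 1; ring
        _ ≤ ‖eval (p m z) (c a)‖ * Real.exp (ex i2 i3 (p m z) (a - l)).re := by
            refine mul_le_mul (h7.trans (hC z hz)) (Real.exp_le_exp.2 h6) (Real.exp_pos _).le
              (norm_nonneg _)
    · -- elimination of `a`
      set w : ℤ × ℤ → MvPolynomial σ ℂ := fun k =>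
        C ((k.1 : ℤ) : ℂ) * L.A i2 + C ((k.2 : ℤ) : ℂ) * L.A i3 with hw
      set c' : ℤ × ℤ → MvPolynomial σ ℂ := fun k =>
        c a * DD L.A (c k) - c k * DD L.A (c a) + c k * c a * w (k - a) with hc'
      have hcc : ∀ k ∈ S, aeval ξ (c' k) ≠ 0 := by
        intro k hk
        exact L.ax _ _ (hc k (Finset.mem_insert_of_mem hk)) (hc a (Finset.mem_insert_self _ _))
          (k - a) (sub_ne_zero.2 (fun h => ha (h ▸ hk)))
      have hih := ih hS (fun k hk => hfr k (Finset.mem_insert_of_mem hk)) c' hcc z (r / 2)
        (by positivity) ((ball_subset_ball (by linarith)).trans hsub) (ε / 2) (by positivity)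
      by_contra hcon
      rw [← Ultrafilter.eventually_not] at hcon
      obtain ⟨C1, hC1⟩ := L.up (c a * L.B)
      obtain ⟨C2, hC2⟩ := L.up (DD L.A (c a) + c a * w (a - l))
      have hf : ∀ᶠ m in (U : Filter ℕ), False := by
        filter_upwards [hih, hcon, hU hC1, hU hC2, hU L.dif,
          hU (small_ev (2 / r) C1 (ε / 8) (by positivity)),
          hU (small_ev 1 C2 (ε / 8) (by positivity)), hU (small_ev 2 0 (ε / 8) (by positivity)),
          hU (L.lo _ L.hB).choose_spec]
          with m hih hcon hC1 hC2 hdif hs1 hs2 hs3 hB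
        push Not at hcon
        set g : ℂ → ℂ := fun s => ∑ k ∈ insert a S, eval (p m s) (c k) *
          Complex.exp (ex i2 i3 (p m s) (k - l)) with hg
        have hBne : ∀ s ∈ ball (0 : ℂ) 13, eval (p m s) L.B ≠ 0 := fun s hs h => by
          have := hB s hs
          rw [h, norm_zero] at this
          exact absurd this (not_le.2 (Real.exp_pos _))
        have hgd : ∀ s ∈ ball (0 : ℂ) 13, HasDerivAt g (∑ k ∈ insert a S,
            (eval (p m s) (DD L.A (c k)) / eval (p m s) L.B *
              Complex.exp (ex i2 i3 (p m s) (k - l)) + eval (p m s) (c k) *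
              (Complex.exp (ex i2 i3 (p m s) (k - l)) *
                (eval (p m s) (w (k - l)) / eval (p m s) L.B)))) s := by
          intro s hs
          have h1 := hdif s hs
          rw [hg]
          refine HasDerivAt.fun_sum fun k _ => ?_
          refine (hasDeriv_eval h1 (c k)).mul (HasDerivAt.cexp ?_)
          have h2 := ((h1 i2).const_mul (((k - l).1 : ℤ) : ℂ)).add
            ((h1 i3).const_mul (((k - l).2 : ℤ) : ℂ))
          refine h2.congr_deriv ?_
          simp only [hw, map_add, map_mul, eval_C]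
          ring
        have hkey : ∀ s ∈ ball (0 : ℂ) 13, eval (p m s) (c a * L.B) * deriv g s -
            eval (p m s) (DD L.A (c a) + c a * w (a - l)) * g s =
            ∑ k ∈ S, eval (p m s) (c' k) * Complex.exp (ex i2 i3 (p m s) (k - l)) := by
          intro s hs
          have hBs := hBne s hs
          rw [(hgd s hs).deriv]
          simp only [hg]
          rw [Finset.mul_sum, Finset.mul_sum, ← Finset.sum_sub_distrib, Finset.sum_insert ha]
          have e1 : ∀ k, eval (p m s) (c a * L.B) *
              (eval (p m s) (DD L.A (c k)) / eval (p m s) L.B *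
              Complex.exp (ex i2 i3 (p m s) (k - l)) + eval (p m s) (c k) *
              (Complex.exp (ex i2 i3 (p m s) (k - l)) *
                (eval (p m s) (w (k - l)) / eval (p m s) L.B))) -
              eval (p m s) (DD L.A (c a) + c a * w (a - l)) *
                (eval (p m s) (c k) * Complex.exp (ex i2 i3 (p m s) (k - l))) =
              eval (p m s) (c' k) * Complex.exp (ex i2 i3 (p m s) (k - l)) := by
            intro k
            simp only [hc', hw, map_add, map_mul, map_sub, eval_C, Prod.fst_sub, Prod.snd_sub]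
            push_cast
            field_simp
            ring
          rw [e1 a]
          have e2 : eval (p m s) (c' a) = 0 := by
            simp only [hc', hw, sub_self, Prod.fst_zero, Prod.snd_zero, Int.cast_zero, map_zero,
              zero_mul, mul_zero, add_zero]
          rw [e2, zero_mul, zero_add]
          exact Finset.sum_congr rfl fun k _ => e1 k
        obtain ⟨s, hs, hge⟩ := hih
        have hs13 : s ∈ ball (0 : ℂ) 13 := hsub (ball_subset_ball (by linarith) hs)
        rw [← hkey s hs13] at hge
        have hsub2 : closedBall s (r / 4) ⊆ ball z r := by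
          intro x hx
          rw [mem_closedBall] at hx
          rw [mem_ball] at hs ⊢
          linarith [dist_triangle x s z]
        have hder : ‖deriv g s‖ ≤ Real.exp (-(ε * Real.exp m)) / (r / 4) := by
          refine Complex.norm_deriv_le_of_forall_mem_sphere_norm_le (by positivity) ?_ ?_
          · refine DifferentiableOn.diffContOnCl ?_
            intro x hx
            rw [closure_ball _ (by positivity)] at hx
            exact (hgd x (hsub (hsub2 hx))).differentiableAt.differentiableWithinAt
          · intro x hx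
            exact (hcon x (hsub2 (sphere_subset_closedBall hx))).le
        have hgs : ‖g s‖ ≤ Real.exp (-(ε * Real.exp m)) :=
          (hcon s (hsub2 (mem_closedBall_self (by positivity)))).le
        have h1 : ‖eval (p m s) (c a * L.B) * deriv g s -
            eval (p m s) (DD L.A (c a) + c a * w (a - l)) * g s‖ ≤
            Real.exp (C1 * m) * (Real.exp (-(ε * Real.exp m)) / (r / 4)) +
            Real.exp (C2 * m) * Real.exp (-(ε * Real.exp m)) := by
          refine (norm_sub_le _ _).trans (add_le_add ?_ ?_)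
          · rw [norm_mul]
            exact mul_le_mul (hC1 s hs13) hder (norm_nonneg _) (Real.exp_pos _).le
          · rw [norm_mul]
            exact mul_le_mul (hC2 s hs13) hgs (norm_nonneg _) (Real.exp_pos _).le
        have h2 := hge.trans h1
        set X := Real.exp (-(ε * Real.exp m)) with hX
        have hX0 : 0 < X := Real.exp_pos _
        have e3 : Real.exp (C1 * m) * (X / (r / 4)) = 2 * (2 / r * Real.exp (C1 * m)) * X := by
          field_simp
          ring
        rw [e3] at h2
        have e4 : Real.exp (ε / 8 * Real.exp m) * Real.exp (ε / 8 * Real.exp m) * X <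
            Real.exp (-(ε / 2 * Real.exp m)) := by
          rw [hX, ← Real.exp_add, ← Real.exp_add, Real.exp_lt_exp]
          have := Real.exp_pos (m : ℝ)
          nlinarith
        set Z := Real.exp (ε / 8 * Real.exp m) with hZ
        rw [zero_mul, Real.exp_zero, mul_one] at hs3
        rw [one_mul] at hs2
        -- `2 z X + z X ≤ z * z * X` needs `3 ≤ z`; we use `2 ≤ z` and a second factor
        have h9 : 2 * (2 / r * Real.exp (C1 * m)) * X + Real.exp (C2 * m) * X ≤
            2 * Z * X + Z * X := by
          gcongr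
        have h10 : Real.exp (-(ε / 2 * Real.exp m)) ≤ 3 * Z * X := by
          calc _ ≤ _ := h2
            _ ≤ _ := h9
            _ = 3 * Z * X := by ring
        have h11 : 3 * Z * X < Z * Z * Z * X := by
          have : 3 < Z * Z := by nlinarith
          nlinarith [mul_pos (Real.exp_pos (ε / 8 * Real.exp m)) hX0]
        have e5 : Z * Z * Z * X ≤ Real.exp (-(ε / 2 * Real.exp m)) := by
          rw [hX, hZ, ← Real.exp_add, ← Real.exp_add, ← Real.exp_add, Real.exp_le_exp]
          have := Real.exp_pos (m : ℝ)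
          nlinarith
        linarith
      exact (U.neBot.ne (Filter.eventually_false_iff_eq_bot.1 hf))

end Pool.Agent.Helper57.NT
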