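import Pool.Agent.Helper57.HT.Core
import Pool.Graph.R_seed8.W597.EC.Plane

/-!
Project NT (helper57): statements of the parts.
-/

set_option autoImplicit false

namespace Pool.Agent.Helper57.NT

open MvPolynomial Pool.Agent.Q72.EG Filter Topology Metric

/-- `m · x` -/
noncomputable def dt {n : ℕ} {E : Type} [Field E] (m : Fin n → ℤ) (x : Fin n → E) : E :=
  ∑ l, (m l : E) * x l

/-- `y^m` -/
noncomputable def mon {n : ℕ} {E : Type} [Field E] (m : Fin n → ℤ) (y : Fin n → E) : E :=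
  ∏ l, y l ^ m l

/-- no rational hyperplane contains `x` -/
def AddFree {n : ℕ} {E : Type} [Field E] [Algebra ℂ E] (x : Fin n → E) : Prop :=
  ∀ m : Fin n → ℤ, m ≠ 0 → ∀ a : ℂ, dt m x ≠ algebraMap ℂ E a

/-- no projection to `(m · x, k · x, y^m)` is a curve -/
def Strong {E : Type} [Field E] [Algebra ℂ E] (x y : Fin 3 → E) : Prop :=
  ∀ m k : Fin 3 → ℤ, LinearIndependent ℤ ![m, k] →
    AlgebraicIndependent ℂ ![dt m x, dt k x] ∨ AlgebraicIndependent ℂ ![dt m x, mon m y]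

/-- there are exponential points -/
def HasExp {n : ℕ} {E : Type} [Field E] [Algebra ℂ E] (x y : Fin n → E) : Prop :=
  ∃ z : Fin n → ℂ, (Sum.elim z (fun l => Complex.exp (z l)) : Fin n ⊕ Fin n → ℂ) ∈ Pt (Sum.elim x y)

/-- **S_fibre**: equation of a curve over the field `ℂ(ξ)` -/
def S_fibre : Prop := ∀ {E : Type} [Field E] [Algebra ℂ E] {σ : Type} [Finite σ] (ξ : σ → E)
    (y2 y3 : E), y2 ≠ 0 → y3 ≠ 0 →
    IsAlgebraic (IntermediateField.adjoin ℂ (insert y2 (Set.range ξ))) y3 →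
    (∀ a b : ℤ, IsAlgebraic (IntermediateField.adjoin ℂ (Set.range ξ)) (y2 ^ a * y3 ^ b) →
      a = 0 ∧ b = 0) →
    ∃ (S : Finset (ℤ × ℤ)) (c : ℤ × ℤ → MvPolynomial σ ℂ) (h : MvPolynomial σ ℂ),
      aeval ξ h ≠ 0 ∧ (∀ k ∈ S, aeval ξ (c k) ≠ 0) ∧
      (∀ p ∈ Pt ξ, eval p h ≠ 0 → ∀ Y2 Y3 : ℂ, Y2 ≠ 0 → Y3 ≠ 0 →
        ∑ k ∈ S, eval p (c k) * (Y2 ^ k.1 * Y3 ^ k.2) = 0 →
        Sum.elim p ![Y2, Y3] ∈ Pt (Sum.elim ξ ![y2, y3])) ∧
      ∀ κ : ℂ, ∃ a ∈ S, ∃ b ∈ S, (a.1 : ℂ) * κ + (a.2 : ℂ) ≠ (b.1 : ℂ) * κ + (b.2 : ℂ)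

/-- **S_lim**: the slope of `X_2` with respect to `X_3 = exp (m + s)` along an ultrafilter is
constant -/
def S_lim : Prop := ∀ (D : ℕ) (p : ℕ → ℕ → Polynomial ℂ), p D 0 ≠ 0 →
    (∀ j ≤ D, (p j (D - j)).natDegree ≤ (p D 0).natDegree) →
    ∀ (X1 X2 : ℕ → ℂ → ℂ) (R : ℝ), 0 < R →
    (∃ b : ℕ, ∀ᶠ m : ℕ in atTop, ∀ s ∈ ball (0 : ℂ) R, ‖X1 m s‖ ≤ (m : ℝ) ^ b) →
    (∀ K : ℝ, ∀ᶠ m : ℕ in atTop, ∀ s ∈ ball (0 : ℂ) R, K ≤ ‖X1 m s‖) →
    (∀ᶠ m : ℕ in atTop, DifferentiableOn ℂ (X2 m) (ball 0 R)) →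
    (∀ᶠ m : ℕ in atTop, ∀ s ∈ ball (0 : ℂ) R, ∑ j ∈ Finset.range (D + 1),
      ∑ k ∈ Finset.range (D + 1 - j), (p j k).eval (X1 m s) * X2 m s ^ j *
        (Complex.exp m * Complex.exp s) ^ k = 0) →
    (∃ C : ℝ, ∀ᶠ m : ℕ in atTop, ∀ s ∈ ball (0 : ℂ) R, ‖X2 m s‖ ≤ C * Real.exp m) ∧
    ∀ U : Ultrafilter ℕ, (U : Filter ℕ) ≤ atTop → ∃ κ : ℂ, ∀ s ∈ ball (0 : ℂ) R,
      Tendsto (fun m : ℕ => X2 m s / Complex.exp m) U (𝓝 (κ * Complex.exp s))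

/-- **S_bm**: dominant projections (Brownawell-Masser), for function fields -/
def S_bm : Prop := ∀ {n : ℕ} {E : Type} [Field E] [Algebra ℂ E] (x y : Fin n → E), 1 ≤ n →
    (∀ l, y l ≠ 0) → (∀ g : MvPolynomial (Fin n) ℂ, aeval x g = 0 → g = 0) →
    ∀ H : MvPolynomial (Fin n ⊕ Fin n) ℂ, aeval (Sum.elim x y) H ≠ 0 →
    ∃ z : Fin n → ℂ, (Sum.elim z (fun l => Complex.exp (z l)) : Fin n ⊕ Fin n → ℂ) ∈
        Pt (Sum.elim x y) ∧ eval (Sum.elim z (fun l => Complex.exp (z l))) H ≠ 0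

/-- **S_two**: the monomials which are algebraic over `ℂ(x)` have rank two -/
def S_two : Prop := ∀ {E : Type} [Field E] [Algebra ℂ E] (x y : Fin 3 → E), (∀ l, y l ≠ 0) →
    AddFree x → Strong x y → ∀ P : MvPolynomial (Fin 3) ℂ, Irreducible P →
    (∀ g : MvPolynomial (Fin 3) ℂ, aeval x g = 0 ↔ P ∣ g) → Tr1 x →
    IsAlgebraic (IntermediateField.adjoin ℂ (Set.range x)) (y 0) →
    IsAlgebraic (IntermediateField.adjoin ℂ (Set.range x)) (y 1) →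
    Transcendental (IntermediateField.adjoin ℂ (Set.range x)) (y 2) → HasExp x y

/-- **S_one**: the monomials which are algebraic over `ℂ(x)` have rank one -/
def S_one : Prop := ∀ {E : Type} [Field E] [Algebra ℂ E] (x y : Fin 3 → E), (∀ l, y l ≠ 0) →
    AddFree x → Strong x y → ∀ P : MvPolynomial (Fin 3) ℂ, Irreducible P →
    (∀ g : MvPolynomial (Fin 3) ℂ, aeval x g = 0 ↔ P ∣ g) → Tr1 x →
    IsAlgebraic (IntermediateField.adjoin ℂ (Set.range x)) (y 0) →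
    (∀ a b : ℤ, IsAlgebraic (IntermediateField.adjoin ℂ (Set.range x)) (y 1 ^ a * y 2 ^ b) →
      a = 0 ∧ b = 0) → HasExp x y

/-- **S_onen**: the normalized form of `S_one` -/
def S_onen : Prop := ∀ {E : Type} [Field E] [Algebra ℂ E] (x y : Fin 3 → E), (∀ l, y l ≠ 0) →
    AddFree x → ∀ (D : ℕ) (p : ℕ → ℕ → Polynomial ℂ), p D 0 ≠ 0 →
    (∀ j ≤ D, (p j (D - j)).natDegree ≤ (p D 0).natDegree) →
    ∑ j ∈ Finset.range (D + 1), ∑ k ∈ Finset.range (D + 1 - j),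
      Polynomial.aeval (x 0) (p j k) * x 1 ^ j * x 2 ^ k = 0 →
    (∀ g : MvPolynomial (Fin 2) ℂ, aeval ![x 2, x 0] g = 0 → g = 0) →
    IsAlgebraic (IntermediateField.adjoin ℂ (Set.range ![x 2, x 0])) (y 0) →
    IsAlgebraic (IntermediateField.adjoin ℂ (insert (y 1) (Set.range ![x 2, x 0]))) (y 2) →
    (∀ a b : ℤ, IsAlgebraic (IntermediateField.adjoin ℂ (Set.range ![x 2, x 0]))
      (y 1 ^ a * y 2 ^ b) → a = 0 ∧ b = 0) →
    (IsAlgebraic (IntermediateField.adjoin ℂ (Set.range ![x 0, y 0])) (x 2) ∨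
      ∀ k : ℤ × ℤ, k ≠ 0 → IsAlgebraic (IntermediateField.adjoin ℂ
        (Set.range ![x 0, (k.1 : E) * x 1 + (k.2 : E) * x 2])) (x 2)) → HasExp x y

/-- **S_uni**: unimodular change of coordinates -/
def S_uni : Prop := ∀ {n : ℕ} {E : Type} [Field E] [Algebra ℂ E] (x y : Fin n → E),
    (∀ l, y l ≠ 0) → ∀ M N : Matrix (Fin n) (Fin n) ℤ, N * M = 1 →
    HasExp (fun i => dt (M i) x) (fun i => mon (M i) y) → HasExp x y

/-- **S_three**: all varieties over surfaces -/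
def S_three : Prop := ∀ {E : Type} [Field E] [Algebra ℂ E] (x y : Fin 3 → E), (∀ l, y l ≠ 0) →
    AddFree x → Strong x y → ∀ P : MvPolynomial (Fin 3) ℂ, Irreducible P →
    (∀ g : MvPolynomial (Fin 3) ℂ, aeval x g = 0 ↔ P ∣ g) → Tr1 x →
    (∃ l, Transcendental (IntermediateField.adjoin ℂ (Set.range x)) (y l)) → HasExp x y

/- The parts:
theorem fibre : S_fibre
theorem lim : S_lim
theorem bm : S_bm
theorem two : S_bm → S_two
theorem onen : S_fibre → S_lim → S_onen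
theorem one : S_uni → S_onen → S_one
theorem uni : S_uni
theorem three : S_uni → S_one → S_two → S_three
-/

end Pool.Agent.Helper57.NT
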