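import Pool.Agent.Helper57.NT.Soft2

/-!
Project NT (helper57): exponential sums along leaves have zeros.
-/

set_option autoImplicit false

namespace Pool.Agent.Helper57.NT

open MvPolynomial Filter Topology Metric Pool.Agent.Q72.EG

theorem exists_dir (T : Finset ℂ) {a b : ℂ} (ha : a ∈ T) (hb : b ∈ T) (hab : a ≠ b) :
    ∃ z0 : ℂ, ‖z0‖ ≤ 3.2 ∧ ‖z0 + Real.pi * Complex.I‖ ≤ 3.2 ∧ ∃ A ∈ T, ∃ B ∈ T, A ≠ B ∧
      (∀ t ∈ T, t ≠ A → ((t - A) * Complex.exp z0).re < 0) ∧
      (∀ t ∈ T, t ≠ B → ((t - B) * Complex.exp (z0 + Real.pi * Complex.I)).re < 0) := by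
  classical
  set bad : Finset ℝ := (T ×ˢ T).image fun q => -(q.1 - q.2).im / (q.1 - q.2).re with hbad
  obtain ⟨x, hx, hxb⟩ := (Set.Ioo_infinite (show (0 : ℝ) < 1 / 100 by norm_num)).exists_notMem_finset bad
  set u : ℂ := (x : ℂ) - Complex.I with hu
  have hre : ∀ w : ℂ, (w * u).re = w.re * x + w.im := by
    intro w
    simp [hu, Complex.mul_re]
  have hne : ∀ t ∈ T, ∀ t' ∈ T, t ≠ t' → (t * u).re ≠ (t' * u).re := by
    intro t ht t' ht' htt h
    have h1 : ((t - t') * u).re = 0 := by rw [sub_mul, Complex.sub_re, h, sub_self]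
    rw [hre] at h1
    by_cases h2 : (t - t').re = 0
    · rw [h2, zero_mul, zero_add] at h1
      exact htt (sub_eq_zero.1 (Complex.ext h2 h1))
    · apply hxb
      rw [hbad, Finset.mem_image]
      refine ⟨(t, t'), Finset.mk_mem_product ht ht', ?_⟩
      simp only
      field_simp
      linarith
  obtain ⟨A, hA, hAmax⟩ := Finset.exists_max_image T (fun t => (t * u).re) ⟨a, ha⟩
  obtain ⟨B, hB, hBmin⟩ := Finset.exists_min_image T (fun t => (t * u).re) ⟨a, ha⟩
  have hun : ‖u‖ ≤ 1.01 := by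
    refine (norm_sub_le _ _).trans ?_
    rw [Complex.norm_real, Complex.norm_I, Real.norm_eq_abs, abs_of_pos hx.1]
    linarith [hx.2]
  have hun1 : 1 ≤ ‖u‖ := by
    have := Complex.abs_im_le_norm u
    simpa [hu] using this
  have hu0 : u ≠ 0 := by
    intro h; rw [h, norm_zero] at hun1; linarith
  have hexp : Complex.exp (Complex.log u) = u := Complex.exp_log hu0
  have hlr : |(Complex.log u).re| ≤ 0.01 := by
    rw [Complex.log_re, abs_of_nonneg (Real.log_nonneg hun1)]
    have := Real.log_le_sub_one_of_pos (show 0 < ‖u‖ by linarith)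
    linarith
  have him : (Complex.log u).im < 0 := by
    rw [Complex.log_im, Complex.arg_neg_iff]
    simp [hu]
  have him2 : -Real.pi < (Complex.log u).im := Complex.neg_pi_lt_log_im u
  have hpi : Real.pi < 3.15 := Real.pi_lt_d2
  refine ⟨Complex.log u, ?_, ?_, A, hA, B, hB, ?_, ?_, ?_⟩
  · refine (Complex.norm_le_abs_re_add_abs_im _).trans ?_
    rw [abs_of_neg him]
    linarith
  · refine (Complex.norm_le_abs_re_add_abs_im _).trans ?_
    have e1 : (Complex.log u + Real.pi * Complex.I).re = (Complex.log u).re := by simp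
    have e2 : (Complex.log u + Real.pi * Complex.I).im = (Complex.log u).im + Real.pi := by simp
    rw [e1, e2, abs_of_pos (show 0 < (Complex.log u).im + Real.pi by linarith)]
    linarith
  · rintro rfl
    apply hne a ha b hb hab
    have h1 := hAmax a ha
    have h2 := hAmax b hb
    have h3 := hBmin a ha
    have h4 := hBmin b hb
    linarith
  · intro t ht htA
    rw [hexp, sub_mul, Complex.sub_re]
    have h1 := hAmax t ht
    have h2 := hne t ht A hA htA
    have := lt_of_le_of_ne h1 h2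
    linarith
  · intro t ht htB
    rw [Complex.exp_add, hexp, Complex.exp_pi_mul_I]
    have h1 := hBmin t ht
    have h2 := hne t ht B hB htB
    have h3 := lt_of_le_of_ne h1 h2.symm
    have e : ((t - B) * (u * -1)).re = (B * u).re - (t * u).re := by
      rw [← Complex.sub_re]; congr 1; ring
    rw [e]; linarith

/-- functions with constant real part zero have zero derivative -/
theorem deriv_zero_of_re {v : ℂ → ℂ} {z : ℂ} {r : ℝ} (hv : DifferentiableOn ℂ v (ball z r))
    (h : ∀ s ∈ ball z r, (v s).re = 0) : ∀ s ∈ ball z r, deriv v s = 0 := by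
  intro s hs
  have h1 : Set.EqOn (fun w => Complex.exp (v w)) (Function.const ℂ (Complex.exp (v s))) (ball z r) := by
    refine Complex.eqOn_of_isPreconnected_of_isMaxOn_norm (convex_ball z r).isPreconnected
      isOpen_ball hv.cexp hs ?_
    intro w hw
    simp only [Set.mem_setOf_eq, Function.comp]
    rw [Complex.norm_exp, Complex.norm_exp, h w hw, h s hs]
  have hn : ball z r ∈ 𝓝 s := isOpen_ball.mem_nhds hs
  have h2 : HasDerivAt (fun w => Complex.exp (v w)) (Complex.exp (v s) * deriv v s) s :=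
    ((hv.differentiableAt hn).hasDerivAt).cexp
  have h3 : (fun w => Complex.exp (v w)) =ᶠ[𝓝 s] fun _ => Complex.exp (v s) := by
    filter_upwards [hn] with w hw using h1 hw
  have h4 := (h2.congr_of_eventuallyEq h3.symm).unique (hasDerivAt_const s _)
  rcases mul_eq_zero.1 h4 with h5 | h5
  · exact absurd h5 (Complex.exp_ne_zero _)
  · exact h5

variable {σ : Type} [Fintype σ] {E : Type} [Field E] [Algebra ℂ E]
variable {ξ : σ → E} {i2 i3 : σ} {p : ℕ → ℂ → σ → ℂ}

/-- the exponential sum -/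
noncomputable def fs (i2 i3 : σ) (p : ℕ → ℂ → σ → ℂ) (S : Finset (ℤ × ℤ))
    (c : ℤ × ℤ → MvPolynomial σ ℂ) (m : ℕ) (s : ℂ) : ℂ :=
  ∑ k ∈ S, eval (p m s) (c k) * Complex.exp (ex i2 i3 (p m s) k)

theorem fs_diff (L : Lf ξ i2 i3 p) (S : Finset (ℤ × ℤ)) (c : ℤ × ℤ → MvPolynomial σ ℂ) :
    ∀ᶠ m : ℕ in atTop, DifferentiableOn ℂ (fs i2 i3 p S c m) (ball 0 13) := by
  filter_upwards [L.dif] with m hd s hs
  have h1 := hd s hs
  unfold fs
  have : HasDerivAt (fun s => ∑ k ∈ S, eval (p m s) (c k) * Complex.exp (ex i2 i3 (p m s) k)) _ s :=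
    HasDerivAt.fun_sum fun k _ => (hasDeriv_eval h1 (c k)).mul (HasDerivAt.cexp
      (((h1 i2).const_mul ((k.1 : ℤ) : ℂ)).add ((h1 i3).const_mul ((k.2 : ℤ) : ℂ))))
  exact this.differentiableAt.differentiableWithinAt

/-- **exponential sums with two different frequencies have zeros** -/
theorem soft (L : Lf ξ i2 i3 p) (U : Ultrafilter ℕ) (hU : (U : Filter ℕ) ≤ atTop) {κ : ℂ}
    (hκ : ∀ s ∈ ball (0 : ℂ) 13,
      Tendsto (fun m : ℕ => p m s i2 / Complex.exp m) U (𝓝 (κ * Complex.exp s)))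
    (S : Finset (ℤ × ℤ)) (c : ℤ × ℤ → MvPolynomial σ ℂ) (hc : ∀ k ∈ S, aeval ξ (c k) ≠ 0)
    {a b : ℤ × ℤ} (ha : a ∈ S) (hb : b ∈ S) (hab : fr κ a ≠ fr κ b)
    (hnz : ∀ᶠ m : ℕ in (U : Filter ℕ), ∀ s ∈ ball (0 : ℂ) 13, fs i2 i3 p S c m s ≠ 0) : False := by
  classical
  obtain ⟨z0, hz0, hz1, A, hA, B, hB, hAB, hdA, hdB⟩ := exists_dir (S.image (fr κ))
    (Finset.mem_image_of_mem _ ha) (Finset.mem_image_of_mem _ hb) hab
  obtain ⟨lA, hlA, rfl⟩ := Finset.mem_image.1 hA
  obtain ⟨lB, hlB, rfl⟩ := Finset.mem_image.1 hB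
  set z1 : ℂ := z0 + Real.pi * Complex.I with hz1d
  -- logarithms
  have hlog : ∀ᶠ m : ℕ in (U : Filter ℕ), ∃ ℓ : ℂ → ℂ, DifferentiableOn ℂ ℓ (ball 0 13) ∧
      ∀ s ∈ ball (0 : ℂ) 13, Complex.exp (ℓ s) = fs i2 i3 p S c m s := by
    filter_upwards [hnz, hU (fs_diff L S c)] with m h1 h2
    exact Pool.Agent.Helper57.HT.log_conv isOpen_ball (convex_ball _ _)
      ⟨0, mem_ball_self (by norm_num)⟩ h2 h1
  -- a common bound
  obtain ⟨C0, hC0⟩ : ∃ C0 : ℝ, 0 ≤ C0 ∧ ∀ k ∈ S, ∀ s ∈ closedBall (0 : ℂ) 11,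
      (fr κ k * Complex.exp s).re ≤ C0 := by
    refine ⟨∑ k ∈ S, ‖fr κ k‖ * Real.exp 11, by positivity, fun k hk s hs => ?_⟩
    refine (Complex.re_le_norm _).trans ?_
    rw [norm_mul, Complex.norm_exp]
    rw [mem_closedBall_zero_iff] at hs
    calc ‖fr κ k‖ * Real.exp s.re ≤ ‖fr κ k‖ * Real.exp 11 := by
          gcongr
          exact (Complex.re_le_norm s).trans hs
      _ ≤ _ := Finset.single_le_sum (f := fun k => ‖fr κ k‖ * Real.exp 11)
          (fun k _ => by positivity) hk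
  have hC00 : 0 ≤ C0 := hC0.1
  have hC0' := hC0.2
  set C1 := C0 + 1 with hC1
  have hz011 : z0 ∈ ball (0 : ℂ) 11 := by rw [mem_ball_zero_iff]; linarith
  have hlow : ∃ a0 : ℝ, ∀ᶠ m : ℕ in (U : Filter ℕ), ∃ s ∈ ball z0 (1 / 4),
      Real.exp (a0 * Real.exp m) ≤ ‖fs i2 i3 p S c m s‖ :=
    ⟨_, lower L U hU hκ S c hc hlA hz011 (fun k hk hne => hdA _ (Finset.mem_image_of_mem _ hk) hne)
      (by norm_num) one_pos⟩
  obtain ⟨a0, hlow⟩ := hlow
  set C3 : ℝ := C1 + |a0| + 1 with hC3
  have hC3p : 0 < C3 := by positivity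
  -- normalized logarithms
  have hF : ∀ᶠ m : ℕ in (U : Filter ℕ), ∃ F : ℂ → ℂ, DifferentiableOn ℂ F (ball z0 5) ∧
      (∀ s ∈ ball z0 5, ‖F s‖ ≤ 13 * C3) ∧ ∀ s ∈ ball z0 5,
        Real.exp (Real.exp m * (F s).re) = ‖fs i2 i3 p S c m s‖ := by
    filter_upwards [hlog, hlow, upper L U hU hκ S c one_pos] with m hlog hlow hup
    obtain ⟨ℓ, hℓd, hℓ⟩ := hlog
    obtain ⟨s0, hs0, hs0b⟩ := hlow
    set R := Real.exp (m : ℝ) with hR
    have hR0 : 0 < R := Real.exp_pos _
    have hs0n : ‖s0‖ ≤ 3.45 := by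
      rw [mem_ball, dist_eq_norm] at hs0
      have := norm_add_le (s0 - z0) z0
      rw [sub_add_cancel] at this
      linarith
    have hnorm : ∀ s ∈ ball (0 : ℂ) 13, Real.exp ((ℓ s).re) = ‖fs i2 i3 p S c m s‖ := by
      intro s hs
      rw [← hℓ s hs, Complex.norm_exp]
    have hre : ∀ s ∈ closedBall (0 : ℂ) 11, (ℓ s).re / R ≤ C1 := by
      intro s hs
      rw [div_le_iff₀ hR0, ← Real.exp_le_exp, hnorm s (closedBall_subset_ball (by norm_num) hs)]
      exact hup s hs C0 (fun k hk => hC0' k hk s hs)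
    have hs013 : s0 ∈ ball (0 : ℂ) 13 := by rw [mem_ball_zero_iff]; linarith
    have hre0 : a0 ≤ (ℓ s0).re / R := by
      rw [le_div_iff₀ hR0, ← Real.exp_le_exp, hnorm s0 hs013]
      exact hs0b
    set G : ℂ → ℂ := fun w => ℓ (s0 + w) / R - ℓ s0 / R with hG
    have hmaps : ∀ w ∈ ball (0 : ℂ) 7, s0 + w ∈ closedBall (0 : ℂ) 11 := by
      intro w hw
      rw [mem_ball_zero_iff] at hw
      rw [mem_closedBall_zero_iff]
      linarith [norm_add_le s0 w]
    have hGd : DifferentiableOn ℂ G (ball 0 7) := by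
      intro w hw
      have h1 : DifferentiableAt ℂ ℓ (s0 + w) := hℓd.differentiableAt (isOpen_ball.mem_nhds
        (closedBall_subset_ball (by norm_num) (hmaps w hw)))
      have h2 : DifferentiableAt ℂ (fun w => ℓ (s0 + w)) w :=
        DifferentiableAt.comp w h1 ((differentiableAt_const _).add differentiableAt_id)
      exact ((h2.div_const _).sub_const _).differentiableWithinAt
    have hdiv : ∀ w : ℂ, (w / (R : ℂ)).re = w.re / R := fun w => by
      rw [Complex.div_ofReal_re]
    have hGre : Set.MapsTo G (ball 0 7) {z | z.re ≤ C3} := by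
      intro w hw
      simp only [Set.mem_setOf_eq, hG, Complex.sub_re, hdiv]
      have h1 := hre _ (hmaps w hw)
      have h2 : -|a0| ≤ (ℓ s0).re / R := (neg_abs_le a0).trans hre0
      linarith
    have hGb : ∀ w : ℂ, ‖w‖ ≤ 6 → ‖G w‖ ≤ 12 * C3 := by
      intro w hw
      have h1 := Complex.borelCaratheodory_zero hC3p hGd hGre (by norm_num) (z := w)
        (by rw [mem_ball_zero_iff]; linarith) (by simp [hG])
      refine h1.trans ?_
      rw [div_le_iff₀ (by linarith)]
      nlinarith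
    refine ⟨fun s => ℓ s / R - Complex.I * ((ℓ s0 / R).im : ℂ), ?_, ?_, ?_⟩
    · intro s hs
      rw [mem_ball, dist_eq_norm] at hs
      have hs' : s ∈ ball (0 : ℂ) 13 := by
        rw [mem_ball_zero_iff]
        have := norm_add_le (s - z0) z0
        rw [sub_add_cancel] at this
        linarith
      exact ((hℓd.differentiableAt (isOpen_ball.mem_nhds hs')).div_const _).sub_const _
        |>.differentiableWithinAt
    · intro s hs
      rw [mem_ball, dist_eq_norm] at hs
      have h1 : ‖s - s0‖ ≤ 6 := by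
        rw [mem_ball, dist_eq_norm, norm_sub_rev] at hs0
        have := norm_sub_le_norm_sub_add_norm_sub s z0 s0
        linarith
      have h2 := hGb (s - s0) h1
      have e1 : ℓ s / R - Complex.I * ((ℓ s0 / R).im : ℂ) = G (s - s0) + ((ℓ s0 / R).re : ℂ) := by
        simp only [hG, add_sub_cancel]
        nth_rewrite 2 [← Complex.re_add_im (ℓ s0 / (R : ℂ))]
        ring
      show ‖ℓ s / R - Complex.I * ((ℓ s0 / R).im : ℂ)‖ ≤ 13 * C3
      rw [e1]
      refine (norm_add_le _ _).trans ?_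
      have h3 : ‖((ℓ s0 / R).re : ℂ)‖ ≤ C3 := by
        rw [Complex.norm_real, Real.norm_eq_abs, hdiv, abs_le]
        have h4 := hre s0 (by rw [mem_closedBall_zero_iff]; linarith)
        have h5 : -|a0| ≤ (ℓ s0).re / R := (neg_abs_le a0).trans hre0
        constructor
        · linarith
        · have := abs_nonneg a0
          linarith
      linarith
    · intro s hs
      rw [mem_ball, dist_eq_norm] at hs
      have hs' : s ∈ ball (0 : ℂ) 13 := by
        rw [mem_ball_zero_iff]
        have := norm_add_le (s - z0) z0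
        rw [sub_add_cancel] at this
        linarith
      rw [← hnorm s hs']
      congr 1
      simp only [Complex.sub_re, hdiv, Complex.mul_re, Complex.I_re, Complex.I_im,
        Complex.ofReal_re, Complex.ofReal_im]
      field_simp
      ring
  -- choose
  obtain ⟨F, hF⟩ : ∃ F : ℕ → ℂ → ℂ, ∀ᶠ m : ℕ in (U : Filter ℕ), DifferentiableOn ℂ (F m) (ball z0 5) ∧
      (∀ s ∈ ball z0 5, ‖F m s‖ ≤ 13 * C3) ∧ ∀ s ∈ ball z0 5,
        Real.exp (Real.exp m * (F m s).re) = ‖fs i2 i3 p S c m s‖ := by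
    have : ∀ m : ℕ, ∃ F : ℂ → ℂ, (∃ F : ℂ → ℂ, DifferentiableOn ℂ F (ball z0 5) ∧
      (∀ s ∈ ball z0 5, ‖F s‖ ≤ 13 * C3) ∧ ∀ s ∈ ball z0 5,
        Real.exp (Real.exp m * (F s).re) = ‖fs i2 i3 p S c m s‖) →
        DifferentiableOn ℂ F (ball z0 5) ∧
      (∀ s ∈ ball z0 5, ‖F s‖ ≤ 13 * C3) ∧ ∀ s ∈ ball z0 5,
        Real.exp (Real.exp m * (F s).re) = ‖fs i2 i3 p S c m s‖ := by
      intro m
      by_cases h : ∃ F : ℂ → ℂ, DifferentiableOn ℂ F (ball z0 5) ∧
        (∀ s ∈ ball z0 5, ‖F s‖ ≤ 13 * C3) ∧ ∀ s ∈ ball z0 5,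
        Real.exp (Real.exp m * (F s).re) = ‖fs i2 i3 p S c m s‖
      · exact ⟨h.choose, fun _ => h.choose_spec⟩
      · exact ⟨fun _ => 0, fun h' => absurd h' h⟩
    choose F hFc using this
    exact ⟨F, hF.mono fun m hm => hFc m hm⟩
  set K : ℝ := 2 * (13 * C3) with hK
  have hKp : 0 < K := by positivity
  have hlip : ∀ᶠ m : ℕ in (U : Filter ℕ), ∀ s ∈ ball z0 4, ∀ t ∈ ball z0 4,
      ‖F m s - F m t‖ ≤ K * ‖s - t‖ := by
    filter_upwards [hF] with m hm
    have h5 : (4 : ℝ) + 1 = 5 := by norm_num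
    exact lip_of_bdd (by rw [h5]; exact hm.1) (by rw [h5]; exact hm.2.1)
  have hlimex : ∀ s : ℂ, ∃ w : ℂ, s ∈ ball z0 4 → Tendsto (fun m => F m s) U (𝓝 w) := by
    intro s
    by_cases hs : s ∈ ball z0 4
    · obtain ⟨w, hw⟩ := Pool.Agent.Helper57.HT.ulim U (f := fun m => F m s) (C := 13 * C3)
        (hF.mono fun m hm => hm.2.1 s (ball_subset_ball (by norm_num) hs))
      exact ⟨w, fun _ => hw⟩
    · exact ⟨0, fun h => absurd h hs⟩
  choose Λ hΛ using hlimex
  have hloc := Pool.Agent.Helper57.HT.tluo (φ := (U : Filter ℕ)) hKp hlip hΛ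
  have hΛd : DifferentiableOn ℂ Λ (ball z0 4) := hloc.differentiableOn
    (hF.mono fun m hm => hm.1.mono (ball_subset_ball (by norm_num))) isOpen_ball
  have hsub11 : ball z0 4 ⊆ closedBall (0 : ℂ) 11 := by
    intro s hs
    rw [mem_ball, dist_eq_norm] at hs
    rw [mem_closedBall_zero_iff]
    have := norm_add_le (s - z0) z0
    rw [sub_add_cancel] at this
    linarith
  -- upper bound for the limit
  have hΛup : ∀ s ∈ ball z0 4, ∀ H : ℝ, (∀ k ∈ S, (fr κ k * Complex.exp s).re ≤ H) →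
      (Λ s).re ≤ H := by
    intro s hs H hH
    refine le_of_forall_pos_le_add fun ε hε => ?_
    have h1 : Tendsto (fun m => (F m s).re) U (𝓝 (Λ s).re) :=
      (Complex.continuous_re.tendsto _).comp (hΛ s hs)
    refine le_of_tendsto h1 ?_
    filter_upwards [hF, upper L U hU hκ S c hε] with m hm hup
    have h2 := hup s (hsub11 hs) H hH
    have h3 := hm.2.2 s (ball_subset_ball (by norm_num) hs)
    unfold fs at h3
    rw [← h3, Real.exp_le_exp, mul_comm] at h2
    exact le_of_mul_le_mul_right h2 (Real.exp_pos _)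
  -- lower bound for the limit
  have hΛlo : ∀ l ∈ S, ∀ z ∈ ball z0 4, (∀ k ∈ S, fr κ k ≠ fr κ l →
      ((fr κ k - fr κ l) * Complex.exp z).re < 0) → (fr κ l * Complex.exp z).re ≤ (Λ z).re := by
    intro l hl z hz hlz
    refine le_of_forall_pos_le_add fun ε hε => ?_
    have hz11 : z ∈ ball (0 : ℂ) 11 := by
      rw [mem_ball, dist_eq_norm] at hz
      rw [mem_ball_zero_iff]
      have := norm_add_le (z - z0) z0
      rw [sub_add_cancel] at this
      linarith
    have hr : 0 < min (ε / 2 / K) (4 - dist z z0) := by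
      refine lt_min (by positivity) ?_
      rw [mem_ball] at hz
      linarith
    have h0 := lower L U hU hκ S c hc hl hz11 hlz hr (show 0 < ε / 2 by positivity)
    have h1 : Tendsto (fun m => (F m z).re) U (𝓝 (Λ z).re) :=
      (Complex.continuous_re.tendsto _).comp (hΛ z hz)
    have h2 : (fr κ l * Complex.exp z).re - ε ≤ (Λ z).re := by
      refine ge_of_tendsto h1 ?_
      filter_upwards [hF, hlip, h0] with m hm hlip h0
      obtain ⟨s, hs, hsb⟩ := h0
      have hs4 : s ∈ ball z0 4 := by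
        rw [mem_ball] at hs ⊢
        have h3 := min_le_right (ε / 2 / K) (4 - dist z z0)
        linarith [dist_triangle s z z0]
      have h3 := hm.2.2 s (ball_subset_ball (by norm_num) hs4)
      have h4 := hsb
      have h5 : Real.exp (((fr κ l * Complex.exp z).re - ε / 2) * Real.exp m) ≤
          Real.exp (Real.exp m * (F m s).re) := by rw [h3]; exact h4
      rw [Real.exp_le_exp, mul_comm (Real.exp (m : ℝ)) (F m s).re] at h5
      have h6 := le_of_mul_le_mul_right h5 (Real.exp_pos _)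
      have h7 := hlip s hs4 z hz
      have h8 : K * ‖s - z‖ ≤ ε / 2 := by
        have h9 : ‖s - z‖ < ε / 2 / K := by
          rw [mem_ball, dist_eq_norm] at hs
          exact hs.trans_le (min_le_left _ _)
        rw [lt_div_iff₀ hKp] at h9
        linarith
      have h10 := Complex.re_le_norm (F m s - F m z)
      rw [Complex.sub_re] at h10
      linarith
    linarith
  -- the derivative of the limit
  have hder : ∀ l ∈ S, ∀ z ∈ ball z0 4, (∀ k ∈ S, fr κ k ≠ fr κ l →
      ((fr κ k - fr κ l) * Complex.exp z).re < 0) →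
      Set.EqOn (deriv Λ) (fun s => fr κ l * Complex.exp s) (ball z0 4) := by
    intro l hl z hz hlz
    have hev : ∀ᶠ s in 𝓝 z, s ∈ ball z0 4 ∧ ∀ k ∈ S, fr κ k ≠ fr κ l →
        ((fr κ k - fr κ l) * Complex.exp s).re < 0 := by
      refine (isOpen_ball.eventually_mem hz).and ?_
      rw [Finset.eventually_all]
      intro k hk
      by_cases h : fr κ k = fr κ l
      · exact Eventually.of_forall fun s h' => absurd h h'
      · have hcont : ContinuousAt (fun s : ℂ => ((fr κ k - fr κ l) * Complex.exp s).re) z :=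
          (Complex.continuous_re.comp (continuous_const.mul Complex.continuous_exp)).continuousAt
        filter_upwards [hcont.eventually (gt_mem_nhds (hlz k hk h))] with s hs _ using hs
    obtain ⟨r, hr, hrb⟩ := Metric.eventually_nhds_iff_ball.1 hev
    have hsub : ball z r ⊆ ball z0 4 := fun s hs => (hrb s hs).1
    have hre : ∀ s ∈ ball z r, (Λ s - fr κ l * Complex.exp s).re = 0 := by
      intro s hs
      have h1 := hΛlo l hl s (hsub hs) (hrb s hs).2
      have h2 := hΛup s (hsub hs) ((fr κ l * Complex.exp s).re) (by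
        intro k hk
        by_cases h : fr κ k = fr κ l
        · rw [h]
        · have := (hrb s hs).2 k hk h
          rw [sub_mul, Complex.sub_re] at this
          linarith)
      rw [Complex.sub_re]
      linarith
    have hexpd : Differentiable ℂ (fun s : ℂ => fr κ l * Complex.exp s) :=
      (Complex.differentiable_exp).const_mul _
    have hd0 := deriv_zero_of_re (v := fun s => Λ s - fr κ l * Complex.exp s)
      ((hΛd.mono hsub).sub hexpd.differentiableOn) hre
    have hA1 : AnalyticOnNhd ℂ (deriv Λ) (ball z0 4) :=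
      (hΛd.deriv isOpen_ball).analyticOnNhd isOpen_ball
    have hA2 : AnalyticOnNhd ℂ (fun s : ℂ => fr κ l * Complex.exp s) (ball z0 4) :=
      hexpd.differentiableOn.analyticOnNhd isOpen_ball
    refine hA1.eqOn_of_preconnected_of_eventuallyEq hA2 (convex_ball z0 4).isPreconnected hz ?_
    filter_upwards [isOpen_ball.mem_nhds (mem_ball_self hr)] with s hs
    have h1 := hd0 s hs
    have h2 : DifferentiableAt ℂ Λ s := hΛd.differentiableAt (isOpen_ball.mem_nhds (hsub hs))
    have h3 : HasDerivAt (fun s => Λ s - fr κ l * Complex.exp s)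
        (deriv Λ s - fr κ l * Complex.exp s) s :=
      h2.hasDerivAt.sub ((Complex.hasDerivAt_exp s).const_mul _)
    rw [h3.deriv] at h1
    exact sub_eq_zero.1 h1
  have hz04 : z0 ∈ ball z0 4 := mem_ball_self (by norm_num)
  have hz14 : z1 ∈ ball z0 4 := by
    rw [mem_ball, dist_eq_norm, hz1d, add_sub_cancel_left, norm_mul, Complex.norm_I,
      Complex.norm_real, Real.norm_eq_abs, abs_of_pos Real.pi_pos]
    linarith [Real.pi_lt_d2]
  have h1 := hder lA hlA z0 hz04 (fun k hk hne => hdA _ (Finset.mem_image_of_mem _ hk) hne)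
  have h2 := hder lB hlB z1 hz14 (fun k hk hne => hdB _ (Finset.mem_image_of_mem _ hk) hne)
  have h3 := (h1 hz04).symm.trans (h2 hz04)
  exact hAB (mul_right_cancel₀ (Complex.exp_ne_zero _) h3)

end Pool.Agent.Helper57.NT
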