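import Pool.Agent.Helper57.NT.AxF
import Pool.Agent.Helper57.NT.Soft3
import Pool.Agent.Helper57.NT.Sheet

/-!
Project NT (helper57): the normalized rank one theorem.
-/

set_option autoImplicit false

namespace Pool.Agent.Helper57.NT

open MvPolynomial Filter Topology Metric Pool.Agent.Q72.EG

/-- rational relations from integral relations -/
theorem rat_free {E : Type} [Field E] [Algebra ℂ E] {x : Fin 3 → E} (hx : AddFree x) (a b d : ℚ)
    (c : ℂ) (h : algebraMap ℂ E a * x 0 + algebraMap ℂ E b * x 1 + algebraMap ℂ E d * x 2 =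
      algebraMap ℂ E c) : a = 0 ∧ b = 0 ∧ d = 0 := by
  by_contra hcon
  set N : ℕ := a.den * b.den * d.den with hN
  set m : Fin 3 → ℤ := ![a.num * b.den * d.den, a.den * b.num * d.den, a.den * b.den * d.num] with hm
  have hqa : ((a.num : ℤ) : ℂ) = (a : ℂ) * (a.den : ℂ) := by
    exact_mod_cast congrArg (fun q : ℚ => (q : ℂ)) (Rat.mul_den_eq_num a).symm
  have hqb : ((b.num : ℤ) : ℂ) = (b : ℂ) * (b.den : ℂ) := by
    exact_mod_cast congrArg (fun q : ℚ => (q : ℂ)) (Rat.mul_den_eq_num b).symm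
  have hqd : ((d.num : ℤ) : ℂ) = (d : ℂ) * (d.den : ℂ) := by
    exact_mod_cast congrArg (fun q : ℚ => (q : ℂ)) (Rat.mul_den_eq_num d).symm
  have hm0 : m ≠ 0 := by
    intro h0
    apply hcon
    have e0 := congrFun h0 0
    have e1 := congrFun h0 1
    have e2 := congrFun h0 2
    simp only [hm, Matrix.cons_val_zero, Matrix.cons_val_one, Matrix.cons_val, Pi.zero_apply,
      mul_eq_zero, Int.natCast_eq_zero, Rat.den_ne_zero, or_false, false_or,
      Rat.num_eq_zero] at e0 e1 e2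
    exact ⟨e0, e1, e2⟩
  have hc0 : ((m 0 : ℤ) : E) = algebraMap ℂ E a * algebraMap ℂ E N := by
    rw [← map_mul, ← map_intCast (algebraMap ℂ E)]
    congr 1
    simp only [hm, Matrix.cons_val_zero, hN]
    push_cast
    rw [hqa]; ring
  have hc1 : ((m 1 : ℤ) : E) = algebraMap ℂ E b * algebraMap ℂ E N := by
    rw [← map_mul, ← map_intCast (algebraMap ℂ E)]
    congr 1
    simp only [hm, Matrix.cons_val_one, Matrix.cons_val_zero, hN]
    push_cast
    rw [hqb]; ring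
  have hc2 : ((m 2 : ℤ) : E) = algebraMap ℂ E d * algebraMap ℂ E N := by
    rw [← map_mul, ← map_intCast (algebraMap ℂ E)]
    congr 1
    simp only [hm, Matrix.cons_val, hN]
    push_cast
    rw [hqd]; ring
  apply hx m hm0 (c * N)
  unfold dt
  rw [Fin.sum_univ_three, hc0, hc1, hc2, map_mul, ← h]
  ring

theorem eval_paeval {σ : Type} (P : σ → ℂ) (i : σ) (q : Polynomial ℂ) :
    eval P (Polynomial.aeval (X i : MvPolynomial σ ℂ) q) = q.eval (P i) := by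
  rw [Polynomial.aeval_def, Polynomial.hom_eval₂]
  have h1 : (eval P : MvPolynomial σ ℂ →+* ℂ).comp (algebraMap ℂ (MvPolynomial σ ℂ)) =
      RingHom.id ℂ := by
    ext r
    simp
  rw [h1, eval_X]
  rfl

variable {E : Type} [Field E] [Algebra ℂ E]

/-- the relation between the coordinates -/
theorem leaf_rel {ζ f : Fin 2 → E} {D : ℕ} {p : ℕ → ℕ → Polynomial ℂ}
    (hrel : ∑ j ∈ Finset.range (D + 1), ∑ k ∈ Finset.range (D + 1 - j),
      Polynomial.aeval (ζ 1) (p j k) * f 0 ^ j * ζ 0 ^ k = 0) {P : Fin 2 ⊕ Fin 2 → ℂ}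
    (hP : P ∈ Pt (Sum.elim ζ f)) :
    ∑ j ∈ Finset.range (D + 1), ∑ k ∈ Finset.range (D + 1 - j),
      (p j k).eval (P (Sum.inl 1)) * P (Sum.inr 0) ^ j * P (Sum.inl 0) ^ k = 0 := by
  have h3 := hP (∑ j ∈ Finset.range (D + 1), ∑ k ∈ Finset.range (D + 1 - j),
    Polynomial.aeval (X (Sum.inl 1)) (p j k) * X (Sum.inr 0) ^ j * X (Sum.inl 0) ^ k) (by
      rw [map_sum, ← hrel]
      refine Finset.sum_congr rfl fun j _ => ?_
      rw [map_sum]
      refine Finset.sum_congr rfl fun k _ => ?_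
      rw [map_mul, map_mul, map_pow, map_pow, aeval_X, aeval_X, ← Polynomial.aeval_algHom_apply,
        aeval_X]
      rfl)
  rw [map_sum] at h3
  rw [← h3]
  refine Finset.sum_congr rfl fun j _ => ?_
  rw [map_sum]
  refine Finset.sum_congr rfl fun k _ => ?_
  rw [map_mul, map_mul, map_pow, map_pow, eval_X, eval_X, eval_paeval]

/-- from `Lf0` to `Lf` -/
theorem lf_of_lf0 {ζ f : Fin 2 → E} {q : ℕ → ℂ → Fin 2 ⊕ Fin 2 → ℂ} {k1 : Fin 2} (L0 : Lf0 ζ f k1 q)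
    (hf : ∀ k, IsAlgebraic (IntermediateField.adjoin ℂ (Set.range ζ)) (f k))
    (hx2 : ∃ C : ℝ, ∀ᶠ m : ℕ in atTop, ∀ s ∈ ball (0 : ℂ) 13, ‖q m s (Sum.inr 0)‖ ≤ C * Real.exp m)
    (hfree : ∀ (a b d : ℚ) (c : ℂ), algebraMap ℂ E a * ζ 1 + algebraMap ℂ E b * f 0 +
      algebraMap ℂ E d * ζ 0 = algebraMap ℂ E c → a = 0 ∧ b = 0 ∧ d = 0)
    (hE : IsAlgebraic (IntermediateField.adjoin ℂ (Set.range ![ζ 1, f k1])) (ζ 0) ∨
      ∀ k : ℤ × ℤ, k ≠ 0 → IsAlgebraic (IntermediateField.adjoin ℂ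
        (Set.range ![ζ 1, (k.1 : E) * f 0 + (k.2 : E) * ζ 0])) (ζ 0)) :
    Nonempty (Lf (Sum.elim ζ f) (Sum.inr 0) (Sum.inl 0) q) := by
  refine ⟨⟨L0.B, L0.A, L0.hB, ?_, L0.dif, fun a ha => L0.lo hf ha, fun a => L0.up hf a, ?_, hx2,
    ?_⟩⟩
  · filter_upwards [L0.good] with m hg s hs
    exact hg.pt s hs
  · filter_upwards [L0.good] with m hg s hs
    exact hg.x3 s hs
  · intro a b ha hb k hk
    exact lf_ax hf L0 hfree hE a b ha hb k hk

/-- the family of leaves, with the slope -/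
theorem mk_lf (hlim : S_lim) {ζ f : Fin 2 → E} (hy : f 1 ≠ 0)
    (hfree : ∀ (a b d : ℚ) (c : ℂ), algebraMap ℂ E a * ζ 1 + algebraMap ℂ E b * f 0 +
      algebraMap ℂ E d * ζ 0 = algebraMap ℂ E c → a = 0 ∧ b = 0 ∧ d = 0)
    {D : ℕ} {p : ℕ → ℕ → Polynomial ℂ} (hD : p D 0 ≠ 0)
    (hdeg : ∀ j ≤ D, (p j (D - j)).natDegree ≤ (p D 0).natDegree)
    (hrel : ∑ j ∈ Finset.range (D + 1), ∑ k ∈ Finset.range (D + 1 - j),
      Polynomial.aeval (ζ 1) (p j k) * f 0 ^ j * ζ 0 ^ k = 0)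
    (hind : ∀ g : MvPolynomial (Fin 2) ℂ, aeval ζ g = 0 → g = 0)
    (hf : ∀ k, IsAlgebraic (IntermediateField.adjoin ℂ (Set.range ζ)) (f k))
    (hE : IsAlgebraic (IntermediateField.adjoin ℂ (Set.range ![ζ 1, f 1])) (ζ 0) ∨
      ∀ k : ℤ × ℤ, k ≠ 0 → IsAlgebraic (IntermediateField.adjoin ℂ
        (Set.range ![ζ 1, (k.1 : E) * f 0 + (k.2 : E) * ζ 0])) (ζ 0)) :
    ∃ q : ℕ → ℂ → Fin 2 ⊕ Fin 2 → ℂ, (∀ᶠ m : ℕ in atTop, Good ζ f 1 m (q m)) ∧
      Nonempty (Lf (Sum.elim ζ f) (Sum.inr 0) (Sum.inl 0) q) ∧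
      ∀ U : Ultrafilter ℕ, (U : Filter ℕ) ≤ atTop → ∃ κ : ℂ, ∀ s ∈ ball (0 : ℂ) 13,
        Tendsto (fun m : ℕ => q m s (Sum.inr 0) / Complex.exp m) U (𝓝 (κ * Complex.exp s)) := by
  obtain ⟨q, ⟨L0⟩⟩ := exists_lf0 hind hf (k1 := 1) hy
  have h1 : ∃ b : ℕ, ∀ᶠ m : ℕ in atTop, ∀ s ∈ ball (0 : ℂ) 13,
      ‖(fun m s => q m s (Sum.inl 1)) m s‖ ≤ (m : ℝ) ^ b := by
    refine ⟨3, ?_⟩
    filter_upwards [L0.good, eventually_ge_atTop 8] with m hg hm s hs
    have h1 := (rg_bounds (hg.rg s hs)).2.1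
    have hm' : (8 : ℝ) ≤ m := by exact_mod_cast hm
    refine h1.trans ?_
    have : (0 : ℝ) ≤ (m : ℝ) ^ 2 := by positivity
    nlinarith
  have h2 : ∀ K : ℝ, ∀ᶠ m : ℕ in atTop, ∀ s ∈ ball (0 : ℂ) 13,
      K ≤ ‖(fun m s => q m s (Sum.inl 1)) m s‖ := by
    intro K
    have h2 : Tendsto (fun m : ℕ => (m : ℝ) ^ 2) atTop atTop :=
      (tendsto_pow_atTop (by norm_num)).comp tendsto_natCast_atTop_atTop
    filter_upwards [L0.good, h2.eventually_ge_atTop K] with m hg hm s hs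
    exact hm.trans (rg_bounds (hg.rg s hs)).1
  have h3 : ∀ᶠ m : ℕ in atTop,
      DifferentiableOn ℂ ((fun m s => q m s (Sum.inr 0)) m) (ball 0 13) := by
    filter_upwards [L0.good] with m hg
    exact hg.dif _
  have h4 : ∀ᶠ m : ℕ in atTop, ∀ s ∈ ball (0 : ℂ) 13, ∑ j ∈ Finset.range (D + 1),
      ∑ k ∈ Finset.range (D + 1 - j), (p j k).eval ((fun m s => q m s (Sum.inl 1)) m s) *
        (fun m s => q m s (Sum.inr 0)) m s ^ j * (Complex.exp m * Complex.exp s) ^ k = 0 := by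
    filter_upwards [L0.good] with m hg s hs
    have h3 := leaf_rel hrel (hg.pt s hs)
    rw [hg.x3 s hs] at h3
    exact h3
  obtain ⟨hx2, hκ⟩ := hlim D p hD hdeg _ _ 13 (by norm_num) h1 h2 h3 h4
  exact ⟨q, L0.good, lf_of_lf0 L0 hf hx2 hfree hE, hκ⟩

/-- points over the coordinates in the order of the leaves -/
theorem reorder {x y : Fin 3 → E} {P : Fin 2 ⊕ Fin 2 → ℂ}
    (hex : Complex.exp (P (Sum.inl 1)) = P (Sum.inr 1))
    (h1 : Sum.elim P ![Complex.exp (P (Sum.inr 0)), Complex.exp (P (Sum.inl 0))] ∈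
      Pt (Sum.elim (Sum.elim ![x 2, x 0] ![x 1, y 0]) ![y 1, y 2])) : HasExp x y := by
  refine ⟨![P (Sum.inl 1), P (Sum.inr 0), P (Sum.inl 0)], fun g hg0 => ?_⟩
  set ρ : Fin 3 ⊕ Fin 3 → (Fin 2 ⊕ Fin 2) ⊕ Fin 2 :=
    Sum.elim ![Sum.inl (Sum.inl 1), Sum.inl (Sum.inr 0), Sum.inl (Sum.inl 0)]
      ![Sum.inl (Sum.inr 1), Sum.inr 0, Sum.inr 1] with hρ
  have h2 := h1 (rename ρ g) (by
    rw [aeval_rename]
    have h3 : Sum.elim (Sum.elim ![x 2, x 0] ![x 1, y 0]) ![y 1, y 2] ∘ ρ = Sum.elim x y := by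
      funext i
      rcases i with i | i <;> fin_cases i <;> rfl
    rw [h3]
    exact hg0)
  rw [eval_rename] at h2
  have h3 : (Sum.elim P ![Complex.exp (P (Sum.inr 0)), Complex.exp (P (Sum.inl 0))] ∘ ρ :
      Fin 3 ⊕ Fin 3 → ℂ) = Sum.elim ![P (Sum.inl 1), P (Sum.inr 0), P (Sum.inl 0)]
        fun l => Complex.exp (![P (Sum.inl 1), P (Sum.inr 0), P (Sum.inl 0)] l) := by
    funext i
    rcases i with i | i <;> fin_cases i
    · rfl
    · rfl
    · rfl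
    · exact hex.symm
    · rfl
    · rfl
  rw [h3] at h2
  exact h2

/-- `x 1` is algebraic over `ℂ(x 2, x 0)` -/
theorem x1_alg {x : Fin 3 → E} {D : ℕ} {p : ℕ → ℕ → Polynomial ℂ} (hD : p D 0 ≠ 0)
    (hrel : ∑ j ∈ Finset.range (D + 1), ∑ k ∈ Finset.range (D + 1 - j),
      Polynomial.aeval (x 0) (p j k) * x 1 ^ j * x 2 ^ k = 0)
    (hind : ∀ g : MvPolynomial (Fin 2) ℂ, aeval ![x 2, x 0] g = 0 → g = 0) :
    IsAlgebraic (IntermediateField.adjoin ℂ (Set.range ![x 2, x 0])) (x 1) := by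
  set K := IntermediateField.adjoin ℂ (Set.range ![x 2, x 0]) with hK
  have hx0 : x 0 ∈ K := IntermediateField.subset_adjoin _ _ ⟨1, rfl⟩
  have hx2 : x 2 ∈ K := IntermediateField.subset_adjoin _ _ ⟨0, rfl⟩
  set a : ℕ → ℕ → K := fun j k => Polynomial.aeval (⟨x 0, hx0⟩ : K) (p j k) with ha
  have haE : ∀ j k, ((a j k : K) : E) = Polynomial.aeval (x 0) (p j k) := by
    intro j k
    have := Polynomial.aeval_algHom_apply (K.val) (⟨x 0, hx0⟩ : K) (p j k)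
    simpa [ha] using this.symm
  set Q : Polynomial K := ∑ j ∈ Finset.range (D + 1),
    Polynomial.C (∑ k ∈ Finset.range (D + 1 - j), a j k * (⟨x 2, hx2⟩ : K) ^ k) * Polynomial.X ^ j
    with hQ
  refine ⟨Q, ?_, ?_⟩
  · intro h0
    have h1 : Q.coeff D = a D 0 := by
      rw [hQ, Polynomial.finsetSum_coeff, Finset.sum_eq_single D]
      · rw [Polynomial.coeff_C_mul, Polynomial.coeff_X_pow, if_pos rfl, mul_one]
        have : D + 1 - D = 1 := by omega
        rw [this, Finset.sum_range_one, pow_zero, mul_one]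
      · intro j _ hj
        rw [Polynomial.coeff_C_mul, Polynomial.coeff_X_pow, if_neg (Ne.symm hj), mul_zero]
      · intro h; exact absurd (Finset.mem_range.2 (Nat.lt_succ_self D)) h
    rw [h0, Polynomial.coeff_zero] at h1
    have h2 : Polynomial.aeval (x 0) (p D 0) = 0 := by
      rw [← haE, ← h1]; rfl
    apply hD
    have h3 := hind (Polynomial.aeval (X 1) (p D 0)) (by
      rw [← Polynomial.aeval_algHom_apply, aeval_X]
      exact h2)
    have h4 : ∀ t : ℂ, (p D 0).eval t = 0 := by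
      intro t
      have h5 := eval_paeval (fun _ : Fin 2 => t) 1 (p D 0)
      rw [h3, map_zero] at h5
      exact h5.symm
    exact Polynomial.funext fun t => by rw [h4 t, Polynomial.eval_zero]
  · rw [hQ, map_sum, ← hrel]
    refine Finset.sum_congr rfl fun j _ => ?_
    rw [map_mul, map_pow, Polynomial.aeval_X, Polynomial.aeval_C, map_sum, Finset.sum_mul]
    refine Finset.sum_congr rfl fun k _ => ?_
    rw [map_mul, map_pow]
    show ((a j k : K) : E) * x 2 ^ k * x 1 ^ j = _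
    rw [haE]
    ring

theorem onen_aux (hfib : S_fibre) (hlim : S_lim) {ζ f : Fin 2 → E} (hy : f 1 ≠ 0)
    (hfree : ∀ (a b d : ℚ) (c : ℂ), algebraMap ℂ E a * ζ 1 + algebraMap ℂ E b * f 0 +
      algebraMap ℂ E d * ζ 0 = algebraMap ℂ E c → a = 0 ∧ b = 0 ∧ d = 0)
    {D : ℕ} {p : ℕ → ℕ → Polynomial ℂ} (hD : p D 0 ≠ 0)
    (hdeg : ∀ j ≤ D, (p j (D - j)).natDegree ≤ (p D 0).natDegree)
    (hrel : ∑ j ∈ Finset.range (D + 1), ∑ k ∈ Finset.range (D + 1 - j),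
      Polynomial.aeval (ζ 1) (p j k) * f 0 ^ j * ζ 0 ^ k = 0)
    (hind : ∀ g : MvPolynomial (Fin 2) ℂ, aeval ζ g = 0 → g = 0)
    (hf : ∀ k, IsAlgebraic (IntermediateField.adjoin ℂ (Set.range ζ)) (f k))
    (hE : IsAlgebraic (IntermediateField.adjoin ℂ (Set.range ![ζ 1, f 1])) (ζ 0) ∨
      ∀ k : ℤ × ℤ, k ≠ 0 → IsAlgebraic (IntermediateField.adjoin ℂ
        (Set.range ![ζ 1, (k.1 : E) * f 0 + (k.2 : E) * ζ 0])) (ζ 0))
    {y1 y2 : E} (hy1 : y1 ≠ 0) (hy2 : y2 ≠ 0)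
    (halg : IsAlgebraic (IntermediateField.adjoin ℂ (insert y1 (Set.range (Sum.elim ζ f)))) y2)
    (hmn : ∀ a b : ℤ, IsAlgebraic (IntermediateField.adjoin ℂ (Set.range (Sum.elim ζ f)))
      (y1 ^ a * y2 ^ b) → a = 0 ∧ b = 0) :
    ∃ P : Fin 2 ⊕ Fin 2 → ℂ, Complex.exp (P (Sum.inl 1)) = P (Sum.inr 1) ∧
      Sum.elim P ![Complex.exp (P (Sum.inr 0)), Complex.exp (P (Sum.inl 0))] ∈
        Pt (Sum.elim (Sum.elim ζ f) ![y1, y2]) := by
  by_contra hno
  obtain ⟨q, hgood, ⟨L⟩, hκ⟩ := mk_lf hlim hy hfree hD hdeg hrel hind hf hE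
  obtain ⟨S, c, h, hh, hc, hpt, hS⟩ := hfib (Sum.elim ζ f) y1 y2 hy1 hy2 halg hmn
  have hUle : ((Ultrafilter.of atTop : Ultrafilter ℕ) : Filter ℕ) ≤ atTop := Ultrafilter.of_le atTop
  obtain ⟨κ, hκ⟩ := hκ _ hUle
  obtain ⟨a, ha, b, hb, hab⟩ := hS κ
  refine soft L _ hUle hκ S c hc ha hb hab ?_
  obtain ⟨_, _, hsz⟩ := size hf hh
  refine hUle ?_
  filter_upwards [hgood, hsz] with m hg hsz s hs h0
  apply hno
  refine ⟨q m s, hg.ex s hs, hpt (q m s) (hg.pt s hs) (hsz _ (hg.pt s hs) (hg.rg s hs)).1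
    (Complex.exp (q m s (Sum.inr 0))) (Complex.exp (q m s (Sum.inl 0))) (Complex.exp_ne_zero _)
    (Complex.exp_ne_zero _) ?_⟩
  rw [← h0]
  unfold fs ex
  refine Finset.sum_congr rfl fun k _ => ?_
  rw [← Complex.exp_int_mul, ← Complex.exp_int_mul, ← Complex.exp_add]

/-- algebraic over an algebraic extension -/
theorem alg_mono {S T : Set E} (h : ∀ t ∈ T, IsAlgebraic (IntermediateField.adjoin ℂ S) t) {u : E}
    (hu : IsAlgebraic (IntermediateField.adjoin ℂ T) u) :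
    IsAlgebraic (IntermediateField.adjoin ℂ S) u := by
  set K := IntermediateField.adjoin ℂ S with hK
  set A : IntermediateField K E := algebraicClosure K E with hA
  have hle : IntermediateField.adjoin ℂ T ≤ A.restrictScalars ℂ := by
    rw [IntermediateField.adjoin_le_iff]
    intro t ht
    exact mem_algebraicClosure_iff.2 (h t ht)
  set φ : IntermediateField.adjoin ℂ T →+* A :=
    { toFun := fun t => ⟨t, hle t.2⟩
      map_one' := rfl
      map_mul' := fun _ _ => rfl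
      map_zero' := rfl
      map_add' := fun _ _ => rfl } with hφ
  obtain ⟨Q, hQ0, hQ⟩ := hu
  have h1 : IsAlgebraic A u := by
    refine ⟨Q.map φ, (Polynomial.map_ne_zero_iff φ.injective).2 hQ0, ?_⟩
    rw [Polynomial.aeval_def, Polynomial.eval₂_map]
    exact hQ
  exact h1.restrictScalars K

theorem onen : S_fibre → S_lim → S_onen := by
  intro hfib hlim E _ _ x y hy hadd D p hD hdeg hrel hind hy0 hy2 hmn hE
  have hx1 := x1_alg hD hrel hind
  have hf : ∀ k, IsAlgebraic (IntermediateField.adjoin ℂ (Set.range ![x 2, x 0]))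
      ((![x 1, y 0] : Fin 2 → E) k) := by
    intro k
    fin_cases k
    · exact hx1
    · exact hy0
  obtain ⟨P, hP1, hP2⟩ := onen_aux hfib hlim (ζ := ![x 2, x 0]) (f := ![x 1, y 0]) (hy 0)
    (fun a b d c h => rat_free hadd a b d c h) hD hdeg hrel hind hf
    (by
      simp only [Matrix.cons_val_zero, Matrix.cons_val_one]
      exact hE) (hy 1) (hy 2)
    (alg_mono (fun t ht => by
      have h1 : t ∈ insert (y 1) (Set.range (Sum.elim (![x 2, x 0] : Fin 2 → E) ![x 1, y 0])) := by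
        rcases ht with rfl | ⟨i, rfl⟩
        · exact Set.mem_insert _ _
        · exact Set.mem_insert_of_mem _ ⟨Sum.inl i, rfl⟩
      have h2 := IntermediateField.subset_adjoin ℂ _ h1
      exact isAlgebraic_algebraMap (⟨t, h2⟩ : IntermediateField.adjoin ℂ
        (insert (y 1) (Set.range (Sum.elim (![x 2, x 0] : Fin 2 → E) ![x 1, y 0]))))) hy2)
    (fun a b hab => hmn a b (alg_mono (fun t ht => by
      obtain ⟨i | i, rfl⟩ := ht
      · exact Pool.Agent.Q239.EG.alg_zeta _ i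
      · exact hf i) hab))
  exact reorder hP1 hP2

end Pool.Agent.Helper57.NT
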