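import Pool.Agent.Helper57.NT.Sheet

/-!
Project NT (helper57): statements of the parts, exceptional family.
-/

set_option autoImplicit false

namespace Pool.Agent.Helper57.NT

open MvPolynomial Pool.Agent.Q72.EG Filter Topology Metric

/-- **S_cd**: over a curve with the functions `x_1 = u`, `x_2 = v`, `y_1 = w` the points
`(P, exp x_2(P))` with `exp x_1(P) = y_1(P)` are dense in the product with `ℂ^*` -/
def S_cd : Prop := ∀ {E : Type} [Field E] [Algebra ℂ E] (u v w : E), Transcendental ℂ u →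
    IsAlgebraic (IntermediateField.adjoin ℂ {u}) v → IsAlgebraic (IntermediateField.adjoin ℂ {u}) w →
    (∀ c : ℂ, w ≠ algebraMap ℂ E c) →
    (∀ (q : ℚ) (c : ℂ), v ≠ algebraMap ℂ E q * u + algebraMap ℂ E c) →
    ∀ H : Polynomial (MvPolynomial (Fin 3) ℂ), (∃ j, aeval ![u, v, w] (H.coeff j) ≠ 0) →
    ∃ P ∈ Pt ![u, v, w], Complex.exp (P 0) = P 2 ∧ (H.map (eval P)).eval (Complex.exp (P 1)) ≠ 0

/-- **S_exc**: the projection to `(x_0, x_1, y_0)` is a curve -/
def S_exc : Prop := ∀ {E : Type} [Field E] [Algebra ℂ E] (x y : Fin 3 → E), (∀ l, y l ≠ 0) →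
    AddFree x → (∀ c : ℂ, y 0 ≠ algebraMap ℂ E c) →
    IsAlgebraic (IntermediateField.adjoin ℂ {x 0}) (x 1) →
    IsAlgebraic (IntermediateField.adjoin ℂ {x 0}) (y 0) →
    Transcendental (IntermediateField.adjoin ℂ {x 0}) (y 1) →
    (AlgebraicIndependent (IntermediateField.adjoin ℂ {x 0}) ![x 2, y 1] ∨
      AlgebraicIndependent (IntermediateField.adjoin ℂ {x 0}) ![y 1, y 2]) →
    ¬ AlgebraicIndependent (IntermediateField.adjoin ℂ {x 0}) ![x 2, y 1, y 2] → HasExp x y

/- The parts:
theorem cd : S_cd                                   (helper57)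
theorem exc : S_cd → S_bm → S_exc
-/

end Pool.Agent.Helper57.NT
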