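import Pool.Agent.Helper57.NT.Uni
import Pool.Agent.Helper82.NT.Lat

/-!
# The theorem for `n = 3` from the cases of rank one and two (part 6)
-/

set_option autoImplicit false

namespace Pool.Agent.Helper57.NT

open MvPolynomial Pool.Agent.Q72.EG Pool.Agent.Helper57.RA

variable {E : Type} [Field E] [Algebra ℂ E]

theorem dt_mem {n : ℕ} (F : IntermediateField ℂ E) (m : Fin n → ℤ) {x : Fin n → E}
    (hx : ∀ l, x l ∈ F) : dt m x ∈ F :=
  F.sum_mem fun l _ => F.mul_mem (F.intCast_mem (m l)) (hx l)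

theorem adjoin_dt {n : ℕ} (x : Fin n → E) {M N : Matrix (Fin n) (Fin n) ℤ} (h : N * M = 1) :
    IntermediateField.adjoin ℂ (Set.range fun i => dt (M i) x) =
      IntermediateField.adjoin ℂ (Set.range x) := by
  apply le_antisymm
  · rw [IntermediateField.adjoin_le_iff]
    rintro _ ⟨i, rfl⟩
    exact dt_mem _ _ fun l => IntermediateField.subset_adjoin _ _ ⟨l, rfl⟩
  · rw [IntermediateField.adjoin_le_iff]
    rintro _ ⟨l, rfl⟩
    have h1 : x l = dt (N l) (fun i => dt (M i) x) := by
      rw [dt_vecMul, vecMul_row h, dt_single]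
    rw [h1]
    exact dt_mem _ _ fun i => IntermediateField.subset_adjoin _ _ ⟨i, rfl⟩

theorem adjoin_insert_congr {S T : Set E} (h : IntermediateField.adjoin ℂ S =
    IntermediateField.adjoin ℂ T) (f : E) : IntermediateField.adjoin ℂ (insert f S) =
      IntermediateField.adjoin ℂ (insert f T) := by
  rw [Set.insert_eq, Set.insert_eq, IntermediateField.adjoin_union, IntermediateField.adjoin_union,
    h]

theorem tr1_congr {n m : ℕ} {x : Fin n → E} {x' : Fin m → E}
    (h : IntermediateField.adjoin ℂ (Set.range x') = IntermediateField.adjoin ℂ (Set.range x))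
    (ht : Tr1 x) : Tr1 x' := by
  intro f g hf
  rw [h] at hf
  have h1 := ht f g hf
  rw [adjoin_insert_congr h]
  exact h1

theorem vecMul_ne {n : ℕ} {M N : Matrix (Fin n) (Fin n) ℤ} (h : M * N = 1) {m : Fin n → ℤ}
    (hm : m ≠ 0) : Matrix.vecMul m M ≠ 0 := by
  intro h0
  apply hm
  have h1 : Matrix.vecMul (Matrix.vecMul m M) N = m := by
    rw [Matrix.vecMul_vecMul, h, Matrix.vecMul_one]
  rw [← h1, h0, Matrix.zero_vecMul]

theorem addFree_uni {n : ℕ} {x : Fin n → E} {M N : Matrix (Fin n) (Fin n) ℤ} (h : M * N = 1)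
    (hx : AddFree x) : AddFree (fun i => dt (M i) x) := by
  intro m hm a
  rw [dt_vecMul]
  exact hx _ (vecMul_ne h hm) a

theorem strong_uni {x y : Fin 3 → E} (hy : ∀ l, y l ≠ 0) {M N : Matrix (Fin 3) (Fin 3) ℤ}
    (h : M * N = 1) (hs : Strong x y) :
    Strong (fun i => dt (M i) x) (fun i => mon (M i) y) := by
  intro m k hmk
  rw [dt_vecMul, dt_vecMul, mon_vecMul M m hy]
  apply hs
  have hinj : LinearMap.ker (Matrix.vecMulLinear M) = ⊥ := by
    rw [LinearMap.ker_eq_bot']
    intro v hv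
    by_contra hne
    exact vecMul_ne h hne hv
  have h1 := hmk.map' (Matrix.vecMulLinear M) hinj
  have h2 : ⇑(Matrix.vecMulLinear M) ∘ ![m, k] = ![Matrix.vecMul m M, Matrix.vecMul k M] := by
    funext i
    fin_cases i <;> rfl
  rw [h2] at h1
  exact h1

/-- the linear substitution -/
noncomputable def sbs {n : ℕ} (M : Matrix (Fin n) (Fin n) ℤ) :
    MvPolynomial (Fin n) ℂ →ₐ[ℂ] MvPolynomial (Fin n) ℂ := aeval fun i => linm (M i)

theorem aeval_linm {n : ℕ} (m : Fin n → ℤ) (x : Fin n → E) : aeval x (linm m) = dt m x := by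
  unfold linm dt
  rw [map_sum]
  refine Finset.sum_congr rfl fun l _ => ?_
  rw [map_mul, aeval_X, MvPolynomial.algHom_C, map_intCast]

theorem sbs_sbs {n : ℕ} {M N : Matrix (Fin n) (Fin n) ℤ} (h : N * M = 1) :
    (sbs M).comp (sbs N) = AlgHom.id ℂ _ := by
  apply MvPolynomial.algHom_ext
  intro l
  rw [AlgHom.comp_apply, AlgHom.id_apply]
  unfold sbs
  rw [aeval_X]
  have h1 : (linm (N l) : MvPolynomial (Fin n) ℂ) = ∑ i, C (N l i : ℂ) * X i := rfl
  rw [h1, map_sum]
  have h2 : ∀ i, aeval (fun i => linm (M i)) (C (N l i : ℂ) * X i : MvPolynomial (Fin n) ℂ) =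
      ∑ j, C ((N l i : ℂ) * (M i j : ℂ)) * X j := by
    intro i
    rw [map_mul, aeval_X, MvPolynomial.algHom_C, MvPolynomial.algebraMap_eq]
    unfold linm
    rw [Finset.mul_sum]
    refine Finset.sum_congr rfl fun j _ => ?_
    rw [map_mul]
    ring
  rw [Finset.sum_congr rfl fun i _ => h2 i, Finset.sum_comm]
  have h3 : ∀ j, ∑ i, C ((N l i : ℂ) * (M i j : ℂ)) * (X j : MvPolynomial (Fin n) ℂ) =
      if l = j then X j else 0 := by
    intro j
    rw [← Finset.sum_mul, ← map_sum]
    have h4 : (N * M) l j = (1 : Matrix (Fin n) (Fin n) ℤ) l j := by rw [h]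
    rw [Matrix.mul_apply, Matrix.one_apply] at h4
    have h5 : ∑ i, (N l i : ℂ) * (M i j : ℂ) = ((∑ i, N l i * M i j : ℤ) : ℂ) := by push_cast; rfl
    rw [h5, h4]
    split_ifs <;> simp
  rw [Finset.sum_congr rfl fun j _ => h3 j]
  simp

/-- the substitution as an isomorphism -/
noncomputable def sbe {n : ℕ} {M N : Matrix (Fin n) (Fin n) ℤ} (h : N * M = 1) (h' : M * N = 1) :
    MvPolynomial (Fin n) ℂ ≃ₐ[ℂ] MvPolynomial (Fin n) ℂ :=
  AlgEquiv.ofAlgHom (sbs N) (sbs M) (sbs_sbs h') (sbs_sbs h)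

theorem aeval_sbs {n : ℕ} {M N : Matrix (Fin n) (Fin n) ℤ} (h : N * M = 1) (x : Fin n → E)
    (g : MvPolynomial (Fin n) ℂ) : aeval (fun i => dt (M i) x) (sbs N g) = aeval x g := by
  have h1 : (aeval (fun i => dt (M i) x)).comp (sbs N) = aeval (R := ℂ) x := by
    apply MvPolynomial.algHom_ext
    intro l
    rw [AlgHom.comp_apply]
    unfold sbs
    rw [aeval_X, aeval_X, aeval_linm, dt_vecMul, vecMul_row h, dt_single]
  rw [← h1, AlgHom.comp_apply]

theorem kernel_uni {n : ℕ} {M N : Matrix (Fin n) (Fin n) ℤ} (h : N * M = 1) (h' : M * N = 1)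
    {x : Fin n → E} {P : MvPolynomial (Fin n) ℂ} (hP : Irreducible P)
    (hx : ∀ g : MvPolynomial (Fin n) ℂ, aeval x g = 0 ↔ P ∣ g) :
    Irreducible (sbs N P) ∧
      ∀ g : MvPolynomial (Fin n) ℂ, aeval (fun i => dt (M i) x) g = 0 ↔ sbs N P ∣ g := by
  constructor
  · exact (MulEquiv.irreducible_iff (sbe h h')).2 hP
  · intro g
    have h1 : g = sbs N (sbs M g) := by
      have := congrArg (fun f : MvPolynomial (Fin n) ℂ →ₐ[ℂ] MvPolynomial (Fin n) ℂ => f g)
        (sbs_sbs h')
      simpa using this.symm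
    constructor
    · intro h2
      rw [h1, aeval_sbs h, hx] at h2
      rw [h1]
      exact map_dvd (sbs N) h2
    · rintro ⟨q, rfl⟩
      rw [map_mul, aeval_sbs h, (hx P).2 dvd_rfl, zero_mul]

/-- the lattice of the algebraic monomials -/
def LamM (K : IntermediateField ℂ E) (y : Fin 3 → E) (hy : ∀ l, y l ≠ 0) :
    Submodule ℤ (Fin 3 → ℤ) where
  carrier := {m | IsAlgebraic K (mon m y)}
  zero_mem' := by
    have : mon (0 : Fin 3 → ℤ) y = 1 := by
      unfold mon
      exact Finset.prod_eq_one fun l _ => by simp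
    change IsAlgebraic K (mon (0 : Fin 3 → ℤ) y)
    rw [this]
    exact isAlgebraic_one
  add_mem' := by
    intro a b ha hb
    change IsAlgebraic K (mon (a + b) y)
    rw [mon_add a b hy]
    exact ha.mul hb
  smul_mem' := by
    intro k m hm
    change IsAlgebraic K (mon (k • m) y)
    rw [mon_smul]
    obtain ⟨n, rfl | rfl⟩ := k.eq_nat_or_neg
    · rw [zpow_natCast]
      exact hm.pow n
    · rw [zpow_neg, zpow_natCast]
      exact (hm.pow n).inv

theorem mem_LamM (K : IntermediateField ℂ E) (y : Fin 3 → E) (hy : ∀ l, y l ≠ 0)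
    (m : Fin 3 → ℤ) : m ∈ LamM K y hy ↔ IsAlgebraic K (mon m y) := Iff.rfl

theorem lam_sat (K : IntermediateField ℂ E) (y : Fin 3 → E) (hy : ∀ l, y l ≠ 0) (k : ℤ)
    (m : Fin 3 → ℤ) (hk : k ≠ 0) (h : k • m ∈ LamM K y hy) : m ∈ LamM K y hy := by
  rw [mem_LamM, mon_smul] at h
  rw [mem_LamM]
  obtain ⟨n, rfl | rfl⟩ := k.eq_nat_or_neg
  · rw [zpow_natCast] at h
    exact IsAlgebraic.of_pow (by omega) h
  · rw [zpow_neg, zpow_natCast] at h
    exact IsAlgebraic.of_pow (by omega) (IsAlgebraic.inv_iff.1 h)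

/-- the leading form is not a constant -/
theorem lead_ne {n : ℕ} {P : MvPolynomial (Fin n) ℂ} (hP : Irreducible P) (c : ℂ) :
    homogeneousComponent P.totalDegree P ≠ C c := by
  classical
  intro h
  have hd : P.totalDegree ≠ 0 := by
    intro h0
    have h1 := totalDegree_eq_zero_iff_eq_C.1 h0
    by_cases h2 : coeff 0 P = 0
    · rw [h2, map_zero] at h1
      exact hP.ne_zero h1
    · apply hP.not_isUnit
      rw [h1]
      exact (isUnit_iff_ne_zero.2 h2).map C
  obtain ⟨s, hs, hsd⟩ : ∃ s ∈ P.support, P.totalDegree = s.sum fun _ e => e := by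
    have hne : P.support.Nonempty := by
      rw [Finset.nonempty_iff_ne_empty, Ne, MvPolynomial.support_eq_empty]
      exact hP.ne_zero
    obtain ⟨s, hs, h1⟩ := Finset.exists_mem_eq_sup P.support hne fun s => s.sum fun _ e => e
    exact ⟨s, hs, h1⟩
  have h1 := congrArg (coeff s) h
  rw [coeff_homogeneousComponent] at h1
  have h2 : s.degree = P.totalDegree := by
    rw [hsd]
    rfl
  rw [if_pos h2, coeff_C, if_neg] at h1
  · exact (mem_support_iff.1 hs) h1
  · intro h3
    rw [← h3] at h2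
    simp at h2
    exact hd h2.symm

/-- **Part 6.** -/
theorem three : S_uni → S_one → S_two → S_three := by
  intro huni hone htwo E _ _ x y hy hfree hstrong P hP hx htr ⟨l0, hl0⟩
  classical
  set K := IntermediateField.adjoin ℂ (Set.range x) with hK
  by_cases hbot : LamM K y hy = ⊥
  · -- no algebraic monomials
    have hcore := Pool.Agent.Helper57.HT.core hP hx hy htr (H := 1) ?_ ?_ (by simp)
    · obtain ⟨z, hz, -⟩ := hcore
      exact ⟨z, hz⟩
    · intro hmem
      have h1 : Algebra.adjoin ℂ {g : MvPolynomial (Fin 3) ℂ | ∃ m : Fin 3 → ℤ,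
          IsAlgebraic (IntermediateField.adjoin ℂ (Set.range x)) (∏ l, y l ^ m l) ∧
            g = linm m} ≤ ⊥ := by
        rw [Algebra.adjoin_le_iff]
        rintro g ⟨m, hm, rfl⟩
        have h2 : m ∈ LamM K y hy := hm
        rw [hbot, Submodule.mem_bot] at h2
        rw [h2]
        have h3 : (linm (0 : Fin 3 → ℤ) : MvPolynomial (Fin 3) ℂ) = 0 := by
          simp [linm]
        rw [h3]
        exact (⊥ : Subalgebra ℂ (MvPolynomial (Fin 3) ℂ)).zero_mem
      obtain ⟨c, hc⟩ := Algebra.mem_bot.1 (h1 hmem)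
      exact lead_ne hP c hc.symm
    · intro m c hm hdvd
      have h1 := (hx _).2 hdvd
      rw [map_sub, aeval_linm, MvPolynomial.algHom_C, sub_eq_zero] at h1
      exact hfree m hm c h1
  · have htop : LamM K y hy ≠ ⊤ := by
      intro h
      have h1 : (Pi.single l0 1 : Fin 3 → ℤ) ∈ LamM K y hy := by rw [h]; trivial
      rw [mem_LamM, mon_single] at h1
      exact hl0 h1
    obtain ⟨M, N, hNM, hcase⟩ := Pool.Agent.Helper82.NT.exists_basis (LamM K y hy)
      (fun k m hk h => lam_sat K y hy k m hk h) htop hbot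
    have hMN : M * N = 1 := mul_eq_one_comm.1 hNM
    have hadj : IntermediateField.adjoin ℂ (Set.range fun i => dt (M i) x) =
      IntermediateField.adjoin ℂ (Set.range x) := adjoin_dt x hNM
    obtain ⟨hP', hx'⟩ := kernel_uni hNM hMN hP hx
    refine huni x y hy M N hNM ?_
    rcases hcase with ⟨h0, h1⟩ | ⟨h0, h1, h2⟩
    · refine hone _ _ (fun l => mon_ne _ hy) (addFree_uni hMN hfree) (strong_uni hy hMN hstrong) _
        hP' hx' (tr1_congr hadj htr) ?_ ?_
      · rw [hadj]
        exact h0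
      · intro a b hab
        rw [hadj] at hab
        refine h1 a b ?_
        rw [mem_LamM, mon_add _ _ hy, mon_smul, mon_smul]
        exact hab
    · refine htwo _ _ (fun l => mon_ne _ hy) (addFree_uni hMN hfree) (strong_uni hy hMN hstrong) _
        hP' hx' (tr1_congr hadj htr) ?_ ?_ ?_
      · rw [hadj]
        exact h0
      · rw [hadj]
        exact h1
      · rw [hadj]
        exact h2

end Pool.Agent.Helper57.NT
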