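import Pool.Agent.Helper57.NT.Cl
import Pool.Agent.Helper57.NT.Three

/-!
Project NT (helper57), part Res2 (helper18): independence and the closure operator, the equation of a surface.
-/

set_option autoImplicit false

namespace Pool.Agent.Helper57.NT

open MvPolynomial Pool.Agent.Q72.EG

variable {E : Type} [Field E] [Algebra ℂ E]

theorem mem_cl_over (w : E) (T : Set E) (a : E) :
    IsAlgebraic (IntermediateField.adjoin (IntermediateField.adjoin ℂ {w}) T) a ↔
      a ∈ cl (insert w T) := by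
  rw [mem_cl, Set.insert_eq, ← IntermediateField.adjoin_adjoin_left]
  exact Iff.rfl

theorem mem_cl_over' (w : E) (a : E) :
    IsAlgebraic (IntermediateField.adjoin ℂ {w}) a ↔ a ∈ cl ({w} : Set E) := mem_cl.symm

omit [Algebra ℂ E] in
/-- adding an element to an independent family -/
theorem indep_succ' {K : Type} [Field K] [Algebra K E] {n : ℕ} (x : Fin (n + 1) → E)
    (h : AlgebraicIndependent K (x ∘ Fin.castSucc))
    (h' : ¬ IsAlgebraic (IntermediateField.adjoin K (Set.range (x ∘ Fin.castSucc)))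
      (x (Fin.last n))) : AlgebraicIndependent K x := by
  rw [IntermediateField.isAlgebraic_adjoin_iff] at h'
  have h1 := (h.option_iff_transcendental (x (Fin.last n))).2 h'
  rw [← algebraicIndependent_equiv (finSuccEquivLast (n := n)).symm]
  convert h1 using 1
  funext o
  rcases o with _ | i <;> simp

omit [Field E] [Algebra ℂ E] in
theorem range_cs1 (a b : E) : Set.range (![a, b] ∘ (Fin.castSucc : Fin 1 → Fin 2)) = {a} := by
  ext c
  simp only [Set.mem_range, Set.mem_singleton_iff]
  constructor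
  · rintro ⟨i, rfl⟩
    fin_cases i
    rfl
  · rintro rfl
    exact ⟨0, rfl⟩

theorem ai2 {w a b : E} (ha : a ∉ cl ({w} : Set E)) (hb : b ∉ cl ({w, a} : Set E)) :
    AlgebraicIndependent (IntermediateField.adjoin ℂ {w}) ![a, b] := by
  refine indep_succ' _ (indep_succ' _ ?_ ?_) ?_
  · exact algebraicIndependent_empty_type
  · rw [mem_cl_over]
    intro h
    apply ha
    refine cl_mono ?_ h
    rintro c (rfl | ⟨i, _⟩)
    · rfl
    · exact i.elim0
  · rw [mem_cl_over, range_cs1]
    exact hb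

theorem ai2' {w a b : E} (ha : a ∉ cl ({w} : Set E)) (hb : b ∉ cl ({w, a} : Set E)) :
    AlgebraicIndependent (IntermediateField.adjoin ℂ {w}) ![b, a] := by
  have h := ai2 ha hb
  have h1 := (algebraicIndependent_equiv (Equiv.swap (0 : Fin 2) 1)).2 h
  convert h1 using 1
  funext i
  fin_cases i <;> rfl

/-- no four independent elements -/
def NoFour (E : Type) [Field E] [Algebra ℂ E] : Prop :=
  ∀ a b c d : E, a ∉ cl (∅ : Set E) → b ∉ cl {a} → c ∉ cl {a, b} → d ∈ cl {a, b, c}

theorem not_ai3 (h4 : NoFour E) {w : E} (hw : w ∉ cl (∅ : Set E)) (a b c : E) :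
    ¬ AlgebraicIndependent (IntermediateField.adjoin ℂ {w}) ![a, b, c] := by
  intro h
  have e : ∀ (s : Set (Fin 3)) (i : Fin 3), i ∉ s → ![a, b, c] i ∉ cl (insert w (![a, b, c] '' s)) := by
    intro s i hi
    rw [← mem_cl_over, IntermediateField.isAlgebraic_adjoin_iff]
    exact h.transcendental_adjoin hi
  have h1 : a ∉ cl ({w} : Set E) := by
    have := e ∅ 0 (Set.notMem_empty _)
    rw [Set.image_empty] at this
    simpa using this
  have h2 : b ∉ cl ({w, a} : Set E) := by
    have := e {0} 1 (by simp)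
    rw [Set.image_singleton] at this
    exact this
  have h3 : c ∉ cl ({w, a, b} : Set E) := by
    have := e {0, 1} 2 (by simp)
    rw [Set.image_pair] at this
    exact this
  exact h3 (h4 w a b c hw h1 h2)

/-- independent families in the closure of few elements -/
theorem card_le {J : Type} [Fintype J] {g : J → E} (h : AlgebraicIndependent ℂ g) (S : Finset E)
    (hg : ∀ j, g j ∈ cl (S : Set E)) : Fintype.card J ≤ S.card := by
  classical
  have h1 : (AlgebraicIndependent.matroid ℂ E).Indep (Set.range g) := by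
    rw [AlgebraicIndependent.matroid_indep_iff]
    exact h.coe_range
  have h2 : Set.range g ⊆ (AlgebraicIndependent.matroid ℂ E).closure (S : Set E) := by
    rintro _ ⟨j, rfl⟩
    exact hg j
  have h3 := h1.encard_le_eRk_of_subset h2
  rw [Matroid.eRk_closure_eq] at h3
  have h4 := h3.trans ((AlgebraicIndependent.matroid ℂ E).eRk_le_encard (S : Set E))
  rw [Set.encard_coe_eq_coe_finsetCard, ← Set.image_univ, h.injective.encard_image,
    Set.encard_univ, ENat.card_eq_coe_fintype_card] at h4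
  exact_mod_cast h4

/-- constants -/
theorem cl_const {S : Set E} (c : ℂ) : algebraMap ℂ E c ∈ cl S := by
  rw [mem_clF]
  exact (clF S).algebraMap_mem (algebraMap ℂ (IntermediateField.adjoin ℂ S) c)

theorem cl_div {S : Set E} {a : E} {k : ℤ} (hk : k ≠ 0) (h : (k : E) * a ∈ cl S) : a ∈ cl S := by
  have h0 : (k : E) ≠ 0 := by
    have : CharZero E := charZero_of_injective_algebraMap (algebraMap ℂ E).injective
    exact Int.cast_ne_zero.2 hk
  have h1 : (k : E)⁻¹ * ((k : E) * a) ∈ cl S := by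
    rw [mem_clF] at *
    exact mul_mem (inv_mem (intCast_mem _ k)) h
  rwa [inv_mul_cancel_left₀ h0] at h1

theorem cl_root {S : Set E} {a : E} {k : ℤ} (hk : k ≠ 0) (h : a ^ k ∈ cl S) : a ∈ cl S := by
  have h1 : a ^ k.natAbs ∈ cl S := by
    rcases Int.natAbs_eq k with h2 | h2
    · rw [h2, zpow_natCast] at h
      exact h
    · rw [h2, zpow_neg, zpow_natCast] at h
      rw [mem_clF] at *
      simpa using inv_mem h
  rw [mem_cl] at *
  exact h1.of_pow (Int.natAbs_pos.2 hk)

theorem cl_sub {S : Set E} {a b : E} (ha : a ∈ cl S) (hb : b ∈ cl S) : a - b ∈ cl S := by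
  rw [mem_clF] at *
  exact sub_mem ha hb

theorem cl_dt {n : ℕ} {S : Set E} (m : Fin n → ℤ) {x : Fin n → E} (hx : ∀ l, x l ∈ cl S) :
    dt m x ∈ cl S := by
  simp only [mem_clF] at *
  exact sum_mem fun l _ => mul_mem (intCast_mem _ (m l)) (hx l)

theorem cl_mon {n : ℕ} {S : Set E} (m : Fin n → ℤ) {y : Fin n → E} (hy : ∀ l, y l ∈ cl S) :
    mon m y ∈ cl S := by
  simp only [mem_clF] at *
  exact prod_mem fun l _ => zpow_mem (hy l) (m l)

theorem exists_P (x : Fin 3 → E) (h : AlgebraicIndependent ℂ (fun i : Fin 2 => x i.succ))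
    (h0 : x 0 ∈ cl (Set.range fun i : Fin 2 => x i.succ)) :
    ∃ P : MvPolynomial (Fin 3) ℂ, Irreducible P ∧ ∀ g, aeval x g = 0 ↔ P ∣ g := by
  let φ : MvPolynomial (Fin 2) ℂ →+* E := (aeval (fun i : Fin 2 => x i.succ) :
    MvPolynomial (Fin 2) ℂ →ₐ[ℂ] E).toRingHom
  let _ : Algebra (MvPolynomial (Fin 2) ℂ) E := φ.toAlgebra
  have hφ : ∀ p : MvPolynomial (Fin 2) ℂ, algebraMap (MvPolynomial (Fin 2) ℂ) E p =
      aeval (fun i : Fin 2 => x i.succ) p := fun p => rfl
  have hinj : Function.Injective (algebraMap (MvPolynomial (Fin 2) ℂ) E) := h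
  have : FaithfulSMul (MvPolynomial (Fin 2) ℂ) E :=
    (faithfulSMul_iff_algebraMap_injective _ _).2 hinj
  let _ : Algebra (FractionRing (MvPolynomial (Fin 2) ℂ)) E := FractionRing.liftAlgebra _ E
  have : IsScalarTower (MvPolynomial (Fin 2) ℂ) (FractionRing (MvPolynomial (Fin 2) ℂ)) E :=
    FractionRing.isScalarTower_liftAlgebra _ E
  have h1 : IsAlgebraic (MvPolynomial (Fin 2) ℂ) (x 0) := by
    rw [mem_cl, IntermediateField.isAlgebraic_adjoin_iff] at h0
    exact (isAlgebraic_ringHom_iff_of_comp_eq h.aevalEquiv (RingHom.id E) Function.injective_id (by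
      ext p
      · simp [hφ]
      · simp [hφ])).1 h0
  have h2 : IsAlgebraic (FractionRing (MvPolynomial (Fin 2) ℂ)) (x 0) :=
    (IsFractionRing.isAlgebraic_iff (MvPolynomial (Fin 2) ℂ) _ E).1 h1
  obtain ⟨F, hF, -, hF2⟩ := Pool.Agent.W597.EC.ker_principal
    (R := MvPolynomial (Fin 2) ℂ) (K := FractionRing (MvPolynomial (Fin 2) ℂ)) (x 0) h2
  have e : ∀ g : MvPolynomial (Fin 3) ℂ, aeval x g = Polynomial.aeval (x 0) (finSuccEquiv ℂ 2 g) := by
    intro g
    have h3 : (aeval x : MvPolynomial (Fin 3) ℂ →ₐ[ℂ] E).toRingHom =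
        (Polynomial.aeval (R := MvPolynomial (Fin 2) ℂ) (x 0)).toRingHom.comp
          (finSuccEquiv ℂ 2).toRingEquiv.toRingHom := by
      refine MvPolynomial.ringHom_ext (fun r => ?_) (fun i => ?_)
      · show aeval x (C r) = Polynomial.aeval (x 0) (finSuccEquiv ℂ 2 (C r))
        have h4 : finSuccEquiv ℂ 2 (C r) = Polynomial.C (C r) := (finSuccEquiv ℂ 2).commutes r
        rw [h4, Polynomial.aeval_C, hφ, algHom_C, algHom_C]
      · show aeval x (X i) = Polynomial.aeval (x 0) (finSuccEquiv ℂ 2 (X i))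
        refine Fin.cases ?_ (fun j => ?_) i
        · rw [finSuccEquiv_X_zero, Polynomial.aeval_X, aeval_X]
        · rw [finSuccEquiv_X_succ, Polynomial.aeval_C, hφ, aeval_X, aeval_X]
    exact congrArg (fun ψ => ψ g) h3
  refine ⟨(finSuccEquiv ℂ 2).symm F, ?_, fun g => ?_⟩
  · exact (MulEquiv.irreducible_iff (finSuccEquiv ℂ 2).symm).2 hF
  · rw [e, hF2]
    constructor
    · intro h3
      have := map_dvd (finSuccEquiv ℂ 2).symm h3
      rwa [AlgEquiv.symm_apply_apply] at this
    · intro h3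
      have := map_dvd (finSuccEquiv ℂ 2) h3
      rwa [AlgEquiv.apply_symm_apply] at this

theorem exists_P' (x : Fin 3 → E) (ρ : Equiv.Perm (Fin 3))
    (h : AlgebraicIndependent ℂ (fun i : Fin 2 => x (ρ i.succ)))
    (h0 : x (ρ 0) ∈ cl (Set.range fun i : Fin 2 => x (ρ i.succ))) :
    ∃ P : MvPolynomial (Fin 3) ℂ, Irreducible P ∧ ∀ g, aeval x g = 0 ↔ P ∣ g := by
  obtain ⟨P, hP, hP2⟩ := exists_P (x ∘ ρ) h h0
  refine ⟨rename ρ P, ?_, fun g => ?_⟩
  · exact (MulEquiv.irreducible_iff (renameEquiv ℂ ρ)).2 hP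
  · have h1 : aeval x g = aeval (x ∘ ρ) (rename ρ.symm g) := by
      rw [aeval_rename]
      congr 2
      funext i
      simp
    have h2 : ∀ g : MvPolynomial (Fin 3) ℂ, rename ρ (rename ρ.symm g) = g := by
      intro g
      rw [rename_rename]
      have : (ρ ∘ ρ.symm : Fin 3 → Fin 3) = id := by funext i; simp
      rw [this, rename_id_apply]
    have h3 : ∀ g : MvPolynomial (Fin 3) ℂ, rename ρ.symm (rename ρ g) = g := by
      intro g
      rw [rename_rename]
      have : (ρ.symm ∘ ρ : Fin 3 → Fin 3) = id := by funext i; simp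
      rw [this, rename_id_apply]
    rw [h1, hP2]
    constructor
    · intro h4
      have := map_dvd (rename (R := ℂ) ρ) h4
      rwa [h2] at this
    · intro h4
      have := map_dvd (rename (R := ℂ) ρ.symm) h4
      rwa [h3] at this

end Pool.Agent.Helper57.NT
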