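import Pool.Agent.Helper57.NT.Field
import Pool.Agent.Helper57.NT.AxL

/-!
Project NT (helper57): no exponential of a linear form is algebraic along the leaves.
-/

set_option autoImplicit false

namespace Pool.Agent.Helper57.NT

open MvPolynomial Filter Topology Metric Pool.Agent.Q72.EG

variable {E : Type} [Field E] [Algebra ℂ E] {ι : Type}

theorem RelT.smul {V : Set ℂ} {T g : ℂ → ℂ} (h : RelT V T g) {c : ℂ} (hc : c ≠ 0) :
    RelT V T fun x => c * g x := by
  obtain ⟨A, h1, h2⟩ := h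
  have hu : (C c⁻¹ : MvPolynomial (Fin 2) ℂ) ≠ 0 := by
    rw [Ne, C_eq_zero]; exact inv_ne_zero hc
  have hnd : (Polynomial.C (C c⁻¹ : MvPolynomial (Fin 2) ℂ) * Polynomial.X).natDegree = 1 :=
    Polynomial.natDegree_C_mul_X _ hu
  refine ⟨A.comp (Polynomial.C (C c⁻¹) * Polynomial.X), fun x hx => ?_, fun x hx => ?_⟩
  · rw [Polynomial.leadingCoeff_comp (by rw [hnd]; norm_num), Polynomial.leadingCoeff_C_mul_X,
      map_mul, map_pow, eval_C]
    exact mul_ne_zero (h1 x hx) (pow_ne_zero _ (inv_ne_zero hc))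
  · rw [Polynomial.map_comp, Polynomial.eval_comp]
    have : (Polynomial.map (eval ![x, T x]) (Polynomial.C (C c⁻¹) * Polynomial.X)).eval (c * g x) =
        g x := by
      simp only [Polynomial.map_mul, Polynomial.map_C, eval_C, Polynomial.map_X,
        Polynomial.eval_mul, Polynomial.eval_C, Polynomial.eval_X]
      field_simp
    rw [this]
    exact h2 x hx

/-- parametrization of a leaf by `x_3` -/
noncomputable def sg (m : ℕ) (w : ℂ) : ℂ := Complex.log (w / Complex.exp m)

/-- the domain -/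
def Vm (m : ℕ) : Set ℂ := ball (Complex.exp m) (Real.exp m / 2)

theorem sg_mem {m : ℕ} {w : ℂ} (hw : w ∈ Vm m) : w / Complex.exp m ∈ Complex.slitPlane ∧
    sg m w ∈ ball (0 : ℂ) 13 ∧ Complex.exp m * Complex.exp (sg m w) = w := by
  have he : Complex.exp (m : ℂ) ≠ 0 := Complex.exp_ne_zero _
  have hen : ‖Complex.exp (m : ℂ)‖ = Real.exp m := norm_exp_nat m
  have h1 : ‖w / Complex.exp m - 1‖ < 1 / 2 := by
    have : w / Complex.exp m - 1 = (w - Complex.exp m) / Complex.exp m := by field_simp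
    rw [this, norm_div, hen, div_lt_iff₀ (Real.exp_pos _)]
    have hw' := hw
    unfold Vm at hw'
    rw [mem_ball, dist_eq_norm] at hw'
    linarith
  set u := w / Complex.exp m with hu
  have hre : 1 / 2 < u.re := by
    have := Complex.abs_re_le_norm (u - 1)
    rw [Complex.sub_re, Complex.one_re, abs_le] at this
    linarith [this.1]
  have hun : ‖u‖ ≤ 3 / 2 := by
    have := norm_add_le (u - 1) 1
    rw [sub_add_cancel, norm_one] at this
    linarith
  have hun2 : 1 / 2 ≤ ‖u‖ := hre.le.trans (Complex.re_le_norm u)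
  have hu0 : u ≠ 0 := by
    intro h; rw [h, norm_zero] at hun2; linarith
  refine ⟨Or.inl (by linarith), ?_, ?_⟩
  · rw [mem_ball_zero_iff]
    refine (Complex.norm_le_abs_re_add_abs_im _).trans_lt ?_
    have h2 : |(sg m w).im| ≤ Real.pi := by
      unfold sg
      rw [Complex.log_im]
      exact Complex.abs_arg_le_pi _
    have h3 : |(sg m w).re| ≤ 2 := by
      unfold sg
      rw [Complex.log_re, ← hu, abs_le]
      constructor
      · have := Real.log_le_log (by norm_num : (0 : ℝ) < 1 / 2) hun2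
        have h4 : -1 ≤ Real.log (1 / 2) := by
          rw [one_div, Real.log_inv]
          linarith [Real.log_two_lt_d9]
        linarith
      · have := Real.log_le_sub_one_of_pos (show 0 < ‖u‖ by linarith)
        linarith
    linarith [Real.pi_lt_d2]
  · unfold sg
    rw [Complex.exp_log (by rw [← hu]; exact hu0)]
    field_simp

theorem sg_diff (m : ℕ) : DifferentiableOn ℂ (sg m) (Vm m) := by
  intro w hw
  exact ((differentiableAt_id.div_const _).clog (sg_mem hw).1).differentiableWithinAt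

theorem Vm_ok (m : ℕ) : IsPreconnected (Vm m) ∧ IsOpen (Vm m) ∧ (Vm m).Nonempty :=
  ⟨(convex_ball _ _).isPreconnected, isOpen_ball, ⟨_, mem_ball_self (by positivity)⟩⟩

variable {ζ : Fin 2 → E} {f : ι → E} {k1 : ι} {p : ℕ → ℂ → Fin 2 ⊕ ι → ℂ}

/-- relations on leaves -/
theorem relT_of_alg (hf : ∀ k, IsAlgebraic (IntermediateField.adjoin ℂ (Set.range ζ)) (f k))
    (L : Lf0 ζ f k1 p) {a b : MvPolynomial (Fin 2 ⊕ ι) ℂ}
    (ha : aeval (Sum.elim ζ f) a ≠ 0) : ∀ᶠ m : ℕ in atTop,
      RelT (Vm m) (fun w => p m (sg m w) (Sum.inl 1))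
        (fun w => eval (p m (sg m w)) b / eval (p m (sg m w)) a) := by
  classical
  set ξ : Fin 2 ⊕ ι → E := Sum.elim ζ f with hξ
  have hcomp : ∀ i, IsAlgebraic (IntermediateField.adjoin ℂ (Set.range ζ)) (ξ i) := by
    rintro (i | i)
    · exact Pool.Agent.Q239.EG.alg_zeta ζ i
    · exact hf i
  have halg : IsAlgebraic (IntermediateField.adjoin ℂ (Set.range ζ)) (aeval ξ b / aeval ξ a) := by
    rw [div_eq_mul_inv]
    exact (Pool.Agent.Q239.EG.alg_aeval ζ ξ hcomp b).mul
      (Pool.Agent.Q239.EG.alg_aeval ζ ξ hcomp a).inv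
  obtain ⟨A, hA⟩ := Pool.Agent.Q166.EG.mn_alg halg
  have hlc0 : A.leadingCoeff ≠ 0 := by
    intro h; apply hA.lead; rw [h, map_zero]
  obtain ⟨_, _, hlc⟩ := poly_reg hlc0
  obtain ⟨_, _, hasz⟩ := size hf ha
  filter_upwards [hlc, hasz, L.good] with m hlc hasz hg
  have hpt : ∀ w ∈ Vm m, (p m (sg m w)) ∘ Sum.inl = ![w, p m (sg m w) (Sum.inl 1)] := by
    intro w hw
    funext i
    fin_cases i
    · show p m (sg m w) (Sum.inl 0) = w
      rw [hg.x3 _ (sg_mem hw).2.1, (sg_mem hw).2.2]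
    · rfl
  refine ⟨A, fun w hw => ?_, fun w hw => ?_⟩
  · show eval ![w, p m (sg m w) (Sum.inl 1)] A.leadingCoeff ≠ 0
    rw [← hpt w hw]
    exact (hlc _ (hg.rg _ (sg_mem hw).2.1)).1
  · show (A.map (eval ![w, p m (sg m w) (Sum.inl 1)])).eval
      (eval (p m (sg m w)) b / eval (p m (sg m w)) a) = 0
    rw [← hpt w hw]
    set P := p m (sg m w) with hP
    have hPpt : P ∈ Pt ξ := hg.pt _ (sg_mem hw).2.1
    have haP : eval P a ≠ 0 := (hasz P hPpt (hg.rg _ (sg_mem hw).2.1)).1
    have h1 := hPpt (∑ j ∈ Finset.range (A.natDegree + 1),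
      rename Sum.inl (A.coeff j) * b ^ j * a ^ (A.natDegree - j)) (by
        rw [map_sum]
        have h2 := hA.rel
        rw [Pool.Agent.Q166.EG.ev, Polynomial.eval₂_eq_sum_range] at h2
        have h3 : (∑ j ∈ Finset.range (A.natDegree + 1), Pool.Agent.Q166.EG.ph ζ (A.coeff j) *
            (aeval ξ b / aeval ξ a) ^ j) * aeval ξ a ^ A.natDegree = 0 := by rw [h2, zero_mul]
        rw [Finset.sum_mul] at h3
        rw [← h3]
        refine Finset.sum_congr rfl fun j hj => ?_
        have hj' : j ≤ A.natDegree := Nat.lt_succ_iff.1 (Finset.mem_range.1 hj)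
        rw [map_mul, map_mul, map_pow, map_pow, aeval_rename]
        have h4 : aeval ξ a ^ A.natDegree = aeval ξ a ^ j * aeval ξ a ^ (A.natDegree - j) := by
          rw [← pow_add]; congr 1; omega
        have h5 : (aeval (ξ ∘ Sum.inl) (A.coeff j) : E) = Pool.Agent.Q166.EG.ph ζ (A.coeff j) := rfl
        rw [h4, h5, div_pow]
        field_simp)
    rw [map_sum] at h1
    rw [Polynomial.eval_map, Polynomial.eval₂_eq_sum_range]
    have h6 : (∑ j ∈ Finset.range (A.natDegree + 1), eval (P ∘ Sum.inl) (A.coeff j) *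
        (eval P b / eval P a) ^ j) * eval P a ^ A.natDegree = 0 := by
      rw [← h1, Finset.sum_mul]
      refine Finset.sum_congr rfl fun j hj => ?_
      have hj' : j ≤ A.natDegree := Nat.lt_succ_iff.1 (Finset.mem_range.1 hj)
      rw [map_mul, map_mul, map_pow, map_pow, eval_rename]
      have h4 : eval P a ^ A.natDegree = eval P a ^ j * eval P a ^ (A.natDegree - j) := by
        rw [← pow_add]; congr 1; omega
      rw [h4, div_pow]
      field_simp
    exact (mul_eq_zero.1 h6).resolve_right (pow_ne_zero _ haP)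

/-- a constant function together with `x_1` does not generate `x_3` -/
theorem no_const (hf : ∀ k, IsAlgebraic (IntermediateField.adjoin ℂ (Set.range ζ)) (f k))
    (L : Lf0 ζ f k1 p) {b : MvPolynomial (Fin 2 ⊕ ι) ℂ}
    (hb : IsAlgebraic (IntermediateField.adjoin ℂ (Set.range ![ζ 1, aeval (Sum.elim ζ f) b])) (ζ 0))
    (h1 : ∀ᶠ m : ℕ in atTop, ∀ s ∈ ball (0 : ℂ) 13, p m s (Sum.inl 1) = p m 0 (Sum.inl 1))
    (h2 : ∀ᶠ m : ℕ in atTop, ∀ s ∈ ball (0 : ℂ) 13, eval (p m s) b = eval (p m 0) b) : False := by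
  classical
  set ξ : Fin 2 ⊕ ι → E := Sum.elim ζ f with hξ
  obtain ⟨G, hG⟩ := Pool.Agent.Q166.EG.mn_alg hb
  set su : MvPolynomial (Fin 2) ℂ →ₐ[ℂ] MvPolynomial (Fin 2 ⊕ ι) ℂ := aeval ![X (Sum.inl 1), b]
    with hsu
  have hsuE : ∀ g, aeval ξ (su g) = Pool.Agent.Q166.EG.ph ![ζ 1, aeval ξ b] g := by
    intro g
    rw [Pool.Agent.Q166.EG.ph_eq, hsu, ← AlgHom.comp_apply]
    congr 1
    ext i
    fin_cases i
    · simp [hξ]
    · simp
  have hsuP : ∀ (P : Fin 2 ⊕ ι → ℂ) g, eval P (su g) = eval ![P (Sum.inl 1), eval P b] g := by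
    intro P g
    have h3 : (eval P : MvPolynomial (Fin 2 ⊕ ι) ℂ →+* ℂ).comp su.toRingHom =
        eval ![P (Sum.inl 1), eval P b] := by
      ext i
      · simp
      · fin_cases i <;> simp [hsu]
    exact congrArg (fun φ : MvPolynomial (Fin 2) ℂ →+* ℂ => φ g) h3
  have hlead : aeval ξ (su G.leadingCoeff) ≠ 0 := by rw [hsuE]; exact hG.lead
  obtain ⟨_, _, hsz⟩ := size hf hlead
  obtain ⟨m, h1, h2, hsz, hg⟩ := (h1.and (h2.and (hsz.and L.good))).exists
  have h0 : (0 : ℂ) ∈ ball (0 : ℂ) 13 := mem_ball_self (by norm_num)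
  set cc : Fin 2 → ℂ := ![p m 0 (Sum.inl 1), eval (p m 0) b] with hcc
  have hl0 : eval cc G.leadingCoeff ≠ 0 := by
    have := (hsz (p m 0) (hg.pt 0 h0) (hg.rg 0 h0)).1
    rwa [hsuP] at this
  -- the polynomial with constant coefficients
  have hpoly : ∀ s ∈ ball (0 : ℂ) 13, (G.map (eval cc)).eval (p m s (Sum.inl 0)) = 0 := by
    intro s hs
    have h3 := hg.pt s hs (∑ j ∈ Finset.range (G.natDegree + 1), su (G.coeff j) * X (Sum.inl 0) ^ j) (by
      rw [map_sum]
      have h4 := hG.rel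
      rw [Pool.Agent.Q166.EG.ev, Polynomial.eval₂_eq_sum_range] at h4
      rw [← h4]
      refine Finset.sum_congr rfl fun j _ => ?_
      rw [map_mul, map_pow, aeval_X, hsuE]
      rfl)
    rw [map_sum] at h3
    rw [Polynomial.eval_map, Polynomial.eval₂_eq_sum_range, ← h3]
    refine Finset.sum_congr rfl fun j _ => ?_
    rw [map_mul, map_pow, eval_X, hsuP, h1 s hs, h2 s hs]
  have hzero : G.map (eval cc) = 0 := by
    apply Polynomial.eq_zero_of_infinite_isRoot
    have hinf : (Vm m).Infinite := by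
      have := (Vm_ok m).2
      exact infinite_of_mem_nhds (Complex.exp m) (this.1.mem_nhds (mem_ball_self (by positivity)))
    refine hinf.mono fun w hw => ?_
    have h5 := hpoly _ (sg_mem hw).2.1
    rw [hg.x3 _ (sg_mem hw).2.1, (sg_mem hw).2.2] at h5
    exact h5
  apply hl0
  have := congrArg (fun q => Polynomial.coeff q G.natDegree) hzero
  simpa [Polynomial.coeff_map] using this

/-- **no exponential of a linear form is algebraic along the leaves** -/
theorem lf_ax [Fintype ι] (hf : ∀ k, IsAlgebraic (IntermediateField.adjoin ℂ (Set.range ζ)) (f k))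
    (L : Lf0 ζ f k1 p) {i2 : ι}
    (hfree : ∀ (a b d : ℚ) (c : ℂ), algebraMap ℂ E a * ζ 1 + algebraMap ℂ E b * f i2 +
      algebraMap ℂ E d * ζ 0 = algebraMap ℂ E c → a = 0 ∧ b = 0 ∧ d = 0)
    (hE : IsAlgebraic (IntermediateField.adjoin ℂ (Set.range ![ζ 1, f k1])) (ζ 0) ∨
      ∀ k : ℤ × ℤ, k ≠ 0 → IsAlgebraic (IntermediateField.adjoin ℂ
        (Set.range ![ζ 1, (k.1 : E) * f i2 + (k.2 : E) * ζ 0])) (ζ 0))
    (a b : MvPolynomial (Fin 2 ⊕ ι) ℂ) (ha : aeval (Sum.elim ζ f) a ≠ 0)
    (hb : aeval (Sum.elim ζ f) b ≠ 0) (k : ℤ × ℤ) (hk : k ≠ 0) :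
    aeval (Sum.elim ζ f) (b * DD L.A a - a * DD L.A b +
      a * b * (C (k.1 : ℂ) * L.A (Sum.inr i2) + C (k.2 : ℂ) * L.A (Sum.inl 0))) ≠ 0 := by
  classical
  intro h0
  set ξ : Fin 2 ⊕ ι → E := Sum.elim ζ f with hξ
  set aW : MvPolynomial (Fin 2 ⊕ ι) ℂ := C (k.1 : ℂ) * X (Sum.inr i2) + C (k.2 : ℂ) * X (Sum.inl 0)
    with haW
  have h013 : (0 : ℂ) ∈ ball (0 : ℂ) 13 := mem_ball_self (by norm_num)
  -- the exponential is algebraic
  have hexpW : ∀ᶠ m : ℕ in atTop, ∃ c : ℂ, c ≠ 0 ∧ ∀ s ∈ ball (0 : ℂ) 13,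
      Complex.exp (eval (p m s) aW) = c * (eval (p m s) b / eval (p m s) a) := by
    obtain ⟨_, _, hasz⟩ := size hf ha
    obtain ⟨_, _, hbsz⟩ := size hf hb
    obtain ⟨_, _, hBsz⟩ := size hf L.hB
    filter_upwards [L.good, L.dif, hasz, hbsz, hBsz] with m hg hdif hasz hbsz hBsz
    have han : ∀ s ∈ ball (0 : ℂ) 13, eval (p m s) a ≠ 0 := fun s hs =>
      (hasz _ (hg.pt s hs) (hg.rg s hs)).1
    have hbn : ∀ s ∈ ball (0 : ℂ) 13, eval (p m s) b ≠ 0 := fun s hs =>
      (hbsz _ (hg.pt s hs) (hg.rg s hs)).1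
    have hBn : ∀ s ∈ ball (0 : ℂ) 13, eval (p m s) L.B ≠ 0 := fun s hs =>
      (hBsz _ (hg.pt s hs) (hg.rg s hs)).1
    set φ : ℂ → ℂ := fun s => eval (p m s) a / eval (p m s) b * Complex.exp (eval (p m s) aW) with hφ
    have hφd : ∀ s ∈ ball (0 : ℂ) 13, HasDerivAt φ 0 s := by
      intro s hs
      have e1 := hasDeriv_eval (hdif s hs) a
      have e2 := hasDeriv_eval (hdif s hs) b
      have e3 := hasDeriv_eval (hdif s hs) aW
      have e4 := (e1.fun_div e2 (hbn s hs)).fun_mul e3.cexp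
      refine e4.congr_deriv ?_
      have e5 : DD L.A aW = C (k.1 : ℂ) * L.A (Sum.inr i2) + C (k.2 : ℂ) * L.A (Sum.inl 0) := by
        simp only [DD, haW, map_add, Derivation.leibniz, pderiv_C, smul_eq_mul]
        have e6 : ∀ (i j : Fin 2 ⊕ ι) (c : ℂ), L.A j * (C c * pderiv j (X i : MvPolynomial (Fin 2 ⊕ ι) ℂ)) =
            if j = i then C c * L.A j else 0 := by
          intro i j c
          by_cases hji : j = i
          · subst hji; rw [pderiv_X_self, if_pos rfl]; ring
          · rw [pderiv_X_of_ne (fun h => hji h.symm), if_neg hji]; ring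
        simp only [mul_add, e6, Finset.sum_add_distrib]
        rw [Finset.sum_ite_eq' Finset.univ, Finset.sum_ite_eq' Finset.univ]
        simp
      have e7 := hg.pt s hs _ h0
      rw [← e5] at e7
      simp only [map_add, map_sub, map_mul] at e7
      have hb' := hbn s hs
      have hB' := hBn s hs
      field_simp
      linear_combination Complex.exp (eval (p m s) aW) * e7
    have hconst : ∀ s ∈ ball (0 : ℂ) 13, φ s = φ 0 := by
      intro s hs
      refine isOpen_ball.is_const_of_deriv_eq_zero (convex_ball (0 : ℂ) 13).isPreconnected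
        (fun w hw => (hφd w hw).differentiableAt.differentiableWithinAt)
        (fun w hw => (hφd w hw).deriv) hs h013
    refine ⟨φ 0, ?_, fun s hs => ?_⟩
    · simp only [hφ]
      exact mul_ne_zero (div_ne_zero (han 0 h013) (hbn 0 h013)) (Complex.exp_ne_zero _)
    · rw [← hconst s hs]
      have ha' := han s hs
      have hb' := hbn s hs
      simp only [hφ]
      field_simp
  -- relations
  have h1E : aeval ξ (1 : MvPolynomial (Fin 2 ⊕ ι) ℂ) ≠ 0 := by rw [map_one]; exact one_ne_zero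
  have hrW := relT_of_alg hf L (a := 1) (b := aW) h1E
  have hrT := relT_of_alg hf L (a := 1) (b := X (Sum.inr k1)) h1E
  have hrb := relT_of_alg hf L (a := a) (b := b) ha
  have hana : ∀ᶠ m : ℕ in atTop, ∀ g : MvPolynomial (Fin 2 ⊕ ι) ℂ,
      AnalyticOnNhd ℂ (fun w => eval (p m (sg m w)) g) (Vm m) := by
    filter_upwards [L.dif] with m hdif g
    refine DifferentiableOn.analyticOnNhd ?_ (Vm_ok m).2.1
    intro w hw
    have e1 := hasDeriv_eval (hdif _ (sg_mem hw).2.1) g
    have e2 : DifferentiableAt ℂ (sg m) w := (sg_diff m).differentiableAt ((Vm_ok m).2.1.mem_nhds hw)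
    exact (DifferentiableAt.comp w e1.differentiableAt e2).differentiableWithinAt
  -- transfer from `Vm` to a neighbourhood of `0`
  have htrans : ∀ m : ℕ, ∀ᶠ s in 𝓝 (0 : ℂ), Complex.exp m * Complex.exp s ∈ Vm m ∧
      sg m (Complex.exp m * Complex.exp s) = s := by
    intro m
    have hc : ContinuousAt (fun s : ℂ => Complex.exp m * Complex.exp s) 0 := by fun_prop
    have h3 : Vm m ∈ 𝓝 (Complex.exp m * Complex.exp 0) := by
      rw [Complex.exp_zero, mul_one]
      exact (Vm_ok m).2.1.mem_nhds (mem_ball_self (by positivity))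
    filter_upwards [hc h3, ball_mem_nhds (0 : ℂ) one_pos] with s hs hs1
    refine ⟨hs, ?_⟩
    unfold sg
    rw [mul_div_cancel_left₀ _ (Complex.exp_ne_zero _)]
    rw [mem_ball_zero_iff] at hs1
    have := (Complex.abs_im_le_norm s).trans_lt hs1
    rw [abs_lt] at this
    exact Complex.log_exp (by linarith [Real.pi_gt_three]) (by linarith [Real.pi_gt_three])
  -- constancy on `Vm` gives vanishing derivatives
  have hcd : ∀ᶠ m : ℕ in atTop, ∀ g : MvPolynomial (Fin 2 ⊕ ι) ℂ,
      (∃ c, ∀ w ∈ Vm m, eval (p m (sg m w)) g = c) → eval (p m 0) (DD L.A g) = 0 := by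
    obtain ⟨_, _, hBsz⟩ := size hf L.hB
    filter_upwards [L.dif, L.good, hBsz] with m hdif hg hBsz g hc
    obtain ⟨c, hc⟩ := hc
    have e1 := hasDeriv_eval (hdif 0 h013) g
    have e2 : (fun s => eval (p m s) g) =ᶠ[𝓝 0] fun _ => c := by
      filter_upwards [htrans m] with s hs
      have := hc _ hs.1
      rwa [hs.2] at this
    have e3 := (e1.congr_of_eventuallyEq e2.symm).unique (hasDerivAt_const _ c)
    exact (div_eq_zero_iff.1 e3).resolve_right (hBsz _ (hg.pt 0 h013) (hg.rg 0 h013)).1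
  by_cases hT0 : aeval ξ (DD L.A (X (Sum.inl 1))) = 0
  · -- `x_1` is constant on the leaves
    have hconst : ∀ g : MvPolynomial (Fin 2 ⊕ ι) ℂ, aeval ξ (DD L.A g) = 0 →
        ∀ᶠ m : ℕ in atTop, ∀ s ∈ ball (0 : ℂ) 13, eval (p m s) g = eval (p m 0) g := by
      intro g hg0
      filter_upwards [L.good, L.dif] with m hg hdif s hs
      refine isOpen_ball.is_const_of_deriv_eq_zero (convex_ball (0 : ℂ) 13).isPreconnected
        (f := fun s => eval (p m s) g) (fun w hw =>
          (hasDeriv_eval (hdif w hw) g).differentiableAt.differentiableWithinAt)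
        (fun w hw => ?_) hs h013
      have e1 := hasDeriv_eval (hdif w hw) g
      rw [hg.pt w hw _ hg0, zero_div] at e1
      exact e1.deriv
    have hT1 := hconst _ hT0
    simp only [eval_X] at hT1
    have hy1 : ∀ᶠ m : ℕ in atTop, ∀ s ∈ ball (0 : ℂ) 13,
        eval (p m s) (X (Sum.inr k1)) = eval (p m 0) (X (Sum.inr k1)) := by
      filter_upwards [hT1, L.good] with m h1 hg s hs
      rw [eval_X, eval_X, ← hg.ex s hs, ← hg.ex 0 h013, h1 s hs]
    -- `W` is constant on the leaves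
    have hW0 : aeval ξ (DD L.A aW) = 0 := by
      by_contra hne
      obtain ⟨_, _, hsz⟩ := size hf hne
      obtain ⟨m, hm⟩ := (hT1.and (hexpW.and (hrW.and (hrb.and (hana.and (hcd.and
        (hsz.and L.good))))))).exists
      obtain ⟨hT1, ⟨c, hc0, hexp⟩, hrW, hrb, hana, hcd, hsz, hg⟩ := hm
      refine (hsz _ (hg.pt 0 h013) (hg.rg 0 h013)).1 (hcd aW ?_)
      set t0 := p m 0 (Sum.inl 1) with ht0
      have hTt : ∀ w ∈ Vm m, p m (sg m w) (Sum.inl 1) = t0 := fun w hw => hT1 _ (sg_mem hw).2.1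
      -- relations over `ℂ(x)`
      have hrel0 : ∀ g : ℂ → ℂ, RelT (Vm m) (fun w => p m (sg m w) (Sum.inl 1)) g →
          ∃ A : Polynomial (Polynomial ℂ), A ≠ 0 ∧ ∀ w ∈ Vm m,
            (A.map (Polynomial.evalRingHom w)).eval (g w) = 0 := by
        rintro g ⟨A, hA1, hA2⟩
        set su : MvPolynomial (Fin 2) ℂ →+* Polynomial ℂ :=
          (aeval ![Polynomial.X, Polynomial.C t0] : MvPolynomial (Fin 2) ℂ →ₐ[ℂ] Polynomial ℂ).toRingHom
          with hsu
        have hsue : ∀ w : ℂ, (Polynomial.evalRingHom w).comp su = eval ![w, t0] := by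
          intro w
          ext i
          · simp [hsu]
          · fin_cases i <;> simp [hsu]
        refine ⟨A.map su, ?_, fun w hw => ?_⟩
        · intro h
          obtain ⟨w, hw⟩ := (Vm_ok m).2.2
          apply hA1 w hw
          have h4 := congrArg (fun q => Polynomial.coeff q A.natDegree) h
          simp only [Polynomial.coeff_map, Polynomial.coeff_zero] at h4
          have h5 := congrArg (fun φ : MvPolynomial (Fin 2) ℂ →+* ℂ => φ A.leadingCoeff) (hsue w)
          simp only [RingHom.comp_apply] at h5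
          beta_reduce
          rw [hTt w hw, ← h5]
          show Polynomial.evalRingHom w (su (A.coeff A.natDegree)) = 0
          rw [h4, map_zero]
        · rw [Polynomial.map_map, hsue w]
          have h4 := hA2 w hw
          simp only [hTt w hw] at h4
          exact h4
      obtain ⟨A1, hA10, hA1⟩ := hrel0 _ hrW
      obtain ⟨A2, hA20, hA2⟩ := hrel0 _ (hrb.smul hc0)
      obtain ⟨c', hc'⟩ := ax_zero (Vm_ok m).1 (Vm_ok m).2.1 (Vm_ok m).2.2 (hana aW) hA10 hA20
        (fun w hw => by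
          have := hA1 w hw
          simpa using this)
        (fun w hw => by
          rw [hexp _ (sg_mem hw).2.1]
          exact hA2 w hw)
      exact ⟨c', hc'⟩
    have hW1 := hconst _ hW0
    rcases hE with hE | hE
    · exact no_const hf L (b := X (Sum.inr k1)) (by rw [aeval_X]; exact hE) hT1 hy1
    · refine no_const hf L (b := aW) ?_ hT1 hW1
      have e1 : aeval ξ aW = (k.1 : E) * f i2 + (k.2 : E) * ζ 0 := by
        simp [haW, hξ]
      rw [e1]
      exact hE k hk
  · -- `x_1` is not constant on the leaves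
    obtain ⟨_, _, hsz⟩ := size hf hT0
    obtain ⟨m, hm⟩ := (hexpW.and (hrW.and (hrT.and (hrb.and (hana.and (hcd.and
      (hsz.and L.good))))))).exists
    obtain ⟨⟨c, hc0, hexp⟩, hrW, hrT, hrb, hana, hcd, hsz, hg⟩ := hm
    obtain ⟨hVc, hVo, hVn⟩ := Vm_ok m
    have hTa := hana (X (Sum.inl 1))
    simp only [eval_X] at hTa
    have hTn : ¬ ∃ c, ∀ w ∈ Vm m, p m (sg m w) (Sum.inl 1) = c := by
      rintro ⟨c', hc'⟩
      exact (hsz _ (hg.pt 0 h013) (hg.rg 0 h013)).1 (hcd (X (Sum.inl 1))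
        ⟨c', fun w hw => by rw [eval_X]; exact hc' w hw⟩)
    have rT' : RelT (Vm m) (fun w => p m (sg m w) (Sum.inl 1))
        fun w => Complex.exp (p m (sg m w) (Sum.inl 1)) := by
      obtain ⟨A, h1, h2⟩ := hrT
      refine ⟨A, h1, fun w hw => ?_⟩
      have := h2 w hw
      simp only [eval_X, map_one, div_one] at this
      beta_reduce
      rw [hg.ex _ (sg_mem hw).2.1]
      exact this
    have rW : RelT (Vm m) (fun w => p m (sg m w) (Sum.inl 1)) fun w => eval (p m (sg m w)) aW := by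
      obtain ⟨A, h1, h2⟩ := hrW
      refine ⟨A, h1, fun w hw => ?_⟩
      have := h2 w hw
      simpa using this
    have rW' : RelT (Vm m) (fun w => p m (sg m w) (Sum.inl 1))
        fun w => Complex.exp (eval (p m (sg m w)) aW) := by
      obtain ⟨A, h1, h2⟩ := hrb.smul hc0
      refine ⟨A, h1, fun w hw => ?_⟩
      beta_reduce
      rw [hexp _ (sg_mem hw).2.1]
      exact h2 w hw
    obtain ⟨q, hq0, c', hc'⟩ := ax_two hVc hVo hVn hTa (hana aW) rW rT' rW'
    set G : MvPolynomial (Fin 2 ⊕ ι) ℂ := C ((q 0 : ℚ) : ℂ) * X (Sum.inl 1) +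
      C ((q 1 : ℚ) : ℂ) * aW - C c' with hG
    have hG0 : aeval ξ G = 0 := by
      by_contra hGne
      have hcomp : ∀ i, IsAlgebraic (IntermediateField.adjoin ℂ (Set.range ζ)) (ξ i) := by
        rintro (i | i)
        · exact Pool.Agent.Q239.EG.alg_zeta ζ i
        · exact hf i
      obtain ⟨A, hA⟩ := Pool.Agent.Q166.EG.mn_alg (Pool.Agent.Q239.EG.alg_aeval ζ ξ hcomp G)
      have hA0 : A.coeff 0 ≠ 0 := by
        intro h
        apply hA.zero hGne
        rw [h, map_zero]
      apply hA0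
      refine ax_one hVc hVo hVn hTa hTn rT' fun w hw => ?_
      have hpt : (p m (sg m w)) ∘ Sum.inl = ![w, p m (sg m w) (Sum.inl 1)] := by
        funext i
        fin_cases i
        · show p m (sg m w) (Sum.inl 0) = w
          rw [hg.x3 _ (sg_mem hw).2.1, (sg_mem hw).2.2]
        · rfl
      rw [← hpt]
      have h4 := hg.pt _ (sg_mem hw).2.1 (∑ j ∈ Finset.range (A.natDegree + 1),
        rename Sum.inl (A.coeff j) * G ^ j) (by
          rw [map_sum]
          have h2 := hA.rel
          rw [Pool.Agent.Q166.EG.ev, Polynomial.eval₂_eq_sum_range] at h2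
          rw [← h2]
          refine Finset.sum_congr rfl fun j _ => ?_
          rw [map_mul, map_pow, aeval_rename]
          rfl)
      have h5 : eval (p m (sg m w)) G = 0 := by
        rw [hG, map_sub, map_add, map_mul, map_mul, eval_C, eval_C, eval_C, eval_X]
        rw [hc' w hw, sub_self]
      rw [map_sum, Finset.sum_range_succ'] at h4
      simp only [map_mul, map_pow, h5, pow_succ, mul_zero, Finset.sum_const_zero, zero_add,
        pow_zero, mul_one, eval_rename] at h4
      exact h4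
    have h6 := hfree (q 0) (q 1 * k.1) (q 1 * k.2) c' (by
      have h7 : aeval ξ G = algebraMap ℂ E ((q 0 : ℚ) : ℂ) * ζ 1 + algebraMap ℂ E ((q 1 : ℚ) : ℂ) *
          (algebraMap ℂ E (k.1 : ℂ) * f i2 + algebraMap ℂ E (k.2 : ℂ) * ζ 0) - algebraMap ℂ E c' := by
        simp only [hG, haW, hξ, map_sub, map_add, map_mul, aeval_C, aeval_X, Sum.elim_inl,
          Sum.elim_inr]
      rw [hG0] at h7
      have e1 : ((q 1 * (k.1 : ℚ) : ℚ) : ℂ) = ((q 1 : ℚ) : ℂ) * (k.1 : ℂ) := by push_cast; rfl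
      have e2 : ((q 1 * (k.2 : ℚ) : ℚ) : ℂ) = ((q 1 : ℚ) : ℂ) * (k.2 : ℂ) := by push_cast; rfl
      rw [e1, e2, map_mul, map_mul]
      linear_combination -h7)
    apply hq0
    have hq1 : q 1 = 0 := by
      by_contra hne
      apply hk
      have h8 := h6.2.1
      have h9 := h6.2.2
      rw [mul_eq_zero, or_iff_right hne] at h8 h9
      exact Prod.ext (by exact_mod_cast h8) (by exact_mod_cast h9)
    funext i
    fin_cases i
    · exact h6.1
    · exact hq1

end Pool.Agent.Helper57.NT
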