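import Pool.Agent.Helper57.NT.Sheet
import Pool.Graph.R_pool_sql_team_seeded_5cf16337.Results.MP_209724_lc.LinearSpacesAtInfinity

/-!
Project NT (helper57), part 3 (helper18): dominant projections.
-/

set_option autoImplicit false

namespace Pool.Agent.Helper57.NT

open MvPolynomial Pool.Agent.Q72.EG

/-- the product of the coordinates `y` -/
noncomputable def prY (n : ℕ) : MvPolynomial (Fin n ⊕ Fin n) ℂ := ∏ l : Fin n, X (Sum.inr l)

theorem aeval_prY {n : ℕ} {E : Type} [Field E] [Algebra ℂ E] (x y : Fin n → E) :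
    aeval (Sum.elim x y) (prY n) = ∏ l, y l := by
  simp [prY, map_prod]

theorem eval_prY {n : ℕ} (p : Fin n ⊕ Fin n → ℂ) : eval p (prY n) = ∏ l, p (Sum.inr l) := by
  simp [prY, map_prod]

theorem bm : S_bm := by
  classical
  intro n E _ _ x y hn hy hx H hH
  set P : Ideal (MvPolynomial (Fin n ⊕ Fin n) ℂ) :=
    RingHom.ker (aeval (Sum.elim x y) : MvPolynomial _ ℂ →ₐ[ℂ] E).toRingHom with hP
  have hPp : P.IsPrime := RingHom.ker_isPrime _
  have hmem : ∀ q, q ∈ P ↔ aeval (Sum.elim x y) q = 0 := fun q => RingHom.mem_ker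
  set V : Set (Fin n ⊕ Fin n → ℂ) :=
    {p | (∀ f ∈ P, eval p f = 0) ∧ ∀ j : Fin n, p (Sum.inr j) ≠ 0} with hV
  have hYne : (∏ l, y l) ≠ 0 := Finset.prod_ne_zero_iff.2 fun l _ => hy l
  -- points with `g ≠ 0`
  have hpt : ∀ g : MvPolynomial (Fin n ⊕ Fin n) ℂ, aeval (Sum.elim x y) g ≠ 0 →
      ∃ p ∈ V, eval p g ≠ 0 := by
    intro g hg
    obtain ⟨p, hp, hp2⟩ := Pool.Agent.Helper57.HT.exists_pt (ξ := Sum.elim x y) (g := g * prY n) (by
      rw [map_mul, aeval_prY]
      exact mul_ne_zero hg hYne)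
    rw [map_mul, eval_prY] at hp2
    refine ⟨p, ⟨fun f hf => hp f ((hmem f).1 hf), fun j hj => ?_⟩, left_ne_zero_of_mul hp2⟩
    exact right_ne_zero_of_mul hp2 (Finset.prod_eq_zero (Finset.mem_univ j) hj)
  have hvan : ∀ g : MvPolynomial (Fin n ⊕ Fin n) ℂ, (∀ p ∈ V, eval p g = 0) →
      aeval (Sum.elim x y) g = 0 := by
    intro g hg
    by_contra h
    obtain ⟨p, hp, hp2⟩ := hpt g h
    exact hp2 (hg p hp)
  obtain ⟨p0, hp0, -⟩ := hpt 1 (by rw [map_one]; exact one_ne_zero)
  have hvar : Pool.Agent.Results.MP_209724_lc.LinearSpacesAtInfinity.IsVariety P V :=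
    ⟨hPp, rfl, ⟨p0, hp0⟩⟩
  -- the base is everything
  have hbase : ∀ f : MvPolynomial (Fin n) ℂ, (∀ p ∈ V, eval (fun i => p (Sum.inl i)) f = 0) → f = 0 := by
    intro f hf
    apply hx
    have h1 := hvan (rename Sum.inl f) (fun p hp => by rw [eval_rename]; exact hf p hp)
    rw [aeval_rename] at h1
    exact h1
  -- the dimension
  have hdim : ∃ m, n ≤ m ∧ Pool.Agent.Results.MP_209724_lc.LinearSpacesAtInfinity.HasDim V m := by
    set S : Finset (Finset (Fin n ⊕ Fin n)) := Finset.univ.filter fun J =>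
      Pool.Agent.Results.MP_209724_lc.LinearSpacesAtInfinity.Indep V J with hS
    set J0 : Finset (Fin n ⊕ Fin n) := Finset.univ.image Sum.inl with hJ0
    have hJ0c : J0.card = n := by
      rw [hJ0, Finset.card_image_of_injective _ Sum.inl_injective, Finset.card_univ, Fintype.card_fin]
    have hJ0S : J0 ∈ S := by
      rw [hS, Finset.mem_filter]
      refine ⟨Finset.mem_univ _, fun f hf hf2 => ?_⟩
      obtain ⟨f', rfl⟩ := exists_rename_eq_of_vars_subset_range f (Sum.inl : Fin n → Fin n ⊕ Fin n)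
        Sum.inl_injective (by
          intro v hv
          have := hf hv
          rw [hJ0, Finset.mem_image] at this
          obtain ⟨i, -, hi⟩ := this
          exact ⟨i, hi⟩)
      rw [hbase f' fun p hp => by
        have := hf2 p hp
        rwa [eval_rename] at this, map_zero]
    obtain ⟨J1, hJ1, hmax⟩ := S.exists_max_image Finset.card ⟨J0, hJ0S⟩
    refine ⟨J1.card, ?_, ⟨J1, rfl, (Finset.mem_filter.1 hJ1).2⟩, fun J hJ hJi => ?_⟩
    · have := hmax J0 hJ0S
      omega
    · have := hmax J (Finset.mem_filter.2 ⟨Finset.mem_univ _, hJi⟩)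
      omega
  obtain ⟨m, hnm, hm⟩ := hdim
  have hgp : Pool.Agent.Results.MP_209724_lc.LinearSpacesAtInfinity.GeneralPosition n
      (⊤ : Submodule ℂ (Fin n → ℂ)) := by
    refine ⟨by rw [finrank_top, Module.finrank_fin_fun], fun c hc _ => ?_, fun c hc _ => ?_⟩
    · obtain ⟨i, hi⟩ := Function.ne_iff.1 hc
      refine ⟨Pi.single i 1, Submodule.mem_top, ?_⟩
      rw [Finset.sum_eq_single i]
      · simpa using hi
      · intro j _ hj
        rw [Pi.single_eq_of_ne hj, mul_zero]
      · intro h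
        exact absurd (Finset.mem_univ i) h
    · obtain ⟨i, hi⟩ := Function.ne_iff.1 hc
      refine ⟨Pi.single i 1, Submodule.mem_top, ?_⟩
      rw [Finset.sum_eq_single i]
      · simpa using hi
      · intro j _ hj
        rw [Pi.single_eq_of_ne hj, mul_zero]
      · intro h
        exact absurd (Finset.mem_univ i) h
  have hover : Pool.Agent.Results.MP_209724_lc.LinearSpacesAtInfinity.OverTranslate V
      (⊤ : Submodule ℂ (Fin n → ℂ)) := by
    refine ⟨⊤, AffineSubspace.direction_top _ _ _, fun p _ => AffineSubspace.mem_top _ _ _, ?_⟩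
    intro f hf z _
    rw [hbase f hf, map_zero]
  have htr : ∀ p, p ∈ Pool.Agent.Results.MP_209724_lc.LinearSpacesAtInfinity.Translate
      (Sum.elim (fun _ => 0) fun _ => 1) V ↔ p ∈ V := by
    intro p
    constructor
    · rintro ⟨u, hu, rfl⟩
      have : (Sum.elim (fun i => u (Sum.inl i) + Sum.elim (fun _ => (0 : ℂ)) (fun _ => 1) (Sum.inl i : Fin n ⊕ Fin n))
          fun i => Sum.elim (fun _ => (0 : ℂ)) (fun _ => 1) (Sum.inr i : Fin n ⊕ Fin n) * u (Sum.inr i)) = u := by
        funext i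
        rcases i with i | i <;> simp
      rw [this]
      exact hu
    · intro hp
      refine ⟨p, hp, ?_⟩
      funext i
      rcases i with i | i <;> simp
  obtain ⟨z, hz, hz2⟩ := (Pool.Agent.Results.MP_209724_lc.LinearSpacesAtInfinity.result.1 n n ⊤ hn hgp
    P V hvar m hnm hm (Or.inl hover)).1 (Sum.elim (fun _ => 0) fun _ => 1) (fun i => by simp) H (by
      obtain ⟨p, hp, hp2⟩ := hpt H hH
      exact ⟨p, (htr p).2 hp, hp2⟩)
  rw [htr] at hz
  exact ⟨z, fun g hg => hz.1 g ((hmem g).2 hg), hz2⟩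

end Pool.Agent.Helper57.NT
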