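import Pool.Agent.Helper57.NT.Sheet

/-!
Project NT (helper57), part 4 (helper18): the algebraic closure operator, lifting of points.
-/

set_option autoImplicit false

namespace Pool.Agent.Helper57.NT

open MvPolynomial Pool.Agent.Q72.EG

section cl

variable {E : Type} [Field E] [Algebra ℂ E]

/-- algebraic closure operator -/
noncomputable def cl (S : Set E) : Set E := (AlgebraicIndependent.matroid ℂ E).closure S

theorem mem_cl {S : Set E} {a : E} : a ∈ cl S ↔ IsAlgebraic (IntermediateField.adjoin ℂ S) a := by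
  rw [cl, AlgebraicIndependent.matroid_closure_eq, SetLike.mem_coe, Subalgebra.mem_algebraicClosure,
    IntermediateField.isAlgebraic_adjoin_iff]

theorem subset_cl (S : Set E) : S ⊆ cl S :=
  (AlgebraicIndependent.matroid ℂ E).subset_closure S (Set.subset_univ S)

theorem cl_mono {S T : Set E} (h : S ⊆ T) : cl S ⊆ cl T :=
  (AlgebraicIndependent.matroid ℂ E).closure_subset_closure h

theorem cl_trans {S T : Set E} (h : T ⊆ cl S) : cl T ⊆ cl S :=
  (AlgebraicIndependent.matroid ℂ E).closure_subset_closure_of_subset_closure h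

theorem cl_exch {S : Set E} {a b : E} (h : a ∈ cl (insert b S)) (h' : a ∉ cl S) :
    b ∈ cl (insert a S) :=
  (AlgebraicIndependent.matroid ℂ E).mem_closure_insert h' h

/-- the closure is a field -/
noncomputable def clF (S : Set E) : IntermediateField (IntermediateField.adjoin ℂ S) E :=
  algebraicClosure (IntermediateField.adjoin ℂ S) E

theorem mem_clF {S : Set E} {a : E} : a ∈ cl S ↔ a ∈ clF S := by
  rw [mem_cl, clF, mem_algebraicClosure_iff]

theorem cl_add {S : Set E} {a b : E} (ha : a ∈ cl S) (hb : b ∈ cl S) : a + b ∈ cl S := by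
  rw [mem_clF] at *
  exact add_mem ha hb

theorem cl_mul {S : Set E} {a b : E} (ha : a ∈ cl S) (hb : b ∈ cl S) : a * b ∈ cl S := by
  rw [mem_clF] at *
  exact mul_mem ha hb

theorem cl_int {S : Set E} (m : ℤ) : (m : E) ∈ cl S := by
  rw [mem_clF]
  exact intCast_mem _ m

theorem cl_one {S : Set E} : (1 : E) ∈ cl S := by
  rw [mem_clF]
  exact one_mem _

theorem cl_zpow {S : Set E} {a : E} (m : ℤ) (ha : a ∈ cl S) : a ^ m ∈ cl S := by
  rw [mem_clF] at *
  exact zpow_mem ha m

theorem cl_of_adjoin {S : Set E} {a : E} (ha : a ∈ IntermediateField.adjoin ℂ S) : a ∈ cl S := by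
  rw [mem_cl]
  exact isAlgebraic_algebraMap (⟨a, ha⟩ : IntermediateField.adjoin ℂ S)

theorem cl_empty {a : E} (ha : a ∈ cl (∅ : Set E)) : ∃ c : ℂ, a = algebraMap ℂ E c := by
  rw [mem_cl, IntermediateField.isAlgebraic_adjoin_iff, Algebra.adjoin_empty] at ha
  have h1 : IsAlgebraic ℂ a := ha.restrictScalars ℂ
  have h2 : IsIntegral ℂ a := h1.isIntegral
  have h3 : (minpoly ℂ a).degree = 1 :=
    IsAlgClosed.degree_eq_one_of_irreducible ℂ (minpoly.irreducible h2)
  obtain ⟨c, hc⟩ := minpoly.mem_range_of_degree_eq_one ℂ a h3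
  exact ⟨c, hc.symm⟩

/-- two independent elements are not algebraic over one element -/
theorem not_indep {u v w : E} (hu : u ∈ cl {w}) (hv : v ∈ cl {w}) :
    ¬ AlgebraicIndependent ℂ ![u, v] := by
  intro h
  have h1 : u ∉ cl (∅ : Set E) := by
    have := h.transcendental_adjoin (s := ∅) (i := 0) (Set.notMem_empty _)
    rw [Set.image_empty] at this
    rw [mem_cl, IntermediateField.isAlgebraic_adjoin_iff]
    exact this
  have h2 : v ∉ cl ({u} : Set E) := by
    have := h.transcendental_adjoin (s := {0}) (i := 1) (by simp)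
    rw [Set.image_singleton] at this
    rw [mem_cl, IntermediateField.isAlgebraic_adjoin_iff]
    exact this
  have h3 : w ∈ cl ({u} : Set E) := by
    have := cl_exch (S := ∅) (a := u) (b := w) (by simpa using hu) h1
    simpa using this
  exact h2 (cl_trans (Set.singleton_subset_iff.2 h3) hv)

/-- adding an element to an independent family -/
theorem indep_succ {n : ℕ} (x : Fin (n + 1) → E) (h : AlgebraicIndependent ℂ (x ∘ Fin.castSucc))
    (h' : x (Fin.last n) ∉ cl (Set.range (x ∘ Fin.castSucc))) : AlgebraicIndependent ℂ x := by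
  rw [mem_cl, IntermediateField.isAlgebraic_adjoin_iff] at h'
  have h1 := (h.option_iff_transcendental (x (Fin.last n))).2 h'
  rw [← algebraicIndependent_equiv (finSuccEquivLast (n := n)).symm]
  convert h1 using 1
  funext o
  rcases o with _ | i <;> simp

/-- transport to a larger field -/
theorem cl_map {F : Type} [Field F] [Algebra ℂ F] (φ : F →ₐ[ℂ] E) (S : Set F) (a : F) :
    a ∈ cl S ↔ φ a ∈ cl (φ '' S) := by
  rw [mem_cl, mem_cl, IntermediateField.isAlgebraic_adjoin_iff, IntermediateField.isAlgebraic_adjoin_iff]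
  have hφ : Function.Injective φ := φ.toRingHom.injective
  have e1 : Algebra.adjoin ℂ (φ '' S) = (Algebra.adjoin ℂ S).map φ := (AlgHom.map_adjoin φ S).symm
  rw [e1]
  set f : Algebra.adjoin ℂ S ≃ₐ[ℂ] (Algebra.adjoin ℂ S).map φ :=
    (Algebra.adjoin ℂ S).equivMapOfInjective φ hφ with hf
  exact (isAlgebraic_ringHom_iff_of_comp_eq f (φ : F →+* E) hφ (by
    ext x
    rfl)).symm

end cl

section pt

variable {E : Type} [Field E] [Algebra ℂ E]

theorem pt_comp {σ τ : Type} (ξ : σ → E) (e : τ → σ) {p : σ → ℂ} (hp : p ∈ Pt ξ) :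
    p ∘ e ∈ Pt (ξ ∘ e) := by
  intro g hg
  rw [← aeval_rename] at hg
  have := hp _ hg
  rwa [eval_rename] at this

theorem aeval_sub {F : Type} [Field F] [Algebra ℂ F] (φ : F →ₐ[ℂ] E) {σ : Type} (ξ : σ → F)
    (g : MvPolynomial σ ℂ) : aeval (fun i => φ (ξ i)) g = φ (aeval ξ g) := by
  rw [← AlgHom.comp_apply]
  congr 1
  ext i
  simp

theorem pt_sub {F : Type} [Field F] [Algebra ℂ F] (φ : F →ₐ[ℂ] E) {σ : Type} (ξ : σ → F) :
    Pt (fun i => φ (ξ i)) = Pt ξ := by
  have h := aeval_sub φ ξ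
  ext p
  constructor
  · intro hp g hg
    exact hp g (by rw [h, hg, map_zero])
  · intro hp g hg
    rw [h] at hg
    exact hp g ((map_eq_zero φ).1 hg)

/-- lifting of points -/
theorem lift_pt {σ ι : Type} [Finite σ] [Finite ι] (ζ : σ → E) (f : ι → E)
    (hall : ∀ k, IsAlgebraic (IntermediateField.adjoin ℂ (Set.range ζ)) (f k)) :
    ∃ H1 : MvPolynomial σ ℂ, aeval ζ H1 ≠ 0 ∧ ∀ t ∈ Pt ζ, eval t H1 ≠ 0 →
      ∃ q : ι → ℂ, Sum.elim t q ∈ Pt (Sum.elim ζ f) := by
  obtain ⟨H1, h1, h2⟩ := Pool.Agent.Helper57.HT.lift_alg ζ f hall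
  refine ⟨H1, h1, fun t ht htH => ?_⟩
  obtain ⟨q, -, hq⟩ := h2 (V := ℂ) Set.univ isOpen_univ convex_univ ⟨0, trivial⟩ (fun _ => t)
    (fun i => differentiableOn_const _) (fun _ _ => ht) (fun _ _ => htH)
  exact ⟨q 0, hq 0 trivial⟩

/-- polynomials in the last variable -/
noncomputable def toP (σ : Type) : MvPolynomial (σ ⊕ Unit) ℂ →ₐ[ℂ] Polynomial (MvPolynomial σ ℂ) :=
  aeval (Sum.elim (fun i => Polynomial.C (X i)) (fun _ => Polynomial.X))

theorem toP_eval {F : Type} [Field F] [Algebra ℂ F] {σ : Type} (ζ : σ → F) (w : F)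
    (g : MvPolynomial (σ ⊕ Unit) ℂ) :
    (toP σ g).eval₂ (aeval ζ : MvPolynomial σ ℂ →ₐ[ℂ] F).toRingHom w =
      aeval (Sum.elim ζ fun _ => w) g := by
  have h : ((Polynomial.eval₂RingHom (aeval ζ : MvPolynomial σ ℂ →ₐ[ℂ] F).toRingHom w).comp
      (toP σ).toRingHom) = (aeval (Sum.elim ζ fun _ => w) : MvPolynomial _ ℂ →ₐ[ℂ] F).toRingHom := by
    refine MvPolynomial.ringHom_ext (fun r => ?_) (fun i => ?_)
    · simp [toP]
    · rcases i with i | i <;> simp [toP]
  exact congrArg (fun φ => φ g) h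

/-- adding a transcendental coordinate -/
theorem pt_trans {σ : Type} (ζ : σ → E) (w : E)
    (hw : Transcendental (IntermediateField.adjoin ℂ (Set.range ζ)) w) {t : σ → ℂ} (ht : t ∈ Pt ζ)
    (c : ℂ) : Sum.elim t (fun _ : Unit => c) ∈ Pt (Sum.elim ζ (fun _ : Unit => w)) := by
  intro g hg
  rw [← toP_eval] at hg
  set K := IntermediateField.adjoin ℂ (Set.range ζ) with hK
  let ζ' : σ → K := fun i => ⟨ζ i, IntermediateField.subset_adjoin _ _ ⟨i, rfl⟩⟩
  have h1 : (aeval ζ : MvPolynomial σ ℂ →ₐ[ℂ] E).toRingHom =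
      (algebraMap K E).comp (aeval ζ' : MvPolynomial σ ℂ →ₐ[ℂ] K).toRingHom := by
    refine MvPolynomial.ringHom_ext (fun r => ?_) (fun i => ?_)
    · simp
    · simp [ζ']
  rw [h1, ← Polynomial.eval₂_map] at hg
  have h2 := (transcendental_iff.1 hw) _ hg
  have h3 : ∀ k, eval t ((toP σ g).coeff k) = 0 := by
    intro k
    apply ht
    have h4 := congrArg (fun p => algebraMap K E (Polynomial.coeff p k)) h2
    simp only [Polynomial.coeff_map, Polynomial.coeff_zero, map_zero] at h4
    have h5 := congrArg (fun φ => φ ((toP σ g).coeff k)) h1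
    simp only [RingHom.comp_apply] at h5
    exact h5.trans h4
  have h6 := toP_eval t c g
  have h7 : ∀ (τ : Type) (s : τ → ℂ), (aeval s : MvPolynomial τ ℂ →ₐ[ℂ] ℂ).toRingHom = eval s := by
    intro τ s
    refine MvPolynomial.ringHom_ext (fun r => ?_) (fun i => ?_) <;> simp
  have h8 : aeval (Sum.elim t fun _ => c) g = eval (Sum.elim t fun _ => c) g :=
    congrArg (fun φ => φ g) (h7 _ (Sum.elim t fun _ : Unit => c))
  rw [← h8, ← h6, h7, ← Polynomial.eval_map]
  have h9 : (toP σ g).map (eval t) = 0 := by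
    ext k
    rw [Polynomial.coeff_map, h3, Polynomial.coeff_zero]
  rw [h9, Polynomial.eval_zero]

end pt

end Pool.Agent.Helper57.NT
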