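import Pool.Agent.Helper57.NT.Sheet4

/-!
Project NT (helper57), part 13 (helper42): a surface contains additively free curves outside of a
given curve.
-/

set_option autoImplicit false

namespace Pool.Agent.Helper57.NT

open MvPolynomial Pool.Agent.Q72.EG

namespace CurveP

/-- Kronecker substitution -/
theorem kron {N : ℕ} {q : MvPolynomial (Fin 2) ℂ} (hq : q ≠ 0) (hN : q.totalDegree < N) :
    (aeval ![(Polynomial.X : Polynomial ℂ), Polynomial.X ^ N] q : Polynomial ℂ) ≠ 0 := by
  classical
  obtain ⟨m0, hm0⟩ := MvPolynomial.ne_zero_iff.1 hq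
  intro h
  have h1 := congrArg (fun p => Polynomial.coeff p (m0 0 + N * m0 1)) h
  simp only [Polynomial.coeff_zero] at h1
  rw [aeval_def, eval₂_eq', Polynomial.finsetSum_coeff] at h1
  have hterm : ∀ d : Fin 2 →₀ ℕ, ((algebraMap ℂ (Polynomial ℂ)) (coeff d q) *
      ∏ i, (![(Polynomial.X : Polynomial ℂ), Polynomial.X ^ N] i) ^ d i).coeff
        (m0 0 + N * m0 1) = if m0 0 + N * m0 1 = d 0 + N * d 1 then coeff d q else 0 := by
    intro d
    rw [Fin.prod_univ_two]
    simp only [Matrix.cons_val_zero, Matrix.cons_val_one, Matrix.cons_val_fin_one]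
    rw [← pow_mul, ← pow_add]
    show (Polynomial.C _ * Polynomial.X ^ _).coeff _ = _
    rw [Polynomial.coeff_C_mul_X_pow]
  simp only [hterm] at h1
  have hlt : ∀ d ∈ q.support, d 0 < N := fun d hd =>
    ((monomial_le_degreeOf 0 hd).trans (degreeOf_le_totalDegree q 0)).trans_lt hN
  have hm0s : m0 ∈ q.support := mem_support_iff.2 hm0
  rw [Finset.sum_eq_single_of_mem m0 hm0s] at h1
  · rw [if_pos rfl] at h1
    exact hm0 h1
  · intro d hd hne
    rw [if_neg]
    intro he
    apply hne
    have h2 := hlt d hd
    have h3 := hlt m0 hm0s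
    have hN0 : 0 < N := by omega
    have h4 : d 0 = m0 0 := by
      have := congrArg (· % N) he
      simp only [Nat.add_mul_mod_self_left] at this
      rw [Nat.mod_eq_of_lt h2, Nat.mod_eq_of_lt h3] at this
      exact this.symm
    have h5 : d 1 = m0 1 := by
      have h6 : N * m0 1 = N * d 1 := by omega
      exact (Nat.eq_of_mul_eq_mul_left hN0 h6).symm
    ext i
    fin_cases i
    · exact h4
    · exact h5

/-- Bezout -/
theorem bezout {R : Type} [CommRing R] [IsDomain R] [UniqueFactorizationMonoid R]
    {P h : Polynomial R} (hP : Irreducible P) (hd : P.natDegree ≠ 0) (hPh : ¬ P ∣ h) :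
    ∃ (u v : Polynomial R) (H : R), H ≠ 0 ∧ u * P + v * h = Polynomial.C H := by
  classical
  have hprim := hP.isPrimitive hd
  have h1 : Irreducible (P.map (algebraMap R (FractionRing R))) :=
    (hprim.irreducible_iff_irreducible_map_fraction_map).1 hP
  have h2 : ¬ P.map (algebraMap R (FractionRing R)) ∣ h.map (algebraMap R (FractionRing R)) := by
    rwa [← Polynomial.IsPrimitive.dvd_iff_fraction_map_dvd_fraction_map (FractionRing R) hprim]
  obtain ⟨a, b, hab⟩ := (h1.coprime_iff_not_dvd).2 h2
  obtain ⟨c, hc, hc2⟩ := IsLocalization.integerNormalization_spec (nonZeroDivisors R) a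
  obtain ⟨d, hd1, hd2⟩ := IsLocalization.integerNormalization_spec (nonZeroDivisors R) b
  have hinj := IsFractionRing.injective R (FractionRing R)
  refine ⟨Polynomial.C d * IsLocalization.integerNormalization (nonZeroDivisors R) a,
    Polynomial.C c * IsLocalization.integerNormalization (nonZeroDivisors R) b, c * d,
    mul_ne_zero (nonZeroDivisors.ne_zero hc) (nonZeroDivisors.ne_zero hd1), ?_⟩
  apply Polynomial.map_injective _ hinj
  rw [Polynomial.map_add, Polynomial.map_mul, Polynomial.map_mul, Polynomial.map_mul,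
    Polynomial.map_mul, hc2, hd2, Polynomial.map_C, Polynomial.map_C, Polynomial.map_C, map_mul,
    Polynomial.C_mul, Algebra.smul_def, Algebra.smul_def]
  have e1 : (algebraMap R (Polynomial (FractionRing R))) c =
      Polynomial.C (algebraMap R (FractionRing R) c) := rfl
  have e2 : (algebraMap R (Polynomial (FractionRing R))) d =
      Polynomial.C (algebraMap R (FractionRing R) d) := rfl
  rw [e1, e2]
  linear_combination (Polynomial.C (algebraMap R (FractionRing R) c) *
    Polynomial.C (algebraMap R (FractionRing R) d)) * hab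

/-- the field -/
abbrev F : Type := AlgebraicClosure (FractionRing (Polynomial ℂ))

theorem inj : Function.Injective (algebraMap (Polynomial ℂ) F) := by
  rw [IsScalarTower.algebraMap_eq (Polynomial ℂ) (FractionRing (Polynomial ℂ)) F]
  exact (algebraMap (FractionRing (Polynomial ℂ)) F).injective.comp
    (IsFractionRing.injective (Polynomial ℂ) (FractionRing (Polynomial ℂ)))

theorem trd : Algebra.trdeg ℂ F = 1 := by
  have : FaithfulSMul (Polynomial ℂ) F := (faithfulSMul_iff_algebraMap_injective _ _).2 inj
  have h0 : Algebra.IsAlgebraic (Polynomial ℂ) F :=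
    (IsFractionRing.comap_isAlgebraic_iff (A := Polynomial ℂ) (K := FractionRing (Polynomial ℂ))
      (C := F)).2 inferInstance
  have h1 := _root_.trdeg_add_eq ℂ (Polynomial ℂ) (A := F)
  rw [← h1, Polynomial.trdeg_of_isDomain, _root_.trdeg_eq_zero, add_zero]

theorem dep (a b : F) : ∃ f : MvPolynomial (Fin 2) ℂ, f ≠ 0 ∧ aeval ![a, b] f = 0 := by
  by_contra hcon
  push Not at hcon
  have h1 : AlgebraicIndependent ℂ ![a, b] := by
    rw [algebraicIndependent_iff]
    intro p hp
    by_contra h0
    exact hcon p h0 hp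
  have h2 := h1.cardinalMk_le_trdeg
  rw [trd] at h2
  simp at h2

/-- total degrees of values -/
theorem deg_eval (P : Polynomial (MvPolynomial (Fin 2) ℂ)) : ∃ D : ℕ, ∀ l : MvPolynomial (Fin 2) ℂ,
    l.totalDegree ≤ 1 → (P.eval l).totalDegree ≤ D := by
  refine ⟨∑ i ∈ Finset.range (P.natDegree + 1), ((P.coeff i).totalDegree + i), fun l hl => ?_⟩
  rw [Polynomial.eval_eq_sum_range]
  refine totalDegree_finsetSum_le fun i hi => ?_
  refine (totalDegree_mul _ _).trans ?_
  have h1 := totalDegree_pow l i
  have h2 : i * l.totalDegree ≤ i := by nlinarith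
  have h3 : (P.coeff i).totalDegree + i ≤
      ∑ i ∈ Finset.range (P.natDegree + 1), ((P.coeff i).totalDegree + i) :=
    Finset.single_le_sum (f := fun i => (P.coeff i).totalDegree + i) (fun _ _ => Nat.zero_le _) hi
  omega

theorem curve0 (P : MvPolynomial (Fin 3) ℂ) (hP : Irreducible P) (hd : degreeOf 0 P ≠ 0)
    (hfree : ∀ m : Fin 3 → ℤ, m ≠ 0 → ∀ a : ℂ, ¬ P ∣ (∑ l, C (m l : ℂ) * X l) - C a)
    (h : MvPolynomial (Fin 3) ℂ) (hPh : ¬ P ∣ h) :
    ∃ x : Fin 3 → F, aeval x P = 0 ∧ aeval x h ≠ 0 ∧ AddFree x := by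
  classical
  set e := MvPolynomial.finSuccEquiv ℂ 2 with he
  set P0 := e P with hP0
  have hP0i : Irreducible P0 := (MulEquiv.irreducible_iff e).2 hP
  have hP0d : P0.natDegree ≠ 0 := by rw [hP0, he, natDegree_finSuccEquiv]; exact hd
  have hnd : ¬ P0 ∣ e h := fun hdv => hPh ((map_dvd_iff e).1 hdv)
  obtain ⟨u, v, H, hH, huv⟩ := bezout hP0i hP0d hnd
  obtain ⟨D, hD⟩ := deg_eval P0
  set N : ℕ := D + P0.leadingCoeff.totalDegree + H.totalDegree + 2 with hN
  set φ : MvPolynomial (Fin 2) ℂ →ₐ[ℂ] Polynomial ℂ :=
    aeval ![(Polynomial.X : Polynomial ℂ), Polynomial.X ^ N] with hφ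
  set ψ : MvPolynomial (Fin 2) ℂ →+* F := (algebraMap (Polynomial ℂ) F).comp φ.toRingHom with hψ
  have hψ0 : ∀ q : MvPolynomial (Fin 2) ℂ, q ≠ 0 → q.totalDegree < N → ψ q ≠ 0 := by
    intro q hq hqN h0
    refine kron hq hqN (inj ?_)
    rw [map_zero]
    exact h0
  have hlc : ψ P0.leadingCoeff ≠ 0 := hψ0 _ (by
    rw [Ne, Polynomial.leadingCoeff_eq_zero]; exact hP0i.ne_zero) (by omega)
  have hdeg : (P0.map ψ).degree ≠ 0 := by
    rw [Polynomial.degree_map_eq_of_leadingCoeff_ne_zero _ hlc]
    intro h0
    exact hP0d (Polynomial.natDegree_eq_zero_iff_degree_le_zero.2 h0.le)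
  obtain ⟨ρ, hρ⟩ := IsAlgClosed.exists_root (P0.map ψ) hdeg
  set t : F := algebraMap (Polynomial ℂ) F Polynomial.X with ht
  set x : Fin 3 → F := ![ρ, t, t ^ N] with hx
  have hev : ∀ g : MvPolynomial (Fin 3) ℂ, aeval x g = ((e g).map ψ).eval ρ := by
    intro g
    have h1 : (aeval x : MvPolynomial (Fin 3) ℂ →ₐ[ℂ] F).toRingHom =
        (Polynomial.evalRingHom ρ).comp ((Polynomial.mapRingHom ψ).comp
          (e : MvPolynomial (Fin 3) ℂ →+* Polynomial (MvPolynomial (Fin 2) ℂ))) := by
      apply MvPolynomial.ringHom_ext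
      · intro r
        simp only [AlgHom.toRingHom_eq_coe, RingHom.coe_coe, aeval_C, RingHom.comp_apply]
        have : e (C r) = Polynomial.C (C r) := by rw [he, finSuccEquiv_apply]; simp
        rw [this]
        simp only [Polynomial.coe_mapRingHom, Polynomial.map_C, Polynomial.coe_evalRingHom,
          Polynomial.eval_C]
        rw [hψ, RingHom.comp_apply]
        show _ = algebraMap (Polynomial ℂ) F (φ (C r))
        rw [hφ, aeval_C, ← IsScalarTower.algebraMap_apply]
      · intro i
        simp only [AlgHom.toRingHom_eq_coe, RingHom.coe_coe, aeval_X, RingHom.comp_apply]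
        refine Fin.cases ?_ (fun j => ?_) i
        · rw [he, finSuccEquiv_X_zero]
          simp [hx]
        · rw [he, finSuccEquiv_X_succ]
          simp only [Polynomial.coe_mapRingHom, Polynomial.map_C, Polynomial.coe_evalRingHom,
            Polynomial.eval_C]
          rw [hψ, RingHom.comp_apply]
          show _ = algebraMap (Polynomial ℂ) F (φ (X j))
          rw [hφ, aeval_X]
          fin_cases j
          · simp [hx, ht]
          · simp [hx, ht]
    exact congrArg (fun f : MvPolynomial (Fin 3) ℂ →+* F => f g) h1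
  refine ⟨x, ?_, ?_, ?_⟩
  · rw [hev]; exact hρ
  · intro h0
    rw [hev] at h0
    have h1 := congrArg (fun p => (Polynomial.map ψ p).eval ρ) huv
    simp only [Polynomial.map_add, Polynomial.map_mul, Polynomial.eval_add, Polynomial.eval_mul,
      Polynomial.map_C, Polynomial.eval_C] at h1
    rw [h0, mul_zero, add_zero] at h1
    have h2 : (P0.map ψ).eval ρ = 0 := hρ
    rw [h2, mul_zero] at h1
    exact hψ0 H hH (by omega) h1.symm
  · intro m hm a hma
    have hma' : (m 0 : F) * ρ + (m 1 : F) * t + (m 2 : F) * t ^ N = algebraMap ℂ F a := by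
      rw [← hma, dt, Fin.sum_univ_three]
      simp [hx]
    by_cases hm0 : m 0 = 0
    · -- `t` is transcendental
      rw [hm0, Int.cast_zero, zero_mul, zero_add] at hma'
      set g : Polynomial ℂ := Polynomial.C (m 1 : ℂ) * Polynomial.X ^ 1 +
        Polynomial.C (m 2 : ℂ) * Polynomial.X ^ N - Polynomial.C a * Polynomial.X ^ 0 with hg
      have hg0 : g = 0 := by
        apply inj
        rw [map_zero, hg]
        have e3 : ∀ c : ℂ, algebraMap (Polynomial ℂ) F (Polynomial.C c) = algebraMap ℂ F c := by
          intro c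
          rw [IsScalarTower.algebraMap_apply ℂ (Polynomial ℂ) F]
          rfl
        simp only [map_sub, map_add, map_mul, map_pow, e3, pow_one, pow_zero, mul_one]
        rw [← ht, map_intCast, map_intCast, hma', sub_self]
      have hN2 : 2 ≤ N := by omega
      have c1 := congrArg (fun p => Polynomial.coeff p 1) hg0
      have c2 := congrArg (fun p => Polynomial.coeff p N) hg0
      simp only [hg, Polynomial.coeff_sub, Polynomial.coeff_add, Polynomial.coeff_C_mul_X_pow,
        Polynomial.coeff_zero] at c1 c2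
      rw [if_pos trivial, if_neg (by omega), if_neg (by omega)] at c1
      rw [if_neg (by omega), if_pos trivial, if_neg (by omega)] at c2
      have m1 : m 1 = 0 := by
        have : (m 1 : ℂ) = 0 := by linear_combination c1
        exact_mod_cast this
      have m2 : m 2 = 0 := by
        have : (m 2 : ℂ) = 0 := by linear_combination c2
        exact_mod_cast this
      apply hm
      funext i
      fin_cases i
      · exact hm0
      · exact m1
      · exact m2
    · -- the line
      have hm0' : (m 0 : ℂ) ≠ 0 := by exact_mod_cast hm0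
      have hm0F : (m 0 : F) ≠ 0 := by exact_mod_cast hm0
      set l : MvPolynomial (Fin 2) ℂ := C (a / (m 0 : ℂ)) - C ((m 1 : ℂ) / (m 0 : ℂ)) * X 0 -
        C ((m 2 : ℂ) / (m 0 : ℂ)) * X 1 with hl
      have hld : l.totalDegree ≤ 1 := by
        have hCX : ∀ (c : ℂ) (i : Fin 2), (C c * X i : MvPolynomial (Fin 2) ℂ).totalDegree ≤ 1 := by
          intro c i
          refine (totalDegree_mul _ _).trans ?_
          rw [totalDegree_C, zero_add]
          exact (totalDegree_X i).le
        rw [hl]
        refine (totalDegree_sub _ _).trans (max_le ((totalDegree_sub _ _).trans (max_le ?_ ?_)) ?_)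
        · rw [totalDegree_C]; exact Nat.zero_le _
        · exact hCX _ _
        · exact hCX _ _
      have hψl : ψ l = ρ := by
        have e3 : ∀ c : ℂ, algebraMap (Polynomial ℂ) F (Polynomial.C c) = algebraMap ℂ F c := by
          intro c
          rw [IsScalarTower.algebraMap_apply ℂ (Polynomial ℂ) F]
          rfl
        have e4 : φ l = Polynomial.C (a / (m 0 : ℂ)) - Polynomial.C ((m 1 : ℂ) / (m 0 : ℂ)) *
            Polynomial.X - Polynomial.C ((m 2 : ℂ) / (m 0 : ℂ)) * Polynomial.X ^ N := by
          rw [hl, map_sub, map_sub, map_mul, map_mul, hφ, aeval_C, aeval_C, aeval_C, aeval_X,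
            aeval_X]
          simp
        show algebraMap (Polynomial ℂ) F (φ l) = ρ
        rw [e4]
        simp only [map_sub, map_mul, map_pow, e3, map_div₀, map_intCast]
        rw [← ht]
        field_simp
        linear_combination -hma'
      have hG : P0.eval l = 0 := by
        by_contra hne
        refine hψ0 _ hne ((hD l hld).trans_lt (by omega)) ?_
        have h1 : ψ (P0.eval l) = (P0.map ψ).eval (ψ l) := by
          rw [Polynomial.eval_map, Polynomial.eval₂_at_apply]
        rw [h1, hψl]
        exact hρ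
      have hdvd : (Polynomial.X - Polynomial.C l) ∣ P0 := Polynomial.dvd_iff_isRoot.2 hG
      have hass : P0 ∣ (Polynomial.X - Polynomial.C l) := by
        obtain ⟨w, hw⟩ := hdvd
        rcases hP0i.isUnit_or_isUnit hw with h1 | h1
        · exact absurd h1 (Polynomial.not_isUnit_X_sub_C l)
        · obtain ⟨w', rfl⟩ := h1
          exact ⟨((w'⁻¹ : (Polynomial (MvPolynomial (Fin 2) ℂ))ˣ) :
            Polynomial (MvPolynomial (Fin 2) ℂ)), by rw [hw, mul_assoc, Units.mul_inv, mul_one]⟩
      refine hfree m hm a ((map_dvd_iff e).1 ?_)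
      have e5 : e ((∑ l, C (m l : ℂ) * X l) - C a) = Polynomial.C (C (m 0 : ℂ)) *
          (Polynomial.X - Polynomial.C l) := by
        have hC : ∀ c : ℂ, e (C c) = Polynomial.C (C c) := by
          intro c; rw [he, finSuccEquiv_apply]; simp
        have h0 : e (X 0) = Polynomial.X := by rw [he]; exact finSuccEquiv_X_zero
        have h1 : e (X 1) = Polynomial.C (X 0) := by
          rw [he]; exact finSuccEquiv_X_succ (j := (0 : Fin 2))
        have h2 : e (X 2) = Polynomial.C (X 1) := by
          rw [he]; exact finSuccEquiv_X_succ (j := (1 : Fin 2))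
        rw [Fin.sum_univ_three, map_sub, map_add, map_add, map_mul, map_mul, map_mul, hC, hC, hC,
          hC, h0, h1, h2, hl]
        simp only [← Polynomial.C_mul, mul_sub]
        have e6 : (C (m 0 : ℂ) * C (a / (m 0 : ℂ)) : MvPolynomial (Fin 2) ℂ) = C a := by
          rw [← C_mul]; congr 1; field_simp
        have e7 : ∀ (b : ℂ), (C (m 0 : ℂ) * C (b / (m 0 : ℂ)) : MvPolynomial (Fin 2) ℂ) = C b := by
          intro b; rw [← C_mul]; congr 1; field_simp
        have e8 : (C (m 0 : ℂ) * (C (a / (m 0 : ℂ)) - C ((m 1 : ℂ) / (m 0 : ℂ)) * X 0 -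
            C ((m 2 : ℂ) / (m 0 : ℂ)) * X 1) : MvPolynomial (Fin 2) ℂ) =
            C a - C (m 1 : ℂ) * X 0 - C (m 2 : ℂ) * X 1 := by
          rw [mul_sub, mul_sub, ← mul_assoc, ← mul_assoc, e7, e7, e7]
        simp only [← mul_assoc, e7]
        simp only [Polynomial.C_sub, Polynomial.C_mul]
        ring
      rw [e5]
      exact hass.mul_left _

end CurveP

open CurveP

theorem curve : S_curve := by
  classical
  intro P hP hfree h hPh
  -- a variable of positive degree
  obtain ⟨k, hk⟩ : ∃ k, degreeOf k P ≠ 0 := by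
    by_contra hcon
    push Not at hcon
    have h1 : P = C (coeff 0 P) := by
      ext d
      rw [coeff_C]
      by_cases hd : 0 = d
      · subst hd; simp
      · rw [if_neg hd]
        by_contra hne
        apply hd
        ext i
        have h2 := monomial_le_degreeOf i (mem_support_iff.2 hne)
        rw [hcon i] at h2
        simp only [Finsupp.coe_zero, Pi.zero_apply]
        omega
    apply hP.not_isUnit
    rw [h1]
    refine (isUnit_iff_ne_zero.2 fun h0 => hP.ne_zero ?_).map C
    rw [h1, h0, map_zero]
  set σ : Equiv.Perm (Fin 3) := Equiv.swap 0 k with hσ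
  set r : MvPolynomial (Fin 3) ℂ ≃ₐ[ℂ] MvPolynomial (Fin 3) ℂ := renameEquiv ℂ σ with hr
  have hrr : ∀ g, r g = rename σ g := fun g => rfl
  obtain ⟨x, h1, h2, h3⟩ := curve0 (r P) ((MulEquiv.irreducible_iff r).2 hP) (by
    rw [hrr]
    have : degreeOf (σ k) (rename σ P) = degreeOf k P :=
      degreeOf_rename_of_injective σ.injective k
    have e : σ k = 0 := Equiv.swap_apply_right _ _
    rw [e] at this
    rw [this]; exact hk) (by
    intro m hm a hdv
    refine hfree (fun i => m (σ i)) ?_ a ((map_dvd_iff r).1 ?_)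
    · intro h0
      apply hm
      funext i
      have := congrFun h0 (σ.symm i)
      simpa using this
    · have : r ((∑ l, C ((m (σ l) : ℤ) : ℂ) * X l) - C a) =
          (∑ l, C (m l : ℂ) * X l) - C a := by
        rw [map_sub, map_sum, hrr (C a), rename_C]
        congr 1
        rw [← Equiv.sum_comp σ (fun l => (C (m l : ℂ) * X l : MvPolynomial (Fin 3) ℂ))]
        refine Finset.sum_congr rfl fun i _ => ?_
        rw [map_mul, hrr, hrr, rename_C, rename_X]
      rw [this]
      exact hdv) (r h) (fun hdv => hPh ((map_dvd_iff r).1 hdv))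
  refine ⟨F, inferInstance, inferInstance, fun i => x (σ i), ?_, ?_, ?_, fun i j => dep _ _⟩
  · rw [hrr, aeval_rename] at h1
    exact h1
  · rw [hrr, aeval_rename] at h2
    exact h2
  · intro m hm a hma
    refine h3 (fun i => m (σ.symm i)) ?_ a ?_
    · intro h0
      apply hm
      funext i
      have := congrFun h0 (σ i)
      simpa using this
    · rw [← hma, dt, dt, ← Equiv.sum_comp σ]
      refine Finset.sum_congr rfl fun i _ => ?_
      simp

end Pool.Agent.Helper57.NT
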