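import Pool.Agent.Helper57.NT.Sheet2
import Pool.Agent.Helper15.NT.ExcA
import Pool.Agent.Helper15.NT.ExcB
import Pool.Agent.Helper15.NT.ExcC

/-!
Project NT (helper57), part 9 (helper15): the exceptional family.
-/

set_option autoImplicit false

namespace Pool.Agent.Helper57.NT

open MvPolynomial Pool.Agent.Q72.EG Pool.Agent.Helper15.NT

theorem bm1 (hbm : S_bm) : Bm1 := by
  intro E _ _ x y hy hx
  obtain ⟨z, hz, -⟩ := hbm (n := 1) (fun _ => x) (fun _ => y) le_rfl (fun _ => hy) hx 1 (by simp)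
  refine ⟨z 0, fun g hg => ?_⟩
  have h1 := hz g hg
  have h2 : z = fun _ => z 0 := by
    funext i
    rw [Subsingleton.elim i 0]
  rw [h2] at h1
  exact h1

theorem pt_compE {E : Type} [Field E] [Algebra ℂ E] {σ τ : Type} (θ : σ → τ) {ξ : τ → E}
    {p : τ → ℂ} (hp : p ∈ Pt ξ) : p ∘ θ ∈ Pt (ξ ∘ θ) := by
  intro g hg
  have h1 := hp (rename θ g) (by rw [aeval_rename]; exact hg)
  rwa [eval_rename] at h1

/-- a transcendental coordinate is arbitrary -/
theorem pt_oe {E : Type} [Field E] [Algebra ℂ E] {n : ℕ} {ζ : Fin n → E} {t : E}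
    (ht : Transcendental (IntermediateField.adjoin ℂ (Set.range ζ)) t) {P : Fin n → ℂ}
    (hP : P ∈ Pt ζ) (Z : ℂ) : oe Z P ∈ Pt (oe t ζ) := by
  intro g hg
  let ζ' : Fin n → IntermediateField.adjoin ℂ (Set.range ζ) := fun i =>
    ⟨ζ i, IntermediateField.subset_adjoin _ _ ⟨i, rfl⟩⟩
  have hcomp : (algebraMap (IntermediateField.adjoin ℂ (Set.range ζ)) E).comp
      (aeval ζ' : MvPolynomial (Fin n) ℂ →ₐ[ℂ] _).toRingHom =
      (aeval ζ : MvPolynomial (Fin n) ℂ →ₐ[ℂ] E).toRingHom := by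
    apply MvPolynomial.ringHom_ext
    · intro r
      simp only [RingHom.comp_apply]
      show algebraMap _ E (aeval ζ' (C r)) = aeval ζ (C r)
      rw [aeval_C, aeval_C]
      rfl
    · intro i
      simp only [RingHom.comp_apply]
      show algebraMap _ E (aeval ζ' (X i)) = aeval ζ (X i)
      rw [aeval_X, aeval_X]
      rfl
  have h1 : (optionEquivLeft ℂ (Fin n) g).map
      (aeval ζ' : MvPolynomial (Fin n) ℂ →ₐ[ℂ] _).toRingHom = 0 := by
    by_contra h0
    apply ht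
    refine ⟨_, h0, ?_⟩
    rw [Polynomial.aeval_def, Polynomial.eval₂_map, hcomp, ← aeval_oe]
    exact hg
  have h2 : ∀ j, aeval ζ (cf g j) = 0 := by
    intro j
    have h3 := congrArg (fun Q => Q.coeff j) h1
    simp only [Polynomial.coeff_map, Polynomial.coeff_zero] at h3
    have h4 := congrArg (algebraMap (IntermediateField.adjoin ℂ (Set.range ζ)) E) h3
    rw [map_zero] at h4
    rw [← h4, ← RingHom.comp_apply, hcomp]
    rfl
  rw [eval_oe_sum]
  refine Finset.sum_eq_zero fun j _ => ?_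
  rw [hP _ (h2 j), zero_mul]

theorem eval_map_oe {n : ℕ} (P : Fin n → ℂ) (Z : ℂ) (g : MvPolynomial (Option (Fin n)) ℂ) :
    ((optionEquivLeft ℂ (Fin n) g).map (eval P)).eval Z = eval (oe Z P) g := by
  have h := aeval_oe (E := ℂ) Z P g
  rw [Polynomial.eval_map]
  have h1 : aeval (oe Z P) g = eval (oe Z P) g := by
    rw [MvPolynomial.aeval_eq_eval]
  rw [← h1, h]
  congr 1

theorem exc : S_cd → S_bm → S_exc := by
  intro hcd hbm E _ _ x y hy hx hy0 h1 h0 ht hor hn
  classical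
  set ζ : Fin 3 → E := ![x 0, x 1, y 0] with hζ
  have hζr : ∀ s ∈ Set.range ζ, s = x 0 ∨ s = x 1 ∨ s = y 0 := by
    rintro _ ⟨i, rfl⟩
    fin_cases i
    · exact Or.inl rfl
    · exact Or.inr (Or.inl rfl)
    · exact Or.inr (Or.inr rfl)
  have ht1 := t1 h1 h0 ht hζr
  set η : Option (Fin 3) → E := oe (y 1) ζ with hη
  have hηr : ∀ s ∈ Set.range η, s = y 1 ∨ s = x 0 ∨ s = x 1 ∨ s = y 0 := by
    rintro _ ⟨i, rfl⟩
    rcases i with _ | i
    · exact Or.inl rfl
    · exact Or.inr (hζr _ ⟨i, rfl⟩)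
  have hx2 : x 2 ≠ 0 := by
    intro h
    apply hx ![0, 0, 1] (by decide) 0
    rw [dt, Fin.sum_univ_three, map_zero, ← h]
    simp [h]
  -- the equation of the curve
  obtain ⟨e, a, b, ha, hb, hab, hta, htb⟩ : ∃ (e : Fin 2) (a b : E), a ≠ 0 ∧ b ≠ 0 ∧
      ((e = 0 ∧ a = x 2 ∧ b = y 2) ∨ (e = 1 ∧ a = y 2 ∧ b = x 2)) ∧
      Transcendental (IntermediateField.adjoin ℂ (Set.range η)) a ∧
      IsAlgebraic (IntermediateField.adjoin (IntermediateField.adjoin ℂ (Set.range η)) {a}) b := by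
    rcases t2 h1 h0 hor hn hηr ⟨some 0, rfl⟩ ⟨none, rfl⟩ with ⟨h3, h4⟩ | ⟨h3, h4⟩
    · exact ⟨0, x 2, y 2, hx2, hy 2, Or.inl ⟨rfl, rfl, rfl⟩, h3, h4⟩
    · exact ⟨1, y 2, x 2, hy 2, hx2, Or.inr ⟨rfl, rfl, rfl⟩, h3, h4⟩
  obtain ⟨F, h, hh, ⟨u, v, huv, hu, hv⟩, hF⟩ := curve_core η a b ha hb hta htb
  -- the point of the curve
  set g : MvPolynomial (Option (Fin 3)) ℂ := h * coeff u F * coeff v F with hg
  have hg0 : aeval η g ≠ 0 := by
    rw [hg, map_mul, map_mul]
    exact mul_ne_zero (mul_ne_zero hh hu) hv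
  obtain ⟨P, hP, hexp, hHP⟩ := hcd (x 0) (x 1) (y 0) (by
      intro halg
      obtain ⟨c, hc⟩ : ∃ c : ℂ, algebraMap ℂ E c = x 0 := by
        have h2 := IsAlgClosed.degree_eq_one_of_irreducible ℂ (minpoly.irreducible halg.isIntegral)
        exact minpoly.mem_range_of_degree_eq_one ℂ (x 0) h2
      apply hx ![1, 0, 0] (by decide) c
      rw [dt, Fin.sum_univ_three, hc]
      simp) h1 h0 hy0 (by
      intro q c hqc
      apply hx ![-q.num, q.den, 0] (by
        intro h2
        have h3 := congrFun h2 1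
        simp at h3) (q.den * c)
      rw [dt, Fin.sum_univ_three, hqc]
      have h4 : (algebraMap ℂ E q) * (q.den : E) = (q.num : E) := by
        have h5 : ((q : ℂ) * (q.den : ℂ)) = (q.num : ℂ) := by
          exact_mod_cast Rat.mul_den_eq_num q
        have h6 := congrArg (algebraMap ℂ E) h5
        rw [map_mul, map_natCast, map_intCast] at h6
        exact h6
      simp only [Matrix.cons_val_zero, Matrix.cons_val_one, Matrix.cons_val_two, Matrix.head_cons,
        Matrix.tail_cons, Int.cast_neg, Int.cast_natCast, Int.cast_zero, zero_mul, add_zero]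
      rw [map_mul, map_natCast, ← h4]
      ring) (optionEquivLeft ℂ (Fin 3) g) (by
      by_contra hcon
      push Not at hcon
      apply hg0
      rw [hη, aeval_oe_sum]
      refine Finset.sum_eq_zero fun j _ => ?_
      have h2 : aeval ζ (cf g j) = 0 := hcon j
      rw [h2, zero_mul])
  rw [eval_map_oe] at hHP
  set p : Option (Fin 3) → ℂ := oe (Complex.exp (P 1)) P with hp
  have hpη : p ∈ Pt η := pt_oe ht1 hP _
  have hp1 : eval p h ≠ 0 ∧ eval p (coeff u F) ≠ 0 ∧ eval p (coeff v F) ≠ 0 := by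
    rw [hg, map_mul, map_mul] at hHP
    exact ⟨left_ne_zero_of_mul (left_ne_zero_of_mul hHP),
      right_ne_zero_of_mul (left_ne_zero_of_mul hHP), right_ne_zero_of_mul hHP⟩
  -- the last coordinate
  obtain ⟨z, hz⟩ := exp_root (bm1 hbm) e (map (eval p) F) ⟨u, v, huv, by
    rw [coeff_map]; exact hp1.2.1, by rw [coeff_map]; exact hp1.2.2⟩
  have hq := hF p hpη hp1.1 (ep e z) hz
  refine ⟨![P 0, P 1, z], ?_⟩
  rcases hab with ⟨rfl, rfl, rfl⟩ | ⟨rfl, rfl, rfl⟩
  · have h5 := pt_compE (Sum.elim ![Sum.inl (some 0), Sum.inl (some 1), Sum.inr 0]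
      ![Sum.inl (some 2), Sum.inl none, Sum.inr 1] : Fin 3 ⊕ Fin 3 → Option (Fin 3) ⊕ Fin 2) hq
    have e1 : (Sum.elim ![P 0, P 1, z] (fun l => Complex.exp (![P 0, P 1, z] l)) :
        Fin 3 ⊕ Fin 3 → ℂ) = Sum.elim p ![ep 0 z 1, ep 0 z 0] ∘
        (Sum.elim ![Sum.inl (some 0), Sum.inl (some 1), Sum.inr 0]
          ![Sum.inl (some 2), Sum.inl none, Sum.inr 1] :
          Fin 3 ⊕ Fin 3 → Option (Fin 3) ⊕ Fin 2) := by
      funext i
      rcases i with i | i
      · fin_cases i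
        · rfl
        · rfl
        · simp [ep]
      · fin_cases i
        · simp [hp, hexp]
        · simp [hp]
        · simp [ep]
    have e2 : (Sum.elim x y : Fin 3 ⊕ Fin 3 → E) = Sum.elim η ![x 2, y 2] ∘
        (Sum.elim ![Sum.inl (some 0), Sum.inl (some 1), Sum.inr 0]
          ![Sum.inl (some 2), Sum.inl none, Sum.inr 1] :
          Fin 3 ⊕ Fin 3 → Option (Fin 3) ⊕ Fin 2) := by
      funext i
      rcases i with i | i
      · fin_cases i <;> simp [hη, hζ]
      · fin_cases i <;> simp [hη, hζ]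
    rw [e1, e2]
    exact h5
  · have h5 := pt_compE (Sum.elim ![Sum.inl (some 0), Sum.inl (some 1), Sum.inr 1]
      ![Sum.inl (some 2), Sum.inl none, Sum.inr 0] : Fin 3 ⊕ Fin 3 → Option (Fin 3) ⊕ Fin 2) hq
    have e1 : (Sum.elim ![P 0, P 1, z] (fun l => Complex.exp (![P 0, P 1, z] l)) :
        Fin 3 ⊕ Fin 3 → ℂ) = Sum.elim p ![ep 1 z 1, ep 1 z 0] ∘
        (Sum.elim ![Sum.inl (some 0), Sum.inl (some 1), Sum.inr 1]
          ![Sum.inl (some 2), Sum.inl none, Sum.inr 0] :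
          Fin 3 ⊕ Fin 3 → Option (Fin 3) ⊕ Fin 2) := by
      funext i
      rcases i with i | i
      · fin_cases i
        · rfl
        · rfl
        · simp [ep]
      · fin_cases i
        · simp [hp, hexp]
        · simp [hp]
        · simp [ep]
    have e2 : (Sum.elim x y : Fin 3 ⊕ Fin 3 → E) = Sum.elim η ![y 2, x 2] ∘
        (Sum.elim ![Sum.inl (some 0), Sum.inl (some 1), Sum.inr 1]
          ![Sum.inl (some 2), Sum.inl none, Sum.inr 0] :
          Fin 3 ⊕ Fin 3 → Option (Fin 3) ⊕ Fin 2) := by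
      funext i
      rcases i with i | i
      · fin_cases i <;> simp [hη, hζ]
      · fin_cases i <;> simp [hη, hζ]
    rw [e1, e2]
    exact h5

end Pool.Agent.Helper57.NT
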