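import Pool.Agent.Helper57.NT.Sheet
import Pool.Agent.Helper34.NT.Fib2

set_option autoImplicit false

namespace Pool.Agent.Helper57.NT

/-- Part 1 of the project NT. -/
theorem fibre : S_fibre := by
  intro E _ _ σ _ ξ y2 y3 hy2 hy3 halg hmn
  exact Pool.Agent.Helper34.NT.fibre_core ξ y2 y3 hy2 hy3 halg hmn

end Pool.Agent.Helper57.NT
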