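import Pool.Agent.Helper57.NT.Sheet4
import Pool.Agent.Helper15.NT.ExcA
import Pool.Agent.Helper15.NT.ExcC

/-!
Project NT (helper57), part 15 (helper42): surfaces of fibres over a surface.
-/

set_option autoImplicit false

namespace Pool.Agent.Helper57.NT

open MvPolynomial Pool.Agent.Q72.EG Pool.Agent.Helper34.NT

/-- the kernel of evaluation at `(b, v)` is principal -/
theorem kern {k E : Type} [Field k] [Field E] [Algebra k E] {n : ℕ} {v : Fin n → E} {b : E}
    (h2 : AlgebraicIndependent k v)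
    (h3 : IsAlgebraic (IntermediateField.adjoin k (Set.range v)) b) :
    ∃ F : MvPolynomial (Fin (n + 1)) k, F ≠ 0 ∧
      ∀ G : MvPolynomial (Fin (n + 1)) k, aeval (Matrix.vecCons b v) G = 0 ↔ F ∣ G := by
  let φ : MvPolynomial (Fin n) k →ₐ[k] E := aeval v
  have hφ : Function.Injective φ := h2
  let K := FractionRing (MvPolynomial (Fin n) k)
  let ψ : K →ₐ[k] E := IsFractionRing.liftAlgHom (K := K) hφ
  have hψ : ∀ a : MvPolynomial (Fin n) k, ψ (algebraMap _ K a) = φ a := by
    intro a
    exact IsFractionRing.lift_algebraMap (K := K) hφ a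
  let _ : Algebra (MvPolynomial (Fin n) k) E := φ.toRingHom.toAlgebra
  have hM : IntermediateField.adjoin k (Set.range v) ≤ ψ.fieldRange := by
    rw [IntermediateField.adjoin_le_iff]
    rintro _ ⟨i, rfl⟩
    refine ⟨algebraMap (MvPolynomial (Fin n) k) K (X i), ?_⟩
    show ψ (algebraMap (MvPolynomial (Fin n) k) K (X i)) = _
    rw [hψ]
    simp [φ]
  let _ : Algebra K E := ψ.toRingHom.toAlgebra
  have hst : IsScalarTower (MvPolynomial (Fin n) k) K E :=
    IsScalarTower.of_algebraMap_eq fun a => (hψ a).symm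
  have halg : IsAlgebraic K b := alg_of_range ψ hM h3
  obtain ⟨F, hF, -, hG⟩ := Pool.Agent.W597.EC.ker_principal (R := MvPolynomial (Fin n) k)
    (K := K) (L := E) b halg
  have key : ∀ G : MvPolynomial (Fin (n + 1)) k,
      Polynomial.aeval b (finSuccEquiv k n G) = aeval (Matrix.vecCons b v) G := by
    intro G
    induction G using MvPolynomial.induction_on with
    | C a =>
      rw [MvPolynomial.finSuccEquiv_apply]
      simp only [eval₂Hom_C, RingHom.coe_comp, Function.comp_apply, Polynomial.aeval_C,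
        MvPolynomial.aeval_C]
      show φ (C a) = _
      simp [φ]
    | add p q hp hq => rw [map_add, map_add, map_add, hp, hq]
    | mul_X p i hp =>
      rw [map_mul, map_mul, map_mul, hp]
      congr 1
      refine Fin.cases ?_ (fun j => ?_) i
      · rw [finSuccEquiv_X_zero, Polynomial.aeval_X, aeval_X]
        rfl
      · rw [finSuccEquiv_X_succ, Polynomial.aeval_C, aeval_X]
        show φ (X j) = _
        simp [φ]
  refine ⟨(finSuccEquiv k n).symm F, ?_, fun G => ?_⟩
  · intro h
    apply hF.ne_zero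
    have := congrArg (finSuccEquiv k n) h
    rw [AlgEquiv.apply_symm_apply, map_zero] at this
    exact this
  · rw [← key, hG]
    constructor
    · rintro ⟨H, hH⟩
      refine ⟨(finSuccEquiv k n).symm H, ?_⟩
      apply (finSuccEquiv k n).injective
      rw [map_mul, AlgEquiv.apply_symm_apply, AlgEquiv.apply_symm_apply, hH]
    · rintro ⟨H, hH⟩
      refine ⟨finSuccEquiv k n H, ?_⟩
      rw [hH, map_mul, AlgEquiv.apply_symm_apply]

section subn

variable {σ τ : Type}

/-- `g(ξ, y)` as a polynomial in `y` -/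
noncomputable def subn : MvPolynomial (σ ⊕ τ) ℂ →ₐ[ℂ] MvPolynomial τ (MvPolynomial σ ℂ) :=
  aeval (Sum.elim (fun i => C (X i)) X)

theorem subn_eval {T : Type} [CommRing T] (f : MvPolynomial σ ℂ →+* T) (w : τ → T)
    (g : MvPolynomial (σ ⊕ τ) ℂ) :
    eval₂ f w (subn g) = eval₂ (f.comp C) (Sum.elim (fun i => f (X i)) w) g := by
  induction g using MvPolynomial.induction_on with
  | C a =>
    rw [eval₂_C]
    have : subn (σ := σ) (τ := τ) (C a) = C (C a) := by
      rw [subn, aeval_C]
      rfl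
    rw [this, eval₂_C]
    rfl
  | add p q hp hq => rw [map_add, eval₂_add, eval₂_add, hp, hq]
  | mul_X p i hp =>
    have hX : eval₂ f w (subn (X i)) =
        Sum.elim (fun i => f (X i)) w i := by
      rw [subn, aeval_X]
      rcases i with i | i
      · show eval₂ f w (C (X i)) = f (X i)
        rw [eval₂_C]
      · show eval₂ f w (X i) = w i
        rw [eval₂_X]
    rw [map_mul, eval₂_mul, eval₂_mul, hp, hX, eval₂_X]

end subn

/-- `g(ξ, y)` over the field `ℂ(ξ)` -/
theorem exists_subK {E : Type} [Field E] [Algebra ℂ E] {σ τ : Type} (ξ : σ → E)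
    (w0 : τ → E) (g : MvPolynomial (σ ⊕ τ) ℂ) :
    ∃ gK : MvPolynomial τ (IntermediateField.adjoin ℂ (Set.range ξ)),
      map (algebraMap _ E) gK =
        map (aeval ξ : MvPolynomial σ ℂ →ₐ[ℂ] E).toRingHom (subn g) ∧
      aeval w0 gK = aeval (Sum.elim ξ w0) g := by
  let ξ' : σ → IntermediateField.adjoin ℂ (Set.range ξ) := fun i =>
    ⟨ξ i, IntermediateField.subset_adjoin _ _ ⟨i, rfl⟩⟩
  have hcomp : (algebraMap (IntermediateField.adjoin ℂ (Set.range ξ)) E).comp
      (aeval ξ' : MvPolynomial σ ℂ →ₐ[ℂ] _).toRingHom =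
      (aeval ξ : MvPolynomial σ ℂ →ₐ[ℂ] E).toRingHom := by
    apply MvPolynomial.ringHom_ext
    · intro r
      simp only [RingHom.comp_apply]
      show algebraMap _ E (aeval ξ' (C r)) = aeval ξ (C r)
      rw [aeval_C, aeval_C]
      rfl
    · intro i
      simp only [RingHom.comp_apply]
      show algebraMap _ E (aeval ξ' (X i)) = aeval ξ (X i)
      rw [aeval_X, aeval_X]
      rfl
  refine ⟨map (aeval ξ' : MvPolynomial σ ℂ →ₐ[ℂ] _).toRingHom (subn g), ?_, ?_⟩
  · rw [map_map, hcomp]
  · have h1 : aeval w0 (map (aeval ξ' : MvPolynomial σ ℂ →ₐ[ℂ] _).toRingHom (subn g)) =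
        eval₂ (RingHom.id E) w0 (map (algebraMap _ E)
          (map (aeval ξ' : MvPolynomial σ ℂ →ₐ[ℂ] _).toRingHom (subn g))) := by
      rw [eval₂_map, aeval_def]
      rfl
    rw [h1, map_map, hcomp, eval₂_map, RingHom.id_comp, subn_eval, aeval_def]
    congr 1
    · ext r
      simp
    · funext i
      rcases i with i | i
      · simp
      · simp

theorem hyp_core {E : Type} [Field E] [Algebra ℂ E] {σ τ : Type} [Finite σ] [Fintype τ]
    (ξ : σ → E) (w0 : τ → E) (hw : ∀ i, w0 i ≠ 0)
    (F0 : MvPolynomial τ (IntermediateField.adjoin ℂ (Set.range ξ))) (hF0 : F0 ≠ 0)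
    (hF : ∀ G : MvPolynomial τ (IntermediateField.adjoin ℂ (Set.range ξ)),
      aeval w0 G = 0 ↔ F0 ∣ G) :
    ∃ (F : MvPolynomial τ (MvPolynomial σ ℂ)) (h : MvPolynomial σ ℂ),
      aeval ξ h ≠ 0 ∧ (∃ u v, u ≠ v ∧ aeval ξ (coeff u F) ≠ 0 ∧ aeval ξ (coeff v F) ≠ 0) ∧
      ∀ p ∈ Pt ξ, eval p h ≠ 0 → ∀ w : τ → ℂ, eval w (map (eval p) F) = 0 →
        Sum.elim p w ∈ Pt (Sum.elim ξ w0) := by
  classical
  obtain ⟨d0, F', hd0, hF'⟩ := clear ξ F0
  set φ : MvPolynomial σ ℂ →+* E := (aeval ξ : MvPolynomial σ ℂ →ₐ[ℂ] E).toRingHom with hφ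
  have hφa : ∀ q, φ q = aeval ξ q := fun q => rfl
  have hmap : ∀ G : MvPolynomial τ (IntermediateField.adjoin ℂ (Set.range ξ)),
      eval₂ (RingHom.id E) w0 (map (algebraMap _ E) G) = aeval w0 G := by
    intro G
    rw [eval₂_map, aeval_def]
    rfl
  have hrel : eval₂ φ w0 F' = 0 := by
    have h4 : eval₂ (RingHom.id E) w0 (map φ F') = 0 := by
      rw [hF', eval₂_mul, hmap, (hF F0).2 dvd_rfl, mul_zero]
    rw [eval₂_map] at h4
    exact h4
  have hne : map φ F' ≠ 0 := by
    rw [hF']
    refine mul_ne_zero ?_ ?_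
    · rw [Ne, C_eq_zero]
      exact hd0
    · intro h
      exact hF0 ((map_injective _ (algebraMap
        (IntermediateField.adjoin ℂ (Set.range ξ)) E).injective) (by rw [h, map_zero]))
  have htwo : ∃ u v, u ≠ v ∧ aeval ξ (coeff u F') ≠ 0 ∧ aeval ξ (coeff v F') ≠ 0 := by
    obtain ⟨u, v, h4, h5, h6⟩ := Pool.Agent.Helper15.NT.two_monomials w0 hw (map φ F') hne
      (by rw [eval_map]; exact hrel)
    rw [coeff_map] at h5 h6
    exact ⟨u, v, h4, h5, h6⟩
  -- the generators of the ideal
  set I : Ideal (MvPolynomial (σ ⊕ τ) ℂ) :=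
    RingHom.ker (aeval (Sum.elim ξ w0) : MvPolynomial (σ ⊕ τ) ℂ →ₐ[ℂ] E) with hI
  obtain ⟨s, hs⟩ : I.FG := IsNoetherian.noetherian I
  have hgen : ∀ g ∈ I, ∃ (d : MvPolynomial σ ℂ) (G : MvPolynomial τ (MvPolynomial σ ℂ)),
      aeval ξ d ≠ 0 ∧ map φ (C d * subn g) = map φ (F' * G) := by
    intro g hg
    have hg' : aeval (Sum.elim ξ w0) g = 0 := hg
    obtain ⟨gK, h6, h7⟩ := exists_subK ξ w0 g
    rw [hg'] at h7
    obtain ⟨G0, hG0⟩ := (hF gK).1 h7
    obtain ⟨d, G, hd, hG⟩ := clear ξ G0
    refine ⟨d0 * d, G, ?_, ?_⟩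
    · rw [map_mul]
      exact mul_ne_zero hd0 hd
    · have e1 : map φ (C (d0 * d) * subn g) = C (aeval ξ d0) * C (aeval ξ d) *
          (map (algebraMap _ E) F0 * map (algebraMap _ E) G0) := by
        rw [map_mul, map_C, ← h6, hG0, map_mul (map _), hφa, map_mul, map_mul]
      have e2 : map φ (F' * G) = C (aeval ξ d0) * map (algebraMap _ E) F0 *
          (C (aeval ξ d) * map (algebraMap _ E) G0) := by
        rw [map_mul (map _), hF', hφ, hG]
      rw [e1, e2]
      ring
  choose! d G hd hG using hgen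
  refine ⟨F', ∏ g ∈ s, d g, ?_, htwo, ?_⟩
  · rw [map_prod, Finset.prod_ne_zero_iff]
    intro g hg
    exact hd g (by rw [← hs]; exact Ideal.subset_span hg)
  · intro p hp hhp w hsum0
    have h8 : eval₂ (eval p) w F' = 0 := by
      rw [eval_map] at hsum0
      exact hsum0
    have hIle : I ≤ RingHom.ker (eval (Sum.elim p w)) := by
      rw [← hs, Ideal.span_le]
      intro g hg
      have hgI : g ∈ I := by rw [← hs]; exact Ideal.subset_span hg
      have h9 := hG g hgI
      have h10 : map (eval p) (C (d g) * subn g) = map (eval p) (F' * G g) := by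
        ext u
        rw [coeff_map, coeff_map]
        have h11 := congrArg (coeff u) h9
        rw [coeff_map, coeff_map, ← sub_eq_zero, ← map_sub] at h11
        rw [← sub_eq_zero, ← map_sub]
        exact hp _ h11
      have h12 := congrArg (eval₂ (RingHom.id ℂ) w) h10
      rw [eval₂_map, eval₂_map, RingHom.id_comp, eval₂_mul, eval₂_mul, h8, zero_mul, eval₂_C,
        subn_eval] at h12
      have h13 : eval p (d g) ≠ 0 := by
        rw [map_prod, Finset.prod_ne_zero_iff] at hhp
        exact hhp g hg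
      rcases mul_eq_zero.1 h12 with h | h
      · exact absurd h h13
      · show eval (Sum.elim p w) g = 0
        rw [← h, eval, coe_eval₂Hom]
        congr 1
        · ext r
          simp
        · funext i
          rcases i with i | i
          · simp
          · simp
    intro g hg
    exact hIle hg

theorem pt_comp' {E : Type} [Field E] [Algebra ℂ E] {σ τ : Type} (θ : σ → τ) {ξ : τ → E}
    {p : τ → ℂ} (hp : p ∈ Pt ξ) : p ∘ θ ∈ Pt (ξ ∘ θ) := by
  intro g hg
  have h1 := hp (rename θ g) (by rw [aeval_rename]; exact hg)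
  rwa [eval_rename] at h1

/-- **S_five** -/
theorem five : S_five := by
  intro n E _ _ x y hy
  obtain ⟨p, hp, -⟩ := Pool.Agent.Helper57.HT.exists_pt (ξ := x) (g := 1) (by simp)
  refine ⟨p, ?_⟩
  intro g hg
  obtain ⟨gK, h6, h7⟩ := exists_subK x y g
  rw [hg] at h7
  have h8 : gK = 0 := hy (by rw [h7, map_zero])
  rw [h8, map_zero] at h6
  have h10 : map (eval p) (subn g) = 0 := by
    ext u
    rw [coeff_map, coeff_zero]
    have h11 := congrArg (coeff u) h6
    rw [coeff_map, coeff_zero] at h11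
    exact hp _ h11.symm
  have h12 := congrArg (eval₂ (RingHom.id ℂ) (fun l => Complex.exp (p l))) h10
  rw [eval₂_map, RingHom.id_comp, subn_eval, eval₂_zero] at h12
  rw [← h12, eval, coe_eval₂Hom]
  congr 1
  · ext r
    simp
  · funext i
    rcases i with i | i
    · simp
    · simp

/-- **S_four** -/
theorem four : S_curve → S_oneq → S_four := by
  classical
  intro hcurve honeq E _ _ x y hy hfree P hP hker hdep hind
  obtain ⟨i, j, hij⟩ := hind
  have hne : i ≠ j := by
    rintro rfl
    have h1 := hij.injective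
    have h2 : (0 : Fin 2) = 1 := h1 (by simp)
    exact absurd h2 (by decide)
  obtain ⟨e, he0, he1, he2⟩ : ∃ e : Fin 3 ≃ Fin 3, e 1 = i ∧ e 2 = j ∧ True := by
    obtain ⟨k, hki, hkj⟩ : ∃ k : Fin 3, k ≠ i ∧ k ≠ j := by
      clear hij hne
      revert i j
      decide
    have hinj : Function.Injective ![k, i, j] := by
      intro a b hab
      fin_cases a <;> fin_cases b <;> simp_all
    exact ⟨Equiv.ofBijective _ (Finite.injective_iff_bijective.1 hinj), rfl, rfl, trivial⟩
  set K := IntermediateField.adjoin ℂ (Set.range x) with hK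
  have hye : y ∘ e = Matrix.vecCons (y (e 0)) ![y i, y j] := by
    funext a
    fin_cases a
    · rfl
    · simp [he0]
    · simp [he1]
  have halg : IsAlgebraic (IntermediateField.adjoin K (Set.range ![y i, y j])) (y (e 0)) := by
    by_contra hcon
    apply hdep
    rw [← algebraicIndependent_equiv e, hye, Pool.Agent.Helper15.NT.indep_cons]
    exact ⟨hij, hcon⟩
  obtain ⟨F0, hF0, hF⟩ := kern hij halg
  obtain ⟨F, h, hh, ⟨u, v, huv, hu, hv⟩, hcore⟩ := hyp_core x (y ∘ e) (fun a => hy _) F0 hF0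
    (by rw [hye]; exact hF)
  have hinjd : Function.Injective (Finsupp.mapDomain (M := ℕ) e) :=
    Finsupp.mapDomain_injective e.injective
  obtain ⟨L, _, _, x', hx'P, hx'h, hfree', hdep'⟩ := hcurve P hP (by
    intro m hm a hdvd
    apply hfree m hm a
    have h1 := (hker _).2 hdvd
    rw [map_sub, map_sum, aeval_C, sub_eq_zero] at h1
    rw [← h1, dt]
    refine Finset.sum_congr rfl fun l _ => ?_
    rw [map_mul, aeval_C, aeval_X, map_intCast]) (h * coeff u F * coeff v F) (by
    rw [← hker, map_mul, map_mul]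
    exact mul_ne_zero (mul_ne_zero hh hu) hv)
  rw [map_mul, map_mul] at hx'h
  obtain ⟨p, hp, hph, hpR⟩ := honeq x' hfree' hdep' (rename e F) h
    (left_ne_zero_of_mul (left_ne_zero_of_mul hx'h))
    ⟨Finsupp.mapDomain e u, Finsupp.mapDomain e v, fun h0 => huv (hinjd h0), by
      rw [coeff_rename_mapDomain _ e.injective]
      exact right_ne_zero_of_mul (left_ne_zero_of_mul hx'h), by
      rw [coeff_rename_mapDomain _ e.injective]
      exact right_ne_zero_of_mul hx'h⟩
  have hpx : p ∈ Pt x := by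
    intro g hg
    apply hp
    obtain ⟨q, hq⟩ := (hker g).1 hg
    rw [hq, map_mul, hx'P, zero_mul]
  have h1 := hcore p hpx hph (fun a => Complex.exp (p (e a))) (by
    rw [← hpR, map_rename, eval_rename]
    rfl)
  have h2 := pt_comp' (Sum.map id e.symm : Fin 3 ⊕ Fin 3 → Fin 3 ⊕ Fin 3) h1
  refine ⟨p, ?_⟩
  have e1 : (Sum.elim p (fun a => Complex.exp (p (e a))) : Fin 3 ⊕ Fin 3 → ℂ) ∘
      (Sum.map id e.symm : Fin 3 ⊕ Fin 3 → Fin 3 ⊕ Fin 3) =
      Sum.elim p (fun l => Complex.exp (p l)) := by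
    funext a
    rcases a with a | a
    · simp
    · simp
  have e2 : (Sum.elim x (y ∘ e) : Fin 3 ⊕ Fin 3 → E) ∘
      (Sum.map id e.symm : Fin 3 ⊕ Fin 3 → Fin 3 ⊕ Fin 3) = Sum.elim x y := by
    funext a
    rcases a with a | a
    · simp
    · simp
  rw [e1, e2] at h2
  exact h2

end Pool.Agent.Helper57.NT
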