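import Pool.Agent.Helper57.NT.Sheet

set_option autoImplicit false

/-!
Project NT of helper57, part Lim
-/

namespace Pool.Agent.Helper57.NT.LimA

open Filter Topology Metric Bornology

/-- the reversed polynomial -/
noncomputable def rv (f : Polynomial ℂ) (n : ℕ) (u : ℂ) : ℂ :=
  ∑ i ∈ Finset.range (n + 1), f.coeff i * u ^ (n - i)

lemma rv_eq {f : Polynomial ℂ} {n : ℕ} (hf : f.natDegree ≤ n) {z : ℂ} (hz : z ≠ 0) :
    f.eval z = z ^ n * rv f n z⁻¹ := by
  unfold rv
  rw [Polynomial.eval_eq_sum_range' (n := n + 1) (by omega), Finset.mul_sum]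
  refine Finset.sum_congr rfl fun i hi => ?_
  have hi' := Finset.mem_range.mp hi
  have : z ^ n = z ^ i * z ^ (n - i) := by
    rw [← pow_add]
    congr 1
    omega
  rw [this, inv_pow]
  field_simp

lemma rv_cont (f : Polynomial ℂ) (n : ℕ) : Continuous (rv f n) := by
  unfold rv
  fun_prop

lemma rv_zero (f : Polynomial ℂ) (n : ℕ) : rv f n 0 = f.coeff n := by
  unfold rv
  rw [Finset.sum_range_succ, Nat.sub_self, pow_zero, mul_one, Finset.sum_eq_zero, zero_add]
  intro i hi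
  have := Finset.mem_range.mp hi
  rw [zero_pow (by omega), mul_zero]

lemma tendsto_rv (f : Polynomial ℂ) (n : ℕ) :
    Tendsto (fun z : ℂ => rv f n z⁻¹) (cobounded ℂ) (𝓝 (f.coeff n)) := by
  rw [← rv_zero]
  exact ((rv_cont f n).tendsto 0).comp tendsto_inv₀_cobounded

lemma tendsto_ratio {f g : Polynomial ℂ} (hg : g ≠ 0) (hf : f.natDegree ≤ g.natDegree) :
    Tendsto (fun z : ℂ => f.eval z / g.eval z) (cobounded ℂ) (𝓝 (f.coeff g.natDegree / g.leadingCoeff)) := by
  have h1 := (tendsto_rv f g.natDegree).div (tendsto_rv g g.natDegree) (Polynomial.leadingCoeff_ne_zero.mpr hg)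
  refine h1.congr' ?_
  have h0 : ∀ᶠ z : ℂ in cobounded ℂ, z ≠ 0 := by
    have := eventually_ne_cobounded (0 : ℂ)
    exact this
  filter_upwards [h0] with z hz
  simp only [Pi.div_apply]
  rw [rv_eq hf hz, rv_eq (le_refl g.natDegree) hz, mul_div_mul_left _ _ (pow_ne_zero _ hz)]

lemma eval_lower {g : Polynomial ℂ} (hg : g ≠ 0) : ∃ c : ℝ, 0 < c ∧ ∀ᶠ z : ℂ in cobounded ℂ, c ≤ ‖g.eval z‖ := by
  have hl : 0 < ‖g.leadingCoeff‖ := norm_pos_iff.mpr (Polynomial.leadingCoeff_ne_zero.mpr hg)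
  refine ⟨‖g.leadingCoeff‖ / 2, by positivity, ?_⟩
  have h1 := (tendsto_rv g g.natDegree).norm
  have h2 : ∀ᶠ z : ℂ in cobounded ℂ, ‖g.leadingCoeff‖ / 2 < ‖rv g g.natDegree z⁻¹‖ :=
    h1.eventually_const_lt (by
      show ‖g.leadingCoeff‖ / 2 < ‖g.leadingCoeff‖
      linarith)
  have h3 : ∀ᶠ z : ℂ in cobounded ℂ, 1 ≤ ‖z‖ := tendsto_norm_cobounded_atTop.eventually_ge_atTop 1
  filter_upwards [h2, h3] with z hz hz1
  have hz0 : z ≠ 0 := by
    rintro rfl
    norm_num at hz1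
  rw [rv_eq (le_refl g.natDegree) hz0, norm_mul, norm_pow]
  have := one_le_pow₀ (n := g.natDegree) hz1
  nlinarith [norm_nonneg (rv g g.natDegree z⁻¹)]

lemma eval_upper (f : Polynomial ℂ) : ∃ C : ℝ, 0 ≤ C ∧ ∀ z : ℂ, ‖f.eval z‖ ≤ C * (1 + ‖z‖) ^ f.natDegree := by
  refine ⟨∑ i ∈ Finset.range (f.natDegree + 1), ‖f.coeff i‖, by positivity, fun z => ?_⟩
  rw [Polynomial.eval_eq_sum_range, Finset.sum_mul]
  refine norm_sum_le_of_le _ fun i hi => ?_
  have hi' := Finset.mem_range.mp hi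
  rw [norm_mul, norm_pow]
  gcongr
  calc ‖z‖ ^ i ≤ (1 + ‖z‖) ^ i := by gcongr; linarith
    _ ≤ (1 + ‖z‖) ^ f.natDegree := pow_le_pow_right₀ (by linarith [norm_nonneg z]) (by omega)

lemma alg (D : ℕ) (P : ℕ → ℕ → ℂ) (X E : ℂ) (hE : E ≠ 0) (hP : P D 0 ≠ 0)
    (h : ∑ j ∈ Finset.range (D + 1), ∑ k ∈ Finset.range (D + 1 - j), P j k * X ^ j * E ^ k = 0) :
    (X / E) ^ D + ∑ j ∈ Finset.range D, (P j (D - j) / P D 0 +
      ∑ k ∈ Finset.range (D - j), P j k / P D 0 * E⁻¹ ^ (D - j - k)) * (X / E) ^ j = 0 := by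
  have key : ∀ j k : ℕ, j + k ≤ D → X ^ j * E ^ k = E ^ D * (E⁻¹ ^ (D - j - k) * (X / E) ^ j) := by
    intro j k hjk
    have e1 : E ^ D = E ^ (D - j - k) * E ^ k * E ^ j := by
      rw [← pow_add, ← pow_add]
      congr 1
      omega
    rw [e1, inv_pow, div_pow]
    field_simp
  have h2 : P D 0 * E ^ D * ((X / E) ^ D + ∑ j ∈ Finset.range D, (P j (D - j) / P D 0 +
      ∑ k ∈ Finset.range (D - j), P j k / P D 0 * E⁻¹ ^ (D - j - k)) * (X / E) ^ j) = 0 := by
    rw [← h, Finset.sum_range_succ, mul_add, add_comm]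
    congr 1
    · rw [Finset.mul_sum]
      refine Finset.sum_congr rfl fun j hj => ?_
      have hj' := Finset.mem_range.mp hj
      rw [show D + 1 - j = (D - j) + 1 by omega, Finset.sum_range_succ, add_comm (∑ _ ∈ _, _), add_mul, mul_add]
      congr 1
      · have := key j (D - j) (by omega)
        rw [mul_assoc (P j (D - j)), this, show D - j - (D - j) = 0 by omega, pow_zero]
        field_simp
      · rw [Finset.sum_mul, Finset.mul_sum]
        refine Finset.sum_congr rfl fun k hk => ?_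
        have hk' := Finset.mem_range.mp hk
        have := key j k (by omega)
        rw [mul_assoc (P j k), this]
        field_simp
    · rw [show D + 1 - D = 1 by omega, Finset.sum_range_one, pow_zero, mul_one, div_pow]
      field_simp
  exact (mul_eq_zero.mp h2).resolve_left (mul_ne_zero hP (pow_ne_zero _ hE))

lemma root_bound {D : ℕ} {c : ℕ → ℂ} {A : ℝ} (hD : 0 < D) (hA : ∀ j < D, ‖c j‖ ≤ A) {w : ℂ}
    (h : w ^ D + ∑ j ∈ Finset.range D, c j * w ^ j = 0) : ‖w‖ ≤ max 1 (D * A) := by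
  by_contra hc
  push Not at hc
  obtain ⟨h1, h2⟩ := max_lt_iff.mp hc
  have hA0 : 0 ≤ A := (norm_nonneg _).trans (hA 0 hD)
  have e : w ^ D = -∑ j ∈ Finset.range D, c j * w ^ j := eq_neg_of_add_eq_zero_left h
  have h3 : ‖w‖ ^ D ≤ ∑ j ∈ Finset.range D, A * ‖w‖ ^ (D - 1) := by
    rw [← norm_pow, e, norm_neg]
    refine norm_sum_le_of_le _ fun j hj => ?_
    have hj' := Finset.mem_range.mp hj
    rw [norm_mul, norm_pow]
    have := hA j hj'
    gcongr
    · exact h1.le
    · omega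
  rw [Finset.sum_const, Finset.card_range, nsmul_eq_mul] at h3
  have e2 : ‖w‖ ^ D = ‖w‖ * ‖w‖ ^ (D - 1) := by
    rw [← pow_succ']
    congr 1
    omega
  have h4 : 0 < ‖w‖ ^ (D - 1) := by positivity
  rw [e2] at h3
  nlinarith

/-- the statement -/
def S_lim : Prop := ∀ (D : ℕ) (p : ℕ → ℕ → Polynomial ℂ), p D 0 ≠ 0 →
    (∀ j ≤ D, (p j (D - j)).natDegree ≤ (p D 0).natDegree) →
    ∀ (X1 X2 : ℕ → ℂ → ℂ) (R : ℝ), 0 < R →
    (∃ b : ℕ, ∀ᶠ m : ℕ in atTop, ∀ s ∈ ball (0 : ℂ) R, ‖X1 m s‖ ≤ (m : ℝ) ^ b) →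
    (∀ K : ℝ, ∀ᶠ m : ℕ in atTop, ∀ s ∈ ball (0 : ℂ) R, K ≤ ‖X1 m s‖) →
    (∀ᶠ m : ℕ in atTop, DifferentiableOn ℂ (X2 m) (ball 0 R)) →
    (∀ᶠ m : ℕ in atTop, ∀ s ∈ ball (0 : ℂ) R, ∑ j ∈ Finset.range (D + 1),
      ∑ k ∈ Finset.range (D + 1 - j), (p j k).eval (X1 m s) * X2 m s ^ j *
        (Complex.exp m * Complex.exp s) ^ k = 0) →
    (∃ C : ℝ, ∀ᶠ m : ℕ in atTop, ∀ s ∈ ball (0 : ℂ) R, ‖X2 m s‖ ≤ C * Real.exp m) ∧
    ∀ U : Ultrafilter ℕ, (U : Filter ℕ) ≤ atTop → ∃ κ : ℂ, ∀ s ∈ ball (0 : ℂ) R,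
      Tendsto (fun m : ℕ => X2 m s / Complex.exp m) U (𝓝 (κ * Complex.exp s))

lemma tendsto_small (b d : ℕ) (C R : ℝ) :
    Tendsto (fun m : ℕ => C * (1 + (m : ℝ) ^ b) ^ d * Real.exp (R - m)) atTop (𝓝 0) := by
  have h1 : Tendsto (fun m : ℕ => |C| * 2 ^ d * Real.exp R * ((m : ℝ) ^ (b * d) * Real.exp (-(m : ℝ)))) atTop
      (𝓝 (|C| * 2 ^ d * Real.exp R * 0)) :=
    ((Real.tendsto_pow_mul_exp_neg_atTop_nhds_zero (b * d)).comp tendsto_natCast_atTop_atTop).const_mul _
  rw [mul_zero] at h1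
  refine squeeze_zero_norm' ?_ h1
  filter_upwards [eventually_ge_atTop 1] with m hm
  have hm1 : (1 : ℝ) ≤ m := by exact_mod_cast hm
  have h2 : (1 : ℝ) ≤ (m : ℝ) ^ b := one_le_pow₀ hm1
  rw [norm_mul, norm_mul, Real.norm_eq_abs, Real.norm_of_nonneg (by positivity : (0 : ℝ) ≤ (1 + (m : ℝ) ^ b) ^ d),
    Real.norm_of_nonneg (Real.exp_pos _).le]
  calc |C| * (1 + (m : ℝ) ^ b) ^ d * Real.exp (R - m) ≤ |C| * (2 * (m : ℝ) ^ b) ^ d * Real.exp (R - m) := by
        gcongr
        linarith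
    _ = |C| * 2 ^ d * Real.exp R * ((m : ℝ) ^ (b * d) * Real.exp (-(m : ℝ))) := by
      rw [sub_eq_add_neg, Real.exp_add, mul_pow, ← pow_mul]
      ring

/-- transfer of properties near infinity -/
lemma transfer {X1 : ℕ → ℂ → ℂ} {R : ℝ}
    (hinf : ∀ K : ℝ, ∀ᶠ m : ℕ in atTop, ∀ s ∈ ball (0 : ℂ) R, K ≤ ‖X1 m s‖) {P : ℂ → Prop}
    (hP : ∀ᶠ z : ℂ in cobounded ℂ, P z) : ∀ᶠ m : ℕ in atTop, ∀ s ∈ ball (0 : ℂ) R, P (X1 m s) := by
  obtain ⟨K, -, hK⟩ := (hasBasis_cobounded_norm (E := ℂ)).eventually_iff.mp hP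
  filter_upwards [hinf K] with m hm s hs
  exact hK (hm s hs)

theorem lim : S_lim := by
  intro D p hp0 hdeg X1 X2 R hR hpoly hinf hdiff heq
  obtain ⟨b, hb⟩ := hpoly
  have h0R : (0 : ℂ) ∈ ball (0 : ℂ) R := mem_ball_self hR
  -- the lower bound of the leading polynomial
  obtain ⟨c0, hc0, hlow⟩ := eval_lower hp0
  have hlow' := transfer hinf hlow
  -- the degree is positive
  have hD : 0 < D := by
    by_contra hD0
    have hD0' : D = 0 := by omega
    subst hD0'
    obtain ⟨m, hm1, hm2⟩ := (hlow'.and heq).exists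
    have h1 := hm1 0 h0R
    have h2 := hm2 0 h0R
    simp at h2
    rw [h2, norm_zero] at h1
    linarith
  -- the limits of the main coefficients
  set q : ℕ → ℂ := fun j => (p j (D - j)).coeff (p D 0).natDegree / (p D 0).leadingCoeff with hq
  have hrat : ∀ j < D, Tendsto (fun z : ℂ => (p j (D - j)).eval z / (p D 0).eval z) (cobounded ℂ) (𝓝 (q j)) :=
    fun j hj => tendsto_ratio hp0 (hdeg j hj.le)
  -- the bounds of the other coefficients
  choose Cu hCu0 hCu using fun j k : ℕ => eval_upper (p j k)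
  set d : ℕ := ∑ j ∈ Finset.range D, ∑ k ∈ Finset.range D, (p j k).natDegree with hd
  set CC : ℝ := ∑ j ∈ Finset.range D, ∑ k ∈ Finset.range D, Cu j k / c0 with hCC
  set ε : ℕ → ℝ := fun m => D * CC * (1 + (m : ℝ) ^ b) ^ d * Real.exp (R - m) with hε
  have hε0 : Tendsto ε atTop (𝓝 0) := tendsto_small b d (D * CC) R
  -- the coefficients of the equation of the slope
  set cf : ℕ → ℂ → ℕ → ℂ := fun m s j => (p j (D - j)).eval (X1 m s) / (p D 0).eval (X1 m s) +
      ∑ k ∈ Finset.range (D - j), (p j k).eval (X1 m s) / (p D 0).eval (X1 m s) *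
        (Complex.exp m * Complex.exp s)⁻¹ ^ (D - j - k) with hcf
  have hEn : ∀ (m : ℕ) (s : ℂ), s ∈ ball (0 : ℂ) R → Real.exp (m - R) ≤ ‖Complex.exp m * Complex.exp s‖ ∧
      ‖Complex.exp m * Complex.exp s‖ ≤ Real.exp R * Real.exp m := by
    intro m s hs
    have hs' : |s.re| ≤ R := (Complex.abs_re_le_norm s).trans (by
      have := mem_ball_zero_iff.mp hs
      exact this.le)
    have h1 := abs_le.mp hs'
    rw [← Complex.exp_add, Complex.norm_exp, ← Real.exp_add]
    have e : ((m : ℂ) + s).re = m + s.re := by simp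
    rw [e]
    exact ⟨Real.exp_le_exp.mpr (by linarith), Real.exp_le_exp.mpr (by linarith)⟩
  -- the equation
  have hmain : ∀ᶠ m : ℕ in atTop, ∀ s ∈ ball (0 : ℂ) R,
      (X2 m s / (Complex.exp m * Complex.exp s)) ^ D + ∑ j ∈ Finset.range D,
        cf m s j * (X2 m s / (Complex.exp m * Complex.exp s)) ^ j = 0 := by
    filter_upwards [hlow', heq] with m h1 h2 s hs
    have hne : (p D 0).eval (X1 m s) ≠ 0 := by
      have := h1 s hs
      intro h0
      rw [h0, norm_zero] at this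
      linarith
    exact alg D (fun j k => (p j k).eval (X1 m s)) (X2 m s) (Complex.exp m * Complex.exp s)
      (mul_ne_zero (Complex.exp_ne_zero _) (Complex.exp_ne_zero _)) hne (h2 s hs)
  -- the small part
  have hsmall : ∀ᶠ m : ℕ in atTop, ∀ s ∈ ball (0 : ℂ) R, ∀ j < D,
      ‖cf m s j - (p j (D - j)).eval (X1 m s) / (p D 0).eval (X1 m s)‖ ≤ ε m := by
    filter_upwards [hlow', hb, eventually_ge_atTop ⌈R⌉₊] with m h1 h2 h3 s hs j hj
    have hmR : R ≤ m := (Nat.le_ceil R).trans (by exact_mod_cast h3)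
    have hE1 := (hEn m s hs).1
    have hE2 : 1 ≤ ‖Complex.exp m * Complex.exp s‖ := (Real.one_le_exp (by linarith)).trans hE1
    have hx := h2 s hs
    have hl := h1 s hs
    simp only [hcf]
    rw [add_sub_cancel_left]
    have hterm : ∀ k ∈ Finset.range (D - j), ‖(p j k).eval (X1 m s) / (p D 0).eval (X1 m s) *
        (Complex.exp m * Complex.exp s)⁻¹ ^ (D - j - k)‖ ≤ CC * (1 + (m : ℝ) ^ b) ^ d * Real.exp (R - m) := by
      intro k hk
      have hk' := Finset.mem_range.mp hk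
      rw [norm_mul, norm_div, norm_pow, norm_inv]
      have b1 : ‖(p j k).eval (X1 m s)‖ / ‖(p D 0).eval (X1 m s)‖ ≤ CC * (1 + (m : ℝ) ^ b) ^ d := by
        have hb1 : ‖(p j k).eval (X1 m s)‖ / ‖(p D 0).eval (X1 m s)‖ ≤
            Cu j k / c0 * (1 + (m : ℝ) ^ b) ^ (p j k).natDegree := by
          calc ‖(p j k).eval (X1 m s)‖ / ‖(p D 0).eval (X1 m s)‖ ≤
                (Cu j k * (1 + ‖X1 m s‖) ^ (p j k).natDegree) / c0 :=
                div_le_div₀ (by have := hCu0 j k; positivity) (hCu j k _) hc0 hl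
            _ ≤ (Cu j k * (1 + (m : ℝ) ^ b) ^ (p j k).natDegree) / c0 := by
                have := hCu0 j k
                gcongr
            _ = _ := by ring
        refine hb1.trans ?_
        have hC1 : Cu j k / c0 ≤ CC := by
          have a1 : Cu j k / c0 ≤ ∑ k ∈ Finset.range D, Cu j k / c0 :=
            Finset.single_le_sum (f := fun k => Cu j k / c0)
              (fun i _ => div_nonneg (hCu0 j i) hc0.le) (Finset.mem_range.mpr (by omega))
          refine a1.trans ?_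
          exact Finset.single_le_sum (f := fun j => ∑ k ∈ Finset.range D, Cu j k / c0)
            (fun i _ => Finset.sum_nonneg fun l _ => div_nonneg (hCu0 i l) hc0.le) (Finset.mem_range.mpr hj)
        have hd1 : (p j k).natDegree ≤ d := by
          have a1 : (p j k).natDegree ≤ ∑ k ∈ Finset.range D, (p j k).natDegree :=
            Finset.single_le_sum (f := fun k => (p j k).natDegree) (fun i _ => Nat.zero_le _)
              (Finset.mem_range.mpr (by omega))
          refine a1.trans ?_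
          exact Finset.single_le_sum (f := fun j => ∑ k ∈ Finset.range D, (p j k).natDegree)
            (fun i _ => Nat.zero_le _) (Finset.mem_range.mpr hj)
        have h5 : (1 : ℝ) ≤ 1 + (m : ℝ) ^ b := by
          have : (0 : ℝ) ≤ (m : ℝ) ^ b := by positivity
          linarith
        have h6 := pow_le_pow_right₀ h5 hd1
        have h7 : 0 ≤ Cu j k / c0 := div_nonneg (hCu0 j k) hc0.le
        calc Cu j k / c0 * (1 + (m : ℝ) ^ b) ^ (p j k).natDegree ≤ Cu j k / c0 * (1 + (m : ℝ) ^ b) ^ d := by gcongr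
          _ ≤ _ := by gcongr
      have b2 : ‖Complex.exp m * Complex.exp s‖⁻¹ ^ (D - j - k) ≤ Real.exp (R - m) := by
        have h4 : ‖Complex.exp m * Complex.exp s‖⁻¹ ≤ 1 := inv_le_one_of_one_le₀ hE2
        calc ‖Complex.exp m * Complex.exp s‖⁻¹ ^ (D - j - k) ≤ ‖Complex.exp m * Complex.exp s‖⁻¹ ^ 1 :=
              pow_le_pow_of_le_one (by positivity) h4 (by omega)
          _ = ‖Complex.exp m * Complex.exp s‖⁻¹ := pow_one _
          _ ≤ (Real.exp (m - R))⁻¹ := by gcongr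
          _ = Real.exp (R - m) := by rw [← Real.exp_neg]; congr 1; ring
      have hCC0 : 0 ≤ CC * (1 + (m : ℝ) ^ b) ^ d :=
        (div_nonneg (norm_nonneg _) (norm_nonneg _)).trans b1
      exact mul_le_mul b1 b2 (by positivity) hCC0
    refine (norm_sum_le_of_le _ hterm).trans ?_
    rw [Finset.sum_const, Finset.card_range, nsmul_eq_mul, hε]
    have hCC0 : 0 ≤ CC * (1 + (m : ℝ) ^ b) ^ d * Real.exp (R - m) := by
      have : 0 ≤ CC := Finset.sum_nonneg fun i _ => Finset.sum_nonneg fun l _ => div_nonneg (hCu0 i l) hc0.le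
      positivity
    calc ((D - j : ℕ) : ℝ) * (CC * (1 + (m : ℝ) ^ b) ^ d * Real.exp (R - m)) ≤
          (D : ℝ) * (CC * (1 + (m : ℝ) ^ b) ^ d * Real.exp (R - m)) := by
          gcongr
          omega
      _ = _ := by ring
  -- the coefficients are bounded
  set A : ℝ := ∑ j ∈ Finset.range D, ‖q j‖ + 2 with hA
  have hcoef : ∀ᶠ m : ℕ in atTop, ∀ s ∈ ball (0 : ℂ) R, ∀ j < D, ‖cf m s j‖ ≤ A := by
    have hr : ∀ᶠ z : ℂ in cobounded ℂ, ∀ j < D, ‖(p j (D - j)).eval z / (p D 0).eval z‖ ≤ ‖q j‖ + 1 := by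
      have := (Finset.eventually_all (Finset.range D) (l := cobounded ℂ)
        (p := fun j z => ‖(p j (D - j)).eval z / (p D 0).eval z‖ ≤ ‖q j‖ + 1)).mpr (fun j hj =>
          (((hrat j (Finset.mem_range.mp hj)).norm).eventually_le_const (by linarith)))
      filter_upwards [this] with z hz j hj
      exact hz j (Finset.mem_range.mpr hj)
    filter_upwards [transfer hinf hr, hsmall, hε0.eventually_le_const (show (0 : ℝ) < 1 by norm_num)]
      with m h1 h2 h3 s hs j hj
    have a1 := h1 s hs j hj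
    have a2 := h2 s hs j hj
    have a3 : ‖q j‖ ≤ ∑ j ∈ Finset.range D, ‖q j‖ :=
      Finset.single_le_sum (f := fun j => ‖q j‖) (fun i _ => norm_nonneg _) (Finset.mem_range.mpr hj)
    have a4 : ‖cf m s j‖ ≤ ‖cf m s j - (p j (D - j)).eval (X1 m s) / (p D 0).eval (X1 m s)‖ +
        ‖(p j (D - j)).eval (X1 m s) / (p D 0).eval (X1 m s)‖ := by
      have := norm_add_le (cf m s j - (p j (D - j)).eval (X1 m s) / (p D 0).eval (X1 m s))
        ((p j (D - j)).eval (X1 m s) / (p D 0).eval (X1 m s))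
      rwa [sub_add_cancel] at this
    rw [hA]
    linarith
  set B : ℝ := max 1 (D * A) with hB
  have hB1 : 1 ≤ B := le_max_left _ _
  have hw : ∀ᶠ m : ℕ in atTop, ∀ s ∈ ball (0 : ℂ) R, ‖X2 m s / (Complex.exp m * Complex.exp s)‖ ≤ B := by
    filter_upwards [hmain, hcoef] with m h1 h2 s hs
    exact root_bound hD (h2 s hs) (h1 s hs)
  have hX2 : ∀ᶠ m : ℕ in atTop, ∀ s ∈ ball (0 : ℂ) R, ‖X2 m s‖ ≤ B * Real.exp R * Real.exp m := by
    filter_upwards [hw] with m h1 s hs
    have a1 := h1 s hs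
    have hne : 0 < ‖Complex.exp m * Complex.exp s‖ :=
      norm_pos_iff.mpr (mul_ne_zero (Complex.exp_ne_zero _) (Complex.exp_ne_zero _))
    rw [norm_div, div_le_iff₀ hne] at a1
    have a2 := (hEn m s hs).2
    calc ‖X2 m s‖ ≤ B * ‖Complex.exp m * Complex.exp s‖ := a1
      _ ≤ B * (Real.exp R * Real.exp m) := by gcongr
      _ = _ := by ring
  refine ⟨⟨B * Real.exp R, hX2⟩, fun U hU => ?_⟩
  -- the functions
  set f : ℕ → ℂ → ℂ := fun m s => X2 m s / Complex.exp m with hf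
  have hfb : ∀ᶠ m : ℕ in U, ∀ s ∈ ball (0 : ℂ) R, ‖f m s‖ ≤ B * Real.exp R := by
    filter_upwards [hU hX2] with m h1 s hs
    have hne : 0 < Real.exp m := Real.exp_pos _
    have e : ‖Complex.exp (m : ℂ)‖ = Real.exp m := by rw [Complex.norm_exp]; simp
    simp only [hf]
    rw [norm_div, e, div_le_iff₀ hne]
    exact h1 s hs
  set B' : ℝ := B * Real.exp R with hB'
  have hB'0 : 0 ≤ B' := by positivity
  -- the limit
  have hlimex : ∀ s ∈ ball (0 : ℂ) R, ∃ y : ℂ, Tendsto (fun m => f m s) U (𝓝 y) := by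
    intro s hs
    have h1 : ∀ᶠ m : ℕ in U, f m s ∈ closedBall (0 : ℂ) B' := by
      filter_upwards [hfb] with m hm
      exact mem_closedBall_zero_iff.mpr (hm s hs)
    obtain ⟨y, -, hy⟩ := (isCompact_closedBall (0 : ℂ) B').ultrafilter_le_nhds' (U.map (fun m => f m s)) h1
    exact ⟨y, hy⟩
  choose! F hF using hlimex
  -- the limit satisfies a polynomial equation
  set W : ℂ → ℂ := fun s => F s / Complex.exp s with hW
  have hWlim : ∀ s ∈ ball (0 : ℂ) R,
      Tendsto (fun m : ℕ => X2 m s / (Complex.exp m * Complex.exp s)) U (𝓝 (W s)) := by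
    intro s hs
    have h1 := (hF s hs).div_const (Complex.exp s)
    refine h1.congr fun m => ?_
    simp only [hf]
    rw [div_div]
  have hX1inf : ∀ s ∈ ball (0 : ℂ) R, Tendsto (fun m : ℕ => X1 m s) atTop (cobounded ℂ) := by
    intro s hs
    rw [← tendsto_norm_atTop_iff_cobounded, Filter.tendsto_atTop]
    intro K
    filter_upwards [hinf K] with m hm
    exact hm s hs
  have hcflim : ∀ s ∈ ball (0 : ℂ) R, ∀ j < D, Tendsto (fun m : ℕ => cf m s j) atTop (𝓝 (q j)) := by
    intro s hs j hj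
    have h1 : Tendsto (fun m : ℕ => (p j (D - j)).eval (X1 m s) / (p D 0).eval (X1 m s)) atTop (𝓝 (q j)) :=
      (hrat j hj).comp (hX1inf s hs)
    have h2 : Tendsto (fun m : ℕ => cf m s j - (p j (D - j)).eval (X1 m s) / (p D 0).eval (X1 m s)) atTop (𝓝 0) := by
      refine squeeze_zero_norm' ?_ hε0
      filter_upwards [hsmall] with m hm
      exact hm s hs j hj
    have h3 := h2.add h1
    rw [zero_add] at h3
    refine h3.congr fun m => ?_
    ring
  set G : Polynomial ℂ := Polynomial.X ^ D + ∑ j ∈ Finset.range D, Polynomial.C (q j) * Polynomial.X ^ j with hG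
  have hG0 : G ≠ 0 := by
    have hlt : (∑ j ∈ Finset.range D, Polynomial.C (q j) * Polynomial.X ^ j).degree < (D : WithBot ℕ) := by
      refine (Polynomial.degree_sum_le _ _).trans_lt ?_
      refine (Finset.sup_lt_iff (WithBot.bot_lt_coe D)).mpr fun j hj => ?_
      refine (Polynomial.degree_C_mul_X_pow_le j (q j)).trans_lt ?_
      exact WithBot.coe_lt_coe.mpr (Finset.mem_range.mp hj)
    have hm : G.Monic := by
      rw [hG]
      exact Polynomial.monic_X_pow_add hlt
    exact hm.ne_zero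
  have hWroot : ∀ s ∈ ball (0 : ℂ) R, G.IsRoot (W s) := by
    intro s hs
    have h1 : Tendsto (fun m : ℕ => (X2 m s / (Complex.exp m * Complex.exp s)) ^ D + ∑ j ∈ Finset.range D,
        cf m s j * (X2 m s / (Complex.exp m * Complex.exp s)) ^ j) U
        (𝓝 (W s ^ D + ∑ j ∈ Finset.range D, q j * W s ^ j)) := by
      refine ((hWlim s hs).pow D).add (tendsto_finsetSum _ fun j hj => ?_)
      exact ((hcflim s hs j (Finset.mem_range.mp hj)).mono_left hU).mul ((hWlim s hs).pow j)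
    have h2 : Tendsto (fun m : ℕ => (X2 m s / (Complex.exp m * Complex.exp s)) ^ D + ∑ j ∈ Finset.range D,
        cf m s j * (X2 m s / (Complex.exp m * Complex.exp s)) ^ j) U (𝓝 0) := by
      refine tendsto_const_nhds.congr' ?_
      filter_upwards [hU hmain] with m hm
      exact (hm s hs).symm
    have h3 := tendsto_nhds_unique h1 h2
    rw [Polynomial.IsRoot, hG, Polynomial.eval_add, Polynomial.eval_pow, Polynomial.eval_X, Polynomial.eval_finsetSum]
    simpa using h3
  -- continuity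
  have hFc : ContinuousOn F (ball (0 : ℂ) R) := by
    intro s0 hs0
    obtain ⟨r, hr, hrs⟩ := Metric.isOpen_iff.mp (isOpen_ball (x := (0 : ℂ)) (ε := R)) s0 hs0
    have hL : ∀ z ∈ ball s0 r, dist (F z) (F s0) ≤ (2 * B' + 1) / r * dist z s0 := by
      intro z hz
      have h1 : Tendsto (fun m => dist (f m z) (f m s0)) U (𝓝 (dist (F z) (F s0))) :=
        (hF z (hrs hz)).dist (hF s0 hs0)
      refine le_of_tendsto h1 ?_
      filter_upwards [hfb, hU hdiff] with m hm1 hm2
      have hd : DifferentiableOn ℂ (f m) (ball s0 r) := by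
        simp only [hf]
        exact (hm2.mono hrs).div_const _
      have hmaps : Set.MapsTo (f m) (ball s0 r) (closedBall (f m s0) (2 * B' + 1)) := by
        intro x hx
        rw [mem_closedBall, dist_eq_norm]
        have a1 := hm1 x (hrs hx)
        have a2 := hm1 s0 hs0
        have := norm_sub_le (f m x) (f m s0)
        linarith
      exact Complex.dist_le_div_mul_dist_of_mapsTo_ball hd hmaps hz
    have hcont : ContinuousAt F s0 := by
      rw [ContinuousAt, tendsto_iff_dist_tendsto_zero]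
      have h5 : Tendsto (fun z => (2 * B' + 1) / r * dist z s0) (𝓝 s0) (𝓝 0) := by
        have : Tendsto (fun z => (2 * B' + 1) / r * dist z s0) (𝓝 s0) (𝓝 ((2 * B' + 1) / r * dist s0 s0)) :=
          Continuous.tendsto (by fun_prop) s0
        rwa [dist_self, mul_zero] at this
      refine squeeze_zero' (Eventually.of_forall fun z => dist_nonneg) ?_ h5
      filter_upwards [ball_mem_nhds s0 hr] with z hz
      exact hL z hz
    exact hcont.continuousWithinAt
  have hWc : ContinuousOn W (ball (0 : ℂ) R) := by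
    simp only [hW]
    exact hFc.div Complex.continuous_exp.continuousOn fun s _ => Complex.exp_ne_zero s
  -- constancy
  set T : Set ℂ := {z | G.IsRoot z} with hT
  have hTfin : T.Finite := Polynomial.finite_setOfPred_isRoot hG0
  have : Finite T := hTfin
  obtain ⟨κ, -, hκ⟩ := (convex_ball (0 : ℂ) R).isPreconnected.eqOn_const_of_mapsTo (T := T) hTfin.isDiscrete
    hWc (fun s hs => hWroot s hs) ⟨W 0, hWroot 0 h0R⟩
  refine ⟨κ, fun s hs => ?_⟩
  have h1 := hF s hs
  have h2 : F s = κ * Complex.exp s := by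
    have h3 : W s = κ := hκ hs
    rw [← h3]
    simp only [hW]
    rw [div_mul_cancel₀ _ (Complex.exp_ne_zero s)]
  rw [← h2]
  exact h1

end Pool.Agent.Helper57.NT.LimA

namespace Pool.Agent.Helper57.NT

theorem lim : S_lim := LimA.lim

end Pool.Agent.Helper57.NT
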