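import Pool.Agent.Helper57.NT.Sheet

/-!
# Unimodular changes of coordinates (part 5)
-/

set_option autoImplicit false

namespace Pool.Agent.Helper57.NT

open MvPolynomial Pool.Agent.Q72.EG

theorem dt_add {n : ℕ} {E : Type} [Field E] (m k : Fin n → ℤ) (x : Fin n → E) :
    dt (m + k) x = dt m x + dt k x := by
  unfold dt
  rw [← Finset.sum_add_distrib]
  refine Finset.sum_congr rfl fun l _ => ?_
  rw [Pi.add_apply]
  push_cast
  ring

theorem dt_vecMul {n : ℕ} {E : Type} [Field E] (M : Matrix (Fin n) (Fin n) ℤ) (m : Fin n → ℤ)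
    (x : Fin n → E) : dt m (fun i => dt (M i) x) = dt (Matrix.vecMul m M) x := by
  unfold dt
  simp only [Finset.mul_sum]
  rw [Finset.sum_comm]
  refine Finset.sum_congr rfl fun j _ => ?_
  rw [Matrix.vecMul, dotProduct]
  push_cast
  rw [Finset.sum_mul]
  exact Finset.sum_congr rfl fun i _ => by ring

theorem mon_vecMul {n : ℕ} {E : Type} [Field E] (M : Matrix (Fin n) (Fin n) ℤ) (m : Fin n → ℤ)
    {y : Fin n → E} (hy : ∀ l, y l ≠ 0) :
    mon m (fun i => mon (M i) y) = mon (Matrix.vecMul m M) y := by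
  unfold mon
  have h1 : ∀ i, (∏ l, y l ^ M i l) ^ m i = ∏ l, y l ^ (m i * M i l) := by
    intro i
    rw [← Finset.prod_zpow]
    exact Finset.prod_congr rfl fun l _ => by rw [← zpow_mul, mul_comm]
  rw [Finset.prod_congr rfl fun i _ => h1 i, Finset.prod_comm]
  refine Finset.prod_congr rfl fun j _ => ?_
  rw [Matrix.vecMul, dotProduct]
  induction (Finset.univ : Finset (Fin n)) using Finset.induction_on with
  | empty => simp
  | insert a s ha ih => rw [Finset.prod_insert ha, Finset.sum_insert ha, zpow_add₀ (hy j), ih]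

theorem mon_add {n : ℕ} {E : Type} [Field E] (m k : Fin n → ℤ) {y : Fin n → E}
    (hy : ∀ l, y l ≠ 0) : mon (m + k) y = mon m y * mon k y := by
  unfold mon
  rw [← Finset.prod_mul_distrib]
  exact Finset.prod_congr rfl fun l _ => by rw [Pi.add_apply, zpow_add₀ (hy l)]

theorem mon_smul {n : ℕ} {E : Type} [Field E] (k : ℤ) (m : Fin n → ℤ) (y : Fin n → E) :
    mon (k • m) y = mon m y ^ k := by
  unfold mon
  rw [← Finset.prod_zpow]
  exact Finset.prod_congr rfl fun l _ => by
    rw [Pi.smul_apply, smul_eq_mul, mul_comm, zpow_mul]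

theorem mon_ne {n : ℕ} {E : Type} [Field E] (m : Fin n → ℤ) {y : Fin n → E}
    (hy : ∀ l, y l ≠ 0) : mon m y ≠ 0 :=
  Finset.prod_ne_zero_iff.2 fun l _ => zpow_ne_zero _ (hy l)

theorem vecMul_row {n : ℕ} {M N : Matrix (Fin n) (Fin n) ℤ} (h : N * M = 1) (l : Fin n) :
    Matrix.vecMul (N l) M = Pi.single l 1 := by
  funext j
  have h1 : (N * M) l j = (1 : Matrix (Fin n) (Fin n) ℤ) l j := by rw [h]
  rw [Matrix.mul_apply, Matrix.one_apply] at h1
  rw [Matrix.vecMul, dotProduct]
  rw [show ∑ i, N l i * M i j = ∑ i, N l i * M i j from rfl, h1]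
  by_cases hlj : l = j
  · subst hlj; simp
  · rw [if_neg hlj, Pi.single_eq_of_ne (Ne.symm hlj)]

theorem dt_single {n : ℕ} {E : Type} [Field E] (l : Fin n) (x : Fin n → E) :
    dt (Pi.single l 1) x = x l := by
  unfold dt
  rw [Finset.sum_eq_single l]
  · simp
  · intro b _ hb
    rw [Pi.single_eq_of_ne hb]
    simp
  · simp

theorem mon_single {n : ℕ} {E : Type} [Field E] (l : Fin n) (y : Fin n → E) :
    mon (Pi.single l 1) y = y l := by
  unfold mon
  rw [Finset.prod_eq_single l]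
  · simp
  · intro b _ hb
    rw [Pi.single_eq_of_ne hb]
    simp
  · simp

theorem exp_dt {n : ℕ} (m : Fin n → ℤ) (z : Fin n → ℂ) :
    Complex.exp (dt m z) = mon m (fun i => Complex.exp (z i)) := by
  unfold dt mon
  rw [Complex.exp_sum]
  exact Finset.prod_congr rfl fun i _ => by rw [Complex.exp_int_mul]

/-- clearing the denominators of a monomial substitution -/
theorem subst_poly {n : ℕ} (N : Matrix (Fin n) (Fin n) ℤ) (g : MvPolynomial (Fin n ⊕ Fin n) ℂ) :
    ∃ (K : ℕ) (g' : MvPolynomial (Fin n ⊕ Fin n) ℂ), ∀ (F : Type) [Field F] [Algebra ℂ F]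
      (x y : Fin n → F), (∀ l, y l ≠ 0) → aeval (Sum.elim x y) g' =
        (∏ l, y l) ^ K * aeval (Sum.elim (fun l => dt (N l) x) (fun l => mon (N l) y)) g := by
  induction g using MvPolynomial.induction_on with
  | C c =>
    refine ⟨0, C c, fun F _ _ x y _ => ?_⟩
    rw [pow_zero, one_mul, MvPolynomial.algHom_C, MvPolynomial.algHom_C]
  | add p q hp hq =>
    obtain ⟨K1, g1, h1⟩ := hp
    obtain ⟨K2, g2, h2⟩ := hq
    refine ⟨K1 + K2, (∏ l : Fin n, (X (Sum.inr l) : MvPolynomial (Fin n ⊕ Fin n) ℂ)) ^ K2 * g1 +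
      (∏ l : Fin n, (X (Sum.inr l) : MvPolynomial (Fin n ⊕ Fin n) ℂ)) ^ K1 * g2,
      fun F _ _ x y hy => ?_⟩
    rw [map_add, map_mul, map_mul, map_pow, map_pow, map_prod, h1 F x y hy, h2 F x y hy, map_add]
    simp only [aeval_X, Sum.elim_inr]
    ring
  | mul_X p i hp =>
    obtain ⟨K1, g1, h1⟩ := hp
    rcases i with l | l
    · refine ⟨K1, g1 * ∑ i, C ((N l i : ℤ) : ℂ) * X (Sum.inl i), fun F _ _ x y hy => ?_⟩
      rw [map_mul, map_mul, h1 F x y hy, map_sum, aeval_X, Sum.elim_inl]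
      have : ∑ i, aeval (Sum.elim x y) (C ((N l i : ℤ) : ℂ) * X (Sum.inl i)) = dt (N l) x := by
        unfold dt
        refine Finset.sum_congr rfl fun i _ => ?_
        rw [map_mul, MvPolynomial.algHom_C, aeval_X, Sum.elim_inl, map_intCast]
      rw [this]
      ring
    · obtain ⟨k, hk⟩ : ∃ k : ℕ, ∀ i, 0 ≤ (k : ℤ) + N l i := by
        refine ⟨∑ i, (N l i).natAbs, fun i => ?_⟩
        have h2 : (N l i).natAbs ≤ ∑ i, (N l i).natAbs :=
          Finset.single_le_sum (f := fun i => (N l i).natAbs) (fun _ _ => Nat.zero_le _)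
            (Finset.mem_univ i)
        omega
      refine ⟨K1 + k, g1 * ∏ i : Fin n, (X (Sum.inr i) : MvPolynomial (Fin n ⊕ Fin n) ℂ) ^
        ((k : ℤ) + N l i).toNat, fun F _ _ x y hy => ?_⟩
      rw [map_mul, map_mul, h1 F x y hy, map_prod, aeval_X, Sum.elim_inr]
      have : ∏ i : Fin n, aeval (Sum.elim x y) ((X (Sum.inr i) : MvPolynomial (Fin n ⊕ Fin n) ℂ) ^
          ((k : ℤ) + N l i).toNat) =
          (∏ l, y l) ^ k * mon (N l) y := by
        unfold mon
        rw [← Finset.prod_pow, ← Finset.prod_mul_distrib]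
        refine Finset.prod_congr rfl fun i _ => ?_
        rw [map_pow, aeval_X, Sum.elim_inr, ← zpow_natCast, Int.toNat_of_nonneg (hk i),
          zpow_add₀ (hy i), zpow_natCast]
      rw [this]
      ring

/-- **Part 5.** -/
theorem uni : S_uni := by
  intro n E _ _ x y hy M N hNM ⟨z', hz'⟩
  refine ⟨fun l => dt (N l) z', fun g hg => ?_⟩
  obtain ⟨K, g', hg'⟩ := subst_poly N g
  have hx : (fun l => dt (N l) (fun i => dt (M i) x)) = x := by
    funext l
    rw [dt_vecMul, vecMul_row hNM, dt_single]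
  have hyy : (fun l => mon (N l) (fun i => mon (M i) y)) = y := by
    funext l
    rw [mon_vecMul M (N l) hy, vecMul_row hNM, mon_single]
  have h1 := hg' E (fun i => dt (M i) x) (fun i => mon (M i) y) fun l => mon_ne _ hy
  rw [hx, hyy, hg, mul_zero] at h1
  have h2 := hz' g' h1
  have h3 := hg' ℂ z' (fun l => Complex.exp (z' l)) fun l => Complex.exp_ne_zero _
  simp only [MvPolynomial.aeval_eq_eval] at h3
  have h4 : eval (Sum.elim z' fun l => Complex.exp (z' l)) g' = 0 := h2
  rw [h4] at h3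
  have h5 := (mul_eq_zero.1 h3.symm).resolve_left
    (pow_ne_zero _ (Finset.prod_ne_zero_iff.2 fun l _ => Complex.exp_ne_zero _))
  have h6 : (fun l => Complex.exp (dt (N l) z')) = fun l => mon (N l) fun i => Complex.exp (z' i) := by
    funext l
    exact exp_dt _ _
  change eval (Sum.elim (fun l => dt (N l) z') fun l => Complex.exp (dt (N l) z')) g = 0
  rw [h6]
  exact h5

end Pool.Agent.Helper57.NT
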