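import Mathlib
import Pool.Agent.Helper57.NT.Cl
import Pool.Agent.Helper57.NT.Uni

/-!
Project NT, part 7, preparations: polynomials in three variables as polynomials in the last two,
and a linear substitution which makes the leading coefficient of maximal degree.
-/

set_option autoImplicit false

namespace Pool.Agent.Helper7.NT

open MvPolynomial

/-- the linear substitution `x₂ = v + t u` in a polynomial in `x₁ = u` and `x₂` -/
theorem shift_sum {A : Type} [CommRing A] (c : ℕ → ℕ → A) (u v t : A) (D : ℕ) :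
    ∑ j ∈ Finset.range (D + 1), ∑ k ∈ Finset.range (D + 1 - j), c j k * u ^ j * (v + t * u) ^ k =
    ∑ a ∈ Finset.range (D + 1), ∑ i ∈ Finset.range (D + 1 - a),
      (∑ l ∈ Finset.range (a + 1), ((i + l).choose i : A) * t ^ l * c (a - l) (i + l)) *
        u ^ a * v ^ i := by
  have h1 : ∀ j k, c j k * u ^ j * (v + t * u) ^ k =
      ∑ l ∈ Finset.range (k + 1), c j k * u ^ j * ((t * u) ^ l * v ^ (k - l) * (k.choose l : A)) := by
    intro j k
    rw [add_comm v, add_pow, Finset.mul_sum]
  simp only [h1, Finset.sum_mul]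
  rw [Finset.sum_sigma', Finset.sum_sigma', Finset.sum_sigma', Finset.sum_sigma']
  refine Finset.sum_nbij' (fun x => ⟨⟨x.1.1 + x.2, x.1.2 - x.2⟩, x.2⟩)
    (fun x => ⟨⟨x.1.1 - x.2, x.1.2 + x.2⟩, x.2⟩) ?_ ?_ ?_ ?_ ?_
  · rintro ⟨⟨j, k⟩, l⟩ h
    simp only [Finset.mem_sigma, Finset.mem_range] at h ⊢
    omega
  · rintro ⟨⟨j, k⟩, l⟩ h
    simp only [Finset.mem_sigma, Finset.mem_range] at h ⊢
    omega
  · rintro ⟨⟨j, k⟩, l⟩ h
    simp only [Finset.mem_sigma, Finset.mem_range] at h
    simp only [Sigma.mk.injEq, heq_eq_eq, and_true]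
    omega
  · rintro ⟨⟨j, k⟩, l⟩ h
    simp only [Finset.mem_sigma, Finset.mem_range] at h
    simp only [Sigma.mk.injEq, heq_eq_eq, and_true]
    omega
  · rintro ⟨⟨j, k⟩, l⟩ h
    simp only [Finset.mem_sigma, Finset.mem_range] at h
    obtain ⟨⟨h2, h3⟩, h4⟩ := h
    simp only
    have e1 : k - l + l = k := by omega
    have e2 : j + l - l = j := by omega
    rw [e1, e2, ← Nat.choose_symm (by omega : l ≤ k)]
    rw [mul_pow, pow_add]
    ring

/-- the coefficient of `x₁^j x₂^k`, a polynomial in `x₀` -/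
noncomputable def cfj (P : MvPolynomial (Fin 3) ℂ) (j k : ℕ) : Polynomial ℂ :=
  ∑ m ∈ P.support.filter (fun m => m 1 = j ∧ m 2 = k), Polynomial.monomial (m 0) (coeff m P)

/-- the total degree in the last two variables -/
noncomputable def dg (P : MvPolynomial (Fin 3) ℂ) : ℕ := P.support.sup fun m => m 1 + m 2

theorem aeval_cfj {E : Type} [Field E] [Algebra ℂ E] (x : Fin 3 → E) (P : MvPolynomial (Fin 3) ℂ) :
    ∑ j ∈ Finset.range (dg P + 1), ∑ k ∈ Finset.range (dg P + 1 - j),
      Polynomial.aeval (x 0) (cfj P j k) * x 1 ^ j * x 2 ^ k = aeval x P := by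
  classical
  have h0 : aeval x P = ∑ m ∈ P.support,
      algebraMap ℂ E (coeff m P) * (x 0 ^ m 0 * x 1 ^ m 1 * x 2 ^ m 2) := by
    rw [aeval_def, eval₂_eq']
    refine Finset.sum_congr rfl fun m _ => ?_
    rw [Fin.prod_univ_three]
  rw [h0, Finset.sum_sigma']
  have hmaps : ∀ m ∈ P.support, (⟨m 1, m 2⟩ : (_ : ℕ) × ℕ) ∈
      (Finset.range (dg P + 1)).sigma fun j => Finset.range (dg P + 1 - j) := by
    intro m hm
    have h1 : m 1 + m 2 ≤ dg P := Finset.le_sup (f := fun m : Fin 3 →₀ ℕ => m 1 + m 2) hm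
    simp only [Finset.mem_sigma, Finset.mem_range]
    omega
  rw [← Finset.sum_fiberwise_of_maps_to hmaps]
  refine Finset.sum_congr rfl fun jk _ => ?_
  obtain ⟨j, k⟩ := jk
  simp only
  unfold cfj
  rw [map_sum, Finset.sum_mul, Finset.sum_mul]
  have hf : P.support.filter (fun m => (⟨m 1, m 2⟩ : (_ : ℕ) × ℕ) = ⟨j, k⟩) =
      P.support.filter (fun m => m 1 = j ∧ m 2 = k) := by
    refine Finset.filter_congr fun m _ => ?_
    simp
  rw [hf]
  refine Finset.sum_congr rfl fun m hm => ?_
  obtain ⟨-, h1, h2⟩ := Finset.mem_filter.1 hm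
  rw [Polynomial.aeval_monomial, ← h1, ← h2]
  ring

theorem coeff_cfj (P : MvPolynomial (Fin 3) ℂ) (m : Fin 3 →₀ ℕ) :
    (cfj P (m 1) (m 2)).coeff (m 0) = coeff m P := by
  classical
  unfold cfj
  rw [Polynomial.finsetSum_coeff]
  by_cases hm : m ∈ P.support
  · rw [Finset.sum_eq_single m]
    · rw [Polynomial.coeff_monomial, if_pos rfl]
    · intro b hb hne
      obtain ⟨-, h1, h2⟩ := Finset.mem_filter.1 hb
      rw [Polynomial.coeff_monomial, if_neg]
      intro h0
      apply hne
      ext i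
      fin_cases i
      · exact h0
      · exact h1
      · exact h2
    · intro h
      exact absurd (Finset.mem_filter.2 ⟨hm, rfl, rfl⟩) h
  · rw [MvPolynomial.notMem_support_iff.1 hm]
    refine Finset.sum_eq_zero fun b hb => ?_
    obtain ⟨hb0, h1, h2⟩ := Finset.mem_filter.1 hb
    rw [Polynomial.coeff_monomial, if_neg]
    intro h0
    apply hm
    have : b = m := by
      ext i
      fin_cases i
      · exact h0
      · exact h1
      · exact h2
    rw [← this]
    exact hb0

theorem exists_lead {P : MvPolynomial (Fin 3) ℂ} (hP : P ≠ 0) :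
    ∃ l ≤ dg P, cfj P (dg P - l) l ≠ 0 := by
  have hne : P.support.Nonempty := by
    rw [Finset.nonempty_iff_ne_empty, Ne, MvPolynomial.support_eq_empty]
    exact hP
  obtain ⟨m, hm, h1⟩ := Finset.exists_mem_eq_sup P.support hne fun m => m 1 + m 2
  have h2 : dg P = m 1 + m 2 := h1
  refine ⟨m 2, by omega, ?_⟩
  intro h
  have h3 : dg P - m 2 = m 1 := by omega
  rw [h3] at h
  have h4 := coeff_cfj P m
  rw [h, Polynomial.coeff_zero] at h4
  exact (mem_support_iff.1 hm) h4.symm

/-- **Normal form**: after a substitution `x₂ = x₂' + t x₁` the leading coefficient with respect to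
`x₁` is of maximal degree among the coefficients of the leading form. -/
theorem normal {P : MvPolynomial (Fin 3) ℂ} (hP : P ≠ 0) :
    ∃ (t D : ℕ) (p : ℕ → ℕ → Polynomial ℂ), p D 0 ≠ 0 ∧
      (∀ j ≤ D, (p j (D - j)).natDegree ≤ (p D 0).natDegree) ∧
      ∀ {E : Type} [Field E] [Algebra ℂ E] (x : Fin 3 → E),
        ∑ j ∈ Finset.range (D + 1), ∑ k ∈ Finset.range (D + 1 - j),
          Polynomial.aeval (x 0) (p j k) * x 1 ^ j * (x 2 - (t : E) * x 1) ^ k = aeval x P := by
  classical
  set D := dg P with hD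
  set q : ℕ → Polynomial ℂ := fun l => cfj P (D - l) l with hq
  obtain ⟨l1, hl1, hq1⟩ := exists_lead hP
  have hne : ((Finset.range (D + 1)).filter fun l => q l ≠ 0).Nonempty :=
    ⟨l1, Finset.mem_filter.2 ⟨Finset.mem_range.2 (by omega), hq1⟩⟩
  obtain ⟨l0, hl0, hmax⟩ := Finset.exists_max_image _ (fun l => (q l).natDegree) hne
  obtain ⟨hl0D, hl0n⟩ := Finset.mem_filter.1 hl0
  set e := (q l0).natDegree with he
  have hle : ∀ l ≤ D, (q l).natDegree ≤ e := by
    intro l hl
    by_cases h : q l = 0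
    · rw [h]; simp
    · exact hmax l (Finset.mem_filter.2 ⟨Finset.mem_range.2 (by omega), h⟩)
  set τ : Polynomial ℂ := ∑ l ∈ Finset.range (D + 1), Polynomial.monomial l ((q l).coeff e) with hτ
  have hτ0 : τ ≠ 0 := by
    intro h
    have h1 := congrArg (fun f => Polynomial.coeff f l0) h
    simp only [hτ, Polynomial.finsetSum_coeff, Polynomial.coeff_monomial, Polynomial.coeff_zero] at h1
    rw [Finset.sum_ite_eq' (Finset.range (D + 1)) l0, if_pos hl0D] at h1
    exact hl0n (Polynomial.leadingCoeff_eq_zero.1 h1)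
  obtain ⟨t, ht⟩ : ∃ t : ℕ, τ.eval (t : ℂ) ≠ 0 := by
    by_contra hcon
    push Not at hcon
    apply hτ0
    apply Polynomial.eq_zero_of_infinite_isRoot
    refine (Set.infinite_range_of_injective (Nat.cast_injective (R := ℂ))).mono ?_
    rintro _ ⟨t, rfl⟩
    exact hcon t
  set p : ℕ → ℕ → Polynomial ℂ := fun a i => ∑ l ∈ Finset.range (a + 1),
    Polynomial.C (((i + l).choose i : ℂ) * (t : ℂ) ^ l) * cfj P (a - l) (i + l) with hp
  have hpD : (p D 0).coeff e = τ.eval (t : ℂ) := by
    simp only [hp, hτ]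
    rw [Polynomial.finsetSum_coeff, Polynomial.eval_finsetSum]
    refine Finset.sum_congr rfl fun l _ => ?_
    rw [Polynomial.coeff_C_mul, Polynomial.eval_monomial, zero_add, Nat.choose_zero_right]
    simp only [hq]
    push_cast
    ring
  have hpD0 : p D 0 ≠ 0 := by
    intro h
    rw [h, Polynomial.coeff_zero] at hpD
    exact ht hpD.symm
  have hpe : e ≤ (p D 0).natDegree := by
    apply Polynomial.le_natDegree_of_ne_zero
    rw [hpD]
    exact ht
  refine ⟨t, D, p, hpD0, ?_, ?_⟩
  · intro j hj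
    refine le_trans ?_ hpe
    simp only [hp]
    apply Polynomial.natDegree_sum_le_of_forall_le
    intro l hl
    have hl' := Finset.mem_range.1 hl
    refine (Polynomial.natDegree_C_mul_le _ _).trans ?_
    have h1 := hle (D - j + l) (by omega)
    simp only [hq] at h1
    have h2 : D - (D - j + l) = j - l := by omega
    rw [h2] at h1
    exact h1
  · intro E _ _ x
    have h1 := shift_sum (fun j k => Polynomial.aeval (x 0) (cfj P j k)) (x 1) (x 2 - (t : E) * x 1)
      (t : E) D
    rw [sub_add_cancel] at h1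
    rw [← aeval_cfj x P, ← hD, h1]
    refine Finset.sum_congr rfl fun a _ => Finset.sum_congr rfl fun i _ => ?_
    congr 2
    simp only [hp]
    rw [map_sum]
    refine Finset.sum_congr rfl fun l _ => ?_
    rw [map_mul, Polynomial.aeval_C, map_mul, map_pow, map_natCast, map_natCast]

end Pool.Agent.Helper7.NT

/-!
# The case where the algebraic monomials have rank one: reduction to the normal form (part 7)
-/


namespace Pool.Agent.Helper57.NT

open MvPolynomial Pool.Agent.Q72.EG

namespace One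

variable {E : Type} [Field E]

/-- the matrix of the substitution -/
def Mt (t : ℤ) : Matrix (Fin 3) (Fin 3) ℤ := !![1, 0, 0; 0, 1, 0; 0, -t, 1]

/-- the inverse -/
def Nt (t : ℤ) : Matrix (Fin 3) (Fin 3) ℤ := !![1, 0, 0; 0, 1, 0; 0, t, 1]

theorem NM (t : ℤ) : Nt t * Mt t = 1 := by
  ext i j
  fin_cases i <;> fin_cases j <;> simp [Nt, Mt, Matrix.mul_apply, Fin.sum_univ_three]

theorem MN (t : ℤ) : Mt t * Nt t = 1 := by
  ext i j
  fin_cases i <;> fin_cases j <;> simp [Nt, Mt, Matrix.mul_apply, Fin.sum_univ_three]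

theorem vne {n : ℕ} {M N : Matrix (Fin n) (Fin n) ℤ} (h : M * N = 1) {m : Fin n → ℤ}
    (hm : m ≠ 0) : Matrix.vecMul m M ≠ 0 := by
  intro h0
  apply hm
  have h1 : Matrix.vecMul (Matrix.vecMul m M) N = m := by
    rw [Matrix.vecMul_vecMul, h, Matrix.vecMul_one]
  rw [← h1, h0, Matrix.zero_vecMul]

theorem addFree_uni' [Algebra ℂ E] {n : ℕ} {x : Fin n → E} {M N : Matrix (Fin n) (Fin n) ℤ} (h : M * N = 1)
    (hx : AddFree x) : AddFree (fun i => dt (M i) x) := by
  intro m hm a
  rw [dt_vecMul]
  exact hx _ (vne h hm) a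

theorem dt3 (m : Fin 3 → ℤ) (x : Fin 3 → E) :
    dt m x = (m 0 : E) * x 0 + (m 1 : E) * x 1 + (m 2 : E) * x 2 := by
  unfold dt
  rw [Fin.sum_univ_three]

theorem mon3 (m : Fin 3 → ℤ) (y : Fin 3 → E) :
    mon m y = y 0 ^ m 0 * y 1 ^ m 1 * y 2 ^ m 2 := by
  unfold mon
  rw [Fin.prod_univ_three]

theorem x0' (t : ℤ) (x : Fin 3 → E) : dt (Mt t 0) x = x 0 := by
  rw [dt3]; simp [Mt]

theorem x1' (t : ℤ) (x : Fin 3 → E) : dt (Mt t 1) x = x 1 := by
  rw [dt3]; simp [Mt]

theorem x2' (t : ℤ) (x : Fin 3 → E) : dt (Mt t 2) x = x 2 - (t : E) * x 1 := by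
  rw [dt3]; simp [Mt]; ring

theorem y0' (t : ℤ) (y : Fin 3 → E) : mon (Mt t 0) y = y 0 := by
  rw [mon3]; simp [Mt]

theorem y1' (t : ℤ) (y : Fin 3 → E) : mon (Mt t 1) y = y 1 := by
  rw [mon3]; simp [Mt]

theorem y2' (t : ℤ) (y : Fin 3 → E) : mon (Mt t 2) y = y 1 ^ (-t) * y 2 := by
  rw [mon3]; simp [Mt]

variable [Algebra ℂ E]

/-- a nonzero polynomial relation with coefficients in the closure -/
theorem cl_of_rel {S : Set E} (D : ℕ) (c : ℕ → E) (hc : ∀ j, c j ∈ cl S) (hD : c D ≠ 0) (w : E)
    (hw : ∑ j ∈ Finset.range (D + 1), c j * w ^ j = 0) : w ∈ cl S := by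
  rw [mem_cl]
  set K := IntermediateField.adjoin ℂ S with hK
  have halg : Algebra.IsAlgebraic K (clF S) := algebraicClosure.isAlgebraic K E
  have h1 : IsAlgebraic (clF S) w := by
    refine ⟨∑ j ∈ Finset.range (D + 1), Polynomial.monomial j (⟨c j, mem_clF.1 (hc j)⟩ : clF S), ?_, ?_⟩
    · intro h
      have h2 := congrArg (fun f => Polynomial.coeff f D) h
      simp only [Polynomial.finsetSum_coeff, Polynomial.coeff_monomial, Polynomial.coeff_zero] at h2
      rw [Finset.sum_ite_eq' (Finset.range (D + 1)) D, if_pos (Finset.self_mem_range_succ D)] at h2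
      apply hD
      have := congrArg (fun z : clF S => (z : E)) h2
      simpa using this
    · rw [map_sum, ← hw]
      refine Finset.sum_congr rfl fun j _ => ?_
      rw [Polynomial.aeval_monomial]
      rfl
  exact IsAlgebraic.restrictScalars K h1

theorem cl_sub {S : Set E} {a b : E} (ha : a ∈ cl S) (hb : b ∈ cl S) : a - b ∈ cl S := by
  rw [mem_clF] at *
  exact sub_mem ha hb

theorem cl_aeval {S : Set E} {a : E} (ha : a ∈ cl S) (p : Polynomial ℂ) :
    Polynomial.aeval a p ∈ cl S := by
  rw [mem_clF] at *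
  rw [Polynomial.aeval_eq_sum_range]
  refine sum_mem fun i _ => ?_
  rw [Algebra.smul_def]
  refine mul_mem ?_ (pow_mem ha i)
  rw [← mem_clF]
  exact cl_of_adjoin (IntermediateField.algebraMap_mem _ _)

theorem cl_pow {S : Set E} {a : E} (ha : a ∈ cl S) (k : ℕ) : a ^ k ∈ cl S := by
  rw [mem_clF] at *
  exact pow_mem ha k

/-- **Part 7.** -/
theorem one : S_uni → S_onen → S_one := by
  intro huni honen E _ _ x y hy hfree hstrong P hP hx htr hy0 hy12
  classical
  obtain ⟨t, D, p, hpD, hpdeg, hrel⟩ := Pool.Agent.Helper7.NT.normal hP.ne_zero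
  have hxP : aeval x P = 0 := (hx P).2 dvd_rfl
  have hrel' := hrel x
  rw [hxP] at hrel'
  set u : E := x 2 - (t : E) * x 1 with hu
  -- `x 0` is transcendental
  have hx0 : x 0 ∉ cl (∅ : Set E) := by
    intro h
    obtain ⟨c, hc⟩ := cl_empty h
    refine hfree (Pi.single 0 1) ?_ c ?_
    · intro h0
      have := congrFun h0 0
      simp at this
    · rw [dt_single]; exact hc
  have hlead : Polynomial.aeval (x 0) (p D 0) ≠ 0 := by
    intro h
    apply hx0
    rw [mem_cl]
    have h1 : IsAlgebraic ℂ (x 0) := ⟨p D 0, hpD, h⟩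
    exact h1.tower_top (IntermediateField.adjoin ℂ (∅ : Set E))
  -- `x 1` is algebraic over `x 0, u`
  set S : Set E := Set.range ![u, x 0] with hS
  have hSe : S = {u, x 0} := by
    rw [hS]
    ext z
    simp [or_comm]
  have hx0S : x 0 ∈ cl S := subset_cl S (by rw [hSe]; simp)
  have huS : u ∈ cl S := subset_cl S (by rw [hSe]; simp)
  have key : ∀ T : Set E, x 0 ∈ cl T → u ∈ cl T → x 1 ∈ cl T := by
    intro T h0 hu'
    refine cl_of_rel D (fun j => ∑ k ∈ Finset.range (D + 1 - j),
      Polynomial.aeval (x 0) (p j k) * u ^ k) (fun j => ?_) ?_ (x 1) ?_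
    · rw [mem_clF]
      refine sum_mem fun k _ => ?_
      exact mul_mem (mem_clF.1 (cl_aeval h0 _)) (mem_clF.1 (cl_pow hu' k))
    · have h1 : D + 1 - D = 1 := by omega
      simp only [h1, Finset.sum_range_one, pow_zero, mul_one]
      exact hlead
    · rw [← hrel']
      refine Finset.sum_congr rfl fun j _ => ?_
      rw [Finset.sum_mul]
      refine Finset.sum_congr rfl fun k _ => ?_
      ring
  have hx1S : x 1 ∈ cl S := key S hx0S huS
  have hx2 : ∀ T : Set E, x 1 ∈ cl T → u ∈ cl T → x 2 ∈ cl T := by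
    intro T h1 hu'
    have h2 : x 2 = u + (t : E) * x 1 := by rw [hu]; ring
    rw [h2]
    refine cl_add hu' (cl_mul ?_ h1)
    have := cl_int (S := T) (t : ℤ)
    simpa using this
  have hx2S : x 2 ∈ cl S := hx2 S hx1S huS
  have hrS : Set.range x ⊆ cl S := by
    rintro _ ⟨i, rfl⟩
    fin_cases i
    · exact hx0S
    · exact hx1S
    · exact hx2S
  have hur : u ∈ cl (Set.range x) := by
    rw [hu]
    refine cl_sub (subset_cl _ ⟨2, rfl⟩) (cl_mul ?_ (subset_cl _ ⟨1, rfl⟩))
    have := cl_int (S := Set.range x) (t : ℤ)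
    simpa using this
  have hSr : S ⊆ cl (Set.range x) := by
    rw [hSe]
    rintro z (rfl | rfl)
    · exact hur
    · exact subset_cl _ ⟨0, rfl⟩
  have hclle : cl (Set.range x) ⊆ cl S := cl_trans hrS
  have hclge : cl S ⊆ cl (Set.range x) := cl_trans hSr
  have hy0S : y 0 ∈ cl S := hclle (mem_cl.2 hy0)
  -- `u` and `x 0` are independent
  have huno : u ∉ cl ({x 0} : Set E) := by
    intro h
    have h1 : x 0 ∈ cl ({x 0} : Set E) := subset_cl _ rfl
    have h2 : x 1 ∈ cl ({x 0} : Set E) := key _ h1 h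
    have h3 : cl S ⊆ cl ({x 0} : Set E) := by
      apply cl_trans
      rw [hSe]
      rintro z (rfl | rfl)
      · exact h
      · exact h1
    have hli : LinearIndependent ℤ ![(Pi.single 0 1 : Fin 3 → ℤ), Pi.single 1 1] := by
      rw [LinearIndependent.pair_iff]
      intro a b hab
      have e0 := congrFun hab 0
      have e1 := congrFun hab 1
      simp at e0 e1
      exact ⟨e0, e1⟩
    rcases hstrong _ _ hli with h4 | h4
    · rw [dt_single, dt_single] at h4
      exact not_indep h1 h2 h4
    · rw [dt_single, mon_single] at h4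
      exact not_indep h1 (h3 hy0S) h4
  have hind : AlgebraicIndependent ℂ ![x 0, u] := by
    refine indep_succ _ ?_ ?_
    · refine indep_succ _ ?_ ?_
      · exact algebraicIndependent_empty_type
      · have h1 : (Set.range ((![x 0, u] ∘ Fin.castSucc) ∘ (Fin.castSucc : Fin 0 → Fin 1))) = ∅ := by
          simp
        rw [h1]
        exact hx0
    · have h1 : Set.range (![x 0, u] ∘ (Fin.castSucc : Fin 1 → Fin 2)) = {x 0} := by
        ext z
        simp [eq_comm]
      rw [h1]
      exact huno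
  have main : ∀ x' y' : Fin 3 → E, x' 0 = x 0 → x' 1 = x 1 → x' 2 = u → y' 0 = y 0 → y' 1 = y 1 →
      y' 2 = y 1 ^ (-(t : ℤ)) * y 2 → (∀ l, y' l ≠ 0) → AddFree x' → HasExp x' y' := by
    intro x' y' ex0 ex1 ex2 ey0 ey1 ey2 hyn hfree'
    refine honen x' y' hyn hfree' D p hpD hpdeg ?_ ?_ ?_ ?_ ?_ ?_
    · rw [ex0, ex1, ex2]
      exact hrel'
    · intro g hg
      rw [ex0, ex2] at hg
      -- swap the variables
      have h1 : aeval ![x 0, u] (rename (Equiv.swap (0 : Fin 2) 1) g) = 0 := by
        rw [aeval_rename, ← hg]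
        congr 2
        funext i
        fin_cases i <;> simp
      have h2 := (algebraicIndependent_iff.1 hind) _ h1
      exact (rename_injective _ (Equiv.injective _)) (by rw [h2, map_zero])
    · rw [ex0, ex2, ey0]
      exact mem_cl.1 hy0S
    · rw [ex0, ex2, ey1, ey2]
      rw [← mem_cl]
      have hy1t : ¬ IsAlgebraic (IntermediateField.adjoin ℂ (Set.range x)) (y 1) := by
        intro h
        have := hy12 1 0 (by simpa using h)
        exact one_ne_zero this.1
      have h1 := htr (y 1) (y 1 ^ (-(t : ℤ)) * y 2) hy1t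
      have h2 : y 1 ^ (-(t : ℤ)) * y 2 ∈ cl (insert (y 1) (Set.range x)) := mem_cl.2 h1
      refine cl_trans ?_ h2
      rintro z (rfl | hz)
      · exact subset_cl _ (Set.mem_insert _ _)
      · exact cl_mono (Set.subset_insert _ _) (hrS hz)
    · intro a b hab
      rw [ex0, ex2, ey1, ey2, ← mem_cl] at hab
      have h1 := hclge hab
      have h2 : y 1 ^ a * (y 1 ^ (-(t : ℤ)) * y 2) ^ b = y 1 ^ (a - t * b) * y 2 ^ b := by
        rw [mul_zpow, ← zpow_mul, ← mul_assoc, ← zpow_add₀ (hy 1)]
        congr 2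
        ring
      rw [h2, mem_cl] at h1
      obtain ⟨h3, h4⟩ := hy12 _ _ h1
      subst h4
      simp at h3
      exact ⟨h3, rfl⟩
    · rw [ex0, ex1, ex2, ey0]
      by_cases hy0x : y 0 ∈ cl ({x 0} : Set E)
      · right
        intro k hk
        have hr : Set.range ![x 0, (k.1 : E) * x 1 + (k.2 : E) * u] =
            {x 0, (k.1 : E) * x 1 + (k.2 : E) * u} := by
          ext z
          simp [or_comm]
        rw [← mem_cl, hr]
        set κ : Fin 3 → ℤ := ![0, k.1 - t * k.2, k.2] with hκ
        have hκx : dt κ x = (k.1 : E) * x 1 + (k.2 : E) * u := by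
          rw [dt3, hκ, hu]
          simp
          ring
        have hli : LinearIndependent ℤ ![(Pi.single 0 1 : Fin 3 → ℤ), κ] := by
          rw [LinearIndependent.pair_iff]
          intro a b hab
          have e0 := congrFun hab 0
          have e1 := congrFun hab 1
          have e2 := congrFun hab 2
          simp [hκ] at e0 e1 e2
          refine ⟨e0, ?_⟩
          by_contra hb
          have e3 : k.2 = 0 := by
            rcases e2 with h | h
            · exact absurd h hb
            · exact h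
          have e4 : k.1 = 0 := by
            rcases e1 with h | h
            · exact absurd h hb
            · rw [e3] at h; simpa using h
          exact hk (Prod.ext e4 e3)
        have h1 : x 0 ∈ cl ({x 0} : Set E) := subset_cl _ rfl
        rcases hstrong _ _ hli with h4 | h4
        · rw [dt_single, hκx] at h4
          have h5 : (k.1 : E) * x 1 + (k.2 : E) * u ∉ cl ({x 0} : Set E) := by
            intro h6
            exact not_indep h1 h6 h4
          have h6 : (k.1 : E) * x 1 + (k.2 : E) * u ∈ cl (insert u {x 0}) := by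
            have h7 : cl S = cl (insert u {x 0}) := by rw [hSe]
            rw [← h7]
            exact cl_add (cl_mul (cl_int _) hx1S) (cl_mul (cl_int _) huS)
          have h7 := cl_exch h6 h5
          rwa [Set.pair_comm] at h7
        · rw [dt_single, mon_single] at h4
          exact absurd h4 (not_indep h1 hy0x)
      · left
        have hr : Set.range ![x 0, y 0] = {x 0, y 0} := by
          ext z
          simp [or_comm]
        rw [← mem_cl, hr]
        have h6 : y 0 ∈ cl (insert u {x 0}) := by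
          have h7 : cl S = cl (insert u {x 0}) := by rw [hSe]
          rw [← h7]
          exact hy0S
        have h7 := cl_exch h6 hy0x
        rwa [Set.pair_comm] at h7
  refine huni x y hy (Mt t) (Nt t) (NM t) (main _ _ (x0' t x) (x1' t x) ?_ (y0' t y) (y1' t y)
    (y2' t y) (fun l => mon_ne _ hy) (addFree_uni' (MN t) hfree))
  have h1 := x2' (t : ℤ) x
  rw [Int.cast_natCast] at h1
  exact h1

end One

/-- **Part 7.** -/
theorem one : S_uni → S_onen → S_one := One.one

end Pool.Agent.Helper57.NT
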