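import Pool.Agent.Helper57.NT.Sheet4
import Pool.Graph.R_pool_sql_team_seeded_3997aac3.Q72.MX.All

/-!
Project NT (helper57), part 14 (helper42): one exponential equation over an additively free curve.
-/

set_option autoImplicit false

namespace Pool.Agent.Helper57.NT

open Polynomial Pool.Agent.W996.EC Pool.Agent.W333.ECV Pool.Agent.Q72.EG

/-- a polynomial with a monomial which is prime to `X i` does not vanish on `x i = 0` -/
theorem exists_zero_coord {n : ℕ} (p : MvPolynomial (Fin n) ℂ) (i : Fin n) {d : Fin n →₀ ℕ}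
    (hd : MvPolynomial.coeff d p ≠ 0) (hdi : d i = 0) :
    ∃ x : Fin n → ℂ, x i = 0 ∧ MvPolynomial.eval x p ≠ 0 := by
  classical
  by_contra hcon
  push Not at hcon
  have h1 := dvd_sub_subst i (0 : MvPolynomial (Fin n) ℂ) p
  have h2 : MvPolynomial.bind₁ (Function.update MvPolynomial.X i 0) p = 0 := by
    apply MvPolynomial.funext
    intro t
    have h3 : MvPolynomial.eval t (MvPolynomial.bind₁ (Function.update MvPolynomial.X i 0) p) =
        MvPolynomial.eval (Function.update t i 0) p := by
      rw [← MvPolynomial.coe_aeval_eq_eval, ← MvPolynomial.coe_aeval_eq_eval]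
      show MvPolynomial.aeval t (MvPolynomial.bind₁ _ p) = MvPolynomial.aeval _ p
      rw [MvPolynomial.aeval_bind₁]
      congr 1
      congr 1
      funext j
      by_cases hj : j = i
      · subst hj; simp
      · rw [Function.update_of_ne hj, Function.update_of_ne hj]; simp
    rw [h3, map_zero]
    exact hcon _ (Function.update_self _ _ _)
  rw [h2, sub_zero, sub_zero] at h1
  obtain ⟨q, hq⟩ := h1
  apply hd
  rw [hq, MvPolynomial.coeff_X_mul', if_neg]
  rw [Finsupp.mem_support_iff]
  exact fun h => h hdi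

theorem oneq : S_oneq := by
  classical
  intro E _ _ x hfree hdep R h hh hk
  obtain ⟨k, k', hkk, hk1, hk2⟩ := hk
  have htr : ∀ i, Transcendental ℂ (x i) := by
    intro i halg
    obtain ⟨c, hc⟩ := alg_const halg
    refine hfree (Pi.single i 1) ?_ c ?_
    · intro h0
      have := congrFun h0 i
      rw [Pi.single_eq_same] at this
      exact one_ne_zero this
    · rw [dt, Finset.sum_eq_single i]
      · rw [hc]; simp
      · intro j _ hj
        rw [Pi.single_eq_of_ne hj]; simp
      · intro h0; exact absurd (Finset.mem_univ _) h0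
  have hx0 : ∀ i, x i ≠ 0 := by
    intro i h0
    apply htr i
    rw [h0]
    exact isAlgebraic_zero
  obtain ⟨F, z0, v0, hF, hFd, hker, hz0, hv0, hquot⟩ :=
    Pool.Agent.W597.EC.t_plane E 3 x ⟨0, htr 0⟩ hdep
  set K := IntermediateField.adjoin ℂ (Set.range x) with hK
  obtain ⟨φ, hφL⟩ : ∃ φ : ℂ[X][X] →+* K, ∀ G, algebraMap K E (φ G) = aevalAeval z0 v0 G :=
    ⟨(aevalAeval (R := ℂ) (⟨z0, hz0⟩ : K) (⟨v0, hv0⟩ : K)).toRingHom,
      fun G => aevalAeval_sub K hz0 hv0 G⟩
  have hinj : Function.Injective (algebraMap K E) := (algebraMap K E).injective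
  have hφ : ∀ G, φ G = 0 ↔ F ∣ G := by
    intro G
    rw [← hker, ← hφL, map_eq_zero_iff _ hinj]
  have hd : ∀ u : K, ∃ A B : ℂ[X][X], φ B ≠ 0 ∧ u * φ B = φ A := by
    intro u
    obtain ⟨A, B, hB, h⟩ := hquot u.1 u.2
    refine ⟨A, B, fun h0 => hB ?_, hinj ?_⟩
    · rw [← hφL, h0, map_zero]
    · rw [map_mul, hφL, hφL]; exact h
  set yK : Fin 3 → K := fun i => ⟨x i, IntermediateField.subset_adjoin _ _ ⟨i, rfl⟩⟩ with hyK
  have hyKL : ∀ i, algebraMap K E (yK i) = x i := fun i => rfl
  choose A B hB hyAB using fun i => hd (yK i)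
  have hyK0 : ∀ i, yK i ≠ 0 := by
    intro i h0
    apply hx0 i
    rw [← hyKL, h0, map_zero]
  have hA : ∀ i, φ (A i) ≠ 0 := by
    intro i
    rw [← hyAB]
    exact mul_ne_zero (hyK0 i) (hB i)
  have hcc : (algebraMap K E).comp (φ.comp (C.comp C)) = algebraMap ℂ E := by
    apply RingHom.ext
    intro a
    show algebraMap K E (φ (C (C a))) = _
    rw [hφL]
    have : (C (C a) : ℂ[X][X]) = algebraMap ℂ ℂ[X][X] a := rfl
    rw [this, AlgHom.commutes]
  -- the equation over `K`
  set f : MvPolynomial (Fin 3 ⊕ Fin 3) ℂ := (MvPolynomial.sumAlgEquiv ℂ (Fin 3) (Fin 3)).symm R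
    with hf
  have hfS : ∀ {S : Type} [CommRing S] (c : ℂ →+* S) (y : Fin 3 → S),
      fS c y f = MvPolynomial.map (MvPolynomial.eval₂Hom c y) R := by
    intro S _ c y
    rw [fS, hf, AlgEquiv.apply_symm_apply]
  set RE : MvPolynomial (Fin 3) K := fS (φ.comp (C.comp C)) yK f with hRE
  have hREc : ∀ d, algebraMap K E (MvPolynomial.coeff d RE) =
      MvPolynomial.aeval x (MvPolynomial.coeff d R) := by
    intro d
    rw [hRE, hfS, MvPolynomial.coeff_map, MvPolynomial.coe_eval₂Hom, MvPolynomial.hom_eval₂, hcc]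
    rfl
  have hks : k ∈ RE.support := by
    rw [MvPolynomial.mem_support_iff]
    intro h0
    apply hk1
    rw [← hREc, h0, map_zero]
  have hks' : k' ∈ RE.support := by
    rw [MvPolynomial.mem_support_iff]
    intro h0
    apply hk2
    rw [← hREc, h0, map_zero]
  -- no monomial factor
  set s0 : Fin 3 →₀ ℕ := Finsupp.equivFunOnFinite.symm
    (fun i => RE.support.inf' ⟨k, hks⟩ (fun d => d i)) with hs0
  have hs0i : ∀ i, s0 i = RE.support.inf' ⟨k, hks⟩ (fun d => d i) := fun i => rfl
  have hle : ∀ d ∈ RE.support, s0 ≤ d := by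
    intro d hd' i
    rw [hs0i]
    exact Finset.inf'_le (fun d : Fin 3 →₀ ℕ => d i) hd'
  have hmin : ∀ i, ∃ d ∈ RE.support, d i = s0 i := by
    intro i
    obtain ⟨d, hd1, hd2⟩ := Finset.exists_mem_eq_inf' (s := RE.support) ⟨k, hks⟩ (fun d => d i)
    exact ⟨d, hd1, by rw [hs0i, hd2]⟩
  set R1 : MvPolynomial (Fin 3) K := RE.divMonomial s0 with hR1
  have hR1c : ∀ d, MvPolynomial.coeff d R1 = MvPolynomial.coeff (s0 + d) RE := fun d =>
    MvPolynomial.coeff_divMonomial _ _ _
  have hRE1 : RE = MvPolynomial.monomial s0 1 * R1 := by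
    have h1 := MvPolynomial.divMonomial_add_modMonomial RE s0
    have h2 : RE.modMonomial s0 = 0 := by
      refine MvPolynomial.ext _ _ fun d => ?_
      rw [MvPolynomial.coeff_zero]
      by_cases hds : s0 ≤ d
      · exact MvPolynomial.coeff_modMonomial_of_le _ hds
      · rw [MvPolynomial.coeff_modMonomial_of_not_le _ hds]
        by_contra h0
        exact hds (hle d (MvPolynomial.mem_support_iff.2 h0))
    rw [h2, add_zero] at h1
    exact h1.symm
  obtain ⟨D, PP, hD, hPP⟩ := clear hd R1
  have hPPc : ∀ d ∈ RE.support, ¬ F ∣ MvPolynomial.coeff (d - s0) PP := by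
    intro d hds
    rw [← hφ, ← MvPolynomial.coeff_map, ← hPP, MvPolynomial.coeff_C_mul, hR1c,
      add_tsub_cancel_of_le (hle d hds)]
    exact mul_ne_zero hD (MvPolynomial.mem_support_iff.1 hds)
  have hnss : ∀ G : ℂ[X][X], ¬ F ∣ G → ∃ z v : ℂ, F.evalEval z v = 0 ∧ G.evalEval z v ≠ 0 := by
    intro G hG
    by_contra hcon
    push Not at hcon
    exact hG (nss Pool.Agent.W114.ECR.t_res Pool.Agent.W114.ECR.t_cov hF hFd hcon)
  obtain ⟨N, hN, hN2⟩ := numer hφ hB hyAB h (by
    intro h0
    apply hh
    have h6 := congrArg (algebraMap K E) h0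
    rw [MvPolynomial.hom_eval₂, hcc, map_zero] at h6
    exact h6)
  obtain ⟨z, v, u, hz, hH', hAB, -, hexp, hPu⟩ := Pool.Agent.Q72.MX.all_MM 3 ∅ F (N * D) A B PP
    hF hFd (by rw [← hφ, map_mul]; exact mul_ne_zero hN hD)
    (fun i => by rw [← hφ]; exact hA i) (fun i => by rw [← hφ]; exact hB i)
    (by
      intro m hm hmJ
      exact absurd (funext fun i => hmJ i (Finset.notMem_empty i)) hm)
    (by
      intro m hm hmJ c
      by_contra hcon
      push Not at hcon
      -- the linear form takes the value `c` on the curve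
      set Lf : MvPolynomial (Fin 3) ℂ := ∑ i, MvPolynomial.C (m i : ℂ) * MvPolynomial.X i -
        MvPolynomial.C c with hLf
      have h6 : MvPolynomial.eval₂ (φ.comp (C.comp C)) yK Lf = 0 := by
        by_contra h0
        obtain ⟨N', hN', hN'2⟩ := numer hφ hB hyAB Lf h0
        have h7 : ¬ F ∣ N' * ∏ i, (A i * B i) := by
          rw [← hφ, map_mul, map_prod]
          refine mul_ne_zero hN' (Finset.prod_ne_zero_iff.mpr fun i _ => ?_)
          rw [map_mul]
          exact mul_ne_zero (hA i) (hB i)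
        obtain ⟨z, v, hz, hzv⟩ := hnss _ h7
        have h9 : (evalEvalRingHom z v) (N' * ∏ i, (A i * B i)) ≠ 0 := hzv
        rw [map_mul, map_prod] at h9
        have h10 := left_ne_zero_of_mul h9
        have h11 := right_ne_zero_of_mul h9
        rw [Finset.prod_ne_zero_iff] at h11
        have h12 : ∀ i, (A i).evalEval z v ≠ 0 ∧ (B i).evalEval z v ≠ 0 := by
          intro i
          have h13 := h11 i (Finset.mem_univ i)
          rw [map_mul] at h13
          exact ⟨left_ne_zero_of_mul h13, right_ne_zero_of_mul h13⟩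
        have h14 := hN'2 z v hz (fun i => (h12 i).2) h10
        apply h14
        rw [hLf, map_sub, map_sum, MvPolynomial.eval_C]
        simp only [map_mul, MvPolynomial.eval_C, MvPolynomial.eval_X]
        rw [hcon z v hz h12, sub_self]
      have h7 := congrArg (algebraMap K E) h6
      rw [MvPolynomial.hom_eval₂, hcc, map_zero] at h7
      refine hfree m hm c ?_
      rw [hLf, MvPolynomial.eval₂_sub, MvPolynomial.eval₂_sum, MvPolynomial.eval₂_C,
        sub_eq_zero] at h7
      rw [← h7, dt]
      refine Finset.sum_congr rfl fun i _ => ?_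
      rw [MvPolynomial.eval₂_mul, MvPolynomial.eval₂_C, MvPolynomial.eval₂_X, map_intCast]
      rfl)
    (by
      intro m hm hmJ
      exact absurd (funext fun i => hmJ i (Finset.notMem_empty i)) hm)
    (by
      intro i _
      obtain ⟨d, hds, hdi⟩ := hmin i
      obtain ⟨z, v, hz, hzv⟩ := hnss _ (hPPc d hds)
      obtain ⟨t, ht0, ht⟩ := exists_zero_coord (spec PP z v) i (d := d - s0) (by
        rw [coeff_spec]; exact hzv) (by
        rw [Finsupp.tsub_apply, hdi, Nat.sub_self])
      exact ⟨z, v, t, hz, ht0, ht⟩)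
    (by
      have key : ∀ d ∈ RE.support, d - s0 ≠ 0 → ∃ z v : ℂ, F.evalEval z v = 0 ∧
          1 ≤ (spec PP z v).totalDegree := by
        intro d hds hne
        obtain ⟨z, v, hz, hzv⟩ := hnss _ (hPPc d hds)
        refine ⟨z, v, hz, ?_⟩
        have h1 : d - s0 ∈ (spec PP z v).support := by
          rw [MvPolynomial.mem_support_iff, coeff_spec]; exact hzv
        refine le_trans ?_ (MvPolynomial.le_totalDegree h1)
        rw [Nat.one_le_iff_ne_zero]
        intro h0
        apply hne
        ext i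
        have h2 : (d - s0).degree = 0 := h0
        rw [Finsupp.degree_eq_zero_iff] at h2
        rw [h2]
      by_cases h1 : k - s0 = 0
      · refine key k' hks' fun h2 => hkk ?_
        have e1 := add_tsub_cancel_of_le (hle k hks)
        have e2 := add_tsub_cancel_of_le (hle k' hks')
        rw [← e1, ← e2, h1, h2]
      · exact key k hks h1)
  have hsplit : N.evalEval z v ≠ 0 ∧ D.evalEval z v ≠ 0 := by
    have : (evalEvalRingHom z v) (N * D) ≠ 0 := hH'
    rw [map_mul] at this
    exact ⟨left_ne_zero_of_mul this, right_ne_zero_of_mul this⟩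
  set w : Fin 3 → ℂ := fun i => (A i).evalEval z v / (B i).evalEval z v with hw
  have hu : u = fun i => Complex.exp (w i) := by
    funext i
    exact hexp i (Finset.notMem_empty i)
  refine ⟨w, ?_, hN2 z v hz (fun i => (hAB i).2) hsplit.1, ?_⟩
  · -- the point of the curve
    intro g hg
    have hmap : fS (φ.comp (C.comp C)) yK (MvPolynomial.rename Sum.inr g) = 0 := by
      obtain ⟨θ, h1, h2, h3, h4⟩ := fS_hom (n := 3) (φ.comp (C.comp C)) yK
      have e1 : (θ.comp (MvPolynomial.rename Sum.inr :
          MvPolynomial (Fin 3) ℂ →ₐ[ℂ] _).toRingHom) =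
          (MvPolynomial.C).comp (MvPolynomial.eval₂Hom (φ.comp (C.comp C)) yK) := by
        apply MvPolynomial.ringHom_ext
        · intro a
          simp only [RingHom.comp_apply, AlgHom.toRingHom_eq_coe, RingHom.coe_coe,
            MvPolynomial.rename_C, h2, MvPolynomial.eval₂Hom_C]
        · intro i
          simp only [RingHom.comp_apply, AlgHom.toRingHom_eq_coe, RingHom.coe_coe,
            MvPolynomial.rename_X, h4, MvPolynomial.eval₂Hom_X']
      have e2 := congrArg (fun q : MvPolynomial (Fin 3) ℂ →+* MvPolynomial (Fin 3) K => q g) e1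
      simp only [RingHom.comp_apply, AlgHom.toRingHom_eq_coe, RingHom.coe_coe, h1] at e2
      rw [e2, MvPolynomial.coe_eval₂Hom]
      have e3 : MvPolynomial.eval₂ (φ.comp (C.comp C)) yK g = 0 := by
        apply hinj
        rw [MvPolynomial.hom_eval₂, hcc, map_zero]
        exact hg
      rw [e3, map_zero]
    have h7 := transfer hφ hB hyAB (MvPolynomial.rename Sum.inr g) 1 0 (by
      rw [hmap, mul_zero, map_zero]) z v hz (fun i => (hAB i).2)
    have h8 := congrArg (MvPolynomial.eval (0 : Fin 3 → ℂ)) h7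
    rw [map_mul, MvPolynomial.eval_C, eval_fS] at h8
    have e4 : (1 : ℂ[X][X]).evalEval z v = 1 := map_one (evalEvalRingHom z v)
    have e5 : spec (0 : MvPolynomial (Fin 3) ℂ[X][X]) z v = 0 := map_zero _
    rw [e4, one_mul, e5, map_zero, MvPolynomial.eval₂_rename] at h8
    exact h8
  · -- the equation
    have h7 := transfer hφ hB hyAB f D (MvPolynomial.monomial s0 1 * PP) (by
      rw [map_mul, MvPolynomial.map_monomial, map_one, ← hPP, ← hRE, hRE1]
      ring) z v hz (fun i => (hAB i).2)
    have h8 := congrArg (MvPolynomial.eval u) h7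
    have e6 : spec (MvPolynomial.monomial s0 1 * PP) z v =
        spec (MvPolynomial.monomial s0 1) z v * spec PP z v := map_mul _ _ _
    rw [e6, map_mul, map_mul, MvPolynomial.eval_C, hPu, mul_zero, hfS] at h8
    have h9 := (mul_eq_zero.1 h8).resolve_left hsplit.2
    rw [hu] at h9
    exact h9

end Pool.Agent.Helper57.NT
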