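import Pool.Agent.Helper57.NT.Cl

/-!
Project NT (helper57), part 4 (helper18): the monomials which are algebraic over `ℂ(x)` have rank two.
-/

set_option autoImplicit false

namespace Pool.Agent.Helper57.NT

open MvPolynomial Pool.Agent.Q72.EG Pool.Agent.Helper57.RA

variable {E : Type} [Field E] [Algebra ℂ E]

/-- assembling the exponential point -/
theorem finish {x y : Fin 3 → E} {z : Fin 2 → ℂ} {q : Unit → ℂ}
    (hy2 : y 2 ∉ cl (Set.range (Sum.elim (Sum.elim ![x 0, x 1] ![y 0, y 1]) fun _ : Unit => x 2)))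
    (hq : Sum.elim (Sum.elim z fun l => Complex.exp (z l)) q ∈
      Pt (Sum.elim (Sum.elim ![x 0, x 1] ![y 0, y 1]) fun _ : Unit => x 2)) : HasExp x y := by
  have h1 := pt_trans _ (y 2) (fun h => hy2 (mem_cl.2 h)) hq (Complex.exp (q ()))
  refine ⟨![z 0, z 1, q ()], ?_⟩
  let e : Fin 3 ⊕ Fin 3 → ((Fin 2 ⊕ Fin 2) ⊕ Unit) ⊕ Unit :=
    Sum.elim ![Sum.inl (Sum.inl (Sum.inl 0)), Sum.inl (Sum.inl (Sum.inl 1)), Sum.inl (Sum.inr ())]
      ![Sum.inl (Sum.inl (Sum.inr 0)), Sum.inl (Sum.inl (Sum.inr 1)), Sum.inr ()]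
  have h2 := pt_comp _ e h1
  have e1 : Sum.elim x y = Sum.elim (Sum.elim (Sum.elim ![x 0, x 1] ![y 0, y 1]) fun _ : Unit => x 2)
      (fun _ : Unit => y 2) ∘ e := by
    funext i
    rcases i with i | i <;> fin_cases i <;> rfl
  have e2 : (Sum.elim ![z 0, z 1, q ()] (fun l => Complex.exp (![z 0, z 1, q ()] l)) : Fin 3 ⊕ Fin 3 → ℂ) =
      Sum.elim (Sum.elim (Sum.elim z fun l => Complex.exp (z l)) q) (fun _ : Unit => Complex.exp (q ())) ∘ e := by
    funext i
    rcases i with i | i <;> fin_cases i <;> rfl
  rw [e1, e2]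
  exact h2

omit [Field E] [Algebra ℂ E] in
theorem range_three (x : Fin 3 → E) : Set.range x = insert (x 2) (Set.range ![x 0, x 1]) := by
  ext a
  simp only [Set.mem_range, Set.mem_insert_iff]
  constructor
  · rintro ⟨i, rfl⟩
    fin_cases i
    · exact Or.inr ⟨0, rfl⟩
    · exact Or.inr ⟨1, rfl⟩
    · exact Or.inl rfl
  · rintro (rfl | ⟨i, rfl⟩)
    · exact ⟨2, rfl⟩
    · fin_cases i
      · exact ⟨0, rfl⟩
      · exact ⟨1, rfl⟩

theorem two (bm : S_bm) : S_two := by
  intro E _ _ x y hy hadd hstr P hP hx htr h0 h1 h2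
  set x' : Fin 2 → E := ![x 0, x 1] with hx'
  set y' : Fin 2 → E := ![y 0, y 1] with hy'
  set ζ : Fin 2 ⊕ Fin 2 → E := Sum.elim x' y' with hζ
  have hy0 : y 0 ∈ cl (Set.range x) := mem_cl.2 h0
  have hy1 : y 1 ∈ cl (Set.range x) := mem_cl.2 h1
  have hy2 : y 2 ∉ cl (Set.range x) := fun h => h2 (mem_cl.1 h)
  have hxr := range_three x
  have hζx : Set.range ζ ⊆ cl (Set.range x) := by
    rintro _ ⟨i, rfl⟩
    rcases i with i | i
    · fin_cases i
      · exact subset_cl _ ⟨0, rfl⟩
      · exact subset_cl _ ⟨1, rfl⟩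
    · fin_cases i
      · exact hy0
      · exact hy1
  have hζ2 : Set.range (Sum.elim ζ fun _ : Unit => x 2) ⊆ cl (Set.range x) := by
    rintro _ ⟨i, rfl⟩
    rcases i with i | i
    · exact hζx ⟨i, rfl⟩
    · exact subset_cl _ ⟨2, rfl⟩
  have hy2' : y 2 ∉ cl (Set.range (Sum.elim ζ fun _ : Unit => x 2)) := fun h => hy2 (cl_trans hζ2 h)
  have hyne : ∀ l, y' l ≠ 0 := by
    intro l
    fin_cases l
    · exact hy 0
    · exact hy 1
  suffices key : x 2 ∈ cl (Set.range ζ) ∧ ∀ H1 : MvPolynomial (Fin 2 ⊕ Fin 2) ℂ, aeval ζ H1 ≠ 0 →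
      ∃ z : Fin 2 → ℂ, (Sum.elim z (fun l => Complex.exp (z l)) : Fin 2 ⊕ Fin 2 → ℂ) ∈ Pt ζ ∧
        eval (Sum.elim z (fun l => Complex.exp (z l))) H1 ≠ 0 by
    obtain ⟨H1, hH1, hlift⟩ := lift_pt ζ (fun _ : Unit => x 2) (fun _ => mem_cl.1 key.1)
    obtain ⟨z, hz, hz2⟩ := key.2 H1 hH1
    obtain ⟨q, hq⟩ := hlift _ hz hz2
    exact finish hy2' hq
  by_cases hind : ∀ g : MvPolynomial (Fin 2) ℂ, aeval x' g = 0 → g = 0
  · -- `x_0, x_1` are independent
    refine ⟨?_, fun H1 hH1 => bm x' y' (by norm_num) hyne hind H1 hH1⟩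
    by_contra hx2
    have hx2' : x 2 ∉ cl (Set.range x') := by
      intro h
      refine hx2 (cl_mono ?_ h)
      rintro _ ⟨i, rfl⟩
      exact ⟨Sum.inl i, rfl⟩
    have e1 : x ∘ Fin.castSucc = x' := by
      funext i
      fin_cases i <;> rfl
    have h3 : AlgebraicIndependent ℂ x := by
      apply indep_succ x
      · rw [e1, algebraicIndependent_iff]
        exact hind
      · rw [e1]
        exact hx2'
    exact hP.ne_zero ((algebraicIndependent_iff.1 h3) P ((hx P).2 dvd_rfl))
  · -- `x_0, x_1` are dependent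
    push Not at hind
    obtain ⟨g0, hg0, hg0'⟩ := hind
    have ex : x ∘ (Fin.castSucc : Fin 2 → Fin 3) = x' := by
      funext i
      fin_cases i <;> rfl
    have hren : ∀ g : MvPolynomial (Fin 2) ℂ, aeval x (rename (Fin.castSucc : Fin 2 → Fin 3) g) =
        aeval x' g := by
      intro g
      rw [aeval_rename, ex]
    have hinj : Function.Injective (Fin.castSucc : Fin 2 → Fin 3) := Fin.castSucc_injective 2
    have hP2 : (2 : Fin 3) ∉ P.vars := by
      intro hmem
      obtain ⟨Q, hQ⟩ := (hx (rename Fin.castSucc g0)).1 (by rw [hren]; exact hg0)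
      have h3 : rename (Fin.castSucc : Fin 2 → Fin 3) g0 ≠ 0 := fun h =>
        hg0' (rename_injective _ hinj (by rw [h, map_zero]))
      have hQ0 : Q ≠ 0 := by
        rintro rfl
        rw [mul_zero] at hQ
        exact h3 hQ
      have h4 := degreeOf_mul_eq (n := (2 : Fin 3)) hP.ne_zero hQ0
      rw [← hQ] at h4
      have h5 : degreeOf (2 : Fin 3) (rename (Fin.castSucc : Fin 2 → Fin 3) g0) = 0 := by
        classical
        by_contra h5
        rw [← Ne, ← mem_vars_iff_degreeOf_ne_zero] at h5
        obtain ⟨a, ha, hai⟩ := Finset.mem_image.mp (vars_rename _ _ h5)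
        revert hai
        fin_cases a <;> decide
      have h6 := mem_vars_iff_degreeOf_ne_zero.mp hmem
      omega
    obtain ⟨P', hP'⟩ := exists_rename_eq_of_vars_subset_range P (Fin.castSucc : Fin 2 → Fin 3) hinj (by
      intro v hv
      fin_cases v
      · exact ⟨0, rfl⟩
      · exact ⟨1, rfl⟩
      · exact absurd hv hP2)
    let r : MvPolynomial (Fin 3) ℂ →ₐ[ℂ] MvPolynomial (Fin 2) ℂ := aeval ![X 0, X 1, 0]
    have hr : ∀ g : MvPolynomial (Fin 2) ℂ, r (rename (Fin.castSucc : Fin 2 → Fin 3) g) = g := by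
      intro g
      have h3 : r.comp (rename (Fin.castSucc : Fin 2 → Fin 3)) = AlgHom.id ℂ _ := by
        ext i
        fin_cases i <;> simp [r]
      exact congrArg (fun φ => φ g) h3
    have hP'irr : Irreducible P' := by
      constructor
      · intro hu
        apply hP.not_isUnit
        rw [← hP']
        exact hu.map (rename (Fin.castSucc : Fin 2 → Fin 3))
      · intro a b hab
        have h3 : P = rename (Fin.castSucc : Fin 2 → Fin 3) a * rename (Fin.castSucc : Fin 2 → Fin 3) b := by
          rw [← map_mul, ← hab, hP']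
        rcases hP.isUnit_or_isUnit h3 with h4 | h4
        · left
          have := h4.map r
          rwa [hr] at this
        · right
          have := h4.map r
          rwa [hr] at this
    have hxP' : ∀ g : MvPolynomial (Fin 2) ℂ, aeval x' g = 0 ↔ P' ∣ g := by
      intro g
      rw [← hren, hx, ← hP']
      constructor
      · rintro ⟨Q, hQ⟩
        refine ⟨r Q, ?_⟩
        have := congrArg r hQ
        rwa [map_mul, hr, hr] at this
      · exact fun h => map_dvd _ h
    -- the transcendence degree of `ℂ(x_0, x_1)` is one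
    have hx0 : x 0 ∉ cl (∅ : Set E) := by
      intro h
      obtain ⟨c, hc⟩ := cl_empty h
      apply hadd ![1, 0, 0] (by intro h; exact one_ne_zero (congrFun h 0)) c
      rw [← hc, dt, Fin.sum_univ_three]
      simp
    have hx1 : x 1 ∈ cl ({x 0} : Set E) := by
      by_contra hx1
      apply hg0'
      refine (algebraicIndependent_iff.1 (indep_succ x' (indep_succ _ ?_ ?_) ?_)) g0 hg0
      · exact algebraicIndependent_empty_type
      · intro h
        apply hx0
        refine cl_mono ?_ h
        rintro _ ⟨i, _⟩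
        exact i.elim0
      · intro h
        apply hx1
        refine cl_mono ?_ h
        rintro _ ⟨i, rfl⟩
        fin_cases i
        rfl
    have hx'0 : Set.range x' ⊆ cl ({x 0} : Set E) := by
      rintro _ ⟨i, rfl⟩
      fin_cases i
      · exact subset_cl _ rfl
      · exact hx1
    have hmon : ∀ m : Fin 2 → ℤ, ∏ l, y' l ^ m l ∈ cl (Set.range x') → m = 0 := by
      intro m hm
      by_contra hm0
      obtain ⟨k, hk, hk2⟩ : ∃ k : Fin 3 → ℤ, k 2 = 0 ∧ LinearIndependent ℤ ![![m 0, m 1, 0], k] := by
        by_cases h3 : m 0 = 0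
        · have h4 : m 1 ≠ 0 := by
            intro h4
            apply hm0
            funext i
            fin_cases i
            · exact h3
            · exact h4
          refine ⟨![1, 0, 0], rfl, ?_⟩
          rw [LinearIndependent.pair_iff]
          intro s t hst
          have e0 := congrFun hst 0
          have e1 := congrFun hst 1
          simp [h3] at e0 e1
          rcases e1 with e1 | e1
          · exact ⟨e1, e0⟩
          · exact absurd e1 h4
        · refine ⟨![0, 1, 0], rfl, ?_⟩
          rw [LinearIndependent.pair_iff]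
          intro s t hst
          have e0 := congrFun hst 0
          have e1 := congrFun hst 1
          simp [h3] at e0 e1
          rw [e0, zero_mul, zero_add] at e1
          exact ⟨e0, e1⟩
      have hdt : ∀ k : Fin 3 → ℤ, k 2 = 0 → dt k x ∈ cl ({x 0} : Set E) := by
        intro k hk
        rw [dt, Fin.sum_univ_three, hk, Int.cast_zero, zero_mul, add_zero]
        exact cl_add (cl_mul (cl_int _) (subset_cl _ rfl)) (cl_mul (cl_int _) hx1)
      rcases hstr _ k hk2 with h3 | h3
      · exact not_indep (hdt _ rfl) (hdt k hk) h3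
      · refine not_indep (hdt _ rfl) ?_ h3
        have h4 : mon ![m 0, m 1, 0] y = ∏ l, y' l ^ m l := by
          rw [mon, Fin.prod_univ_three, Fin.prod_univ_two]
          simp [hy']
        rw [h4]
        exact cl_trans hx'0 hm
    have hsupx : Set.range x ⊆ cl (insert (x 2) (Set.range x')) := by
      rw [hxr]
      exact subset_cl _
    have hy0' : y 0 ∉ cl (Set.range x') := by
      intro h
      have h3 := hmon ![1, 0] (by
        rw [Fin.prod_univ_two]
        simpa [hy'] using h)
      exact one_ne_zero (congrFun h3 0)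
    have hx2 : x 2 ∈ cl (Set.range ζ) := by
      have h3 := cl_exch (cl_trans hsupx hy0) hy0'
      refine cl_mono ?_ h3
      rintro _ (rfl | ⟨i, rfl⟩)
      · exact ⟨Sum.inr 0, rfl⟩
      · exact ⟨Sum.inl i, rfl⟩
    refine ⟨hx2, fun H1 hH1 => ?_⟩
    -- the field generated by `x_0, x_1, y_0, y_1`
    let E' : IntermediateField ℂ E := IntermediateField.adjoin ℂ (Set.range ζ)
    let x'' : Fin 2 → E' := fun l => ⟨x' l, IntermediateField.subset_adjoin _ _ ⟨Sum.inl l, rfl⟩⟩
    let y'' : Fin 2 → E' := fun l => ⟨y' l, IntermediateField.subset_adjoin _ _ ⟨Sum.inr l, rfl⟩⟩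
    have ev1 : ∀ g : MvPolynomial (Fin 2) ℂ, E'.val (aeval x'' g) = aeval x' g := fun g =>
      (aeval_sub E'.val x'' g).symm
    have ev2 : ∀ g : MvPolynomial (Fin 2 ⊕ Fin 2) ℂ, E'.val (aeval (Sum.elim x'' y'') g) = aeval ζ g := by
      intro g
      rw [← aeval_sub]
      congr 2
      funext i
      rcases i with i | i <;> rfl
    have hvinj : Function.Injective E'.val := E'.val.toRingHom.injective
    have hE'x : ∀ a : E', (a : E) ∈ cl (Set.range x) := fun a => cl_trans hζx (cl_of_adjoin a.2)
    have him : E'.val '' Set.range x'' = Set.range x' := by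
      rw [← Set.range_comp]
      rfl
    have h3 : Pt (fun i => E'.val (Sum.elim x'' y'' i)) = Pt ζ := by
      congr 1
      funext i
      rcases i with i | i <;> rfl
    rw [← h3, pt_sub]
    refine Pool.Agent.Helper57.HT.core (E := E') hP'irr (x := x'') (y := y'') ?_ ?_ ?_ ?_ ?_
      (H := H1) ?_
    · intro g
      rw [← hxP', ← ev1]
      exact ⟨fun h => by rw [h, map_zero], fun h => hvinj (by rw [h, map_zero])⟩
    · intro l h
      exact hyne l (congrArg E'.val h)
    · intro f g hf
      have hf' : (f : E) ∉ cl (Set.range x') := by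
        intro h
        apply hf
        rw [← mem_cl, cl_map E'.val, him]
        exact h
      rw [← mem_cl, cl_map E'.val, Set.image_insert_eq, him]
      have h3 := cl_exch (cl_trans hsupx (hE'x f)) hf'
      refine cl_trans ?_ (hE'x g)
      rw [hxr]
      rintro _ (rfl | h)
      · exact h3
      · exact subset_cl _ (Or.inr h)
    · -- the leading form is not a constant
      intro hmem
      have hd1 : 1 ≤ P'.totalDegree := by
        by_contra h
        have h3 : P'.totalDegree = 0 := by omega
        rw [totalDegree_eq_zero_iff_eq_C] at h3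
        apply hP'irr.not_isUnit
        have h4 : P'.coeff 0 ≠ 0 := by
          intro h5
          rw [h5, C_0] at h3
          exact hP'irr.ne_zero h3
        rw [h3]
        exact (IsUnit.mk0 _ h4).map C
      have hne := Pool.Agent.Q98.EG.homog_ne_zero hP'irr.ne_zero
      have hle : Algebra.adjoin ℂ {g : MvPolynomial (Fin 2) ℂ | ∃ m : Fin 2 → ℤ,
          IsAlgebraic (IntermediateField.adjoin ℂ (Set.range x'')) (∏ l, y'' l ^ m l) ∧ g = linm m} ≤ ⊥ := by
        rw [Algebra.adjoin_le_iff]
        rintro _ ⟨m, hm, rfl⟩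
        have h3 : m = 0 := by
          apply hmon m
          rw [← mem_cl, cl_map E'.val, him, map_prod] at hm
          simpa using hm
        rw [h3]
        simp [linm]
      obtain ⟨c, hc⟩ := Algebra.mem_bot.1 (hle hmem)
      have h3 : (homogeneousComponent P'.totalDegree P').IsHomogeneous P'.totalDegree :=
        homogeneousComponent_isHomogeneous _ _
      have h4 : (homogeneousComponent P'.totalDegree P').IsHomogeneous 0 := by
        rw [← hc]
        exact isHomogeneous_C _ _
      have h5 := h3.inj_right h4 hne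
      omega
    · intro m c hm hdvd
      rw [← hxP'] at hdvd
      apply hadd ![m 0, m 1, 0] (by
        intro h
        apply hm
        funext i
        fin_cases i
        · exact congrFun h 0
        · exact congrFun h 1) c
      rw [dt, Fin.sum_univ_three]
      rw [map_sub, sub_eq_zero, linm, map_sum, Fin.sum_univ_two] at hdvd
      simpa [hx'] using hdvd
    · intro h
      apply hH1
      rw [← ev2, h, map_zero]

end Pool.Agent.Helper57.NT
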