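import Pool.Agent.Helper57.NT.Res3
import Pool.Agent.Helper57.NT.Curve
import Pool.Agent.Helper57.NT.OneQ
import Pool.Agent.Helper57.NT.Four
import Pool.Agent.Helper57.NT.One
import Pool.Agent.Helper57.NT.Lim
import Pool.Agent.Helper57.NT.Two
import Pool.Agent.Helper57.NT.BM
import Pool.Agent.Helper57.NT.Exc
import Pool.Agent.Helper57.NT.Fibre
import Pool.Agent.Helper57.CD.Ax
import Pool.Agent.Helper57.CD.Main

/-!
# Exponential-algebraic closedness in dimension three: assembly
-/

set_option autoImplicit false

namespace Pool.Agent.Helper57.NT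

open MvPolynomial Pool.Agent.Q72.EG Res2

/-- exponential points on all translates -/
theorem closed3 (I : Ideal (MvPolynomial (Fin 3 ⊕ Fin 3) ℂ))
    (V : Set (Fin 3 ⊕ Fin 3 → ℂ)) (hV : Res2.IsVariety I V) (hfree : Res2.Free V)
    (hrot : Res2.Rotund V) (c : Fin 3 ⊕ Fin 3 → ℂ) (hc : ∀ i, c (Sum.inr i) ≠ 0) :
    ∃ z : Fin 3 → ℂ, ExpPoint z ∈ Translate c V := by
  have cd : S_cd := CD.cd (CD.ax CD.size)
  have exc : S_exc := NT.exc cd bm
  have onen : S_onen := NT.onen fibre lim
  have one : S_one := NT.one uni onen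
  have two : S_two := NT.two bm
  have three : S_three := NT.three uni one two
  have four : S_four := NT.four curve oneq
  exact (Res3.res3 three bm uni exc four five I V hV hfree hrot).1 c hc

end Pool.Agent.Helper57.NT
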