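import Pool.Agent.Helper57.NT.Ab
import Pool.Agent.Helper57.NT.Sheet2

/-!
Project NT (helper57), part Res2 (helper18): the theorem in the function field.
-/

set_option autoImplicit false

namespace Pool.Agent.Helper57.NT

open MvPolynomial Pool.Agent.Q72.EG

/-- a basis of `ℤ^3` adapted to a saturated subgroup of rank one and one more vector -/
theorem adapted (Λ : Submodule ℤ (Fin 3 → ℤ))
    (hsat : ∀ (k : ℤ) (m : Fin 3 → ℤ), k ≠ 0 → k • m ∈ Λ → m ∈ Λ)
    (hone : ∀ a b : Fin 3 → ℤ, LinearIndependent ℤ ![a, b] → ¬ (a ∈ Λ ∧ b ∈ Λ))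
    {m k : Fin 3 → ℤ} (hmk : LinearIndependent ℤ ![m, k]) (hm : m ∈ Λ) :
    ∃ M N : Matrix (Fin 3) (Fin 3) ℤ, N * M = 1 ∧ M 0 ∈ Λ ∧
      ∃ c g : ℤ, g ≠ 0 ∧ k = c • M 0 + g • M 1 := by
  have hm0 : m ≠ 0 := hmk.ne_zero 0
  have h0 : Λ ≠ ⊥ := by
    rintro rfl
    exact hm0 ((Submodule.mem_bot ℤ).1 hm)
  have hne : Λ ≠ ⊤ := by
    rintro rfl
    exact hone m k hmk ⟨trivial, trivial⟩
  obtain ⟨M, N, hNM, hcase⟩ := Pool.Agent.Helper82.NT.exists_basis Λ hsat hne h0
  have hMN : M * N = 1 := mul_eq_one_comm.1 hNM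
  have hrows : ∀ v : Fin 3 → ℤ, v = Matrix.vecMul v N 0 • M 0 + Matrix.vecMul v N 1 • M 1 +
      Matrix.vecMul v N 2 • M 2 := by
    intro v
    have h1 : Matrix.vecMul (Matrix.vecMul v N) M = v := by
      rw [Matrix.vecMul_vecMul, hNM, Matrix.vecMul_one]
    conv_lhs => rw [← h1]
    funext j
    rw [Matrix.vecMul, dotProduct, Fin.sum_univ_three]
    simp
  have hlin : ∀ a b c : ℤ, a • M 0 + b • M 1 + c • M 2 = 0 → a = 0 ∧ b = 0 ∧ c = 0 := by
    intro a b c habc
    have h1 : Matrix.vecMul ![a, b, c] M = 0 := by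
      rw [← habc]
      funext j
      rw [Matrix.vecMul, dotProduct, Fin.sum_univ_three]
      simp
    have h2 : ![a, b, c] = 0 := by
      by_contra h
      exact vecMul_ne hMN h h1
    exact ⟨congrFun h2 0, congrFun h2 1, congrFun h2 2⟩
  rcases hcase with ⟨hM0, hM⟩ | ⟨hM0, hM1, -⟩
  swap
  · exfalso
    refine hone (M 0) (M 1) ?_ ⟨hM0, hM1⟩
    rw [LinearIndependent.pair_iff]
    intro s t hst
    obtain ⟨h1, h2, -⟩ := hlin s t 0 (by rw [zero_smul, add_zero]; exact hst)
    exact ⟨h1, h2⟩
  -- coordinates of `m`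
  have hm' : ∃ a0 : ℤ, m = a0 • M 0 := by
    obtain ⟨a0, a1, a2, h1⟩ : ∃ a0 a1 a2 : ℤ, m = a0 • M 0 + a1 • M 1 + a2 • M 2 :=
      ⟨_, _, _, hrows m⟩
    have h2 : a1 • M 1 + a2 • M 2 ∈ Λ := by
      have h3 : a1 • M 1 + a2 • M 2 = m - a0 • M 0 := by
        rw [h1]
        abel
      rw [h3]
      exact Λ.sub_mem hm (Λ.smul_mem _ hM0)
    obtain ⟨h4, h5⟩ := hM _ _ h2
    rw [h4, h5, zero_smul, zero_smul, add_zero, add_zero] at h1
    exact ⟨a0, h1⟩
  obtain ⟨a0, hm'⟩ := hm'
  obtain ⟨k0, k1, k2, hk⟩ : ∃ k0 k1 k2 : ℤ, k = k0 • M 0 + k1 • M 1 + k2 • M 2 :=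
    ⟨_, _, _, hrows k⟩
  have ha0' : a0 ≠ 0 := by
    intro h
    rw [h, zero_smul] at hm'
    exact hm0 hm'
  have hk12 : ¬ (k1 = 0 ∧ k2 = 0) := by
    rintro ⟨h1, h2⟩
    rw [h1, h2, zero_smul, zero_smul, add_zero, add_zero] at hk
    rw [LinearIndependent.pair_iff] at hmk
    obtain ⟨-, h4⟩ := hmk k0 (-a0) (by
      conv_lhs => rw [hk, hm']
      rw [smul_smul, smul_smul, ← add_smul]
      rw [show k0 * a0 + -a0 * k0 = 0 by ring, zero_smul])
    exact ha0' (neg_eq_zero.1 h4)
  -- Bezout
  set g : ℤ := (Int.gcd k1 k2 : ℤ) with hg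
  have hg0 : g ≠ 0 := by
    rw [hg]
    intro h
    have := Int.gcd_eq_zero_iff.1 (Int.natCast_eq_zero.1 h)
    exact hk12 this
  obtain ⟨p, hp⟩ : g ∣ k1 := Int.gcd_dvd_left ..
  obtain ⟨q, hq⟩ : g ∣ k2 := Int.gcd_dvd_right ..
  set A := Int.gcdA k1 k2 with hA
  set B := Int.gcdB k1 k2 with hB
  have hbez : A * p + B * q = 1 := by
    have h1 : g = k1 * A + k2 * B := Int.gcd_eq_gcd_ab k1 k2
    have h2 : g * (A * p + B * q) = g * 1 := by
      conv_rhs => rw [mul_one, h1, hp, hq]
      ring
    exact mul_left_cancel₀ hg0 h2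
  let T : Matrix (Fin 3) (Fin 3) ℤ := !![1, 0, 0; 0, p, q; 0, -B, A]
  let T' : Matrix (Fin 3) (Fin 3) ℤ := !![1, 0, 0; 0, A, -q; 0, B, p]
  have hT : T' * T = 1 := by
    have e1 : A * p + q * B = 1 := by linarith
    have e2 : B * q + p * A = 1 := by linarith
    have e3 : A * q + -(q * A) = 0 := by ring
    have e4 : B * p + -(p * B) = 0 := by ring
    ext i j
    fin_cases i <;> fin_cases j <;> simp [T, T', Matrix.mul_apply, Fin.sum_univ_three, e1, e2, e3, e4]
  refine ⟨T * M, N * T', ?_, ?_, k0, g, hg0, ?_⟩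
  · rw [Matrix.mul_assoc, ← Matrix.mul_assoc T', hT, Matrix.one_mul, hNM]
  · have : (T * M) 0 = M 0 := by
      funext j
      simp [T, Matrix.mul_apply, Fin.sum_univ_three]
    rw [this]
    exact hM0
  · have e0 : (T * M) 0 = M 0 := by
      funext j
      simp [T, Matrix.mul_apply, Fin.sum_univ_three]
    have e1 : (T * M) 1 = p • M 1 + q • M 2 := by
      funext j
      simp [T, Matrix.mul_apply, Fin.sum_univ_three]
    rw [e0, e1, hk, smul_add, smul_smul, smul_smul, ← hp, ← hq, add_assoc]

variable {E : Type} [Field E] [Algebra ℂ E]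

omit [Algebra ℂ E] in
theorem dt_smul {n : ℕ} (k : ℤ) (m : Fin n → ℤ) (x : Fin n → E) :
    dt (k • m) x = (k : E) * dt m x := by
  unfold dt
  rw [Finset.mul_sum]
  refine Finset.sum_congr rfl fun l _ => ?_
  rw [Pi.smul_apply, smul_eq_mul]
  push_cast
  ring

omit [Algebra ℂ E] in
theorem dt_zero {n : ℕ} (x : Fin n → E) : dt 0 x = 0 := by
  simp [dt]

omit [Algebra ℂ E] in
theorem mon_zero {n : ℕ} (y : Fin n → E) : mon 0 y = 1 := by
  simp [mon]

theorem ai_pair {u v : E} (hu : u ∉ cl (∅ : Set E)) (hv : v ∉ cl ({u} : Set E)) :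
    AlgebraicIndependent ℂ ![u, v] := by
  refine indep_succ _ (indep_succ _ ?_ ?_) ?_
  · exact algebraicIndependent_empty_type
  · intro h
    apply hu
    refine cl_mono ?_ h
    rintro _ ⟨i, _⟩
    exact i.elim0
  · rw [range_cs1]
    exact hv

/-- **the theorem in the function field** -/
theorem eac3 (three : S_three) (bm : S_bm) (uni : S_uni) (exc : S_exc) (x y : Fin 3 → E)
    (hy : ∀ l, y l ≠ 0) (hadd : AddFree x)
    (hmul : ∀ m : Fin 3 → ℤ, m ≠ 0 → ∀ c : ℂ, mon m y ≠ algebraMap ℂ E c)
    (h4 : NoFour E) (h3 : ∀ a b : E, ¬ Set.range (Sum.elim x y) ⊆ cl ({a, b} : Set E))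
    (hrot : ∀ m k : Fin 3 → ℤ, LinearIndependent ℤ ![m, k] → ∀ u : E,
      ¬ (dt m x ∈ cl ({u} : Set E) ∧ dt k x ∈ cl ({u} : Set E) ∧ mon m y ∈ cl ({u} : Set E) ∧
        mon k y ∈ cl ({u} : Set E)))
    (hnc : ∃ i j, x j ∉ cl ({x i} : Set E)) : HasExp x y := by
  classical
  have hxc : ∀ m : Fin 3 → ℤ, m ≠ 0 → dt m x ∉ cl (∅ : Set E) := by
    intro m hm h
    obtain ⟨c, hc⟩ := cl_empty h
    exact hadd m hm c hc
  by_cases hs : Strong x y
  · -- the general case
    obtain ⟨i, j, hij⟩ := hnc
    have hxi : x i ∉ cl (∅ : Set E) := by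
      have := hxc (Pi.single i 1) (by
        intro h
        have := congrFun h i
        simp at this)
      rwa [dt_single] at this
    have hne : i ≠ j := by
      rintro rfl
      exact hij (subset_cl _ rfl)
    have hpair := ai_pair hxi hij
    by_cases hall : ∀ l, x l ∈ cl ({x i, x j} : Set E)
    · -- a surface
      obtain ⟨ρ, hρ1, hρ2⟩ : ∃ ρ : Equiv.Perm (Fin 3), ρ 1 = i ∧ ρ 2 = j := by
        revert hne
        clear hij hpair hall hxi
        revert i j
        decide
      have e1 : (fun l : Fin 2 => x (ρ l.succ)) = ![x i, x j] := by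
        funext l
        fin_cases l
        · show x (ρ 1) = _
          rw [hρ1]
          rfl
        · show x (ρ 2) = _
          rw [hρ2]
          rfl
      have hr2 : Set.range ![x i, x j] = {x i, x j} := by
        ext c
        simp only [Set.mem_range, Set.mem_insert_iff, Set.mem_singleton_iff]
        constructor
        · rintro ⟨l, rfl⟩
          fin_cases l
          · exact Or.inl rfl
          · exact Or.inr rfl
        · rintro (rfl | rfl)
          · exact ⟨0, rfl⟩
          · exact ⟨1, rfl⟩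
      obtain ⟨P, hP, hP2⟩ := exists_P' x ρ (by rw [e1]; exact hpair) (by
        rw [e1, hr2]
        exact hall _)
      have hrx : Set.range x ⊆ cl ({x i, x j} : Set E) := by
        rintro _ ⟨l, rfl⟩
        exact hall l
      have hsub : ({x i, x j} : Set E) ⊆ Set.range x := by
        rintro _ (rfl | rfl)
        · exact ⟨i, rfl⟩
        · exact ⟨j, rfl⟩
      refine three x y hy hadd hs P hP hP2 ?_ ?_
      · intro f g hf
        rw [← mem_cl]
        have hf' : f ∉ cl ({x i, x j} : Set E) := fun h => hf (mem_cl.1 (cl_mono hsub h))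
        have h5 := h4 (x i) (x j) f g hxi hij hf'
        refine cl_mono ?_ h5
        rintro _ (rfl | rfl | rfl)
        · exact Or.inr ⟨i, rfl⟩
        · exact Or.inr ⟨j, rfl⟩
        · exact Or.inl rfl
      · by_contra hcon
        push Not at hcon
        apply h3 (x i) (x j)
        rintro _ ⟨l, rfl⟩
        rcases l with l | l
        · exact hall l
        · have := hcon l
          rw [Transcendental, not_not, ← mem_cl] at this
          exact cl_trans hrx this
    · -- everything
      push Not at hall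
      obtain ⟨l, hl⟩ := hall
      have hxind : AlgebraicIndependent ℂ ![x i, x j, x l] := by
        refine indep_succ _ ?_ ?_
        · have : ![x i, x j, x l] ∘ (Fin.castSucc : Fin 2 → Fin 3) = ![x i, x j] := by
            funext k
            fin_cases k <;> rfl
          rw [this]
          exact hpair
        · intro h
          apply hl
          refine cl_mono ?_ h
          rintro _ ⟨k, rfl⟩
          fin_cases k
          · exact Or.inl rfl
          · exact Or.inr rfl
      obtain ⟨ρ, hρ0, hρ1, hρ2⟩ : ∃ ρ : Equiv.Perm (Fin 3), ρ 0 = i ∧ ρ 1 = j ∧ ρ 2 = l := by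
        have h5 : i ≠ l := by
          rintro rfl
          exact hl (subset_cl _ (Or.inl rfl))
        have h6 : j ≠ l := by
          rintro rfl
          exact hl (subset_cl _ (Or.inr rfl))
        revert h5 h6 hne
        clear hij hpair hl hxi hxind
        revert i j l
        decide
      have hx3 : AlgebraicIndependent ℂ x := by
        rw [← algebraicIndependent_equiv ρ]
        convert hxind using 1
        funext k
        fin_cases k
        · show x (ρ 0) = _
          rw [hρ0]
          rfl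
        · show x (ρ 1) = _
          rw [hρ1]
          rfl
        · show x (ρ 2) = _
          rw [hρ2]
          rfl
      obtain ⟨z, hz, -⟩ := bm x y (by norm_num) hy (algebraicIndependent_iff.1 hx3) 1 (by
        rw [map_one]
        exact one_ne_zero)
      exact ⟨z, hz⟩
  · -- the exceptional case
    rw [Strong] at hs
    push Not at hs
    obtain ⟨m, k, hmk, h5, h6⟩ := hs
    set u := dt m x with hu
    have hu0 : u ∉ cl (∅ : Set E) := hxc m (hmk.ne_zero 0)
    have hku : dt k x ∈ cl ({u} : Set E) := by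
      by_contra h
      exact h5 (ai_pair hu0 h)
    have hmu : mon m y ∈ cl ({u} : Set E) := by
      by_contra h
      exact h6 (ai_pair hu0 h)
    let Λ : Submodule ℤ (Fin 3 → ℤ) :=
      { carrier := {a | dt a x ∈ cl ({u} : Set E) ∧ mon a y ∈ cl ({u} : Set E)}
        zero_mem' := by
          constructor
          · show dt 0 x ∈ _
            rw [dt_zero]
            simpa using cl_int (S := ({u} : Set E)) 0
          · show mon 0 y ∈ _
            rw [mon_zero]
            exact cl_one
        add_mem' := by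
          rintro a b ⟨h1, h2⟩ ⟨h3, h4⟩
          constructor
          · rw [dt_add]
            exact cl_add h1 h3
          · rw [mon_add a b hy]
            exact cl_mul h2 h4
        smul_mem' := by
          rintro c a ⟨h1, h2⟩
          constructor
          · rw [dt_smul]
            exact cl_mul (cl_int c) h1
          · rw [mon_smul]
            exact cl_zpow c h2 }
    have hΛ : ∀ a, a ∈ Λ ↔ dt a x ∈ cl ({u} : Set E) ∧ mon a y ∈ cl ({u} : Set E) := fun a => Iff.rfl
    obtain ⟨M, N, hNM, hM0, c, g, hg, hk⟩ := adapted Λ (by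
      intro c a hc h
      rw [hΛ] at h ⊢
      rw [dt_smul, mon_smul] at h
      exact ⟨cl_div hc h.1, cl_root hc h.2⟩) (by
      rintro a b hab ⟨h1, h2⟩
      exact hrot a b hab u ⟨h1.1, h2.1, h1.2, h2.2⟩) hmk ⟨subset_cl _ rfl, hmu⟩
    have hMN : M * N = 1 := mul_eq_one_comm.1 hNM
    have hMne : ∀ i, M i ≠ 0 := by
      intro i hi
      have h7 : (M * N) i i = 0 := by
        rw [Matrix.mul_apply]
        simp [hi]
      rw [hMN, Matrix.one_apply_eq] at h7
      exact one_ne_zero h7
    have hM01 : LinearIndependent ℤ ![M 0, M 1] := by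
      rw [LinearIndependent.pair_iff]
      intro s t hst
      have h7 : Matrix.vecMul ![s, t, 0] M = 0 := by
        rw [← hst]
        funext j
        rw [Matrix.vecMul, dotProduct, Fin.sum_univ_three]
        simp
      have h8 : ![s, t, 0] = 0 := by
        by_contra h
        exact vecMul_ne hMN h h7
      exact ⟨congrFun h8 0, congrFun h8 1⟩
    set x' : Fin 3 → E := fun i => dt (M i) x with hx'
    set y' : Fin 3 → E := fun i => mon (M i) y with hy'
    have hx0 : x' 0 ∉ cl (∅ : Set E) := hxc _ (hMne 0)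
    have hux : u ∈ cl ({x' 0} : Set E) := by
      have := cl_exch (S := ∅) (a := x' 0) (b := u) (by simpa using hM0.1) hx0
      simpa using this
    have hcl : cl ({u} : Set E) ⊆ cl ({x' 0} : Set E) :=
      cl_trans (Set.singleton_subset_iff.2 hux)
    have hy0 : y' 0 ∈ cl ({x' 0} : Set E) := hcl hM0.2
    have hx1 : x' 1 ∈ cl ({x' 0} : Set E) := by
      apply hcl
      apply cl_div hg
      have h7 : (g : E) * x' 1 = dt k x - dt (c • M 0) x := by
        rw [hk, dt_add, dt_smul g, hx']
        ring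
      rw [h7, dt_smul]
      exact cl_sub hku (cl_mul (cl_int c) hM0.1)
    have hy1 : y' 1 ∉ cl ({x' 0} : Set E) := fun h =>
      hrot (M 0) (M 1) hM01 (x' 0) ⟨subset_cl _ rfl, hx1, hy0, h⟩
    have hyne : ∀ l, y' l ≠ 0 := fun l => mon_ne _ hy
    refine uni x y hy M N hNM ?_
    refine exc x' y' hyne (addFree_uni hMN hadd) (hmul _ (hMne 0)) (mem_cl.1 hx1) (mem_cl.1 hy0)
      (fun h => hy1 (mem_cl.2 h)) ?_ (not_ai3 h4 hx0 _ _ _)
    by_cases h7 : x' 2 ∈ cl ({x' 0, y' 1} : Set E)
    · right
      refine ai2 hy1 fun h8 => h3 (x' 0) (y' 1) ?_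
      have hsub0 : cl ({x' 0} : Set E) ⊆ cl ({x' 0, y' 1} : Set E) :=
        cl_mono (Set.singleton_subset_iff.2 (Or.inl rfl))
      have hX : ∀ l, x' l ∈ cl ({x' 0, y' 1} : Set E) := by
        intro l
        fin_cases l
        · exact subset_cl _ (Or.inl rfl)
        · exact hsub0 hx1
        · exact h7
      have hY : ∀ l, y' l ∈ cl ({x' 0, y' 1} : Set E) := by
        intro l
        fin_cases l
        · exact hsub0 hy0
        · exact subset_cl _ (Or.inr rfl)
        · exact h8
      rintro _ ⟨l, rfl⟩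
      rcases l with l | l
      · show x l ∈ _
        have : x l = dt (N l) x' := by rw [hx', dt_vecMul, vecMul_row hNM, dt_single]
        rw [this]
        exact cl_dt _ hX
      · show y l ∈ _
        have : y l = mon (N l) y' := by rw [hy', mon_vecMul M _ hy, vecMul_row hNM, mon_single]
        rw [this]
        exact cl_mon _ hY
    · left
      exact ai2' hy1 h7

end Pool.Agent.Helper57.NT
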