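import Pool.Agent.Helper57.NT.Sheet

/-!
Project NT (helper57): statements of the parts, varieties of larger dimension.
-/

set_option autoImplicit false

namespace Pool.Agent.Helper57.NT

open MvPolynomial Pool.Agent.Q72.EG Filter Topology Metric

/-- **S_curve**: a surface contains additively free curves outside of a given curve `h = 0` -/
def S_curve : Prop := ∀ P : MvPolynomial (Fin 3) ℂ, Irreducible P →
    (∀ m : Fin 3 → ℤ, m ≠ 0 → ∀ a : ℂ, ¬ P ∣ (∑ l, C (m l : ℂ) * X l) - C a) →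
    ∀ h : MvPolynomial (Fin 3) ℂ, ¬ P ∣ h →
    ∃ (F : Type) (_ : Field F) (_ : Algebra ℂ F) (x : Fin 3 → F), aeval x P = 0 ∧ aeval x h ≠ 0 ∧
      AddFree x ∧ ∀ i j : Fin 3, ∃ f : MvPolynomial (Fin 2) ℂ, f ≠ 0 ∧ aeval ![x i, x j] f = 0

/-- **S_oneq**: one exponential equation over a curve -/
def S_oneq : Prop := ∀ {F : Type} [Field F] [Algebra ℂ F] (x : Fin 3 → F), AddFree x →
    (∀ i j : Fin 3, ∃ f : MvPolynomial (Fin 2) ℂ, f ≠ 0 ∧ aeval ![x i, x j] f = 0) →
    ∀ (R : MvPolynomial (Fin 3) (MvPolynomial (Fin 3) ℂ)) (h : MvPolynomial (Fin 3) ℂ),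
    aeval x h ≠ 0 → (∃ k k' : Fin 3 →₀ ℕ, k ≠ k' ∧ aeval x (R.coeff k) ≠ 0 ∧
      aeval x (R.coeff k') ≠ 0) →
    ∃ P ∈ Pt x, eval P h ≠ 0 ∧
      eval (fun i => Complex.exp (P i)) (MvPolynomial.map (eval P) R) = 0

/-- **S_four**: the fibres over a surface are surfaces -/
def S_four : Prop := ∀ {E : Type} [Field E] [Algebra ℂ E] (x y : Fin 3 → E), (∀ l, y l ≠ 0) →
    AddFree x → ∀ P : MvPolynomial (Fin 3) ℂ, Irreducible P →
    (∀ g : MvPolynomial (Fin 3) ℂ, aeval x g = 0 ↔ P ∣ g) →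
    ¬ AlgebraicIndependent (IntermediateField.adjoin ℂ (Set.range x)) y →
    (∃ i j : Fin 3, AlgebraicIndependent (IntermediateField.adjoin ℂ (Set.range x)) ![y i, y j]) →
    HasExp x y

/-- **S_five**: the fibres are everything -/
def S_five : Prop := ∀ {n : ℕ} {E : Type} [Field E] [Algebra ℂ E] (x y : Fin n → E),
    AlgebraicIndependent (IntermediateField.adjoin ℂ (Set.range x)) y → HasExp x y

/- The parts:
theorem curve : S_curve
theorem oneq : S_oneq
theorem four : S_curve → S_oneq → S_four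
theorem five : S_five
-/

end Pool.Agent.Helper57.NT
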