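import Pool.Agent.Helper57.NT.Eac
import Pool.Agent.Helper57.NT.Sheet4

/-!
Project NT (helper57), part Res3 (helper18): the theorem in the function field, any dimension.
-/

set_option autoImplicit false

namespace Pool.Agent.Helper57.NT

open MvPolynomial Pool.Agent.Q72.EG

variable {E : Type} [Field E] [Algebra ℂ E]

theorem mem_cl_overS (S T : Set E) (a : E) :
    IsAlgebraic (IntermediateField.adjoin (IntermediateField.adjoin ℂ S) T) a ↔
      a ∈ cl (S ∪ T) := by
  rw [mem_cl, ← IntermediateField.adjoin_adjoin_left]
  exact Iff.rfl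

theorem ai2S {S : Set E} {a b : E} (ha : a ∉ cl S) (hb : b ∉ cl (insert a S)) :
    AlgebraicIndependent (IntermediateField.adjoin ℂ S) ![a, b] := by
  refine indep_succ' _ (indep_succ' _ ?_ ?_) ?_
  · exact algebraicIndependent_empty_type
  · rw [mem_cl_overS]
    intro h
    apply ha
    refine cl_mono ?_ h
    rintro c (h | ⟨i, _⟩)
    · exact h
    · exact i.elim0
  · rw [mem_cl_overS, range_cs1]
    intro h
    apply hb
    refine cl_mono ?_ h
    rintro c (h | rfl)
    · exact Or.inr h
    · exact Or.inl rfl

/-- the closure of three elements has no four independent elements -/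
theorem noFour_of (p q r : E) (h : ∀ e : E, e ∈ cl ({p, q, r} : Set E)) : NoFour E := by
  classical
  intro a b c d hA hB hC
  by_contra hD
  have h1 : AlgebraicIndependent ℂ ![a, b, c, d] := by
    refine indep_succ _ ?_ ?_
    · have e1 : ![a, b, c, d] ∘ (Fin.castSucc : Fin 3 → Fin 4) = ![a, b, c] := by
        funext k
        fin_cases k <;> rfl
      rw [e1]
      refine indep_succ _ ?_ ?_
      · have e2 : ![a, b, c] ∘ (Fin.castSucc : Fin 2 → Fin 3) = ![a, b] := by
          funext k
          fin_cases k <;> rfl
        rw [e2]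
        exact ai_pair hA hB
      · intro h
        apply hC
        refine cl_mono ?_ h
        rintro _ ⟨k, rfl⟩
        fin_cases k
        · exact Or.inl rfl
        · exact Or.inr rfl
    · intro h
      apply hD
      refine cl_mono ?_ h
      rintro _ ⟨k, rfl⟩
      fin_cases k
      · exact Or.inl rfl
      · exact Or.inr (Or.inl rfl)
      · exact Or.inr (Or.inr rfl)
  have h2 := card_le h1 ({p, q, r} : Finset E) (by
    intro j
    have : (({p, q, r} : Finset E) : Set E) = {p, q, r} := by
      simp
    rw [this]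
    exact h _)
  have h3 : ({p, q, r} : Finset E).card ≤ 3 := Finset.card_le_three
  rw [Fintype.card_fin] at h2
  omega

/-- **the theorem in the function field**, any dimension -/
theorem eac (three : S_three) (bm : S_bm) (uni : S_uni) (exc : S_exc) (four : S_four)
    (five : S_five) (x y : Fin 3 → E)
    (hy : ∀ l, y l ≠ 0) (hadd : AddFree x)
    (hmul : ∀ m : Fin 3 → ℤ, m ≠ 0 → ∀ c : ℂ, mon m y ≠ algebraMap ℂ E c)
    (hgen : ∀ e : E, e ∈ cl (Set.range (Sum.elim x y)))
    (h3 : ∀ a b : E, ¬ Set.range (Sum.elim x y) ⊆ cl ({a, b} : Set E))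
    (hrot : ∀ m k : Fin 3 → ℤ, LinearIndependent ℤ ![m, k] → ∀ u : E,
      ¬ (dt m x ∈ cl ({u} : Set E) ∧ dt k x ∈ cl ({u} : Set E) ∧ mon m y ∈ cl ({u} : Set E) ∧
        mon k y ∈ cl ({u} : Set E)))
    (hnc : ∃ i j, x j ∉ cl ({x i} : Set E)) : HasExp x y := by
  classical
  by_cases h4 : NoFour E
  · exact eac3 three bm uni exc x y hy hadd hmul h4 h3 hrot hnc
  have hxc : ∀ m : Fin 3 → ℤ, m ≠ 0 → dt m x ∉ cl (∅ : Set E) := by
    intro m hm h
    obtain ⟨c, hc⟩ := cl_empty h
    exact hadd m hm c hc
  obtain ⟨i, j, hij⟩ := hnc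
  have hxi : x i ∉ cl (∅ : Set E) := by
    have := hxc (Pi.single i 1) (by
      intro h
      have := congrFun h i
      simp at this)
    rwa [dt_single] at this
  have hne : i ≠ j := by
    rintro rfl
    exact hij (subset_cl _ rfl)
  have hpair := ai_pair hxi hij
  by_cases hall : ∀ l, x l ∈ cl ({x i, x j} : Set E)
  · -- a surface
    obtain ⟨ρ, hρ1, hρ2⟩ : ∃ ρ : Equiv.Perm (Fin 3), ρ 1 = i ∧ ρ 2 = j := by
      revert hne
      clear hij hpair hall hxi
      revert i j
      decide
    have e1 : (fun l : Fin 2 => x (ρ l.succ)) = ![x i, x j] := by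
      funext l
      fin_cases l
      · show x (ρ 1) = _
        rw [hρ1]
        rfl
      · show x (ρ 2) = _
        rw [hρ2]
        rfl
    have hr2 : Set.range ![x i, x j] = {x i, x j} := by
      ext c
      simp only [Set.mem_range, Set.mem_insert_iff, Set.mem_singleton_iff]
      constructor
      · rintro ⟨l, rfl⟩
        fin_cases l
        · exact Or.inl rfl
        · exact Or.inr rfl
      · rintro (rfl | rfl)
        · exact ⟨0, rfl⟩
        · exact ⟨1, rfl⟩
    obtain ⟨P, hP, hP2⟩ := exists_P' x ρ (by rw [e1]; exact hpair) (by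
      rw [e1, hr2]
      exact hall _)
    have hrx : Set.range x ⊆ cl ({x i, x j} : Set E) := by
      rintro _ ⟨l, rfl⟩
      exact hall l
    -- two independent `y`
    obtain ⟨k, hk⟩ : ∃ k, y k ∉ cl (Set.range x) := by
      by_contra hcon
      push Not at hcon
      apply h3 (x i) (x j)
      rintro _ ⟨l, rfl⟩
      rcases l with l | l
      · exact hall l
      · exact cl_trans hrx (hcon l)
    obtain ⟨l, hl⟩ : ∃ l, y l ∉ cl (insert (y k) (Set.range x)) := by
      by_contra hcon
      push Not at hcon
      apply h4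
      apply noFour_of (x i) (x j) (y k)
      intro e
      have h5 : ({x i, x j} : Set E) ⊆ {x i, x j, y k} := by
        rintro _ (rfl | rfl)
        · exact Or.inl rfl
        · exact Or.inr (Or.inl rfl)
      have h6 : insert (y k) (Set.range x) ⊆ cl ({x i, x j, y k} : Set E) := by
        rintro _ (rfl | ⟨l, rfl⟩)
        · exact subset_cl _ (Or.inr (Or.inr rfl))
        · exact cl_mono h5 (hall l)
      refine cl_trans ?_ (hgen e)
      rintro _ ⟨l, rfl⟩
      rcases l with l | l
      · exact cl_mono h5 (hall l)
      · exact cl_trans h6 (hcon l)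
    by_cases hai : AlgebraicIndependent (IntermediateField.adjoin ℂ (Set.range x)) y
    · exact five x y hai
    · exact four x y hy hadd P hP hP2 hai ⟨k, l, ai2S hk hl⟩
  · -- everything
    push Not at hall
    obtain ⟨l, hl⟩ := hall
    have hxind : AlgebraicIndependent ℂ ![x i, x j, x l] := by
      refine indep_succ _ ?_ ?_
      · have : ![x i, x j, x l] ∘ (Fin.castSucc : Fin 2 → Fin 3) = ![x i, x j] := by
          funext k
          fin_cases k <;> rfl
        rw [this]
        exact hpair
      · intro h
        apply hl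
        refine cl_mono ?_ h
        rintro _ ⟨k, rfl⟩
        fin_cases k
        · exact Or.inl rfl
        · exact Or.inr rfl
    obtain ⟨ρ, hρ0, hρ1, hρ2⟩ : ∃ ρ : Equiv.Perm (Fin 3), ρ 0 = i ∧ ρ 1 = j ∧ ρ 2 = l := by
      have h5 : i ≠ l := by
        rintro rfl
        exact hl (subset_cl _ (Or.inl rfl))
      have h6 : j ≠ l := by
        rintro rfl
        exact hl (subset_cl _ (Or.inr rfl))
      revert h5 h6 hne
      clear hij hpair hl hxi hxind
      revert i j l
      decide
    have hx3 : AlgebraicIndependent ℂ x := by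
      rw [← algebraicIndependent_equiv ρ]
      convert hxind using 1
      funext k
      fin_cases k
      · show x (ρ 0) = _
        rw [hρ0]
        rfl
      · show x (ρ 1) = _
        rw [hρ1]
        rfl
      · show x (ρ 2) = _
        rw [hρ2]
        rfl
    obtain ⟨z, hz, -⟩ := bm x y (by norm_num) hy (algebraicIndependent_iff.1 hx3) 1 (by
      rw [map_one]
      exact one_ne_zero)
    exact ⟨z, hz⟩

end Pool.Agent.Helper57.NT
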