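import Pool.Agent.Helper57.NT.Leaf

/-!
Project NT (helper57): the vector field tangent to the leaves.
-/

set_option autoImplicit false

namespace Pool.Agent.Helper57.NT

open MvPolynomial Filter Topology Metric Pool.Agent.Q72.EG

variable {E : Type} [Field E] [Algebra ℂ E] {ι : Type}

/-- a relation as a polynomial in all variables -/
noncomputable def rel (F : Polynomial (MvPolynomial (Fin 2) ℂ)) (i : ι) :
    MvPolynomial (Fin 2 ⊕ ι) ℂ :=
  F.eval₂ (rename Sum.inl : MvPolynomial (Fin 2) ℂ →ₐ[ℂ] MvPolynomial (Fin 2 ⊕ ι) ℂ).toRingHom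
    (X (Sum.inr i))

theorem aeval_rel (ζ : Fin 2 → E) (f : ι → E) (F : Polynomial (MvPolynomial (Fin 2) ℂ)) (i : ι) :
    aeval (Sum.elim ζ f) (rel F i) = Pool.Agent.Q166.EG.ev ζ (f i) F := by
  rw [rel, Pool.Agent.Q166.EG.ev]
  have h := Polynomial.hom_eval₂ F
    (rename Sum.inl : MvPolynomial (Fin 2) ℂ →ₐ[ℂ] MvPolynomial (Fin 2 ⊕ ι) ℂ).toRingHom
    (aeval (Sum.elim ζ f) : MvPolynomial (Fin 2 ⊕ ι) ℂ →ₐ[ℂ] E).toRingHom (X (Sum.inr i))
  refine Eq.trans h ?_
  congr 1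
  · ext x
    · simp [Pool.Agent.Q166.EG.ph_eq]
    · simp [Pool.Agent.Q166.EG.ph_eq]
  · simp

theorem rel_monomial (n : ℕ) (a : MvPolynomial (Fin 2) ℂ) (i : ι) :
    rel (Polynomial.monomial n a) i = rename Sum.inl a * X (Sum.inr i) ^ n := by
  rw [rel, Polynomial.eval₂_monomial]
  rfl

theorem rel_add (F G : Polynomial (MvPolynomial (Fin 2) ℂ)) (i : ι) :
    rel (F + G) i = rel F i + rel G i := Polynomial.eval₂_add _ _

theorem pderiv_inr_rename (i : ι) (a : MvPolynomial (Fin 2) ℂ) :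
    pderiv (Sum.inr i : Fin 2 ⊕ ι) (rename Sum.inl a) = 0 := by
  classical
  refine pderiv_eq_zero_of_notMem_vars fun h => ?_
  have h1 := vars_rename (Sum.inl : Fin 2 → Fin 2 ⊕ ι) a h
  rw [Finset.mem_image] at h1
  obtain ⟨j, -, hj⟩ := h1
  exact Sum.inl_ne_inr hj

theorem pderiv_rel_same (F : Polynomial (MvPolynomial (Fin 2) ℂ)) (i : ι) :
    pderiv (Sum.inr i) (rel F i) = rel (Polynomial.derivative F) i := by
  induction F using Polynomial.induction_on' with
  | add F G hF hG => rw [rel_add, map_add, hF, hG, map_add, rel_add]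
  | monomial n a =>
    rw [rel_monomial, Polynomial.derivative_monomial, rel_monomial, Derivation.leibniz,
      pderiv_inr_rename, smul_zero, add_zero, Derivation.leibniz_pow, pderiv_X_self, smul_eq_mul,
      nsmul_eq_mul, smul_eq_mul, mul_one, map_mul, map_natCast]
    ring

theorem pderiv_rel_other (F : Polynomial (MvPolynomial (Fin 2) ℂ)) {i k : ι} (hk : k ≠ i) :
    pderiv (Sum.inr k) (rel F i) = 0 := by
  classical
  induction F using Polynomial.induction_on' with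
  | add F G hF hG => rw [rel_add, map_add, hF, hG, add_zero]
  | monomial n a =>
    have h1 : pderiv (Sum.inr k : Fin 2 ⊕ ι) (X (Sum.inr i) : MvPolynomial (Fin 2 ⊕ ι) ℂ) = 0 :=
      pderiv_X_of_ne (fun h => hk (Sum.inr_injective h).symm)
    rw [rel_monomial, Derivation.leibniz, pderiv_inr_rename, smul_zero, add_zero,
      Derivation.leibniz_pow, h1, smul_zero, smul_zero, smul_zero]

/-- the derivative of a minimal relation does not vanish -/
theorem mn_deriv {ζ : Fin 2 → E} {w : E} {F : Polynomial (MvPolynomial (Fin 2) ℂ)}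
    (hF : Pool.Agent.Q166.EG.Mn ζ w F) :
    Pool.Agent.Q166.EG.ev ζ w (Polynomial.derivative F) ≠ 0 := by
  intro h
  have hlt : (Polynomial.derivative F).natDegree < F.natDegree :=
    Polynomial.natDegree_derivative_lt (by have := hF.deg; omega)
  have h1 := hF.min _ hlt h
  have h2 := congrArg (fun p => Polynomial.coeff p (F.natDegree - 1)) h1
  simp only [Polynomial.coeff_map, Polynomial.coeff_derivative, Polynomial.coeff_zero] at h2
  have h3 : F.natDegree - 1 + 1 = F.natDegree := by have := hF.deg; omega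
  rw [h3, map_mul] at h2
  rcases mul_eq_zero.1 h2 with h4 | h4
  · exact hF.lead h4
  · have h5 : Pool.Agent.Q166.EG.ph ζ (((F.natDegree - 1 : ℕ) : MvPolynomial (Fin 2) ℂ) + 1) =
        ((F.natDegree : ℕ) : E) := by
      have h6 : (((F.natDegree - 1 : ℕ) : MvPolynomial (Fin 2) ℂ) + 1) = ((F.natDegree : ℕ) : MvPolynomial (Fin 2) ℂ) := by
        rw [← Nat.cast_succ]; congr 1
      rw [h6, map_natCast]
    rw [h5] at h4
    have : CharZero E := charZero_of_injective_algebraMap (algebraMap ℂ E).injective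
    have h7 : (F.natDegree : E) ≠ 0 := Nat.cast_ne_zero.2 (by have := hF.deg; omega)
    exact h7 h4

/-- leaves with their vector field -/
structure Lf0 (ζ : Fin 2 → E) (f : ι → E) (k1 : ι) (p : ℕ → ℂ → Fin 2 ⊕ ι → ℂ) where
  B : MvPolynomial (Fin 2 ⊕ ι) ℂ
  A : Fin 2 ⊕ ι → MvPolynomial (Fin 2 ⊕ ι) ℂ
  hB : aeval (Sum.elim ζ f) B ≠ 0
  good : ∀ᶠ m : ℕ in atTop, Good ζ f k1 m (p m)
  dif : ∀ᶠ m : ℕ in atTop, ∀ s ∈ ball (0 : ℂ) 13, ∀ i,
    HasDerivAt (fun s => p m s i) (eval (p m s) (A i) / eval (p m s) B) s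

theorem Lf0.lo {ζ : Fin 2 → E} {f : ι → E} {k1 : ι} {p : ℕ → ℂ → Fin 2 ⊕ ι → ℂ}
    (hf : ∀ k, IsAlgebraic (IntermediateField.adjoin ℂ (Set.range ζ)) (f k))
    (L : Lf0 ζ f k1 p) {a : MvPolynomial (Fin 2 ⊕ ι) ℂ}
    (ha : aeval (Sum.elim ζ f) a ≠ 0) : ∃ C : ℝ, ∀ᶠ m : ℕ in atTop, ∀ s ∈ ball (0 : ℂ) 13,
    Real.exp (-(C * m)) ≤ ‖eval (p m s) a‖ := by
  obtain ⟨C, -, hC⟩ := size hf ha
  refine ⟨C, ?_⟩
  filter_upwards [hC, L.good] with m h1 h2 s hs
  obtain ⟨h3, h4⟩ := h1 _ (h2.pt s hs) (h2.rg s hs)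
  rw [abs_le] at h4
  rw [← Real.le_log_iff_exp_le (norm_pos_iff.2 h3)]
  exact h4.1

theorem Lf0.up {ζ : Fin 2 → E} {f : ι → E} {k1 : ι} {p : ℕ → ℂ → Fin 2 ⊕ ι → ℂ}
    (hf : ∀ k, IsAlgebraic (IntermediateField.adjoin ℂ (Set.range ζ)) (f k))
    (L : Lf0 ζ f k1 p) (a : MvPolynomial (Fin 2 ⊕ ι) ℂ) :
    ∃ C : ℝ, ∀ᶠ m : ℕ in atTop, ∀ s ∈ ball (0 : ℂ) 13, ‖eval (p m s) a‖ ≤ Real.exp (C * m) := by
  by_cases ha : aeval (Sum.elim ζ f) a = 0
  · refine ⟨0, ?_⟩
    filter_upwards [L.good] with m h2 s hs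
    rw [h2.pt s hs a ha, norm_zero]
    positivity
  · obtain ⟨C, -, hC⟩ := size hf ha
    refine ⟨C, ?_⟩
    filter_upwards [hC, L.good] with m h1 h2 s hs
    obtain ⟨h3, h4⟩ := h1 _ (h2.pt s hs) (h2.rg s hs)
    rw [abs_le] at h4
    rw [← Real.log_le_iff_le_exp (norm_pos_iff.2 h3)]
    exact h4.2

/-- **the vector field** -/
theorem exists_lf0 {ζ : Fin 2 → E} (hind : ∀ g : MvPolynomial (Fin 2) ℂ, aeval ζ g = 0 → g = 0)
    [Fintype ι] {f : ι → E}
    (hf : ∀ k, IsAlgebraic (IntermediateField.adjoin ℂ (Set.range ζ)) (f k)) {k1 : ι}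
    (hk1 : f k1 ≠ 0) : ∃ p : ℕ → ℂ → Fin 2 ⊕ ι → ℂ, Nonempty (Lf0 ζ f k1 p) := by
  classical
  obtain ⟨p, hp⟩ := (exists_good hind hf hk1).choice
  refine ⟨p, ?_⟩
  choose F hF using fun i => Pool.Agent.Q166.EG.mn_alg (hf i)
  set ξ : Fin 2 ⊕ ι → E := Sum.elim ζ f with hξ
  set r : ι → MvPolynomial (Fin 2 ⊕ ι) ℂ := fun i => rel (F i) i with hr
  set a0 : ι → MvPolynomial (Fin 2 ⊕ ι) ℂ := fun i => pderiv (Sum.inl 0) (r i) with ha0
  set a1 : ι → MvPolynomial (Fin 2 ⊕ ι) ℂ := fun i => pderiv (Sum.inl 1) (r i) with ha1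
  set b : ι → MvPolynomial (Fin 2 ⊕ ι) ℂ := fun i => pderiv (Sum.inr i) (r i) with hb
  have hrξ : ∀ i, aeval ξ (r i) = 0 := fun i => by
    rw [hr, hξ, aeval_rel]; exact (hF i).rel
  have hbξ : ∀ i, aeval ξ (b i) ≠ 0 := fun i => by
    rw [hb, hξ]
    simp only [hr]
    rw [pderiv_rel_same, aeval_rel]
    exact mn_deriv (hF i)
  have hsum : ∀ (q' : Fin 2 ⊕ ι → ℂ) (P : Fin 2 ⊕ ι → ℂ) (i : ι),
      ∑ j, q' j * eval P (pderiv j (r i)) =
        q' (Sum.inl 0) * eval P (a0 i) + q' (Sum.inl 1) * eval P (a1 i) +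
          q' (Sum.inr i) * eval P (b i) := by
    intro q' P i
    rw [Fintype.sum_sum_type, Fin.sum_univ_two]
    congr 1
    rw [Finset.sum_eq_single i]
    · intro k _ hk
      simp only [hr]
      rw [pderiv_rel_other _ hk, map_zero, mul_zero]
    · intro h; exact absurd (Finset.mem_univ i) h
  set N : MvPolynomial (Fin 2 ⊕ ι) ℂ := b k1 * X (Sum.inr k1) + a1 k1 with hN
  -- sizes
  have hbsz : ∀ i, ∀ᶠ m : ℕ in atTop, ∀ s ∈ ball (0 : ℂ) 13, eval (p m s) (b i) ≠ 0 := by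
    intro i
    obtain ⟨C, -, hC⟩ := size hf (hbξ i)
    filter_upwards [hC, hp] with m h1 h2 s hs
    exact (h1 _ (h2.pt s hs) (h2.rg s hs)).1
  have hysz : ∀ᶠ m : ℕ in atTop, ∀ s ∈ ball (0 : ℂ) 13, p m s (Sum.inr k1) ≠ 0 := by
    filter_upwards [hp] with m h2 s hs
    rw [← h2.ex s hs]
    exact Complex.exp_ne_zero _
  have hNp : ∀ᶠ m : ℕ in atTop, ∀ s ∈ ball (0 : ℂ) 13, eval (p m s) N ≠ 0 := by
    filter_upwards [hbsz k1, hysz, hp] with m hb1 hy hg s hs
    obtain ⟨w, w', μ, h1, h2, h3, h4, h5, h6, h7⟩ := hg.tr s hs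
    have h8 := chain h2 (r k1)
    have h9 : (fun t => eval (w t) (r k1)) =ᶠ[𝓝 (p m s (Sum.inl 1))] fun _ => (0 : ℂ) := by
      filter_upwards [h3] with t ht
      exact ht _ (hrξ k1)
    have h10 := (h8.congr_of_eventuallyEq h9.symm).unique (hasDerivAt_const _ (0 : ℂ))
    rw [hsum, h1, h4, h5, h6] at h10
    have h11 : eval (p m s) N = eval (p m s) (b k1) * p m s (Sum.inr k1) * (1 - μ) := by
      rw [hN, map_add, map_mul, eval_X]
      linear_combination h10
    rw [h11]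
    refine mul_ne_zero (mul_ne_zero (hb1 s hs) (hy s hs)) ?_
    intro h
    have h12 : μ = 1 := by linear_combination -h
    rw [h12, norm_one] at h7
    norm_num at h7
  have hNξ : aeval ξ N ≠ 0 := by
    intro h
    obtain ⟨m, h1, h2⟩ := (hNp.and hp).exists
    exact h1 0 (mem_ball_self (by norm_num)) (h2.pt 0 (mem_ball_self (by norm_num)) N h)
  set Pb : MvPolynomial (Fin 2 ⊕ ι) ℂ := ∏ j, b j with hPbd
  refine ⟨{
    B := N * Pb
    A := Sum.elim (![X (Sum.inl 0) * (N * Pb), -a0 k1 * X (Sum.inl 0) * Pb])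
      (fun i => (-a0 i * X (Sum.inl 0) * N + a1 i * a0 k1 * X (Sum.inl 0)) *
        ∏ j ∈ Finset.univ.erase i, b j)
    hB := by
      rw [map_mul]
      refine mul_ne_zero hNξ ?_
      rw [hPbd, map_prod]
      exact Finset.prod_ne_zero_iff.2 fun j _ => hbξ j
    good := hp
    dif := ?_ }⟩
  filter_upwards [(Filter.eventually_all).2 hbsz, hNp, hp] with m hbm hNm hg s hs
  have hn : ball (0 : ℂ) 13 ∈ 𝓝 s := isOpen_ball.mem_nhds hs
  set d : Fin 2 ⊕ ι → ℂ := fun i => deriv (fun s => p m s i) s with hd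
  have hder : ∀ i, HasDerivAt (fun s => p m s i) (d i) s := fun i =>
    ((hg.dif i).differentiableAt hn).hasDerivAt
  have hd0 : d (Sum.inl 0) = p m s (Sum.inl 0) := by
    have h1 : (fun s => p m s (Sum.inl 0)) =ᶠ[𝓝 s] fun s => Complex.exp m * Complex.exp s := by
      filter_upwards [hn] with s hs using hg.x3 s hs
    have h2 : HasDerivAt (fun s => Complex.exp m * Complex.exp s) (Complex.exp m * Complex.exp s) s :=
      (Complex.hasDerivAt_exp s).const_mul _
    rw [hg.x3 s hs]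
    exact (hder (Sum.inl 0)).unique (h2.congr_of_eventuallyEq h1)
  have hdk : d (Sum.inr k1) = p m s (Sum.inr k1) * d (Sum.inl 1) := by
    have h1 : (fun s => p m s (Sum.inr k1)) =ᶠ[𝓝 s] fun s => Complex.exp (p m s (Sum.inl 1)) := by
      filter_upwards [hn] with s hs using (hg.ex s hs).symm
    have h2 := (hder (Sum.inl 1)).cexp
    rw [hg.ex s hs] at h2
    exact (hder (Sum.inr k1)).unique (h2.congr_of_eventuallyEq h1)
  have hrel : ∀ i, d (Sum.inl 0) * eval (p m s) (a0 i) + d (Sum.inl 1) * eval (p m s) (a1 i) +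
      d (Sum.inr i) * eval (p m s) (b i) = 0 := by
    intro i
    have h8 := chain hder (r i)
    have h9 : (fun t => eval (p m t) (r i)) =ᶠ[𝓝 s] fun _ => (0 : ℂ) := by
      filter_upwards [hn] with t ht
      exact hg.pt t ht _ (hrξ i)
    have h10 := (h8.congr_of_eventuallyEq h9.symm).unique (hasDerivAt_const _ (0 : ℂ))
    rw [hsum] at h10
    exact h10
  have hNne := hNm s hs
  have hbne : ∀ i, eval (p m s) (b i) ≠ 0 := fun i => hbm i s hs
  have hPne : eval (p m s) Pb ≠ 0 := by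
    rw [hPbd, map_prod]
    exact Finset.prod_ne_zero_iff.2 fun j _ => hbne j
  have hNval : eval (p m s) N = eval (p m s) (b k1) * p m s (Sum.inr k1) + eval (p m s) (a1 k1) := by
    rw [hN, map_add, map_mul, eval_X]
  have hd1 : d (Sum.inl 1) * eval (p m s) N = -eval (p m s) (a0 k1) * p m s (Sum.inl 0) := by
    have h1 := hrel k1
    rw [hdk, hd0] at h1
    rw [hNval]
    linear_combination h1
  intro i
  refine (hder i).congr_deriv ?_
  rcases i with i | i
  · fin_cases i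
    · show d (Sum.inl 0) = _
      simp only [Sum.elim_inl, Fin.zero_eta, Matrix.cons_val_zero, map_mul, eval_X]
      rw [hd0]
      field_simp
    · show d (Sum.inl 1) = _
      simp only [Sum.elim_inl, Fin.mk_one, Matrix.cons_val_one, Matrix.cons_val_fin_one, map_mul,
        map_neg, eval_X]
      rw [eq_div_iff (mul_ne_zero hNne hPne)]
      linear_combination eval (p m s) Pb * hd1
  · have h1 := hrel i
    have h2 : Pb = b i * ∏ j ∈ Finset.univ.erase i, b j :=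
      (Finset.mul_prod_erase Finset.univ b (Finset.mem_univ i)).symm
    rw [eq_div_iff (by rw [map_mul]; exact mul_ne_zero hNne hPne)]
    simp only [Sum.elim_inr, map_mul, map_add, map_neg, eval_X]
    rw [h2, map_mul]
    rw [hd0] at h1
    linear_combination (eval (p m s) N * eval (p m s) (∏ j ∈ Finset.univ.erase i, b j)) * h1 -
      (eval (p m s) (a1 i) * eval (p m s) (∏ j ∈ Finset.univ.erase i, b j)) * hd1

end Pool.Agent.Helper57.NT
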