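import Pool.Agent.Helper57.NT.Soft2

/-!
Project NT (helper57): fixed points with parameters, bounds for logarithms.
-/

set_option autoImplicit false

namespace Pool.Agent.Helper57.NT

open Filter Topology Metric

/-- fixed points depending holomorphically on a parameter -/
theorem fix_param {c : ℂ} {ρ : ℝ} (hρ : 0 < ρ) {Ω : Set ℂ} (hΩ : IsOpen Ω) {lam : ℂ × ℂ → ℂ}
    (hd : DifferentiableOn ℂ lam (ball c ρ ×ˢ Ω))
    (hlip : ∀ s ∈ Ω, ∀ t ∈ ball c ρ, ∀ t' ∈ ball c ρ, ‖lam (t, s) - lam (t', s)‖ ≤ 1 / 2 * ‖t - t'‖)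
    (hb : ∀ s ∈ Ω, ‖lam (c, s)‖ ≤ ρ / 8) :
    ∃ T : ℂ → ℂ, DifferentiableOn ℂ T Ω ∧ ∀ s ∈ Ω, ‖T s - c‖ ≤ ρ / 4 ∧ T s = c + lam (T s, s) := by
  classical
  set F : ℕ → ℂ → ℂ := fun k => Nat.rec (fun _ => c) (fun _ g s => c + lam (g s, s)) k with hF
  have hF0 : ∀ s, F 0 s = c := fun s => rfl
  have hFS : ∀ k s, F (k + 1) s = c + lam (F k s, s) := fun k s => rfl
  have hball : ∀ w : ℂ, ‖w - c‖ ≤ ρ / 4 → w ∈ ball c ρ := fun w hw => by
    rw [mem_ball, dist_eq_norm]; linarith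
  have hcb : c ∈ ball c ρ := mem_ball_self hρ
  have hstep : ∀ s ∈ Ω, ∀ w : ℂ, ‖w - c‖ ≤ ρ / 4 → ‖c + lam (w, s) - c‖ ≤ ρ / 4 := by
    intro s hs w hw
    have h1 := hlip s hs w (hball w hw) c hcb
    have h2 := hb s hs
    have h3 := norm_add_le (lam (w, s) - lam (c, s)) (lam (c, s))
    rw [sub_add_cancel] at h3
    rw [add_sub_cancel_left]
    linarith
  have hinv : ∀ k, DifferentiableOn ℂ (F k) Ω ∧ ∀ s ∈ Ω, ‖F k s - c‖ ≤ ρ / 4 := by
    intro k
    induction k with
    | zero =>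
      refine ⟨differentiableOn_const _, fun s _ => ?_⟩
      rw [hF0, sub_self, norm_zero]; positivity
    | succ k ih =>
      refine ⟨?_, fun s hs => ?_⟩
      · have h1 : DifferentiableOn ℂ (fun s => lam (F k s, s)) Ω := by
          refine hd.comp (ih.1.prodMk differentiableOn_id) fun s hs => ?_
          exact ⟨hball _ (ih.2 s hs), hs⟩
        exact (differentiableOn_const c).add h1
      · rw [hFS]; exact hstep s hs _ (ih.2 s hs)
  have hgeo : ∀ s ∈ Ω, ∀ k, dist (F k s) (F (k + 1) s) ≤ ρ / 4 * (1 / 2) ^ k := by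
    intro s hs k
    induction k with
    | zero =>
      rw [hF0, dist_comm, dist_eq_norm, pow_zero, mul_one]
      exact (hinv 1).2 s hs
    | succ k ih =>
      rw [dist_eq_norm, hFS k, hFS (k + 1), add_sub_add_left_eq_sub]
      have h1 := hlip s hs _ (hball _ ((hinv k).2 s hs)) _ (hball _ ((hinv (k + 1)).2 s hs))
      rw [dist_eq_norm] at ih
      rw [hFS k] at h1 ih
      rw [pow_succ]
      linarith
  have hlim : ∀ s : ℂ, ∃ w : ℂ, s ∈ Ω → Tendsto (fun k => F k s) atTop (𝓝 w) := by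
    intro s
    by_cases hs : s ∈ Ω
    · have hc : CauchySeq (fun k => F k s) :=
        cauchySeq_of_le_geometric (1 / 2) (ρ / 4) (by norm_num) (hgeo s hs)
      obtain ⟨w, hw⟩ := cauchySeq_tendsto_of_complete hc
      exact ⟨w, fun _ => hw⟩
    · exact ⟨0, fun h => absurd h hs⟩
  choose T hT using hlim
  have hunif : TendstoLocallyUniformlyOn F T atTop Ω := by
    refine TendstoUniformlyOn.tendstoLocallyUniformlyOn ?_
    rw [Metric.tendstoUniformlyOn_iff]
    intro ε hε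
    have h1 : Tendsto (fun k : ℕ => ρ / 4 * (1 / 2 : ℝ) ^ k / (1 - 1 / 2)) atTop (𝓝 (ρ / 4 * 0 / (1 - 1 / 2))) :=
      ((tendsto_pow_atTop_nhds_zero_of_lt_one (by norm_num) (by norm_num)).const_mul _).div_const _
    rw [mul_zero, zero_div] at h1
    filter_upwards [h1.eventually (gt_mem_nhds hε)] with k hk s hs
    have h2 := dist_le_of_le_geometric_of_tendsto (1 / 2) (ρ / 4) (by norm_num) (hgeo s hs) (hT s hs) k
    rw [dist_comm]
    exact h2.trans_lt hk
  have hTd : DifferentiableOn ℂ T Ω :=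
    hunif.differentiableOn (Eventually.of_forall fun k => (hinv k).1) hΩ
  have hTb : ∀ s ∈ Ω, ‖T s - c‖ ≤ ρ / 4 := fun s hs =>
    le_of_tendsto ((hT s hs).sub_const c).norm (Eventually.of_forall fun k => (hinv k).2 s hs)
  refine ⟨T, hTd, fun s hs => ⟨hTb s hs, ?_⟩⟩
  have h1 : Tendsto (fun k => F (k + 1) s) atTop (𝓝 (T s)) := (hT s hs).comp (tendsto_add_atTop_nat 1)
  have h2 : Tendsto (fun k => c + lam (F k s, s)) atTop (𝓝 (c + lam (T s, s))) := by
    refine Tendsto.const_add _ ?_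
    rw [tendsto_iff_norm_sub_tendsto_zero]
    have h3 := (tendsto_iff_norm_sub_tendsto_zero.1 (hT s hs)).const_mul (1 / 2)
    rw [mul_zero] at h3
    exact squeeze_zero (fun _ => norm_nonneg _) (fun k =>
      hlip s hs _ (hball _ ((hinv k).2 s hs)) _ (hball _ (hTb s hs))) h3
  exact tendsto_nhds_unique h1 h2

/-- a function with bounded real part is almost constant -/
theorem bc_ball {g : ℂ → ℂ} {c : ℂ} {r B : ℝ} (hr : 0 < r) (hB : 0 < B)
    (hg : DifferentiableOn ℂ g (ball c r)) (hb : ∀ t ∈ ball c r, |(g t).re| ≤ B)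
    {t : ℂ} {θ : ℝ} (hθ : θ < 1) (ht : ‖t - c‖ ≤ θ * r) :
    ‖g t - g c‖ ≤ 4 * B * θ / (1 - θ) := by
  set G : ℂ → ℂ := fun w => g (c + w) - g c with hG
  have hθ0 : 0 ≤ θ := by
    have := (norm_nonneg _).trans ht
    by_contra h
    push Not at h
    nlinarith
  have hmem : ∀ w ∈ ball (0 : ℂ) r, c + w ∈ ball c r := by
    intro w hw
    rw [mem_ball_zero_iff] at hw
    rw [mem_ball, dist_eq_norm, add_sub_cancel_left]; exact hw
  have hGd : DifferentiableOn ℂ G (ball 0 r) := by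
    intro w hw
    have h1 : DifferentiableAt ℂ g (c + w) := hg.differentiableAt (isOpen_ball.mem_nhds (hmem w hw))
    have h2 : DifferentiableAt ℂ (fun w => g (c + w)) w :=
      DifferentiableAt.comp w h1 ((differentiableAt_const _).add differentiableAt_id)
    exact (h2.sub_const _).differentiableWithinAt
  have hGm : Set.MapsTo G (ball 0 r) {z | z.re ≤ 2 * B} := by
    intro w hw
    have h1 := hb _ (hmem w hw)
    have h2 := hb c (mem_ball_self hr)
    rw [abs_le] at h1 h2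
    simp only [Set.mem_setOf_eq, hG, Complex.sub_re]
    linarith [h1.2, h2.1]
  have htr : ‖t - c‖ < r := ht.trans_lt (by nlinarith)
  have h1 := Complex.borelCaratheodory_zero (M := 2 * B) (by positivity) hGd hGm hr (z := t - c)
    (by rw [mem_ball_zero_iff]; exact htr) (by simp [hG])
  have e1 : G (t - c) = g t - g c := by simp [hG]
  rw [e1] at h1
  refine h1.trans ?_
  rw [div_le_div_iff₀ (by linarith) (by linarith)]
  have h2 : 0 ≤ B := hB.le
  have h3 := norm_nonneg (t - c)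
  have h4 : ‖t - c‖ * (1 - θ) ≤ θ * (r - ‖t - c‖) := by nlinarith
  calc 2 * (2 * B) * ‖t - c‖ * (1 - θ) = 4 * B * (‖t - c‖ * (1 - θ)) := by ring
    _ ≤ 4 * B * (θ * (r - ‖t - c‖)) := by gcongr
    _ = 4 * B * θ * (r - ‖t - c‖) := by ring

/-- bounded functions are Lipschitz on smaller discs -/
theorem lip_of_bdd' {f : ℂ → ℂ} {z : ℂ} {r δ C : ℝ} (hδ : 0 < δ) (hf : DifferentiableOn ℂ f (ball z (r + 2 * δ)))
    (hb : ∀ s ∈ ball z (r + 2 * δ), ‖f s‖ ≤ C) : ∀ s ∈ ball z r, ∀ t ∈ ball z r,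
    ‖f s - f t‖ ≤ C / δ * ‖s - t‖ := by
  intro s hs t ht
  refine (convex_ball z r).norm_image_sub_le_of_norm_deriv_le (𝕜 := ℂ) (f := f) ?_ ?_ ht hs
  · intro x hx
    exact hf.differentiableAt (isOpen_ball.mem_nhds (ball_subset_ball (by linarith) hx))
  · intro x hx
    have hsub : closedBall x δ ⊆ ball z (r + 2 * δ) := by
      intro y hy
      rw [mem_closedBall] at hy
      rw [mem_ball] at hx ⊢
      linarith [dist_triangle y x z]
    exact Complex.norm_deriv_le_of_forall_mem_sphere_norm_le (f := f) (c := x) (R := δ)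
      (C := C) hδ (by
        refine DifferentiableOn.diffContOnCl ?_
        rw [closure_ball _ hδ.ne']
        exact hf.mono hsub) (fun y hy => hb y (hsub (sphere_subset_closedBall hy)))

end Pool.Agent.Helper57.NT
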