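import Pool.Agent.Helper57.NT.Reg
import Pool.Agent.Helper57.NT.Fix

/-!
Project NT (helper57): leaves of `dx_1 = dy_1 / y_1`.
-/

set_option autoImplicit false

namespace Pool.Agent.Helper57.NT

open MvPolynomial Filter Topology Metric Pool.Agent.Q72.EG

/-- chain rule -/
theorem chain {σ : Type} [Fintype σ] {q : ℂ → σ → ℂ} {q' : σ → ℂ} {s : ℂ}
    (h : ∀ i, HasDerivAt (fun s => q s i) (q' i) s) (a : MvPolynomial σ ℂ) :
    HasDerivAt (fun s => eval (q s) a) (∑ i, q' i * eval (q s) (pderiv i a)) s := by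
  have h1 := hasDeriv_eval (A := fun i => C (q' i)) (b := 1) (q := q) (s := s)
    (fun i => by rw [eval_C, div_one]; exact h i) a
  rw [div_one] at h1
  refine h1.congr_deriv ?_
  simp only [DD, map_sum, map_mul, eval_C]

theorem exp_ctr (m : ℕ) : Complex.exp (ctr m) = 1 := by
  have h : ctr m = ((m ^ 2 : ℕ) : ℤ) * (2 * Real.pi * Complex.I) := by
    simp only [ctr]; push_cast; ring
  rw [h, Complex.exp_int_mul_two_pi_mul_I]

variable {E : Type} [Field E] [Algebra ℂ E] {ι : Type}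

/-- the properties of a leaf -/
structure Good (ζ : Fin 2 → E) (f : ι → E) (k1 : ι) (m : ℕ) (p : ℂ → Fin 2 ⊕ ι → ℂ) : Prop where
  dif : ∀ i, DifferentiableOn ℂ (fun s => p s i) (ball 0 13)
  pt : ∀ s ∈ ball (0 : ℂ) 13, p s ∈ Pt (Sum.elim ζ f)
  rg : ∀ s ∈ ball (0 : ℂ) 13, Rg m (p s ∘ Sum.inl)
  x3 : ∀ s ∈ ball (0 : ℂ) 13, p s (Sum.inl 0) = Complex.exp m * Complex.exp s
  ex : ∀ s ∈ ball (0 : ℂ) 13, Complex.exp (p s (Sum.inl 1)) = p s (Sum.inr k1)
  tr : ∀ s ∈ ball (0 : ℂ) 13, ∃ (w : ℂ → Fin 2 ⊕ ι → ℂ) (w' : Fin 2 ⊕ ι → ℂ) (μ : ℂ),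
    w (p s (Sum.inl 1)) = p s ∧
    (∀ i, HasDerivAt (fun t => w t i) (w' i) (p s (Sum.inl 1))) ∧
    (∀ᶠ t in 𝓝 (p s (Sum.inl 1)), w t ∈ Pt (Sum.elim ζ f)) ∧ w' (Sum.inl 0) = 0 ∧
    w' (Sum.inl 1) = 1 ∧ w' (Sum.inr k1) = μ * p s (Sum.inr k1) ∧ ‖μ‖ ≤ 1 / 2

theorem exists_good {ζ : Fin 2 → E} (hind : ∀ g : MvPolynomial (Fin 2) ℂ, aeval ζ g = 0 → g = 0)
    [Finite ι] {f : ι → E}
    (hf : ∀ k, IsAlgebraic (IntermediateField.adjoin ℂ (Set.range ζ)) (f k)) {k1 : ι}
    (hk1 : f k1 ≠ 0) : ∀ᶠ m : ℕ in atTop, ∃ p : ℂ → Fin 2 ⊕ ι → ℂ, Good ζ f k1 m p := by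
  classical
  obtain ⟨H1, hH1, hlift⟩ := Pool.Agent.Helper57.HT.lift_alg ζ f hf
  have hH0 : H1 ≠ 0 := by rintro rfl; exact hH1 (map_zero _)
  obtain ⟨CH, -, hCH⟩ := poly_reg hH0
  obtain ⟨C0, hC0, hsz⟩ := size (ζ := ζ) (f := f) hf (a := X (Sum.inr k1)) (by
    rw [aeval_X]; exact hk1)
  have hbig : ∀ᶠ m : ℕ in atTop, 52 * (C0 * m + 1) + (C0 * m + Real.pi) ≤ (m : ℝ) ^ 2 / 32 ∧
      32 * (C0 * m + 1) / (m : ℝ) ^ 2 ≤ 1 / 2 := by
    have h1 : Tendsto (fun x : ℝ => x * (x / 64 - 53 * C0)) atTop atTop := by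
      refine tendsto_id.atTop_mul_atTop₀ ?_
      exact tendsto_atTop_add_const_right _ _ (tendsto_id.atTop_div_const (by norm_num))
    have h2 := h1.comp tendsto_natCast_atTop_atTop
    filter_upwards [h2.eventually (eventually_ge_atTop (52 + Real.pi)), eventually_ge_atTop 1]
      with m hm hm1
    simp only [Function.comp] at hm
    have hm1' : (1 : ℝ) ≤ m := by exact_mod_cast hm1
    have hpi := Real.pi_pos
    have hkey : 53 * C0 * m + 52 + Real.pi ≤ (m : ℝ) ^ 2 / 64 := by nlinarith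
    constructor
    · nlinarith
    · rw [div_le_iff₀ (by positivity)]
      have : 0 ≤ C0 * m := by positivity
      nlinarith
  filter_upwards [hCH, hsz, hbig, eventually_ge_atTop 1] with m hCH hsz hbig hm1
  have hm1' : (1 : ℝ) ≤ m := by exact_mod_cast hm1
  have hm2 : (0 : ℝ) < (m : ℝ) ^ 2 := by positivity
  set c := ctr m with hc
  set U : Set (ℂ × ℂ) := ball c ((m : ℝ) ^ 2) ×ˢ ball 0 14 with hU
  have hUo : IsOpen U := isOpen_ball.prod isOpen_ball
  have hUc : Convex ℝ U := (convex_ball _ _).prod (convex_ball _ _)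
  have hc0U : (c, (0 : ℂ)) ∈ U := ⟨mem_ball_self hm2, mem_ball_self (by norm_num)⟩
  set t : ℂ × ℂ → Fin 2 → ℂ := fun u => ![Complex.exp m * Complex.exp u.2, u.1] with ht
  have ht0 : ∀ u, t u 0 = Complex.exp m * Complex.exp u.2 := fun u => rfl
  have ht1 : ∀ u, t u 1 = u.1 := fun u => rfl
  have htd0 : Differentiable ℂ (fun u : ℂ × ℂ => t u 0) := by
    simp only [ht0]
    exact (Complex.differentiable_exp.comp differentiable_snd).const_mul _
  have htd1 : Differentiable ℂ (fun u : ℂ × ℂ => t u 1) := by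
    simp only [ht1]
    exact differentiable_fst
  have htd : ∀ i, DifferentiableOn ℂ (fun u => t u i) U := by
    intro i
    fin_cases i
    · exact htd0.differentiableOn
    · exact htd1.differentiableOn
  have hrg : ∀ u ∈ U, Rg m (t u) := fun u hu => ⟨hu.1, u.2, hu.2, rfl⟩
  have htP : ∀ u, t u ∈ Pt ζ := by
    intro u g hg
    rw [hind g hg, map_zero]
  obtain ⟨q, hqd, hqP⟩ := hlift U hUo hUc ⟨_, hc0U⟩ t htd (fun u _ => htP u)
    (fun u hu => (hCH _ (hrg u hu)).1)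
  set P : ℂ × ℂ → Fin 2 ⊕ ι → ℂ := fun u => Sum.elim (t u) (q u) with hP
  have hPd : ∀ i, DifferentiableOn ℂ (fun u => P u i) U := by
    rintro (i | i)
    · exact htd i
    · exact hqd i
  have hPi : ∀ u, P u ∘ Sum.inl = t u := fun u => rfl
  have hy : ∀ u ∈ U, q u k1 ≠ 0 ∧ |Real.log ‖q u k1‖| ≤ C0 * m := by
    intro u hu
    have := hsz (P u) (hqP u hu) (by rw [hPi]; exact hrg u hu)
    simpa [hP] using this
  obtain ⟨lam0, hlamd, hlam⟩ := Pool.Agent.Helper57.HT.log_conv hUo hUc ⟨_, hc0U⟩ (hqd k1)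
    (fun u hu => (hy u hu).1)
  set n0 : ℤ := round ((lam0 (c, 0)).im / (2 * Real.pi)) with hn0
  set lam : ℂ × ℂ → ℂ := fun u => lam0 u - 2 * Real.pi * Complex.I * (n0 : ℂ) with hlamdef
  have hlamd' : DifferentiableOn ℂ lam U := hlamd.sub_const _
  have hexpl : ∀ u ∈ U, Complex.exp (lam u) = q u k1 := by
    intro u hu
    have h1 : Complex.exp (2 * Real.pi * Complex.I * (n0 : ℂ)) = 1 := by
      rw [mul_comm, Complex.exp_int_mul_two_pi_mul_I]
    rw [hlamdef]
    simp only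
    rw [Complex.exp_sub, h1, div_one]
    exact hlam u hu
  have hre : ∀ u ∈ U, |(lam u).re| ≤ C0 * m := by
    intro u hu
    have h1 := (hy u hu).2
    rw [← hexpl u hu, Complex.norm_exp, Real.log_exp] at h1
    exact h1
  have him0 : |(lam (c, 0)).im| ≤ Real.pi := by
    have h1 : (lam (c, 0)).im = (lam0 (c, 0)).im - 2 * Real.pi * n0 := by
      simp [hlamdef]
    rw [h1]
    have h2 := abs_sub_round ((lam0 (c, 0)).im / (2 * Real.pi))
    rw [← hn0] at h2
    have hpi := Real.pi_pos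
    have h3 : (lam0 (c, 0)).im - 2 * Real.pi * n0 =
        2 * Real.pi * ((lam0 (c, 0)).im / (2 * Real.pi) - n0) := by
      field_simp
    rw [h3, abs_mul, abs_of_pos (by positivity)]
    nlinarith
  set B := C0 * m + 1 with hB
  have hC0m : 0 ≤ C0 * m := by positivity
  have hBp : 0 < B := by positivity
  have hreB : ∀ u ∈ U, |(lam u).re| ≤ B := fun u hu => (hre u hu).trans (by linarith)
  -- slices
  have hsl1 : ∀ s ∈ ball (0 : ℂ) 14, DifferentiableOn ℂ (fun t => lam (t, s)) (ball c ((m : ℝ) ^ 2)) := by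
    intro s hs
    exact hlamd'.comp (differentiableOn_id.prodMk (differentiableOn_const _)) fun t ht => ⟨ht, hs⟩
  have hsl2 : DifferentiableOn ℂ (fun s => lam (c, s)) (ball 0 14) :=
    hlamd'.comp ((differentiableOn_const _).prodMk differentiableOn_id) fun s hs =>
      ⟨mem_ball_self hm2, hs⟩
  have hbs : ∀ s ∈ ball (0 : ℂ) 13, ‖lam (c, s)‖ ≤ (m : ℝ) ^ 2 / 4 / 8 := by
    intro s hs
    rw [mem_ball_zero_iff] at hs
    have h1 := bc_ball (g := fun s => lam (c, s)) (c := 0) (r := 14) (by norm_num) hBp hsl2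
      (fun t ht => hreB _ ⟨mem_ball_self hm2, ht⟩) (t := s) (θ := 13 / 14) (by norm_num)
      (by rw [sub_zero]; linarith)
    have h2 : ‖lam (c, 0)‖ ≤ C0 * m + Real.pi :=
      (Complex.norm_le_abs_re_add_abs_im _).trans (add_le_add (hre _ hc0U) him0)
    have h3 := norm_add_le (lam (c, s) - lam (c, 0)) (lam (c, 0))
    rw [sub_add_cancel] at h3
    have h4 : 4 * B * (13 / 14) / (1 - 13 / 14) = 52 * B := by ring
    rw [h4] at h1
    have h5 : (m : ℝ) ^ 2 / 4 / 8 = (m : ℝ) ^ 2 / 32 := by ring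
    rw [h5]
    linarith [hbig.1]
  have hlip : ∀ s ∈ ball (0 : ℂ) 14, ∀ t ∈ ball c ((m : ℝ) ^ 2 / 4), ∀ t' ∈ ball c ((m : ℝ) ^ 2 / 4),
      ‖lam (t, s) - lam (t', s)‖ ≤ 1 / 2 * ‖t - t'‖ := by
    intro s hs t ht t' ht'
    have hr : (m : ℝ) ^ 2 / 4 + 2 * ((m : ℝ) ^ 2 / 8) = (m : ℝ) ^ 2 / 2 := by ring
    have h1 := lip_of_bdd' (f := fun t => lam (t, s) - lam (c, s)) (z := c) (r := (m : ℝ) ^ 2 / 4)
      (δ := (m : ℝ) ^ 2 / 8) (C := 4 * B) (by positivity)
      (by
        rw [hr]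
        exact ((hsl1 s hs).mono (ball_subset_ball (by linarith))).sub_const _)
      (by
        rw [hr]
        intro w hw
        rw [mem_ball, dist_eq_norm] at hw
        have h2 := bc_ball (g := fun t => lam (t, s)) hm2 hBp (hsl1 s hs)
          (fun t ht => hreB _ ⟨ht, hs⟩) (t := w) (θ := 1 / 2) (by norm_num) (by linarith)
        refine h2.trans (le_of_eq ?_)
        ring) t ht t' ht'
    simp only [sub_sub_sub_cancel_right] at h1
    refine h1.trans (mul_le_mul_of_nonneg_right ?_ (norm_nonneg _))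
    refine le_trans (le_of_eq ?_) hbig.2
    field_simp
    ring
  obtain ⟨T, hTd, hT⟩ := fix_param (c := c) (ρ := (m : ℝ) ^ 2 / 4) (by positivity)
    (Ω := ball (0 : ℂ) 13) isOpen_ball (lam := lam)
    (hlamd'.mono (Set.prod_mono (ball_subset_ball (by linarith)) (ball_subset_ball (by norm_num))))
    (fun s hs t ht t' ht' => hlip s (ball_subset_ball (by norm_num) hs) t ht t' ht')
    hbs
  have hTU : ∀ s ∈ ball (0 : ℂ) 13, (T s, s) ∈ U := by
    intro s hs
    refine ⟨?_, ball_subset_ball (by norm_num) hs⟩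
    show T s ∈ ball c ((m : ℝ) ^ 2)
    rw [mem_ball, dist_eq_norm]
    have := (hT s hs).1
    linarith
  have hpair : DifferentiableOn ℂ (fun s => (T s, s)) (ball 0 13) := hTd.prodMk differentiableOn_id
  refine ⟨fun s => P (T s, s), ?_, ?_, ?_, ?_, ?_, ?_⟩
  · intro i
    exact (hPd i).comp hpair hTU
  · intro s hs
    exact hqP _ (hTU s hs)
  · intro s hs
    exact hrg _ (hTU s hs)
  · intro s hs
    rfl
  · intro s hs
    show Complex.exp (T s) = q (T s, s) k1
    rw [(hT s hs).2, Complex.exp_add, exp_ctr, one_mul, ← (hT s hs).2]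
    exact hexpl _ (hTU s hs)
  · intro s hs
    have hs14 : s ∈ ball (0 : ℂ) 14 := ball_subset_ball (by norm_num) hs
    have hTs : T s ∈ ball c ((m : ℝ) ^ 2) := (hTU s hs).1
    have hdi : ∀ i, DifferentiableAt ℂ (fun t => P (t, s) i) (T s) := by
      intro i
      have h1 : DifferentiableAt ℂ (fun u => P u i) (T s, s) :=
        (hPd i).differentiableAt (hUo.mem_nhds (hTU s hs))
      exact DifferentiableAt.comp (T s) (f := fun t : ℂ => (t, s)) (g := fun u => P u i) h1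
        (differentiableAt_id.prodMk (differentiableAt_const _))
    have hlamt : DifferentiableAt ℂ (fun t => lam (t, s)) (T s) :=
      (hsl1 s hs14).differentiableAt (isOpen_ball.mem_nhds hTs)
    refine ⟨fun t => P (t, s), fun i => deriv (fun t => P (t, s) i) (T s),
      deriv (fun t => lam (t, s)) (T s), rfl, fun i => (hdi i).hasDerivAt, ?_, ?_, ?_, ?_, ?_⟩
    · show ∀ᶠ t in 𝓝 (T s), P (t, s) ∈ Pt (Sum.elim ζ f)
      filter_upwards [isOpen_ball.mem_nhds hTs] with t ht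
      exact hqP _ ⟨ht, hs14⟩
    · show deriv (fun _ : ℂ => Complex.exp m * Complex.exp s) (T s) = 0
      exact deriv_const _ _
    · show deriv (fun t : ℂ => t) (T s) = 1
      exact deriv_id _
    · show deriv (fun t => q (t, s) k1) (T s) = deriv (fun t => lam (t, s)) (T s) * q (T s, s) k1
      have h1 : HasDerivAt (fun t => Complex.exp (lam (t, s)))
          (Complex.exp (lam (T s, s)) * deriv (fun t => lam (t, s)) (T s)) (T s) :=
        hlamt.hasDerivAt.cexp
      have h2 : (fun t => q (t, s) k1) =ᶠ[𝓝 (T s)] fun t => Complex.exp (lam (t, s)) := by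
        filter_upwards [isOpen_ball.mem_nhds hTs] with t ht
        exact (hexpl _ ⟨ht, hs14⟩).symm
      rw [(h1.congr_of_eventuallyEq h2).deriv, hexpl _ (hTU s hs), mul_comm]
    · refine hlamt.hasDerivAt.le_of_lip' (by norm_num) ?_
      have hT4 : T s ∈ ball c ((m : ℝ) ^ 2 / 4) := by
        rw [mem_ball, dist_eq_norm]
        have := (hT s hs).1
        linarith
      filter_upwards [isOpen_ball.mem_nhds hT4] with t ht
      exact hlip s hs14 t ht _ hT4

end Pool.Agent.Helper57.NT
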