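import Pool.Agent.Helper57.HT.StB
import Pool.Agent.Helper57.HT.Lift
import Pool.Graph.R_pool_sql_team_seeded_3997aac3.Q166.EG.Lift
import Pool.Graph.R_pool_sql_team_seeded_3997aac3.Q239.EG.Base

/-!
Project NT (helper57): sizes of algebraic functions of `(x_3, x_1)` in the region
`x_1 ≈ 2 π i m^2`, `x_3 ≈ exp m`.
-/

set_option autoImplicit false

namespace Pool.Agent.Helper57.NT

open MvPolynomial Filter Topology Metric Pool.Agent.Q72.EG

/-- the centre -/
noncomputable def ctr (m : ℕ) : ℂ := 2 * Real.pi * Complex.I * (m : ℂ) ^ 2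

/-- the region; `t 0 = x_3`, `t 1 = x_1` -/
def Rg (m : ℕ) (t : Fin 2 → ℂ) : Prop :=
  t 1 ∈ ball (ctr m) ((m : ℝ) ^ 2) ∧ ∃ s ∈ ball (0 : ℂ) 14, t 0 = Complex.exp m * Complex.exp s

theorem norm_ctr (m : ℕ) : ‖ctr m‖ = 2 * Real.pi * (m : ℝ) ^ 2 := by
  simp only [ctr, norm_mul, Complex.norm_I, norm_pow, Complex.norm_natCast, Complex.norm_real,
    Real.norm_eq_abs, Complex.norm_ofNat]
  rw [abs_of_pos Real.pi_pos]
  ring

theorem rg_bounds {m : ℕ} {t : Fin 2 → ℂ} (h : Rg m t) :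
    (m : ℝ) ^ 2 ≤ ‖t 1‖ ∧ ‖t 1‖ ≤ 8 * (m : ℝ) ^ 2 ∧ Real.exp (m - 14) ≤ ‖t 0‖ ∧
      ‖t 0‖ ≤ Real.exp (m + 14) := by
  obtain ⟨h1, s, hs, h2⟩ := h
  rw [mem_ball, dist_eq_norm] at h1
  rw [mem_ball_zero_iff] at hs
  have hn := norm_ctr m
  have h3 := norm_sub_norm_le (ctr m) (t 1)
  have h4 := norm_sub_norm_le (t 1) (ctr m)
  rw [norm_sub_rev] at h3
  have hpi := Real.pi_gt_three
  have hpi2 := Real.pi_lt_d2
  have hm : (0 : ℝ) ≤ (m : ℝ) ^ 2 := by positivity
  have h0 : ‖t 0‖ = Real.exp (m + s.re) := by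
    rw [h2, norm_mul, Complex.norm_exp, Complex.norm_exp, ← Real.exp_add]
    simp
  have hre := Complex.abs_re_le_norm s
  rw [abs_le] at hre
  refine ⟨by nlinarith, by nlinarith, ?_, ?_⟩
  · rw [h0]; apply Real.exp_le_exp.2; linarith [hre.1]
  · rw [h0]; apply Real.exp_le_exp.2; linarith [hre.2]

theorem ev_fin1 (b : MvPolynomial (Fin 1) ℂ) (t : Fin 1 → ℂ) :
    eval t b = (aeval (fun _ : Fin 1 => (Polynomial.X : Polynomial ℂ)) b).eval (t 0) := by
  induction b using MvPolynomial.induction_on with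
  | C c => simp
  | add p q hp hq => rw [map_add, map_add, Polynomial.eval_add, hp, hq]
  | mul_X p i hp =>
    have : i = 0 := Subsingleton.elim _ _
    subst this
    rw [map_mul, map_mul, Polynomial.eval_mul, hp]
    simp

/-- polynomials of one variable -/
theorem poly1_low {b : MvPolynomial (Fin 1) ℂ} (hb : b ≠ 0) : ∃ c : ℝ, 0 < c ∧ ∃ T0 : ℝ, ∀ t : Fin 1 → ℂ,
    T0 ≤ ‖t 0‖ → c ≤ ‖eval t b‖ := by
  set q : Polynomial ℂ := aeval (fun _ : Fin 1 => (Polynomial.X : Polynomial ℂ)) b with hq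
  have hev : ∀ t : Fin 1 → ℂ, eval t b = q.eval (t 0) := ev_fin1 b
  have hq0 : q ≠ 0 := by
    intro h
    apply hb
    apply MvPolynomial.funext
    intro t
    rw [hev t, h]
    simp
  rcases Nat.eq_zero_or_pos q.natDegree with hd | hd
  · obtain ⟨a, ha⟩ := Polynomial.natDegree_eq_zero.1 hd
    have ha0 : a ≠ 0 := by rintro rfl; apply hq0; rw [← ha, Polynomial.C_0]
    refine ⟨‖a‖, norm_pos_iff.2 ha0, 0, fun t _ => ?_⟩
    rw [hev t, ← ha, Polynomial.eval_C]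
  · have h1 : Tendsto (fun z : ℂ => ‖z‖) (comap (fun z : ℂ => ‖z‖) atTop) atTop := tendsto_comap
    have h2 := Polynomial.tendsto_norm_atTop q (Polynomial.natDegree_pos_iff_degree_pos.1 hd) h1
    have h3 := h2.eventually (eventually_ge_atTop 1)
    rw [eventually_comap] at h3
    obtain ⟨T0, hT0⟩ := eventually_atTop.1 h3
    refine ⟨1, one_pos, T0, fun t ht => ?_⟩
    rw [hev t]
    exact hT0 _ ht _ rfl

theorem exp_dom (K : ℝ) (N : ℕ) {c : ℝ} (hc : 0 < c) : ∀ᶠ m : ℕ in atTop,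
    K * (8 * (m : ℝ) ^ 2) ^ N ≤ c * Real.exp (m - 14) := by
  have h1 := (Real.tendsto_pow_mul_exp_neg_atTop_nhds_zero (2 * N)).comp tendsto_natCast_atTop_atTop
  have h2 : Tendsto (fun m : ℕ => (|K| + 1) * 8 ^ N * Real.exp 14 * ((m : ℝ) ^ (2 * N) * Real.exp (-(m : ℝ))))
      atTop (𝓝 ((|K| + 1) * 8 ^ N * Real.exp 14 * 0)) := h1.const_mul _
  rw [mul_zero] at h2
  filter_upwards [h2.eventually (gt_mem_nhds hc)] with m hm
  have h3 : K * (8 * (m : ℝ) ^ 2) ^ N ≤ (|K| + 1) * (8 * (m : ℝ) ^ 2) ^ N := by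
    gcongr
    linarith [le_abs_self K]
  refine h3.trans ?_
  have h4 : Real.exp ((m : ℝ) - 14) = (Real.exp 14)⁻¹ * (Real.exp (-(m : ℝ)))⁻¹ := by
    rw [← Real.exp_neg, ← Real.exp_neg, ← Real.exp_add]; congr 1; ring
  rw [h4]
  have h5 : 0 < Real.exp 14 := Real.exp_pos _
  have h6 : 0 < Real.exp (-(m : ℝ)) := Real.exp_pos _
  have h7 : (|K| + 1) * (8 * (m : ℝ) ^ 2) ^ N = ((|K| + 1) * 8 ^ N * Real.exp 14 *
      ((m : ℝ) ^ (2 * N) * Real.exp (-(m : ℝ)))) * ((Real.exp 14)⁻¹ * (Real.exp (-(m : ℝ)))⁻¹) := by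
    rw [mul_pow, ← pow_mul]
    field_simp
  rw [h7]
  exact mul_le_mul_of_nonneg_right hm.le (by positivity)

theorem size_ev : ∀ᶠ m : ℕ in atTop, (8 * (m : ℝ) ^ 2) ≤ Real.exp m ^ 2 ∧
    Real.exp ((m : ℝ) + 14) ≤ Real.exp m ^ 2 ∧ 2 ≤ Real.exp (m : ℝ) ∧ 1 ≤ Real.exp ((m : ℝ) - 14) ∧
    14 ≤ (m : ℝ) := by
  filter_upwards [eventually_ge_atTop 14, exp_dom 1 1 one_pos] with m hm h1
  have hm' : (14 : ℝ) ≤ m := by exact_mod_cast hm
  have h2 : Real.exp ((m : ℝ) - 14) ≤ Real.exp m := Real.exp_le_exp.2 (by linarith)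
  have h3 : (1 : ℝ) ≤ Real.exp m := Real.one_le_exp (by linarith)
  refine ⟨?_, ?_, ?_, ?_, hm'⟩
  · nlinarith
  · rw [← Real.exp_nat_mul]
    apply Real.exp_le_exp.2
    push_cast
    linarith
  · have := Real.add_one_le_exp (m : ℝ)
    linarith
  · exact Real.one_le_exp (by linarith)

/-- sizes of polynomials in the region -/
theorem poly_reg {B : MvPolynomial (Fin 2) ℂ} (hB : B ≠ 0) : ∃ C : ℝ, 0 ≤ C ∧ ∀ᶠ m : ℕ in atTop,
    ∀ t, Rg m t → eval t B ≠ 0 ∧ |Real.log ‖eval t B‖| ≤ C * m := by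
  classical
  set q := finSuccEquiv ℂ 1 B with hq
  have hq0 : q ≠ 0 := by
    intro h
    apply hB
    exact (map_eq_zero_iff _ (finSuccEquiv ℂ 1).injective).1 h
  set J := q.natDegree with hJ
  have hlc : q.coeff J ≠ 0 := by
    rw [hJ]; exact Polynomial.leadingCoeff_ne_zero.2 hq0
  obtain ⟨c, hc, T0, hT0⟩ := poly1_low hlc
  obtain ⟨N, hN⟩ := Pool.Agent.Helper57.RA.poly_size_fin (σ := Fin 1) (ι := Fin (J + 1)) 1
    (fun j => q.coeff j)
  obtain ⟨N2, hN2⟩ := Pool.Agent.Helper57.RA.poly_size (σ := Fin 2) 2 B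
  have hevq : ∀ t : Fin 2 → ℂ, eval t B =
      ∑ j ∈ Finset.range (J + 1), eval (fun i : Fin 1 => t i.succ) (q.coeff j) * t 0 ^ j := by
    intro t
    have h1 := MvPolynomial.eval_eq_eval_mv_eval' (fun i : Fin 1 => t i.succ) (t 0) B
    have h2 : (Fin.cons (t 0) (fun i : Fin 1 => t i.succ) : Fin 2 → ℂ) = t := by
      funext i
      refine Fin.cases ?_ (fun j => ?_) i <;> simp
    rw [h2] at h1
    rw [h1, Polynomial.eval_eq_sum_range' (n := J + 1)]
    · refine Finset.sum_congr rfl fun j _ => ?_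
      rw [Polynomial.coeff_map]
    · exact Nat.lt_succ_of_le (Polynomial.natDegree_map_le)
  refine ⟨N2 + |Real.log (c / 2)|, by positivity, ?_⟩
  have hT : ∀ᶠ m : ℕ in atTop, T0 ≤ (m : ℝ) ^ 2 := by
    have h1 : Tendsto (fun m : ℕ => (m : ℝ) ^ 2) atTop atTop :=
      (tendsto_pow_atTop (by norm_num)).comp tendsto_natCast_atTop_atTop
    exact h1.eventually (eventually_ge_atTop T0)
  filter_upwards [hT, size_ev, exp_dom J N (half_pos hc)] with m hT hs hdom t ht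
  obtain ⟨s1, s2, s3, s4, s5⟩ := hs
  obtain ⟨b1, b2, b3, b4⟩ := rg_bounds ht
  have hx3 : 1 ≤ ‖t 0‖ := s4.trans b3
  -- the upper bound
  have hup : ‖eval t B‖ ≤ Real.exp m ^ N2 := by
    refine hN2 _ s3 t (fun i => ?_)
    fin_cases i
    · exact b4.trans s2
    · exact b2.trans s1
  -- the lower bound
  have hlow : c / 2 ≤ ‖eval t B‖ := by
    rw [hevq, Finset.sum_range_succ]
    have h1 : c * ‖t 0‖ ^ J ≤ ‖eval (fun i : Fin 1 => t i.succ) (q.coeff J) * t 0 ^ J‖ := by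
      rw [norm_mul, norm_pow]
      refine mul_le_mul_of_nonneg_right (hT0 _ ?_) (by positivity)
      exact hT.trans b1
    have h2 : ‖∑ j ∈ Finset.range J, eval (fun i : Fin 1 => t i.succ) (q.coeff j) * t 0 ^ j‖ ≤
        c / 2 * ‖t 0‖ ^ J := by
      rcases Nat.eq_zero_or_pos J with hJ0 | hJ0
      · rw [hJ0]; simp; positivity
      · calc _ ≤ ∑ j ∈ Finset.range J, ‖eval (fun i : Fin 1 => t i.succ) (q.coeff j) * t 0 ^ j‖ :=
              norm_sum_le _ _
          _ ≤ ∑ _j ∈ Finset.range J, (8 * (m : ℝ) ^ 2) ^ N * ‖t 0‖ ^ (J - 1) := by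
              refine Finset.sum_le_sum fun j hj => ?_
              rw [norm_mul, norm_pow]
              have hj' := Finset.mem_range.1 hj
              refine mul_le_mul ?_ (pow_le_pow_right₀ hx3 (by omega)) (by positivity) (by positivity)
              refine hN (8 * (m : ℝ) ^ 2) (by nlinarith) _ (fun i => ?_) ⟨j, by omega⟩
              rw [pow_one]
              have : i = 0 := Subsingleton.elim _ _
              subst this
              exact b2
          _ = J * (8 * (m : ℝ) ^ 2) ^ N * ‖t 0‖ ^ (J - 1) := by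
              rw [Finset.sum_const, Finset.card_range, nsmul_eq_mul]; ring
          _ ≤ (c / 2 * ‖t 0‖) * ‖t 0‖ ^ (J - 1) := by
              refine mul_le_mul_of_nonneg_right (hdom.trans ?_) (by positivity)
              gcongr
          _ = c / 2 * ‖t 0‖ ^ J := by
              rw [mul_assoc, ← pow_succ']; congr 2; omega
    have h3 := norm_sub_le_norm_add (eval (fun i : Fin 1 => t i.succ) (q.coeff J) * t 0 ^ J)
      (∑ j ∈ Finset.range J, eval (fun i : Fin 1 => t i.succ) (q.coeff j) * t 0 ^ j)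
    rw [add_comm]
    have h4 : 1 ≤ ‖t 0‖ ^ J := one_le_pow₀ hx3
    nlinarith
  have hpos : 0 < ‖eval t B‖ := (half_pos hc).trans_le hlow
  refine ⟨norm_pos_iff.1 hpos, ?_⟩
  have hm1 : (1 : ℝ) ≤ m := by linarith
  rw [abs_le]
  constructor
  · have h1 := Real.log_le_log (half_pos hc) hlow
    have h2 := neg_abs_le (Real.log (c / 2))
    have h3 : |Real.log (c / 2)| ≤ |Real.log (c / 2)| * m := le_mul_of_one_le_right (abs_nonneg _) hm1
    have h4 : (0 : ℝ) ≤ N2 * m := by positivity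
    nlinarith
  · have h1 := Real.log_le_log hpos hup
    rw [Real.log_pow, Real.log_exp] at h1
    have h3 : 0 ≤ |Real.log (c / 2)| * m := by positivity
    nlinarith

variable {E : Type} [Field E] [Algebra ℂ E] {ι : Type}

/-- sizes of algebraic functions in the region -/
theorem size {ζ : Fin 2 → E} {f : ι → E}
    (hf : ∀ k, IsAlgebraic (IntermediateField.adjoin ℂ (Set.range ζ)) (f k))
    {a : MvPolynomial (Fin 2 ⊕ ι) ℂ} (ha : aeval (Sum.elim ζ f) a ≠ 0) :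
    ∃ C : ℝ, 0 ≤ C ∧ ∀ᶠ m : ℕ in atTop, ∀ p ∈ Pt (Sum.elim ζ f), Rg m (p ∘ Sum.inl) →
      eval p a ≠ 0 ∧ |Real.log ‖eval p a‖| ≤ C * m := by
  classical
  have halg : IsAlgebraic (IntermediateField.adjoin ℂ (Set.range ζ)) (aeval (Sum.elim ζ f) a) := by
    refine Pool.Agent.Q239.EG.alg_aeval ζ _ (fun i => ?_) a
    rcases i with i | i
    · exact Pool.Agent.Q239.EG.alg_zeta ζ i
    · exact hf i
  obtain ⟨A, hA⟩ := Pool.Agent.Q166.EG.mn_alg halg
  set N := A.natDegree with hN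
  have hne : ∀ j, Pool.Agent.Q166.EG.ph ζ (A.coeff j) ≠ 0 → A.coeff j ≠ 0 := by
    intro j h h0
    rw [h0, map_zero] at h
    exact h rfl
  have hC : ∀ j : ℕ, ∃ C : ℝ, 0 ≤ C ∧ ∀ᶠ m : ℕ in atTop, ∀ t, Rg m t → A.coeff j ≠ 0 →
      eval t (A.coeff j) ≠ 0 ∧ |Real.log ‖eval t (A.coeff j)‖| ≤ C * m := by
    intro j
    by_cases hj : A.coeff j = 0
    · exact ⟨0, le_refl _, Eventually.of_forall fun m t _ h => absurd hj h⟩
    · obtain ⟨C, hC, h⟩ := poly_reg hj
      exact ⟨C, hC, h.mono fun m hm t ht _ => hm t ht⟩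
  choose C hC0 hC using hC
  set CC : ℝ := ∑ j ∈ Finset.range (N + 1), C j with hCC
  have hCC0 : 0 ≤ CC := Finset.sum_nonneg fun j _ => hC0 j
  refine ⟨2 * CC + Real.log (N + 1), ?_, ?_⟩
  · have : 0 ≤ Real.log ((N : ℝ) + 1) := Real.log_nonneg (by linarith [(Nat.cast_nonneg N : (0 : ℝ) ≤ N)])
    positivity
  have hall : ∀ᶠ m : ℕ in atTop, ∀ j ∈ Finset.range (N + 1), ∀ t, Rg m t → A.coeff j ≠ 0 →
      eval t (A.coeff j) ≠ 0 ∧ |Real.log ‖eval t (A.coeff j)‖| ≤ C j * m :=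
    (Finset.eventually_all _).2 fun j _ => hC j
  filter_upwards [hall, eventually_ge_atTop 1] with m hall hm1 p hp hrg
  have hm1' : (1 : ℝ) ≤ m := by exact_mod_cast hm1
  have hrel : ∑ j ∈ Finset.range (N + 1), eval (p ∘ Sum.inl) (A.coeff j) * eval p a ^ j = 0 := by
    have h1 := hp (∑ j ∈ Finset.range (N + 1), rename Sum.inl (A.coeff j) * a ^ j) (by
      rw [map_sum]
      have h2 := hA.rel
      rw [Pool.Agent.Q166.EG.ev, Polynomial.eval₂_eq_sum_range] at h2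
      rw [← h2]
      refine Finset.sum_congr rfl fun j _ => ?_
      rw [map_mul, map_pow, aeval_rename]
      rfl)
    rw [map_sum] at h1
    rw [← h1]
    refine Finset.sum_congr rfl fun j _ => ?_
    rw [map_mul, map_pow, eval_rename]
  have h0 : A.coeff 0 ≠ 0 := hne 0 (hA.zero ha)
  have hZ : eval p a ≠ 0 := by
    intro h
    rw [h, Finset.sum_range_succ'] at hrel
    simp only [pow_succ, mul_zero, Finset.sum_const_zero, zero_add, pow_zero, mul_one] at hrel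
    exact (hall 0 (Finset.mem_range.2 (by omega)) _ hrg h0).1 hrel
  refine ⟨hZ, ?_⟩
  have h1 := Pool.Agent.Helper57.HT.root_size (N := N) hZ (B := CC * m) hrel
    ⟨0, Finset.mem_range.2 (by omega), (hall 0 (Finset.mem_range.2 (by omega)) _ hrg h0).1⟩
    (by
      intro b hb hb0
      have hb1 : A.coeff b ≠ 0 := by
        intro h; apply hb0; rw [h, map_zero]
      refine (hall b hb _ hrg hb1).2.trans ?_
      gcongr
      exact Finset.single_le_sum (fun j _ => hC0 j) hb)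
  refine h1.trans ?_
  have h2 : 0 ≤ Real.log ((N : ℝ) + 1) := Real.log_nonneg (by linarith [(Nat.cast_nonneg N : (0 : ℝ) ≤ N)])
  nlinarith

end Pool.Agent.Helper57.NT
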