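import Pool.Agent.Helper57.NT.Eac
import Pool.Graph.R_pool_sql_team_seeded_3997aac3.Q98.EG.FLD
import Pool.Graph.R_pool_sql_team_seeded_3997aac3.Results.MP_209724_lc.MixedCurves

set_option autoImplicit false

open MvPolynomial MeasureTheory Filter Topology

namespace Pool.Agent.Helper57.NT.Res2

/-- `V` is the set of points of `G_3 = ℂ^3 × (ℂ^*)^3` on which the prime ideal `I` vanishes: an
irreducible subvariety. -/
structure IsVariety {n : ℕ} (I : Ideal (MvPolynomial (Fin n ⊕ Fin n) ℂ))
    (V : Set (Fin n ⊕ Fin n → ℂ)) : Prop where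
  prime : I.IsPrime
  points : V = {p | (∀ f ∈ I, eval p f = 0) ∧ ∀ j : Fin n, p (Sum.inr j) ≠ 0}
  nonempty : V.Nonempty

/-- the coordinates with index in `J` are algebraically independent on `V` -/
def Indep {n : ℕ} (V : Set (Fin n ⊕ Fin n → ℂ)) (J : Finset (Fin n ⊕ Fin n)) : Prop :=
  ∀ f : MvPolynomial (Fin n ⊕ Fin n) ℂ, f.vars ⊆ J → (∀ p ∈ V, eval p f = 0) → f = 0

/-- `dim V = d`: the largest number of algebraically independent coordinates is `d` -/
def HasDim {n : ℕ} (V : Set (Fin n ⊕ Fin n → ℂ)) (d : ℕ) : Prop :=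
  (∃ J, J.card = d ∧ Indep V J) ∧ ∀ J, J.card = d + 1 → ¬ Indep V J

/-- `V` is free: it lies in no set `∑ m_j x_j = c` and in no set `∏ y_j ^ m_j = c`, `m ≠ 0`. -/
structure Free {n : ℕ} (V : Set (Fin n ⊕ Fin n → ℂ)) : Prop where
  add : ∀ m : Fin n → ℤ, m ≠ 0 → ∀ c : ℂ, ∃ p ∈ V, (∑ j : Fin n, (m j : ℂ) * p (Sum.inl j)) ≠ c
  mul : ∀ m : Fin n → ℤ, m ≠ 0 → ∀ c : ℂ, ∃ p ∈ V, (∏ j : Fin n, p (Sum.inr j) ^ (m j)) ≠ c

/-- the action `(x, y) ↦ (M x, y^M)` of an integral matrix -/
noncomputable def act {n : ℕ} (M : Matrix (Fin n) (Fin n) ℤ) (p : Fin n ⊕ Fin n → ℂ) :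
    Fin n ⊕ Fin n → ℂ :=
  Sum.elim (fun i => ∑ j, (M i j : ℂ) * p (Sum.inl j)) (fun i => ∏ j, p (Sum.inr j) ^ M i j)

/-- `V` is rotund: `dim M · V ≥ rank M` for all integral matrices `M`: at least `rank M` of the
coordinates are algebraically independent on `M · V` -/
def Rotund {n : ℕ} (V : Set (Fin n ⊕ Fin n → ℂ)) : Prop :=
  ∀ M : Matrix (Fin n) (Fin n) ℤ, ∃ J : Finset (Fin n ⊕ Fin n),
    J.card = (M.map (Int.cast : ℤ → ℚ)).rank ∧ Indep (act M '' V) J

/-- the translate `c V` -/
def Translate {n : ℕ} (c : Fin n ⊕ Fin n → ℂ) (V : Set (Fin n ⊕ Fin n → ℂ)) :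
    Set (Fin n ⊕ Fin n → ℂ) :=
  {p | ∃ u ∈ V, p = Sum.elim (fun i => u (Sum.inl i) + c (Sum.inl i))
    (fun i => c (Sum.inr i) * u (Sum.inr i))}

/-- the exponential point `(z, e^z)` -/
noncomputable def ExpPoint {n : ℕ} (z : Fin n → ℂ) : Fin n ⊕ Fin n → ℂ :=
  Sum.elim z (fun i => Complex.exp (z i))

/-- `tr.deg_{K(c)} K(c)(z, e^z)` -/
noncomputable def trdegOver {n : ℕ} (K : Subfield ℂ) (c : Fin n ⊕ Fin n → ℂ) (z : Fin n → ℂ) :
    Cardinal :=
  Algebra.trdeg (IntermediateField.adjoin K (Set.range c))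
    (IntermediateField.adjoin (IntermediateField.adjoin K (Set.range c)) (Set.range (ExpPoint z)))


section lemmas

open Pool.Agent.Helper57.NT Pool.Agent.Q72.EG

variable {E : Type} [Field E] [Algebra ℂ E]

theorem dt_const {n : ℕ} (m : Fin n → ℤ) (a : Fin n → ℂ) :
    dt m (fun l => algebraMap ℂ E (a l)) = algebraMap ℂ E (dt m a) := by
  unfold dt
  rw [map_sum]
  refine Finset.sum_congr rfl fun l _ => ?_
  rw [map_mul, map_intCast]

theorem mon_const {n : ℕ} (m : Fin n → ℤ) (b : Fin n → ℂ) :
    mon m (fun l => algebraMap ℂ E (b l)) = algebraMap ℂ E (mon m b) := by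
  unfold mon
  rw [map_prod]
  refine Finset.prod_congr rfl fun l _ => ?_
  rw [map_zpow₀]

theorem dt_shift {n : ℕ} (m : Fin n → ℤ) (x : Fin n → E) (a : Fin n → ℂ) :
    dt m (fun l => x l + algebraMap ℂ E (a l)) = dt m x + algebraMap ℂ E (dt m a) := by
  rw [← dt_const]
  unfold dt
  rw [← Finset.sum_add_distrib]
  exact Finset.sum_congr rfl fun l _ => by ring

theorem mon_shift {n : ℕ} (m : Fin n → ℤ) (y : Fin n → E) (b : Fin n → ℂ) :
    mon m (fun l => algebraMap ℂ E (b l) * y l) = algebraMap ℂ E (mon m b) * mon m y := by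
  rw [← mon_const]
  unfold mon
  rw [← Finset.prod_mul_distrib]
  exact Finset.prod_congr rfl fun l _ => by rw [mul_zpow]

theorem cl_shift {S : Set E} {a : E} {c : ℂ} (h : a + algebraMap ℂ E c ∈ cl S) : a ∈ cl S := by
  have := cl_sub h (cl_const (S := S) c)
  rwa [add_sub_cancel_right] at this

theorem cl_scale {S : Set E} {a : E} {c : ℂ} (hc : c ≠ 0) (h : algebraMap ℂ E c * a ∈ cl S) :
    a ∈ cl S := by
  have h1 := cl_mul (cl_const (S := S) c⁻¹) h
  rwa [← mul_assoc, ← map_mul, inv_mul_cancel₀ hc, map_one, one_mul] at h1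

/-- the rank of a matrix with two independent rows -/
theorem rank_two (m k : Fin 3 → ℤ) (h : LinearIndependent ℤ ![m, k]) :
    2 ≤ ((Matrix.of ![m, k, 0] : Matrix (Fin 3) (Fin 3) ℤ).map (Int.cast : ℤ → ℚ)).rank := by
  set M : Matrix (Fin 3) (Fin 3) ℤ := Matrix.of ![m, k, 0] with hM
  rw [Matrix.rank_eq_finrank_span_row]
  have hli : LinearIndependent ℚ ![(fun l => (m l : ℚ)), fun l => (k l : ℚ)] := by
    rw [LinearIndependent.pair_iff] at h ⊢
    intro s t hst
    obtain ⟨h1, h2⟩ := h (s.num * t.den) (t.num * s.den) (by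
      funext l
      have h3 := congrFun hst l
      simp only [Pi.add_apply, Pi.smul_apply, smul_eq_mul, Pi.zero_apply] at h3 ⊢
      have h4 : (s.den : ℚ) ≠ 0 := by exact_mod_cast s.den_ne_zero
      have h5 : (t.den : ℚ) ≠ 0 := by exact_mod_cast t.den_ne_zero
      have h6 : s = s.num / s.den := s.num_div_den.symm
      have h7 : t = t.num / t.den := t.num_div_den.symm
      rw [h6, h7] at h3
      field_simp at h3
      have h8 : ((s.num * t.den * m l + t.num * s.den * k l : ℤ) : ℚ) = 0 := by
        push_cast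
        linear_combination h3
      exact_mod_cast h8)
    have h4 : (t.den : ℤ) ≠ 0 := by exact_mod_cast t.den_ne_zero
    have h5 : (s.den : ℤ) ≠ 0 := by exact_mod_cast s.den_ne_zero
    exact ⟨Rat.num_eq_zero.1 ((mul_eq_zero.1 h1).resolve_right h4),
      Rat.num_eq_zero.1 ((mul_eq_zero.1 h2).resolve_right h5)⟩
  have h1 := finrank_span_eq_card hli
  rw [Fintype.card_fin] at h1
  refine le_trans (le_of_eq h1.symm) ?_
  apply Submodule.finrank_mono
  rw [Submodule.span_le]
  rintro _ ⟨i, rfl⟩
  apply Submodule.subset_span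
  fin_cases i
  · refine ⟨0, ?_⟩
    funext l
    simp [hM, Matrix.row]
  · refine ⟨1, ?_⟩
    funext l
    simp [hM, Matrix.row]

end lemmas

theorem res2 (three : Pool.Agent.Helper57.NT.S_three) (bm : Pool.Agent.Helper57.NT.S_bm)
    (uni : Pool.Agent.Helper57.NT.S_uni) (exc : Pool.Agent.Helper57.NT.S_exc)
    (I : Ideal (MvPolynomial (Fin 3 ⊕ Fin 3) ℂ))
    (V : Set (Fin 3 ⊕ Fin 3 → ℂ)) (hV : IsVariety I V) (hdim : HasDim V 3)
    (hfree : Free V) (hrot : Rotund V) :
    -- (1) exponential points on all translates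
    (∀ c : Fin 3 ⊕ Fin 3 → ℂ, (∀ i, c (Sum.inr i) ≠ 0) → ∃ z : Fin 3 → ℂ,
      ExpPoint z ∈ Translate c V) ∧
    -- (2) generic exponential points on almost all translates
    (∀ (K : Subfield ℂ) [Countable K],
      (∃ S : Set (MvPolynomial (Fin 3 ⊕ Fin 3) K),
        I = Ideal.span (MvPolynomial.map (algebraMap K ℂ) '' S)) →
      ∀ᵐ c : Fin 3 ⊕ Fin 3 → ℂ, ∃ z : Fin 3 → ℂ, ExpPoint z ∈ Translate c V ∧
        trdegOver K c z = 3) := by
  classical
  obtain ⟨hI, hVeq, hne⟩ := hV
  obtain ⟨E, iE, aE, ξ, hξ, hgen⟩ := Pool.Agent.W333.ECV.exists_field I hI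
  set x : Fin 3 → E := fun i => ξ (Sum.inl i) with hx
  set y : Fin 3 → E := fun i => ξ (Sum.inr i) with hy
  have hxy : Sum.elim x y = ξ := by
    funext i
    rcases i with i | i <;> rfl
  have hVmem : ∀ p : Fin 3 ⊕ Fin 3 → ℂ, p ∈ V ↔
      (∀ f ∈ I, eval p f = 0) ∧ ∀ j : Fin 3, p (Sum.inr j) ≠ 0 := by
    intro p; rw [hVeq]; rfl
  obtain ⟨p0, hp0⟩ := hne
  have hPV : ∀ f, f ∈ I ↔ ∀ p ∈ V, eval p f = 0 := by
    intro f
    constructor
    · intro hf p hp
      exact ((hVmem p).mp hp).1 f hf
    · intro hf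
      refine Pool.Agent.W333.ECV.nullst I hI (∏ i : Fin 3, X (Sum.inr i)) ?_ f ?_
      · intro hg
        have := ((hVmem p0).mp hp0).1 _ hg
        rw [map_prod, Finset.prod_eq_zero_iff] at this
        obtain ⟨i, -, hi⟩ := this
        rw [eval_X] at hi
        exact ((hVmem p0).mp hp0).2 i hi
      · intro p hp hg
        apply hf
        rw [hVmem]
        refine ⟨hp, fun j hj => hg ?_⟩
        rw [map_prod]
        apply Finset.prod_eq_zero (Finset.mem_univ j)
        rw [eval_X]; exact hj
  have ha : ∀ f, aeval (Sum.elim x y) f = 0 ↔ ∀ p ∈ V, eval p f = 0 := by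
    intro f
    rw [hxy]
    exact (hξ f).trans (hPV f)
  have hyn : ∀ l, y l ≠ 0 := by
    intro l h
    have h1 := (ha (X (Sum.inr l))).mp (by rw [aeval_X]; exact h) p0 hp0
    rw [eval_X] at h1
    exact ((hVmem p0).mp hp0).2 l h1
  have htop : IntermediateField.adjoin ℂ (Set.range (Sum.elim x y)) = ⊤ := by
    rw [eq_top_iff]
    intro u _
    have hmem : ∀ f : MvPolynomial (Fin 3 ⊕ Fin 3) ℂ,
        aeval ξ f ∈ IntermediateField.adjoin ℂ (Set.range (Sum.elim x y)) := by
      intro f
      rw [hxy]
      induction f using MvPolynomial.induction_on with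
      | C a => rw [algHom_C]; exact IntermediateField.algebraMap_mem _ _
      | add p q hp hq => rw [map_add]; exact add_mem hp hq
      | mul_X p i hp =>
        rw [map_mul, aeval_X]
        exact mul_mem hp (IntermediateField.subset_adjoin _ _ ⟨i, rfl⟩)
    obtain ⟨f, g, hg, hu⟩ := hgen u
    rw [eq_div_of_mul_eq hg hu]
    exact div_mem (hmem f) (hmem g)
  have hind : ∀ J : Finset (Fin 3 ⊕ Fin 3), Indep V J ↔
      AlgebraicIndependent ℂ (fun j : J => Sum.elim x y j) := by
    intro J
    constructor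
    · intro h
      rw [algebraicIndependent_iff]
      intro f hf
      have h1 : rename (Subtype.val : J → Fin 3 ⊕ Fin 3) f = 0 := by
        apply h
        · intro k hk
          obtain ⟨b, -, rfl⟩ := Finset.mem_image.mp (vars_rename Subtype.val f hk)
          exact b.2
        · rw [← ha, aeval_rename]
          exact hf
      exact rename_injective _ Subtype.val_injective (by rw [h1, map_zero])
    · intro h f hfv hf
      rw [← ha] at hf
      rw [algebraicIndependent_iff] at h
      obtain ⟨g, hg⟩ := exists_rename_eq_of_vars_subset_range f (Subtype.val : J → Fin 3 ⊕ Fin 3)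
        Subtype.val_injective (by
          rw [Subtype.range_coe]
          exact_mod_cast hfv)
      have h1 : g = 0 := by
        apply h
        rw [← hg, aeval_rename] at hf
        exact hf
      rw [← hg, h1, map_zero]
  obtain ⟨⟨J0, hJ0c, hJ0⟩, hdim2⟩ := id hdim
  have htr3 : Algebra.trdeg ℂ E ≤ (3 : ℕ) :=
    Pool.Agent.Q98.EG.trdeg_le_of_dep (Sum.elim x y) htop 3 fun J hJ h => hdim2 J hJ ((hind J).mpr h)
  have h4 : Pool.Agent.Helper57.NT.NoFour E := by
    intro a b c d hA hB hC
    by_contra hD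
    have h1 : AlgebraicIndependent ℂ ![a, b, c, d] := by
      refine Pool.Agent.Helper57.NT.indep_succ _ ?_ ?_
      · have e1 : ![a, b, c, d] ∘ (Fin.castSucc : Fin 3 → Fin 4) = ![a, b, c] := by
          funext k
          fin_cases k <;> rfl
        rw [e1]
        refine Pool.Agent.Helper57.NT.indep_succ _ ?_ ?_
        · have e2 : ![a, b, c] ∘ (Fin.castSucc : Fin 2 → Fin 3) = ![a, b] := by
            funext k
            fin_cases k <;> rfl
          rw [e2]
          exact Pool.Agent.Helper57.NT.ai_pair hA hB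
        · intro h
          apply hC
          refine Pool.Agent.Helper57.NT.cl_mono ?_ h
          rintro _ ⟨k, rfl⟩
          fin_cases k
          · exact Or.inl rfl
          · exact Or.inr rfl
      · intro h
        apply hD
        refine Pool.Agent.Helper57.NT.cl_mono ?_ h
        rintro _ ⟨k, rfl⟩
        fin_cases k
        · exact Or.inl rfl
        · exact Or.inr (Or.inl rfl)
        · exact Or.inr (Or.inr rfl)
    have h2 := h1.cardinalMk_le_trdeg.trans htr3
    rw [Cardinal.mk_fin] at h2
    have h3 : (4 : ℕ) ≤ 3 := by exact_mod_cast h2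
    omega
  -- rotundity for rank two
  have hrot2 : ∀ m k : Fin 3 → ℤ, LinearIndependent ℤ ![m, k] → ∀ u : E,
      ¬ (Pool.Agent.Helper57.NT.dt m x ∈ Pool.Agent.Helper57.NT.cl ({u} : Set E) ∧
        Pool.Agent.Helper57.NT.dt k x ∈ Pool.Agent.Helper57.NT.cl ({u} : Set E) ∧
        Pool.Agent.Helper57.NT.mon m y ∈ Pool.Agent.Helper57.NT.cl ({u} : Set E) ∧
        Pool.Agent.Helper57.NT.mon k y ∈ Pool.Agent.Helper57.NT.cl ({u} : Set E)) := by
    rintro m k hmk u ⟨h1, h2, h3, h5⟩
    set M : Matrix (Fin 3) (Fin 3) ℤ := Matrix.of ![m, k, 0] with hM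
    obtain ⟨J, hJc, hJ⟩ := hrot M
    have h6 := rank_two m k hmk
    rw [← hM, ← hJc] at h6
    set w : Fin 3 ⊕ Fin 3 → E := Sum.elim (fun i => Pool.Agent.Helper57.NT.dt (M i) x)
      (fun i => Pool.Agent.Helper57.NT.mon (M i) y) with hw
    have h7 : AlgebraicIndependent ℂ (fun j : J => w j) := by
      rw [algebraicIndependent_iff]
      intro f hf
      have h8 : rename (Subtype.val : J → Fin 3 ⊕ Fin 3) f = 0 := by
        apply hJ
        · intro k hk
          obtain ⟨b, -, rfl⟩ := Finset.mem_image.mp (vars_rename Subtype.val f hk)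
          exact b.2
        · rintro _ ⟨p, hp, rfl⟩
          obtain ⟨K, g', hg'⟩ := Pool.Agent.Helper57.NT.subst_poly M (rename (Subtype.val : J → Fin 3 ⊕ Fin 3) f)
          have h9 : aeval (Sum.elim x y) g' = 0 := by
            rw [hg' E x y hyn, aeval_rename]
            have : aeval (Sum.elim (fun l => Pool.Agent.Helper57.NT.dt (M l) x)
              (fun l => Pool.Agent.Helper57.NT.mon (M l) y) ∘ (Subtype.val : J → Fin 3 ⊕ Fin 3)) f = 0 := hf
            rw [this, mul_zero]
          have h10 := (ha g').1 h9 p hp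
          have hpne : ∀ l, p (Sum.inr l) ≠ 0 := ((hVmem p).1 hp).2
          have h11 := hg' ℂ (fun l => p (Sum.inl l)) (fun l => p (Sum.inr l)) hpne
          have h12 : (Sum.elim (fun l => p (Sum.inl l)) fun l => p (Sum.inr l)) = p := by
            funext i
            rcases i with i | i <;> rfl
          rw [h12, aeval_eq_eval, aeval_eq_eval] at h11
          have h13 : (∏ l, p (Sum.inr l)) ^ K ≠ 0 :=
            pow_ne_zero _ (Finset.prod_ne_zero_iff.2 fun l _ => hpne l)
          have h14 : eval p g' = 0 := h10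
          have h15 := h11.symm.trans h14
          exact (mul_eq_zero.1 h15).resolve_left h13
      exact rename_injective _ Subtype.val_injective (by rw [h8, map_zero])
    have h8 := Pool.Agent.Helper57.NT.card_le h7 {u} (by
      rintro ⟨j, hj⟩
      rw [Finset.coe_singleton]
      show w j ∈ _
      rcases j with i | i
      · fin_cases i
        · exact h1
        · exact h2
        · show Pool.Agent.Helper57.NT.dt 0 x ∈ _
          rw [Pool.Agent.Helper57.NT.dt_zero]
          simpa using Pool.Agent.Helper57.NT.cl_int (S := ({u} : Set E)) 0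
      · fin_cases i
        · exact h3
        · exact h5
        · show Pool.Agent.Helper57.NT.mon 0 y ∈ _
          rw [Pool.Agent.Helper57.NT.mon_zero]
          exact Pool.Agent.Helper57.NT.cl_one)
    rw [Fintype.card_coe, Finset.card_singleton] at h8
    omega
  have part1 : ∀ c : Fin 3 ⊕ Fin 3 → ℂ, (∀ i, c (Sum.inr i) ≠ 0) → ∃ z : Fin 3 → ℂ,
      ExpPoint z ∈ Translate c V := by
    intro c hc
    by_cases hcb : Pool.Agent.Results.MP_209724_lc.MixedCurves.CurveBase V ∅
    · -- the base is a curve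
      obtain ⟨z, hz, -⟩ := (Pool.Agent.Results.MP_209724_lc.MixedCurves.result I V
        ⟨hI, hVeq, ⟨p0, hp0⟩⟩ ⟨hfree.add, hfree.mul⟩ ⟨3, le_rfl, hdim⟩ ∅ hcb).1 c hc 1
        ⟨_, ⟨p0, hp0, rfl⟩, by simp⟩
      exact ⟨z, hz⟩
    · set a : Fin 3 → ℂ := fun l => c (Sum.inl l) with hA
      set b : Fin 3 → ℂ := fun l => c (Sum.inr l) with hB
      set x' : Fin 3 → E := fun l => x l + algebraMap ℂ E (a l) with hx'
      set y' : Fin 3 → E := fun l => algebraMap ℂ E (b l) * y l with hy'
      have hmb : ∀ m : Fin 3 → ℤ, Pool.Agent.Helper57.NT.mon m b ≠ 0 := fun m =>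
        Pool.Agent.Helper57.NT.mon_ne m hc
      have hexp : Pool.Agent.Helper57.NT.HasExp x' y' := by
        refine Pool.Agent.Helper57.NT.eac3 three bm uni exc x' y' ?_ ?_ ?_ h4 ?_ ?_ ?_
        · intro l
          refine mul_ne_zero ?_ (hyn l)
          rw [Ne, map_eq_zero]
          exact hc l
        · -- additive freeness
          intro m hm d hd
          rw [hx', dt_shift] at hd
          obtain ⟨p, hp, hpd⟩ := hfree.add m hm (d - Pool.Agent.Helper57.NT.dt m a)
          apply hpd
          have h1 := (ha (∑ l, C (m l : ℂ) * X (Sum.inl l) - C (d - Pool.Agent.Helper57.NT.dt m a))).1 (by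
            rw [map_sub, map_sum, algHom_C, map_sub, ← hd]
            have : ∀ l, aeval (Sum.elim x y) (C (m l : ℂ) * X (Sum.inl l) : MvPolynomial (Fin 3 ⊕ Fin 3) ℂ) =
                (m l : E) * x l := by
              intro l
              rw [map_mul, algHom_C, aeval_X, map_intCast]
              rfl
            rw [Finset.sum_congr rfl fun l _ => this l]
            unfold Pool.Agent.Helper57.NT.dt
            ring) p hp
          rw [map_sub, map_sum, eval_C, sub_eq_zero] at h1
          rw [← h1]
          refine Finset.sum_congr rfl fun l _ => ?_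
          rw [map_mul, eval_C, eval_X]
        · -- multiplicative freeness
          intro m hm d hd
          rw [hy', mon_shift] at hd
          obtain ⟨p, hp, hpd⟩ := hfree.mul m hm (d / Pool.Agent.Helper57.NT.mon m b)
          apply hpd
          have hB0 : algebraMap ℂ E (Pool.Agent.Helper57.NT.mon m b) ≠ 0 := by
            rw [Ne, map_eq_zero]
            exact hmb m
          have h0 : Pool.Agent.Helper57.NT.mon m y = algebraMap ℂ E (d / Pool.Agent.Helper57.NT.mon m b) := by
            rw [map_div₀, eq_div_iff hB0, mul_comm]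
            exact hd
          have hpc := Pool.Agent.Q98.EG.prod_clear y hyn m
          have h1 := (ha (∏ l, X (Sum.inr l) ^ (m l).toNat -
            C (d / Pool.Agent.Helper57.NT.mon m b) * ∏ l, X (Sum.inr l) ^ (-(m l)).toNat)).1 (by
            rw [map_sub, map_mul, algHom_C, map_prod, map_prod, ← h0]
            simp only [map_pow, aeval_X, Sum.elim_inr]
            rw [sub_eq_zero]
            exact hpc.symm) p hp
          rw [map_sub, map_mul, eval_C, map_prod, map_prod, sub_eq_zero] at h1
          simp only [map_pow, eval_X] at h1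
          have hpne : ∀ l, p (Sum.inr l) ≠ 0 := ((hVmem p).1 hp).2
          have hpc2 := Pool.Agent.Q98.EG.prod_clear (fun l => p (Sum.inr l)) hpne m
          rw [← hpc2] at h1
          exact mul_right_cancel₀ (Finset.prod_ne_zero_iff.2 fun l _ => pow_ne_zero _ (hpne l)) h1
        · -- the dimension is at least three
          intro e f hsub
          have h1 := Pool.Agent.Helper57.NT.card_le ((hind J0).1 hJ0) {e, f} (by
            rintro ⟨j, hj⟩
            rw [Finset.coe_pair]
            show Sum.elim x y j ∈ _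
            rcases j with l | l
            · exact cl_shift (hsub ⟨Sum.inl l, rfl⟩)
            · exact cl_scale (hc l) (hsub ⟨Sum.inr l, rfl⟩))
          rw [Fintype.card_coe, hJ0c] at h1
          have h2 := Finset.card_le_two (a := e) (b := f)
          omega
        · rintro m k hmk u ⟨h1, h2, h3, h5⟩
          rw [hx', dt_shift] at h1 h2
          rw [hy', mon_shift] at h3 h5
          exact hrot2 m k hmk u ⟨cl_shift h1, cl_shift h2, cl_scale (hmb m) h3, cl_scale (hmb k) h5⟩
        · -- the base is not a curve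
          unfold Pool.Agent.Results.MP_209724_lc.MixedCurves.CurveBase at hcb
          push Not at hcb
          obtain ⟨i, j, hij⟩ := hcb
          have h1 : AlgebraicIndependent ℂ ![x i, x j] := by
            rw [algebraicIndependent_iff]
            intro f hf
            by_contra hf0
            obtain ⟨p, hp, hpf⟩ := hij f hf0
            apply hpf
            have h2 := (ha (rename ![Sum.inl i, Sum.inl j] f)).1 (by
              rw [aeval_rename]
              have : (Sum.elim x y ∘ ![Sum.inl i, Sum.inl j]) = ![x i, x j] := by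
                funext k
                fin_cases k <;> rfl
              rw [this]
              exact hf) p hp
            rw [eval_rename] at h2
            have : (p ∘ ![Sum.inl i, Sum.inl j]) =
                ![p (Pool.Agent.Results.MP_209724_lc.MixedCurves.base ∅ i),
                  p (Pool.Agent.Results.MP_209724_lc.MixedCurves.base ∅ j)] := by
              funext k
              fin_cases k <;> simp [Pool.Agent.Results.MP_209724_lc.MixedCurves.base]
            rwa [this] at h2
          refine ⟨i, j, fun h => ?_⟩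
          have h2 : x j ∈ Pool.Agent.Helper57.NT.cl ({x' i} : Set E) := cl_shift h
          have h3 : x' i ∈ Pool.Agent.Helper57.NT.cl ({x i} : Set E) :=
            Pool.Agent.Helper57.NT.cl_add (Pool.Agent.Helper57.NT.subset_cl _ rfl)
              (Pool.Agent.Helper57.NT.cl_const _)
          have h5 := Pool.Agent.Helper57.NT.cl_trans (Set.singleton_subset_iff.2 h3) h2
          exact Pool.Agent.Helper57.NT.not_indep (Pool.Agent.Helper57.NT.subset_cl _ rfl) h5 h1
      obtain ⟨z, hz⟩ := hexp
      refine ⟨z, Sum.elim (fun l => z l - a l) (fun l => Complex.exp (z l) / b l), ?_, ?_⟩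
      · rw [hVmem]
        refine ⟨fun f hf => ?_, fun l => div_ne_zero (Complex.exp_ne_zero _) (hc l)⟩
        let s : Fin 3 ⊕ Fin 3 → MvPolynomial (Fin 3 ⊕ Fin 3) ℂ :=
          Sum.elim (fun l => X (Sum.inl l) - C (a l)) (fun l => C (b l)⁻¹ * X (Sum.inr l))
        have h1 : aeval (Sum.elim x' y') (aeval s f) = 0 := by
          rw [comp_aeval_apply]
          have : (fun i => aeval (Sum.elim x' y') (s i)) = Sum.elim x y := by
            funext i
            rcases i with l | l
            · simp [s, hx']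
            · have hb0 : algebraMap ℂ E (b l) ≠ 0 := by
                rw [Ne, map_eq_zero]
                exact hc l
              simp [s, hy', hb0]
          rw [this, hxy]
          exact (hξ f).2 hf
        have h2 := hz _ h1
        rw [← aeval_eq_eval, comp_aeval_apply] at h2
        rw [← aeval_eq_eval]
        convert h2 using 2
        congr 1
        funext i
        rcases i with l | l
        · simp [s]
        · simp [s, div_eq_inv_mul]
      · funext i
        rcases i with l | l
        · simp [ExpPoint, hA]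
        · have := hc l
          simp [ExpPoint, hB]
          field_simp
  refine ⟨part1, ?_⟩
  rintro K hK ⟨S, hS⟩
  have h1 := Pool.Agent.Y563.SE.generic_pts I V hI hVeq ⟨p0, hp0⟩ (by
    intro J' hJ'
    have h1 := hdim2 J' hJ'
    unfold Indep at h1
    push Not at h1
    obtain ⟨f, h2, h3, h4⟩ := h1
    exact ⟨f, h4, h2, h3⟩) K S hS
  have h2 : ∀ᵐ c : Fin 3 ⊕ Fin 3 → ℂ, ∀ i : Fin 3, c (Sum.inr i) ≠ 0 := by
    rw [ae_all_iff]
    intro i
    rw [ae_iff]
    simp only [not_not]
    exact Pool.Agent.Y563.SE.null_fintype (fun c : Fin 3 ⊕ Fin 3 → ℂ => c (Sum.inr i))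
      (differentiable_apply _) ⟨fun _ => 1, one_ne_zero⟩
  filter_upwards [h1, h2] with c hc1 hc2
  obtain ⟨z, hz⟩ := part1 c hc2
  exact ⟨z, hz, hc1 z hz⟩

end Pool.Agent.Helper57.NT.Res2
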