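import Pool.Agent.Helper57.NT.Eac4
import Pool.Agent.Helper57.NT.Res2

set_option autoImplicit false

open MvPolynomial MeasureTheory Filter Topology

namespace Pool.Agent.Helper57.NT.Res3

open Pool.Agent.Helper57.NT.Res2

theorem res3 (three : Pool.Agent.Helper57.NT.S_three) (bm : Pool.Agent.Helper57.NT.S_bm)
    (uni : Pool.Agent.Helper57.NT.S_uni) (exc : Pool.Agent.Helper57.NT.S_exc)
    (four : Pool.Agent.Helper57.NT.S_four) (five : Pool.Agent.Helper57.NT.S_five)
    (I : Ideal (MvPolynomial (Fin 3 ⊕ Fin 3) ℂ))
    (V : Set (Fin 3 ⊕ Fin 3 → ℂ)) (hV : IsVariety I V) (hfree : Free V) (hrot : Rotund V) :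
    -- (1) exponential points on all translates
    (∀ c : Fin 3 ⊕ Fin 3 → ℂ, (∀ i, c (Sum.inr i) ≠ 0) → ∃ z : Fin 3 → ℂ,
      ExpPoint z ∈ Translate c V) ∧
    -- (2) generic exponential points on almost all translates
    (HasDim V 3 → ∀ (K : Subfield ℂ) [Countable K],
      (∃ S : Set (MvPolynomial (Fin 3 ⊕ Fin 3) K),
        I = Ideal.span (MvPolynomial.map (algebraMap K ℂ) '' S)) →
      ∀ᵐ c : Fin 3 ⊕ Fin 3 → ℂ, ∃ z : Fin 3 → ℂ, ExpPoint z ∈ Translate c V ∧
        trdegOver K c z = 3) := by
  classical
  obtain ⟨hI, hVeq, hne⟩ := hV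
  obtain ⟨E, iE, aE, ξ, hξ, hgen⟩ := Pool.Agent.W333.ECV.exists_field I hI
  set x : Fin 3 → E := fun i => ξ (Sum.inl i) with hx
  set y : Fin 3 → E := fun i => ξ (Sum.inr i) with hy
  have hxy : Sum.elim x y = ξ := by
    funext i
    rcases i with i | i <;> rfl
  have hVmem : ∀ p : Fin 3 ⊕ Fin 3 → ℂ, p ∈ V ↔
      (∀ f ∈ I, eval p f = 0) ∧ ∀ j : Fin 3, p (Sum.inr j) ≠ 0 := by
    intro p; rw [hVeq]; rfl
  obtain ⟨p0, hp0⟩ := hne
  have hPV : ∀ f, f ∈ I ↔ ∀ p ∈ V, eval p f = 0 := by
    intro f
    constructor
    · intro hf p hp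
      exact ((hVmem p).mp hp).1 f hf
    · intro hf
      refine Pool.Agent.W333.ECV.nullst I hI (∏ i : Fin 3, X (Sum.inr i)) ?_ f ?_
      · intro hg
        have := ((hVmem p0).mp hp0).1 _ hg
        rw [map_prod, Finset.prod_eq_zero_iff] at this
        obtain ⟨i, -, hi⟩ := this
        rw [eval_X] at hi
        exact ((hVmem p0).mp hp0).2 i hi
      · intro p hp hg
        apply hf
        rw [hVmem]
        refine ⟨hp, fun j hj => hg ?_⟩
        rw [map_prod]
        apply Finset.prod_eq_zero (Finset.mem_univ j)
        rw [eval_X]; exact hj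
  have ha : ∀ f, aeval (Sum.elim x y) f = 0 ↔ ∀ p ∈ V, eval p f = 0 := by
    intro f
    rw [hxy]
    exact (hξ f).trans (hPV f)
  have hyn : ∀ l, y l ≠ 0 := by
    intro l h
    have h1 := (ha (X (Sum.inr l))).mp (by rw [aeval_X]; exact h) p0 hp0
    rw [eval_X] at h1
    exact ((hVmem p0).mp hp0).2 l h1
  have htop : IntermediateField.adjoin ℂ (Set.range (Sum.elim x y)) = ⊤ := by
    rw [eq_top_iff]
    intro u _
    have hmem : ∀ f : MvPolynomial (Fin 3 ⊕ Fin 3) ℂ,
        aeval ξ f ∈ IntermediateField.adjoin ℂ (Set.range (Sum.elim x y)) := by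
      intro f
      rw [hxy]
      induction f using MvPolynomial.induction_on with
      | C a => rw [algHom_C]; exact IntermediateField.algebraMap_mem _ _
      | add p q hp hq => rw [map_add]; exact add_mem hp hq
      | mul_X p i hp =>
        rw [map_mul, aeval_X]
        exact mul_mem hp (IntermediateField.subset_adjoin _ _ ⟨i, rfl⟩)
    obtain ⟨f, g, hg, hu⟩ := hgen u
    rw [eq_div_of_mul_eq hg hu]
    exact div_mem (hmem f) (hmem g)
  have hind : ∀ J : Finset (Fin 3 ⊕ Fin 3), Indep V J ↔
      AlgebraicIndependent ℂ (fun j : J => Sum.elim x y j) := by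
    intro J
    constructor
    · intro h
      rw [algebraicIndependent_iff]
      intro f hf
      have h1 : rename (Subtype.val : J → Fin 3 ⊕ Fin 3) f = 0 := by
        apply h
        · intro k hk
          obtain ⟨b, -, rfl⟩ := Finset.mem_image.mp (vars_rename Subtype.val f hk)
          exact b.2
        · rw [← ha, aeval_rename]
          exact hf
      exact rename_injective _ Subtype.val_injective (by rw [h1, map_zero])
    · intro h f hfv hf
      rw [← ha] at hf
      rw [algebraicIndependent_iff] at h
      obtain ⟨g, hg⟩ := exists_rename_eq_of_vars_subset_range f (Subtype.val : J → Fin 3 ⊕ Fin 3)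
        Subtype.val_injective (by
          rw [Subtype.range_coe]
          exact_mod_cast hfv)
      have h1 : g = 0 := by
        apply h
        rw [← hg, aeval_rename] at hf
        exact hf
      rw [← hg, h1, map_zero]
  obtain ⟨J0, hJ0c, hJ0⟩ : ∃ J0 : Finset (Fin 3 ⊕ Fin 3), J0.card = 3 ∧ Indep V J0 := by
    obtain ⟨J, hJc, hJ⟩ := hrot 1
    have e1 : ((1 : Matrix (Fin 3) (Fin 3) ℤ).map (Int.cast : ℤ → ℚ)) = 1 :=
      Matrix.map_one _ Int.cast_zero Int.cast_one
    have e2 : act (1 : Matrix (Fin 3) (Fin 3) ℤ) '' V = V := by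
      have e3 : ∀ p : Fin 3 ⊕ Fin 3 → ℂ, act (1 : Matrix (Fin 3) (Fin 3) ℤ) p = p := by
        intro p
        funext i
        rcases i with i | i
        · simp only [act, Sum.elim_inl]
          rw [Finset.sum_eq_single i]
          · simp
          · intro j _ hj
            rw [Matrix.one_apply_ne (Ne.symm hj)]
            simp
          · intro h
            exact absurd (Finset.mem_univ i) h
        · simp only [act, Sum.elim_inr]
          rw [Finset.prod_eq_single i]
          · simp
          · intro j _ hj
            rw [Matrix.one_apply_ne (Ne.symm hj)]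
            simp
          · intro h
            exact absurd (Finset.mem_univ i) h
      ext p
      constructor
      · rintro ⟨q, hq, rfl⟩
        rw [e3]
        exact hq
      · intro hp
        exact ⟨p, hp, e3 p⟩
    rw [e1, Matrix.rank_one, Fintype.card_fin] at hJc
    rw [e2] at hJ
    exact ⟨J, hJc, hJ⟩
  -- rotundity for rank two
  have hrot2 : ∀ m k : Fin 3 → ℤ, LinearIndependent ℤ ![m, k] → ∀ u : E,
      ¬ (Pool.Agent.Helper57.NT.dt m x ∈ Pool.Agent.Helper57.NT.cl ({u} : Set E) ∧
        Pool.Agent.Helper57.NT.dt k x ∈ Pool.Agent.Helper57.NT.cl ({u} : Set E) ∧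
        Pool.Agent.Helper57.NT.mon m y ∈ Pool.Agent.Helper57.NT.cl ({u} : Set E) ∧
        Pool.Agent.Helper57.NT.mon k y ∈ Pool.Agent.Helper57.NT.cl ({u} : Set E)) := by
    rintro m k hmk u ⟨h1, h2, h3, h5⟩
    set M : Matrix (Fin 3) (Fin 3) ℤ := Matrix.of ![m, k, 0] with hM
    obtain ⟨J, hJc, hJ⟩ := hrot M
    have h6 := rank_two m k hmk
    rw [← hM, ← hJc] at h6
    set w : Fin 3 ⊕ Fin 3 → E := Sum.elim (fun i => Pool.Agent.Helper57.NT.dt (M i) x)
      (fun i => Pool.Agent.Helper57.NT.mon (M i) y) with hw
    have h7 : AlgebraicIndependent ℂ (fun j : J => w j) := by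
      rw [algebraicIndependent_iff]
      intro f hf
      have h8 : rename (Subtype.val : J → Fin 3 ⊕ Fin 3) f = 0 := by
        apply hJ
        · intro k hk
          obtain ⟨b, -, rfl⟩ := Finset.mem_image.mp (vars_rename Subtype.val f hk)
          exact b.2
        · rintro _ ⟨p, hp, rfl⟩
          obtain ⟨K, g', hg'⟩ := Pool.Agent.Helper57.NT.subst_poly M (rename (Subtype.val : J → Fin 3 ⊕ Fin 3) f)
          have h9 : aeval (Sum.elim x y) g' = 0 := by
            rw [hg' E x y hyn, aeval_rename]
            have : aeval (Sum.elim (fun l => Pool.Agent.Helper57.NT.dt (M l) x)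
              (fun l => Pool.Agent.Helper57.NT.mon (M l) y) ∘ (Subtype.val : J → Fin 3 ⊕ Fin 3)) f = 0 := hf
            rw [this, mul_zero]
          have h10 := (ha g').1 h9 p hp
          have hpne : ∀ l, p (Sum.inr l) ≠ 0 := ((hVmem p).1 hp).2
          have h11 := hg' ℂ (fun l => p (Sum.inl l)) (fun l => p (Sum.inr l)) hpne
          have h12 : (Sum.elim (fun l => p (Sum.inl l)) fun l => p (Sum.inr l)) = p := by
            funext i
            rcases i with i | i <;> rfl
          rw [h12, aeval_eq_eval, aeval_eq_eval] at h11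
          have h13 : (∏ l, p (Sum.inr l)) ^ K ≠ 0 :=
            pow_ne_zero _ (Finset.prod_ne_zero_iff.2 fun l _ => hpne l)
          have h14 : eval p g' = 0 := h10
          have h15 := h11.symm.trans h14
          exact (mul_eq_zero.1 h15).resolve_left h13
      exact rename_injective _ Subtype.val_injective (by rw [h8, map_zero])
    have h8 := Pool.Agent.Helper57.NT.card_le h7 {u} (by
      rintro ⟨j, hj⟩
      rw [Finset.coe_singleton]
      show w j ∈ _
      rcases j with i | i
      · fin_cases i
        · exact h1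
        · exact h2
        · show Pool.Agent.Helper57.NT.dt 0 x ∈ _
          rw [Pool.Agent.Helper57.NT.dt_zero]
          simpa using Pool.Agent.Helper57.NT.cl_int (S := ({u} : Set E)) 0
      · fin_cases i
        · exact h3
        · exact h5
        · show Pool.Agent.Helper57.NT.mon 0 y ∈ _
          rw [Pool.Agent.Helper57.NT.mon_zero]
          exact Pool.Agent.Helper57.NT.cl_one)
    rw [Fintype.card_coe, Finset.card_singleton] at h8
    omega
  have part1 : ∀ c : Fin 3 ⊕ Fin 3 → ℂ, (∀ i, c (Sum.inr i) ≠ 0) → ∃ z : Fin 3 → ℂ,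
      ExpPoint z ∈ Translate c V := by
    intro c hc
    by_cases hcb : Pool.Agent.Results.MP_209724_lc.MixedCurves.CurveBase V ∅
    · -- the base is a curve
      obtain ⟨z, hz, -⟩ := Pool.Agent.Q72.MX.vm_translate Pool.Agent.Q72.MX.all_VM I V hI hVeq
        hfree.add hfree.mul ⟨J0, by omega, hJ0⟩ ∅ hcb c hc 1 ⟨_, ⟨p0, hp0, rfl⟩, by simp⟩
      exact ⟨z, hz⟩
    · set a : Fin 3 → ℂ := fun l => c (Sum.inl l) with hA
      set b : Fin 3 → ℂ := fun l => c (Sum.inr l) with hB
      set x' : Fin 3 → E := fun l => x l + algebraMap ℂ E (a l) with hx'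
      set y' : Fin 3 → E := fun l => algebraMap ℂ E (b l) * y l with hy'
      have hmb : ∀ m : Fin 3 → ℤ, Pool.Agent.Helper57.NT.mon m b ≠ 0 := fun m =>
        Pool.Agent.Helper57.NT.mon_ne m hc
      have hexp : Pool.Agent.Helper57.NT.HasExp x' y' := by
        refine Pool.Agent.Helper57.NT.eac three bm uni exc four five x' y' ?_ ?_ ?_ ?_ ?_ ?_ ?_
        · intro l
          refine mul_ne_zero ?_ (hyn l)
          rw [Ne, map_eq_zero]
          exact hc l
        · -- additive freeness
          intro m hm d hd
          rw [hx', dt_shift] at hd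
          obtain ⟨p, hp, hpd⟩ := hfree.add m hm (d - Pool.Agent.Helper57.NT.dt m a)
          apply hpd
          have h1 := (ha (∑ l, C (m l : ℂ) * X (Sum.inl l) - C (d - Pool.Agent.Helper57.NT.dt m a))).1 (by
            rw [map_sub, map_sum, algHom_C, map_sub, ← hd]
            have : ∀ l, aeval (Sum.elim x y) (C (m l : ℂ) * X (Sum.inl l) : MvPolynomial (Fin 3 ⊕ Fin 3) ℂ) =
                (m l : E) * x l := by
              intro l
              rw [map_mul, algHom_C, aeval_X, map_intCast]
              rfl
            rw [Finset.sum_congr rfl fun l _ => this l]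
            unfold Pool.Agent.Helper57.NT.dt
            ring) p hp
          rw [map_sub, map_sum, eval_C, sub_eq_zero] at h1
          rw [← h1]
          refine Finset.sum_congr rfl fun l _ => ?_
          rw [map_mul, eval_C, eval_X]
        · -- multiplicative freeness
          intro m hm d hd
          rw [hy', mon_shift] at hd
          obtain ⟨p, hp, hpd⟩ := hfree.mul m hm (d / Pool.Agent.Helper57.NT.mon m b)
          apply hpd
          have hB0 : algebraMap ℂ E (Pool.Agent.Helper57.NT.mon m b) ≠ 0 := by
            rw [Ne, map_eq_zero]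
            exact hmb m
          have h0 : Pool.Agent.Helper57.NT.mon m y = algebraMap ℂ E (d / Pool.Agent.Helper57.NT.mon m b) := by
            rw [map_div₀, eq_div_iff hB0, mul_comm]
            exact hd
          have hpc := Pool.Agent.Q98.EG.prod_clear y hyn m
          have h1 := (ha (∏ l, X (Sum.inr l) ^ (m l).toNat -
            C (d / Pool.Agent.Helper57.NT.mon m b) * ∏ l, X (Sum.inr l) ^ (-(m l)).toNat)).1 (by
            rw [map_sub, map_mul, algHom_C, map_prod, map_prod, ← h0]
            simp only [map_pow, aeval_X, Sum.elim_inr]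
            rw [sub_eq_zero]
            exact hpc.symm) p hp
          rw [map_sub, map_mul, eval_C, map_prod, map_prod, sub_eq_zero] at h1
          simp only [map_pow, eval_X] at h1
          have hpne : ∀ l, p (Sum.inr l) ≠ 0 := ((hVmem p).1 hp).2
          have hpc2 := Pool.Agent.Q98.EG.prod_clear (fun l => p (Sum.inr l)) hpne m
          rw [← hpc2] at h1
          exact mul_right_cancel₀ (Finset.prod_ne_zero_iff.2 fun l _ => pow_ne_zero _ (hpne l)) h1
        · -- the field is generated by the coordinates
          intro e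
          have h1 : e ∈ Pool.Agent.Helper57.NT.cl (Set.range (Sum.elim x y)) := by
            apply Pool.Agent.Helper57.NT.cl_of_adjoin
            rw [htop]
            exact IntermediateField.mem_top
          refine Pool.Agent.Helper57.NT.cl_trans ?_ h1
          rintro _ ⟨l, rfl⟩
          rcases l with l | l
          · exact cl_shift (Pool.Agent.Helper57.NT.subset_cl _ ⟨Sum.inl l, rfl⟩)
          · exact cl_scale (hc l) (Pool.Agent.Helper57.NT.subset_cl _ ⟨Sum.inr l, rfl⟩)
        · -- the dimension is at least three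
          intro e f hsub
          have h1 := Pool.Agent.Helper57.NT.card_le ((hind J0).1 hJ0) {e, f} (by
            rintro ⟨j, hj⟩
            rw [Finset.coe_pair]
            show Sum.elim x y j ∈ _
            rcases j with l | l
            · exact cl_shift (hsub ⟨Sum.inl l, rfl⟩)
            · exact cl_scale (hc l) (hsub ⟨Sum.inr l, rfl⟩))
          rw [Fintype.card_coe, hJ0c] at h1
          have h2 := Finset.card_le_two (a := e) (b := f)
          omega
        · rintro m k hmk u ⟨h1, h2, h3, h5⟩
          rw [hx', dt_shift] at h1 h2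
          rw [hy', mon_shift] at h3 h5
          exact hrot2 m k hmk u ⟨cl_shift h1, cl_shift h2, cl_scale (hmb m) h3, cl_scale (hmb k) h5⟩
        · -- the base is not a curve
          unfold Pool.Agent.Results.MP_209724_lc.MixedCurves.CurveBase at hcb
          push Not at hcb
          obtain ⟨i, j, hij⟩ := hcb
          have h1 : AlgebraicIndependent ℂ ![x i, x j] := by
            rw [algebraicIndependent_iff]
            intro f hf
            by_contra hf0
            obtain ⟨p, hp, hpf⟩ := hij f hf0
            apply hpf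
            have h2 := (ha (rename ![Sum.inl i, Sum.inl j] f)).1 (by
              rw [aeval_rename]
              have : (Sum.elim x y ∘ ![Sum.inl i, Sum.inl j]) = ![x i, x j] := by
                funext k
                fin_cases k <;> rfl
              rw [this]
              exact hf) p hp
            rw [eval_rename] at h2
            have : (p ∘ ![Sum.inl i, Sum.inl j]) =
                ![p (Pool.Agent.Results.MP_209724_lc.MixedCurves.base ∅ i),
                  p (Pool.Agent.Results.MP_209724_lc.MixedCurves.base ∅ j)] := by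
              funext k
              fin_cases k <;> simp [Pool.Agent.Results.MP_209724_lc.MixedCurves.base]
            rwa [this] at h2
          refine ⟨i, j, fun h => ?_⟩
          have h2 : x j ∈ Pool.Agent.Helper57.NT.cl ({x' i} : Set E) := cl_shift h
          have h3 : x' i ∈ Pool.Agent.Helper57.NT.cl ({x i} : Set E) :=
            Pool.Agent.Helper57.NT.cl_add (Pool.Agent.Helper57.NT.subset_cl _ rfl)
              (Pool.Agent.Helper57.NT.cl_const _)
          have h5 := Pool.Agent.Helper57.NT.cl_trans (Set.singleton_subset_iff.2 h3) h2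
          exact Pool.Agent.Helper57.NT.not_indep (Pool.Agent.Helper57.NT.subset_cl _ rfl) h5 h1
      obtain ⟨z, hz⟩ := hexp
      refine ⟨z, Sum.elim (fun l => z l - a l) (fun l => Complex.exp (z l) / b l), ?_, ?_⟩
      · rw [hVmem]
        refine ⟨fun f hf => ?_, fun l => div_ne_zero (Complex.exp_ne_zero _) (hc l)⟩
        let s : Fin 3 ⊕ Fin 3 → MvPolynomial (Fin 3 ⊕ Fin 3) ℂ :=
          Sum.elim (fun l => X (Sum.inl l) - C (a l)) (fun l => C (b l)⁻¹ * X (Sum.inr l))
        have h1 : aeval (Sum.elim x' y') (aeval s f) = 0 := by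
          rw [comp_aeval_apply]
          have : (fun i => aeval (Sum.elim x' y') (s i)) = Sum.elim x y := by
            funext i
            rcases i with l | l
            · simp [s, hx']
            · have hb0 : algebraMap ℂ E (b l) ≠ 0 := by
                rw [Ne, map_eq_zero]
                exact hc l
              simp [s, hy', hb0]
          rw [this, hxy]
          exact (hξ f).2 hf
        have h2 := hz _ h1
        rw [← aeval_eq_eval, comp_aeval_apply] at h2
        rw [← aeval_eq_eval]
        convert h2 using 2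
        congr 1
        funext i
        rcases i with l | l
        · simp [s]
        · simp [s, div_eq_inv_mul]
      · funext i
        rcases i with l | l
        · simp [ExpPoint, hA]
        · have := hc l
          simp [ExpPoint, hB]
          field_simp
  refine ⟨part1, ?_⟩
  rintro ⟨-, hdim2⟩ K hK ⟨S, hS⟩
  have h1 := Pool.Agent.Y563.SE.generic_pts I V hI hVeq ⟨p0, hp0⟩ (by
    intro J' hJ'
    have h1 := hdim2 J' hJ'
    unfold Indep at h1
    push Not at h1
    obtain ⟨f, h2, h3, h4⟩ := h1
    exact ⟨f, h4, h2, h3⟩) K S hS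
  have h2 : ∀ᵐ c : Fin 3 ⊕ Fin 3 → ℂ, ∀ i : Fin 3, c (Sum.inr i) ≠ 0 := by
    rw [ae_all_iff]
    intro i
    rw [ae_iff]
    simp only [not_not]
    exact Pool.Agent.Y563.SE.null_fintype (fun c : Fin 3 ⊕ Fin 3 → ℂ => c (Sum.inr i))
      (differentiable_apply _) ⟨fun _ => 1, one_ne_zero⟩
  filter_upwards [h1, h2] with c hc1 hc2
  obtain ⟨z, hz⟩ := part1 c hc2
  exact ⟨z, hz, hc1 z hz⟩

end Pool.Agent.Helper57.NT.Res3
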