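import Pool.Agent.Helper57.NT.Res2

/-!
Project NT (helper57), part 16 (helper18): slicing, the statement of the slices and the induction.
-/

set_option autoImplicit false

open MvPolynomial MeasureTheory Filter Topology

namespace Pool.Agent.Helper57.NT.Res2

/-- A free rotund variety of dimension `d ≥ 4` contains a free rotund variety of dimension `d - 1`
which lies in a hyperplane `∑ a_j p_j = s` with independent transcendental coefficients. -/
def S_slice : Prop :=
  ∀ (I : Ideal (MvPolynomial (Fin 3 ⊕ Fin 3) ℂ)) (V : Set (Fin 3 ⊕ Fin 3 → ℂ)),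
    IsVariety I V → Free V → Rotund V → ∀ d : ℕ, 4 ≤ d → HasDim V d →
    ∀ (K : Subfield ℂ) [Countable K], (∃ S : Set (MvPolynomial (Fin 3 ⊕ Fin 3) K),
      I = Ideal.span (MvPolynomial.map (algebraMap K ℂ) '' S)) →
    ∃ (I' : Ideal (MvPolynomial (Fin 3 ⊕ Fin 3) ℂ)) (V' : Set (Fin 3 ⊕ Fin 3 → ℂ))
      (a : Fin 3 ⊕ Fin 3 → ℂ) (s : ℂ) (K' : Subfield ℂ) (_ : Countable K'), K ≤ K' ∧
      (∀ j, a j ∈ K') ∧ s ∈ K' ∧ AlgebraicIndependent K (Sum.elim a fun _ : Unit => s) ∧
      (∃ S : Set (MvPolynomial (Fin 3 ⊕ Fin 3) K'),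
        I' = Ideal.span (MvPolynomial.map (algebraMap K' ℂ) '' S)) ∧
      IsVariety I' V' ∧ Free V' ∧ Rotund V' ∧ HasDim V' (d - 1) ∧ V' ⊆ V ∧
      ∀ p ∈ V', ∑ j, a j * p j = s

/-- part (2) in dimension `d` -/
def Gd (d : ℕ) : Prop :=
  ∀ (I : Ideal (MvPolynomial (Fin 3 ⊕ Fin 3) ℂ)) (V : Set (Fin 3 ⊕ Fin 3 → ℂ)),
    IsVariety I V → Free V → Rotund V → HasDim V d →
    ∀ (K : Subfield ℂ) [Countable K], (∃ S : Set (MvPolynomial (Fin 3 ⊕ Fin 3) K),
      I = Ideal.span (MvPolynomial.map (algebraMap K ℂ) '' S)) →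
    ∀ᵐ c : Fin 3 ⊕ Fin 3 → ℂ, ∃ z : Fin 3 → ℂ, ExpPoint z ∈ Translate c V ∧
      trdegOver K c z = d

section lems

variable {σ : Type} [Fintype σ]

/-- almost all points are algebraically independent over a countable field -/
theorem ae_indep (K : Subfield ℂ) [Countable K] : ∀ᵐ c : σ → ℂ, AlgebraicIndependent K c := by
  have : Countable (MvPolynomial σ K) := Pool.Agent.Y563.SE.countable_mvPolynomial _ _
  have h1 : ∀ᵐ c : σ → ℂ, ∀ g : MvPolynomial σ K, g ≠ 0 → aeval c g ≠ 0 := by
    rw [ae_all_iff]
    intro g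
    by_cases hg : g = 0
    · exact Eventually.of_forall fun c h => absurd hg h
    · have hg' : map (algebraMap K ℂ) g ≠ 0 := fun h =>
        hg (map_injective _ (algebraMap K ℂ).injective (by rw [h, map_zero]))
      have h2 : ∃ x : σ → ℂ, eval x (map (algebraMap K ℂ) g) ≠ 0 := by
        by_contra hcon
        push Not at hcon
        exact hg' (MvPolynomial.funext fun x => by rw [hcon x, map_zero])
      have h3 : Differentiable ℂ fun x : σ → ℂ => eval x (map (algebraMap K ℂ) g) := by
        intro x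
        induction (map (algebraMap K ℂ) g) using MvPolynomial.induction_on with
        | C a => simp
        | add p q hp hq =>
          simp only [map_add]
          exact hp.fun_add hq
        | mul_X p i hp =>
          simp only [map_mul, eval_X]
          exact hp.fun_mul (differentiableAt_apply i x)
      have h4 := Pool.Agent.Y563.SE.null_fintype (fun x : σ → ℂ => eval x (map (algebraMap K ℂ) g))
        h3 h2
      have h5 := measure_eq_zero_iff_ae_notMem.1 h4
      filter_upwards [h5] with c hc _ h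
      apply hc
      show eval c (map (algebraMap K ℂ) g) = 0
      rw [eval_map, ← aeval_def]
      exact h
  filter_upwards [h1] with c hc
  rw [algebraicIndependent_iff]
  intro g hg
  by_contra h
  exact hc g h hg

/-- a transcendence basis among the coordinates -/
theorem exists_basis {K : Type} [Field K] [Algebra K ℂ] (v : σ → ℂ) (d : ℕ)
    (h : (d : Cardinal) ≤ Algebra.trdeg K (IntermediateField.adjoin K (Set.range v))) :
    ∃ J : Finset σ, J.card = d ∧ AlgebraicIndependent K (fun j : J => v j) := by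
  classical
  rcases Nat.eq_zero_or_pos d with hd | hd
  · subst hd
    refine ⟨∅, rfl, ?_⟩
    have : IsEmpty ((∅ : Finset σ) : Type) := by
      constructor
      rintro ⟨x, hx⟩
      exact absurd hx (Finset.notMem_empty x)
    exact algebraicIndependent_empty_type
  · by_contra hcon
    push Not at hcon
    have h1 := Pool.Agent.Y563.SE.trdeg_le_of_rel (K := K) v (d - 1) (by
      intro J hJ
      have h2 := hcon J (by omega)
      rw [algebraicIndependent_iff] at h2
      push Not at h2
      obtain ⟨r, hr, hr0⟩ := h2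
      refine ⟨rename (fun j : J => (j : σ)) r, ?_, ?_, ?_⟩
      · intro h3
        exact hr0 (rename_injective _ Subtype.val_injective (by rw [h3, map_zero]))
      · intro k hk
        obtain ⟨b, -, rfl⟩ := Finset.mem_image.mp (vars_rename _ r hk)
        exact b.2
      · rw [aeval_rename]
        exact hr)
    have h3 := h.trans h1
    have h4 : d ≤ d - 1 := by exact_mod_cast h3
    omega

/-- the transcendence degree decreases if the base becomes larger -/
theorem trdeg_base {L L' : Type} [Field L] [Field L'] [Algebra L L'] [Algebra L ℂ] [Algebra L' ℂ]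
    [IsScalarTower L L' ℂ] (v : σ → ℂ) (d : ℕ)
    (h : (d : Cardinal) ≤ Algebra.trdeg L' (IntermediateField.adjoin L' (Set.range v))) :
    (d : Cardinal) ≤ Algebra.trdeg L (IntermediateField.adjoin L (Set.range v)) := by
  obtain ⟨J, hJ, hind⟩ := exists_basis (K := L') v d h
  have h1 : AlgebraicIndependent L (fun j : J => v j) :=
    hind.restrictScalars (algebraMap L L').injective
  have h2 := Pool.Agent.Y563.SE.le_trdeg (IntermediateField.adjoin L (Set.range v))
    (fun j : J => v j) h1 (fun j => IntermediateField.subset_adjoin _ _ ⟨j, rfl⟩)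
  rwa [Fintype.card_coe, hJ] at h2

end lems

/-- the lower bound -/
theorem lower (K K' : Subfield ℂ) (hKK : K ≤ K') (a : Fin 3 ⊕ Fin 3 → ℂ) (s : ℂ)
    (ha : ∀ j, a j ∈ K') (hs : s ∈ K')
    (hind : AlgebraicIndependent K (Sum.elim a fun _ : Unit => s)) (c p : Fin 3 ⊕ Fin 3 → ℂ)
    (hc : AlgebraicIndependent K' c)
    (hsum : s ∈ IntermediateField.adjoin (IntermediateField.adjoin K
      (Set.range (Sum.elim c a))) (Set.range p)) (d : ℕ)
    (htr : (d : Cardinal) ≤ Algebra.trdeg (IntermediateField.adjoin K' (Set.range c))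
      (IntermediateField.adjoin (IntermediateField.adjoin K' (Set.range c)) (Set.range p))) :
    ((d + 1 : ℕ) : Cardinal) ≤ Algebra.trdeg (IntermediateField.adjoin K (Set.range c))
      (IntermediateField.adjoin (IntermediateField.adjoin K (Set.range c)) (Set.range p)) := by
  classical
  let _ : Algebra K K' := (Subfield.inclusion hKK).toAlgebra
  have : IsScalarTower K K' ℂ := IsScalarTower.of_algebraMap_eq fun x => rfl
  obtain ⟨J, hJ, hJi⟩ := exists_basis p d htr
  have h1 : AlgebraicIndependent K' (Sum.elim (fun j : J => p j) c) := by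
    refine hc.sumElim_of_tower (S := IntermediateField.adjoin K' (Set.range c)) ?_ hJi
    rintro _ ⟨i, rfl⟩
    exact ⟨⟨c i, IntermediateField.subset_adjoin _ _ ⟨i, rfl⟩⟩, rfl⟩
  have h2 : AlgebraicIndependent K (Sum.elim (Sum.elim (fun j : J => p j) c)
      (Sum.elim a fun _ : Unit => s)) := by
    refine hind.sumElim_of_tower (S := K') ?_ h1
    rintro _ ⟨i, rfl⟩
    rcases i with i | i
    · exact ⟨⟨a i, ha i⟩, rfl⟩
    · exact ⟨⟨s, hs⟩, rfl⟩
  have hcm : ∀ x ∈ Set.range (Sum.elim c a), x ∈ IntermediateField.adjoin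
      (IntermediateField.adjoin K (Set.range (Sum.elim c a))) (Set.range p) := fun x hx =>
    IntermediateField.algebraMap_mem (IntermediateField.adjoin (IntermediateField.adjoin K
      (Set.range (Sum.elim c a))) (Set.range p))
      (⟨x, IntermediateField.subset_adjoin _ _ hx⟩ :
        IntermediateField.adjoin K (Set.range (Sum.elim c a)))
  have h3 := Pool.Agent.Y563.SE.trdeg_adjoin_ge (Sum.elim c a) p _ h2 (by
    rintro ((j | i) | (i | i))
    · exact IntermediateField.subset_adjoin _ _ ⟨_, rfl⟩
    · exact hcm _ ⟨Sum.inl i, rfl⟩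
    · exact hcm _ ⟨Sum.inr i, rfl⟩
    · exact hsum) (d + 1) (by
      simp only [Fintype.card_sum, Fintype.card_fin, Fintype.card_coe, hJ, Fintype.card_unit]
      omega)
  have hle : IntermediateField.adjoin K (Set.range c) ≤
      IntermediateField.adjoin K (Set.range (Sum.elim c a)) := by
    apply IntermediateField.adjoin.mono
    rintro _ ⟨i, rfl⟩
    exact ⟨Sum.inl i, rfl⟩
  let _ : Algebra (IntermediateField.adjoin K (Set.range c))
      (IntermediateField.adjoin K (Set.range (Sum.elim c a))) :=
    (IntermediateField.inclusion hle).toRingHom.toAlgebra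
  have : IsScalarTower (IntermediateField.adjoin K (Set.range c))
      (IntermediateField.adjoin K (Set.range (Sum.elim c a))) ℂ :=
    IsScalarTower.of_algebraMap_eq fun x => rfl
  exact trdeg_base p (d + 1) h3

/-- the upper bound -/
theorem upper (I : Ideal (MvPolynomial (Fin 3 ⊕ Fin 3) ℂ)) (V : Set (Fin 3 ⊕ Fin 3 → ℂ))
    (hV : IsVariety I V) (d : ℕ) (hdim : HasDim V d) (K : Subfield ℂ)
    (hK : ∃ S : Set (MvPolynomial (Fin 3 ⊕ Fin 3) K),
      I = Ideal.span (MvPolynomial.map (algebraMap K ℂ) '' S)) (c : Fin 3 ⊕ Fin 3 → ℂ)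
    (hc : ∀ i, c (Sum.inr i) ≠ 0) (z : Fin 3 → ℂ) (hz : ExpPoint z ∈ Translate c V) :
    trdegOver K c z ≤ d := by
  classical
  obtain ⟨hP, hVe, hne⟩ := hV
  obtain ⟨S, hK⟩ := hK
  have hrel : ∀ J : Finset (Fin 3 ⊕ Fin 3), J.card = d + 1 →
      ∃ g : MvPolynomial (Fin 3 ⊕ Fin 3) K, g ≠ 0 ∧ g.vars ⊆ J ∧ ∀ p ∈ V, aeval p g = 0 := by
    intro J hJ
    have h1 := hdim.2 J hJ
    unfold Indep at h1
    push Not at h1
    obtain ⟨f, hfJ, hfV, hf0⟩ := h1
    have hfP : f ∈ I := by
      refine Pool.Agent.W333.ECV.nullst I hP (∏ j : Fin 3, X (Sum.inr j)) ?_ f ?_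
      · intro hg
        obtain ⟨p, hp⟩ := hne
        rw [hVe] at hp
        have h1 := hp.1 _ hg
        rw [map_prod, Finset.prod_eq_zero_iff] at h1
        obtain ⟨j, _, hj⟩ := h1
        rw [eval_X] at hj
        exact hp.2 j hj
      · intro p hp hg
        apply hfV
        rw [hVe]
        refine ⟨hp, fun j hj => hg ?_⟩
        rw [map_prod]
        exact Finset.prod_eq_zero (Finset.mem_univ j) (by rw [eval_X, hj])
    obtain ⟨g, hg0, hgJ, hgP⟩ := Pool.Agent.Y563.SE.descend S I hK hfP hf0 J hfJ
    refine ⟨g, hg0, hgJ, fun p hp => ?_⟩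
    rw [hVe] at hp
    have := hp.1 _ hgP
    rwa [eval_map, ← aeval_def] at this
  obtain ⟨u, hu, hzu⟩ := hz
  have hz1 : ∀ i, z i = u (Sum.inl i) + c (Sum.inl i) := fun i => congrFun hzu (Sum.inl i)
  have hz2 : ∀ i, Complex.exp (z i) = c (Sum.inr i) * u (Sum.inr i) :=
    fun i => congrFun hzu (Sum.inr i)
  have hcL : ∀ s, c s ∈ IntermediateField.adjoin K (Set.range c) := fun s =>
    IntermediateField.subset_adjoin K _ ⟨s, rfl⟩
  have hcM : ∀ s, c s ∈ IntermediateField.adjoin (IntermediateField.adjoin K (Set.range c))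
      (Set.range (ExpPoint z)) := fun s =>
    IntermediateField.algebraMap_mem (IntermediateField.adjoin
      (IntermediateField.adjoin K (Set.range c)) (Set.range (ExpPoint z)))
      (⟨c s, hcL s⟩ : IntermediateField.adjoin K (Set.range c))
  have hEM : ∀ s, ExpPoint z s ∈ IntermediateField.adjoin (IntermediateField.adjoin K (Set.range c))
      (Set.range (ExpPoint z)) := fun s => IntermediateField.subset_adjoin _ _ ⟨s, rfl⟩
  have hadj : IntermediateField.adjoin (IntermediateField.adjoin K (Set.range c))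
      (Set.range (ExpPoint z)) = IntermediateField.adjoin (IntermediateField.adjoin K (Set.range c))
      (Set.range u) := by
    apply le_antisymm
    · rw [IntermediateField.adjoin_le_iff]
      rintro _ ⟨s, rfl⟩
      have hcM' : ∀ s, c s ∈ IntermediateField.adjoin (IntermediateField.adjoin K (Set.range c))
          (Set.range u) := fun s =>
        IntermediateField.algebraMap_mem (IntermediateField.adjoin
          (IntermediateField.adjoin K (Set.range c)) (Set.range u))
          (⟨c s, hcL s⟩ : IntermediateField.adjoin K (Set.range c))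
      have hu0 : ∀ s, u s ∈ IntermediateField.adjoin (IntermediateField.adjoin K (Set.range c))
        (Set.range u) := fun s => IntermediateField.subset_adjoin _ _ ⟨s, rfl⟩
      rcases s with i | i
      · show z i ∈ _
        rw [hz1]
        exact add_mem (hu0 _) (hcM' _)
      · show Complex.exp (z i) ∈ _
        rw [hz2]
        exact mul_mem (hcM' _) (hu0 _)
    · rw [IntermediateField.adjoin_le_iff]
      rintro _ ⟨s, rfl⟩
      rcases s with i | i
      · have : u (Sum.inl i) = ExpPoint z (Sum.inl i) - c (Sum.inl i) := by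
          show u (Sum.inl i) = z i - c (Sum.inl i)
          rw [hz1]; ring
        rw [this]
        exact sub_mem (hEM _) (hcM _)
      · have : u (Sum.inr i) = ExpPoint z (Sum.inr i) / c (Sum.inr i) := by
          show u (Sum.inr i) = Complex.exp (z i) / c (Sum.inr i)
          rw [hz2, mul_div_cancel_left₀ _ (hc i)]
        rw [this]
        exact div_mem (hEM _) (hcM _)
  unfold trdegOver
  rw [hadj]
  refine Pool.Agent.Y563.SE.trdeg_le_of_rel u d ?_
  intro J' hJ'
  obtain ⟨g, hg0, hgJ, hgV⟩ := hrel J' hJ'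
  refine ⟨map (algebraMap K (IntermediateField.adjoin K (Set.range c))) g, ?_, ?_, ?_⟩
  · intro h
    exact hg0 (map_injective _ (algebraMap K (IntermediateField.adjoin K (Set.range c))).injective
      (by rw [h, map_zero]))
  · exact (vars_map (algebraMap K (IntermediateField.adjoin K (Set.range c))) (p := g)).trans hgJ
  · rw [aeval_map_algebraMap]
    exact hgV u hu

/-- **The induction.** -/
theorem step (slice : S_slice) (d : ℕ) (hd : 4 ≤ d) (ih : Gd (d - 1)) : Gd d := by
  intro I V hV hfree hrot hdim K hK hS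
  obtain ⟨I', V', a, s, K', hK'c, hKK, haK, hsK, hind, hS', hV', hfree', hrot', hdim', hVV, hlin⟩ :=
    slice I V hV hfree hrot d hd hdim K hS
  have h1 := ih I' V' hV' hfree' hrot' hdim' K' hS'
  have h2 := ae_indep (σ := Fin 3 ⊕ Fin 3) K'
  filter_upwards [h1, h2] with c hc1 hc2
  obtain ⟨z, hz, htr⟩ := hc1
  have hcne : ∀ i, c (Sum.inr i) ≠ 0 := fun i => hc2.ne_zero (Sum.inr i)
  have hz' : ExpPoint z ∈ Translate c V := by
    obtain ⟨u, hu, h⟩ := hz
    exact ⟨u, hVV hu, h⟩
  refine ⟨z, hz', le_antisymm (upper I V hV d hdim K hS c hcne z hz') ?_⟩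
  have hd1 : d - 1 + 1 = d := by omega
  rw [← hd1]
  refine lower K K' hKK a s haK hsK hind c (ExpPoint z) hc2 ?_ (d - 1) htr.symm.le
  obtain ⟨u, hu, hzu⟩ := hz
  rw [← hlin u hu]
  have hcm : ∀ x ∈ Set.range (Sum.elim c a), x ∈ IntermediateField.adjoin
      (IntermediateField.adjoin K (Set.range (Sum.elim c a))) (Set.range (ExpPoint z)) :=
    fun x hx => IntermediateField.algebraMap_mem (IntermediateField.adjoin
      (IntermediateField.adjoin K (Set.range (Sum.elim c a))) (Set.range (ExpPoint z)))
      (⟨x, IntermediateField.subset_adjoin _ _ hx⟩ :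
        IntermediateField.adjoin K (Set.range (Sum.elim c a)))
  have hEM : ∀ s, ExpPoint z s ∈ IntermediateField.adjoin
      (IntermediateField.adjoin K (Set.range (Sum.elim c a))) (Set.range (ExpPoint z)) := fun s =>
    IntermediateField.subset_adjoin _ _ ⟨s, rfl⟩
  refine sum_mem fun j _ => mul_mem (hcm _ ⟨Sum.inr j, rfl⟩) ?_
  rcases j with i | i
  · have h3 := congrFun hzu (Sum.inl i)
    simp only [Sum.elim_inl] at h3
    have : u (Sum.inl i) = ExpPoint z (Sum.inl i) - c (Sum.inl i) := by
      rw [h3]; ring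
    rw [this]
    exact sub_mem (hEM _) (hcm _ ⟨Sum.inl (Sum.inl i), rfl⟩)
  · have h3 := congrFun hzu (Sum.inr i)
    simp only [Sum.elim_inr] at h3
    have : u (Sum.inr i) = ExpPoint z (Sum.inr i) / c (Sum.inr i) := by
      rw [h3, mul_div_cancel_left₀ _ (hcne i)]
    rw [this]
    exact div_mem (hEM _) (hcm _ ⟨Sum.inl (Sum.inr i), rfl⟩)

theorem all_d (slice : S_slice) (h3 : Gd 3) : ∀ d : ℕ, 3 ≤ d → Gd d := by
  intro d hd
  induction d, hd using Nat.le_induction with
  | base => exact h3
  | succ n hn ih => exact step slice (n + 1) (by omega) (by simpa using ih)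

end Pool.Agent.Helper57.NT.Res2
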