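import Pool.Agent.Helper57.NT.Slc

/-!
Project NT (helper57), part 16b (helper18): from the free compositum to the slices.
-/

set_option autoImplicit false

open MvPolynomial MeasureTheory Filter Topology

namespace Pool.Agent.Helper57.NT.Res2

/-- The generators of `K(ξ)`. -/
noncomputable def gen (K : Subfield ℂ) {E : Type} [Field E] [Algebra K E]
    (ξ : Fin 3 ⊕ Fin 3 → E) (i : Fin 3 ⊕ Fin 3) :
    IntermediateField.adjoin K (Set.range ξ) :=
  ⟨ξ i, IntermediateField.subset_adjoin K _ ⟨i, rfl⟩⟩

/-- 16a: the free compositum over a generic hyperplane section. -/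
def S_comp : Prop :=
  ∀ (K : Subfield ℂ) [Countable K] (E : Type) [Field E] [Algebra K E] (ξ : Fin 3 ⊕ Fin 3 → E)
    (d : ℕ), 2 ≤ d →
    (∃ J : Finset (Fin 3 ⊕ Fin 3), J.card = d ∧ AlgebraicIndependent K (fun j : J => ξ j)) →
    (∀ J : Finset (Fin 3 ⊕ Fin 3), J.card = d + 1 →
      ¬ AlgebraicIndependent K (fun j : J => ξ j)) →
    ∃ (a : Fin 3 ⊕ Fin 3 → ℂ) (s : ℂ) (Ω : Type) (_ : Field Ω) (_ : Algebra ℂ Ω)
      (τ : IntermediateField.adjoin K (Set.range ξ) →+* Ω),
      (∀ k : K, τ (algebraMap K _ k) = algebraMap ℂ Ω (k : ℂ)) ∧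
      AlgebraicIndependent K (Sum.elim a fun _ : Unit => s) ∧
      ∑ j, algebraMap ℂ Ω (a j) * τ (gen K ξ j) = algebraMap ℂ Ω s ∧
      ∀ n : ℕ, n < d → ∀ T : Fin n → IntermediateField.adjoin K (Set.range ξ),
        AlgebraicIndependent K T → AlgebraicIndependent ℂ (fun i => τ (T i))

theorem aeval_pry {E : Type} [Field E] [Algebra ℂ E] (x y : Fin 3 → E) :
    aeval (Sum.elim x y) (∏ l : Fin 3, X (Sum.inr l) : MvPolynomial (Fin 3 ⊕ Fin 3) ℂ) =
      ∏ l, y l := by
  simp [map_prod]

theorem eval_pry (p : Fin 3 ⊕ Fin 3 → ℂ) :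
    eval p (∏ l : Fin 3, X (Sum.inr l) : MvPolynomial (Fin 3 ⊕ Fin 3) ℂ) =
      ∏ l, p (Sum.inr l) := by
  simp [map_prod]

/-- an algebraic element of a field over `ℂ` is a constant -/
theorem const_of_alg {E : Type} [Field E] [Algebra ℂ E] {u : E} (h : IsAlgebraic ℂ u) :
    ∃ c : ℂ, u = algebraMap ℂ E c := by
  have h1 : IsIntegral ℂ u := h.isIntegral
  have h2 := IsAlgClosed.degree_eq_one_of_irreducible ℂ (minpoly.irreducible h1)
  obtain ⟨c, hc⟩ := minpoly.mem_range_of_degree_eq_one ℂ u h2
  exact ⟨c, hc.symm⟩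

/-- every ideal is generated over a countable field -/
theorem exists_countable (K : Subfield ℂ) [Countable K] (T : Set ℂ) (hT : T.Countable)
    (I : Ideal (MvPolynomial (Fin 3 ⊕ Fin 3) ℂ)) :
    ∃ (K' : Subfield ℂ) (_ : Countable K'), K ≤ K' ∧ T ⊆ K' ∧
      ∃ S : Set (MvPolynomial (Fin 3 ⊕ Fin 3) K'),
        I = Ideal.span (MvPolynomial.map (algebraMap K' ℂ) '' S) := by
  classical
  obtain ⟨G, hG⟩ := (inferInstance : IsNoetherianRing (MvPolynomial (Fin 3 ⊕ Fin 3) ℂ)).noetherian I
  set A : Set ℂ := (K : Set ℂ) ∪ T ∪ ⋃ g ∈ G, (g.coeffs : Set ℂ) with hA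
  have hAc : A.Countable := by
    refine Set.Countable.union (Set.Countable.union ?_ hT) ?_
    · exact Set.to_countable _
    · exact Set.Countable.biUnion G.countable_toSet fun g _ => g.coeffs.countable_toSet
  refine ⟨Subfield.closure A, ?_, ?_, ?_, ?_⟩
  · rw [← Cardinal.mk_le_aleph0_iff]
    refine (Subfield.cardinalMk_closure_le_max A).trans (max_le ?_ le_rfl)
    have := hAc.to_subtype
    exact Cardinal.mk_le_aleph0
  · intro x hx
    exact Subfield.subset_closure (Or.inl (Or.inl hx))
  · intro x hx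
    exact Subfield.subset_closure (Or.inl (Or.inr hx))
  · refine ⟨{s | MvPolynomial.map (algebraMap (Subfield.closure A) ℂ) s ∈ G}, ?_⟩
    rw [← hG]
    apply le_antisymm
    · rw [Submodule.span_le]
      intro g hg
      have h1 : g ∈ Set.range (MvPolynomial.map (σ := Fin 3 ⊕ Fin 3)
          (algebraMap (Subfield.closure A) ℂ)) := by
        rw [MvPolynomial.mem_range_map_iff_coeffs_subset]
        intro x hx
        have h2 : x ∈ Subfield.closure A := Subfield.subset_closure (Or.inr (by
          simp only [Set.mem_iUnion]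
          exact ⟨g, hg, hx⟩))
        exact ⟨⟨x, h2⟩, rfl⟩
      obtain ⟨s, hs⟩ := h1
      apply Ideal.subset_span
      refine ⟨s, ?_, hs⟩
      show MvPolynomial.map (algebraMap (Subfield.closure A) ℂ) s ∈ G
      rw [hs]
      exact hg
    · rw [Ideal.span_le]
      rintro _ ⟨s, hs, rfl⟩
      exact Submodule.subset_span hs

theorem slice_of_comp (comp : S_comp) : S_slice := by
  classical
  intro I V hV hfree hrot d hd hdim K hKc hS
  obtain ⟨hI, hVeq, hne⟩ := hV
  obtain ⟨S, hS⟩ := hS
  obtain ⟨E, iE, aE, ξ, hξ, hgen⟩ := Pool.Agent.W333.ECV.exists_field I hI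
  set x : Fin 3 → E := fun i => ξ (Sum.inl i) with hx
  set y : Fin 3 → E := fun i => ξ (Sum.inr i) with hy
  have hxy : Sum.elim x y = ξ := by
    funext i
    rcases i with i | i <;> rfl
  have hVmem : ∀ p : Fin 3 ⊕ Fin 3 → ℂ, p ∈ V ↔
      (∀ f ∈ I, eval p f = 0) ∧ ∀ j : Fin 3, p (Sum.inr j) ≠ 0 := by
    intro p; rw [hVeq]; rfl
  obtain ⟨p0, hp0⟩ := hne
  have hPV : ∀ f, f ∈ I ↔ ∀ p ∈ V, eval p f = 0 := by
    intro f
    constructor
    · intro hf p hp
      exact ((hVmem p).mp hp).1 f hf
    · intro hf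
      refine Pool.Agent.W333.ECV.nullst I hI (∏ i : Fin 3, X (Sum.inr i)) ?_ f ?_
      · intro hg
        have := ((hVmem p0).mp hp0).1 _ hg
        rw [map_prod, Finset.prod_eq_zero_iff] at this
        obtain ⟨i, -, hi⟩ := this
        rw [eval_X] at hi
        exact ((hVmem p0).mp hp0).2 i hi
      · intro p hp hg
        apply hf
        rw [hVmem]
        refine ⟨hp, fun j hj => hg ?_⟩
        rw [map_prod]
        apply Finset.prod_eq_zero (Finset.mem_univ j)
        rw [eval_X]; exact hj
  have ha : ∀ f, aeval (Sum.elim x y) f = 0 ↔ ∀ p ∈ V, eval p f = 0 := by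
    intro f
    rw [hxy]
    exact (hξ f).trans (hPV f)
  have hyn : ∀ l, y l ≠ 0 := by
    intro l h
    have h1 := (ha (X (Sum.inr l))).mp (by rw [aeval_X]; exact h) p0 hp0
    rw [eval_X] at h1
    exact ((hVmem p0).mp hp0).2 l h1
  have hind : ∀ J : Finset (Fin 3 ⊕ Fin 3), Indep V J ↔
      AlgebraicIndependent ℂ (fun j : J => Sum.elim x y j) := by
    intro J
    constructor
    · intro h
      rw [algebraicIndependent_iff]
      intro f hf
      have h1 : rename (Subtype.val : J → Fin 3 ⊕ Fin 3) f = 0 := by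
        apply h
        · intro k hk
          obtain ⟨b, -, rfl⟩ := Finset.mem_image.mp (vars_rename Subtype.val f hk)
          exact b.2
        · rw [← ha, aeval_rename]
          exact hf
      exact rename_injective _ Subtype.val_injective (by rw [h1, map_zero])
    · intro h f hfv hf
      rw [← ha] at hf
      rw [algebraicIndependent_iff] at h
      obtain ⟨g, hg⟩ := exists_rename_eq_of_vars_subset_range f (Subtype.val : J → Fin 3 ⊕ Fin 3)
        Subtype.val_injective (by
          rw [Subtype.range_coe]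
          exact_mod_cast hfv)
      have h1 : g = 0 := by
        apply h
        rw [← hg, aeval_rename] at hf
        exact hf
      rw [← hg, h1, map_zero]
  have hdown : ∀ {ι : Type} {v : ι → E}, AlgebraicIndependent ℂ v → AlgebraicIndependent K v :=
    fun h => h.restrictScalars (algebraMap K ℂ).injective
  obtain ⟨⟨J0, hJ0c, hJ0⟩, hdim2⟩ := id hdim
  have hJ0K : AlgebraicIndependent K (fun j : J0 => ξ j) := by
    have := hdown ((hind J0).1 hJ0)
    rwa [hxy] at this
  have hnoK : ∀ J : Finset (Fin 3 ⊕ Fin 3), J.card = d + 1 →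
      ¬ AlgebraicIndependent K (fun j : J => ξ j) := by
    intro J hJ h
    have h1 := hdim2 J hJ
    unfold Indep at h1
    push Not at h1
    obtain ⟨f, hfJ, hfV, hf0⟩ := h1
    obtain ⟨g, hg0, hgJ, hgP⟩ := Pool.Agent.Y563.SE.descend S I hS ((hPV f).2 hfV) hf0 J hfJ
    apply hg0
    refine Pool.Agent.Y563.SE.eq_zero_of_indep h hgJ ?_
    have h2 := (hξ _).2 hgP
    rwa [aeval_map_algebraMap] at h2
  obtain ⟨a, s, Ω, iΩ, aΩ, τ, hτK, has, hlin, hT⟩ := comp K E ξ d (by omega) ⟨J0, hJ0c, hJ0K⟩ hnoK
  have hT' : ∀ (ι : Type) [Fintype ι] (T : ι → IntermediateField.adjoin K (Set.range ξ)),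
      Fintype.card ι < d → AlgebraicIndependent K T →
      AlgebraicIndependent ℂ (fun i => τ (T i)) := by
    intro ι _ T hc h
    have e : Fin (Fintype.card ι) ≃ ι := (Fintype.equivFin ι).symm
    have h1 := hT _ hc (T ∘ e) (h.comp e e.injective)
    exact (algebraicIndependent_equiv e (f := fun i => τ (T i))).1 h1
  set η : Fin 3 ⊕ Fin 3 → Ω := fun i => τ (gen K ξ i) with hη
  set I' : Ideal (MvPolynomial (Fin 3 ⊕ Fin 3) ℂ) :=
    RingHom.ker (aeval η : MvPolynomial _ ℂ →ₐ[ℂ] Ω).toRingHom with hI'
  have hI'p : I'.IsPrime := RingHom.ker_isPrime _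
  have hmem' : ∀ q, q ∈ I' ↔ aeval η q = 0 := fun q => RingHom.mem_ker
  set V' : Set (Fin 3 ⊕ Fin 3 → ℂ) :=
    {p | (∀ f ∈ I', eval p f = 0) ∧ ∀ j : Fin 3, p (Sum.inr j) ≠ 0} with hV'
  set x' : Fin 3 → Ω := fun i => η (Sum.inl i) with hx'
  set y' : Fin 3 → Ω := fun i => η (Sum.inr i) with hy'
  have hxy' : Sum.elim x' y' = η := by
    funext i
    rcases i with i | i <;> rfl
  have hyn' : ∀ l, y' l ≠ 0 := by
    intro l
    show τ (gen K ξ (Sum.inr l)) ≠ 0
    rw [Ne, map_eq_zero]
    intro h
    exact hyn l (congrArg Subtype.val h)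
  have hYne : (∏ l, y' l) ≠ 0 := Finset.prod_ne_zero_iff.2 fun l _ => hyn' l
  have hpt : ∀ g : MvPolynomial (Fin 3 ⊕ Fin 3) ℂ, aeval η g ≠ 0 → ∃ p ∈ V', eval p g ≠ 0 := by
    intro g hg
    obtain ⟨p, hp, hp2⟩ := Pool.Agent.Helper57.HT.exists_pt (ξ := η) 
      (g := g * ∏ l : Fin 3, X (Sum.inr l)) (by
      rw [map_mul, ← hxy', aeval_pry]
      rw [← hxy'] at hg
      exact mul_ne_zero hg hYne)
    rw [map_mul, eval_pry] at hp2
    refine ⟨p, ⟨fun f hf => hp f ((hmem' f).1 hf), fun j hj => ?_⟩, left_ne_zero_of_mul hp2⟩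
    exact right_ne_zero_of_mul hp2 (Finset.prod_eq_zero (Finset.mem_univ j) hj)
  have ha' : ∀ f, aeval (Sum.elim x' y') f = 0 ↔ ∀ p ∈ V', eval p f = 0 := by
    intro f
    rw [hxy']
    constructor
    · intro h p hp
      exact hp.1 f ((hmem' f).2 h)
    · intro h
      by_contra hcon
      obtain ⟨p, hp, hp2⟩ := hpt f hcon
      exact hp2 (h p hp)
  have hind' : ∀ J : Finset (Fin 3 ⊕ Fin 3), Indep V' J ↔
      AlgebraicIndependent ℂ (fun j : J => Sum.elim x' y' j) := by
    intro J
    constructor
    · intro h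
      rw [algebraicIndependent_iff]
      intro f hf
      have h1 : rename (Subtype.val : J → Fin 3 ⊕ Fin 3) f = 0 := by
        apply h
        · intro k hk
          obtain ⟨b, -, rfl⟩ := Finset.mem_image.mp (vars_rename Subtype.val f hk)
          exact b.2
        · rw [← ha', aeval_rename]
          exact hf
      exact rename_injective _ Subtype.val_injective (by rw [h1, map_zero])
    · intro h f hfv hf
      rw [← ha'] at hf
      rw [algebraicIndependent_iff] at h
      obtain ⟨g, hg⟩ := exists_rename_eq_of_vars_subset_range f (Subtype.val : J → Fin 3 ⊕ Fin 3)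
        Subtype.val_injective (by
          rw [Subtype.range_coe]
          exact_mod_cast hfv)
      have h1 : g = 0 := by
        apply h
        rw [← hg, aeval_rename] at hf
        exact hf
      rw [← hg, h1, map_zero]
  obtain ⟨p1, hp1, -⟩ := hpt 1 (by rw [map_one]; exact one_ne_zero)
  -- the elements of `K(ξ)`
  have hmemE : ∀ i, ξ i ∈ IntermediateField.adjoin K (Set.range ξ) := fun i =>
    IntermediateField.subset_adjoin K _ ⟨i, rfl⟩
  have hval : ∀ {ι : Type} (T : ι → IntermediateField.adjoin K (Set.range ξ)),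
      AlgebraicIndependent K (fun i => ((T i : IntermediateField.adjoin K (Set.range ξ)) : E)) →
      AlgebraicIndependent K T := by
    intro ι T h
    rw [← AlgHom.algebraicIndependent_iff (IntermediateField.adjoin K (Set.range ξ)).val
      Subtype.val_injective]
    exact h
  have hdtm : ∀ m : Fin 3 → ℤ, ((dt m (fun l => gen K ξ (Sum.inl l)) :
      IntermediateField.adjoin K (Set.range ξ)) : E) = dt m x := by
    intro m
    unfold dt
    push_cast
    rfl
  have hmonm : ∀ m : Fin 3 → ℤ, ((mon m (fun l => gen K ξ (Sum.inr l)) :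
      IntermediateField.adjoin K (Set.range ξ)) : E) = mon m y := by
    intro m
    unfold mon
    push_cast
    rfl
  have hdtτ : ∀ m : Fin 3 → ℤ, τ (dt m (fun l => gen K ξ (Sum.inl l))) = dt m x' := by
    intro m
    unfold dt
    rw [map_sum]
    refine Finset.sum_congr rfl fun l _ => ?_
    rw [map_mul, map_intCast]
  have hmonτ : ∀ m : Fin 3 → ℤ, τ (mon m (fun l => gen K ξ (Sum.inr l))) = mon m y' := by
    intro m
    unfold mon
    rw [map_prod]
    refine Finset.prod_congr rfl fun l _ => ?_
    rw [map_zpow₀]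
  have htrans : ∀ u : IntermediateField.adjoin K (Set.range ξ),
      (∀ c : ℂ, (u : E) ≠ algebraMap ℂ E c) → ∀ c : ℂ, τ u ≠ algebraMap ℂ Ω c := by
    intro u hu c hc
    have h1 : Transcendental ℂ (u : E) := by
      intro h
      obtain ⟨c, hc⟩ := const_of_alg h
      exact hu c hc
    have h2 : AlgebraicIndependent ℂ (fun _ : Unit => (u : E)) :=
      algebraicIndependent_unique_type_iff.2 h1
    have h3 := hT' Unit (fun _ => u) (by simp; omega) (hval _ (hdown h2))
    have h4 : Transcendental ℂ (τ u) := algebraicIndependent_unique_type_iff.1 h3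
    apply h4
    rw [hc]
    exact isAlgebraic_algebraMap c
  have hfree' : Free V' := by
    constructor
    · intro m hm c
      by_contra hcon
      push Not at hcon
      refine htrans (dt m (fun l => gen K ξ (Sum.inl l))) ?_ c ?_
      · intro c' hc'
        obtain ⟨p, hp, hpc⟩ := hfree.add m hm c'
        apply hpc
        have h1 := (ha (∑ l, C (m l : ℂ) * X (Sum.inl l) - C c')).1 (by
          rw [map_sub, map_sum, algHom_C, ← hc', hdtm]
          have : ∀ l, aeval (Sum.elim x y) (C (m l : ℂ) * X (Sum.inl l) :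
              MvPolynomial (Fin 3 ⊕ Fin 3) ℂ) = (m l : E) * x l := by
            intro l
            rw [map_mul, algHom_C, aeval_X, map_intCast]
            rfl
          rw [Finset.sum_congr rfl fun l _ => this l]
          unfold dt
          ring) p hp
        rw [map_sub, map_sum, eval_C, sub_eq_zero] at h1
        rw [← h1]
        refine Finset.sum_congr rfl fun l _ => ?_
        rw [map_mul, eval_C, eval_X]
      · rw [hdtτ]
        have h1 := (ha' (∑ l, C (m l : ℂ) * X (Sum.inl l) - C c)).2 (by
          intro p hp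
          rw [map_sub, map_sum, eval_C, sub_eq_zero, ← hcon p hp]
          refine Finset.sum_congr rfl fun l _ => ?_
          rw [map_mul, eval_C, eval_X])
        rw [map_sub, map_sum, algHom_C, sub_eq_zero] at h1
        rw [← h1]
        unfold dt
        refine Finset.sum_congr rfl fun l _ => ?_
        rw [map_mul, algHom_C, aeval_X, map_intCast]
        rfl
    · intro m hm c
      by_contra hcon
      push Not at hcon
      refine htrans (mon m (fun l => gen K ξ (Sum.inr l))) ?_ c ?_
      · intro c' hc'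
        obtain ⟨p, hp, hpc⟩ := hfree.mul m hm c'
        apply hpc
        have hpc := Pool.Agent.Q98.EG.prod_clear y hyn m
        have h0 : mon m y = algebraMap ℂ E c' := by
          rw [← hmonm]
          exact hc'
        have h1 := (ha (∏ l, X (Sum.inr l) ^ (m l).toNat -
          C c' * ∏ l, X (Sum.inr l) ^ (-(m l)).toNat)).1 (by
          rw [map_sub, map_mul, algHom_C, map_prod, map_prod, ← h0]
          simp only [map_pow, aeval_X, Sum.elim_inr]
          rw [sub_eq_zero]
          exact hpc.symm) p hp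
        rw [map_sub, map_mul, eval_C, map_prod, map_prod, sub_eq_zero] at h1
        simp only [map_pow, eval_X] at h1
        have hpne : ∀ l, p (Sum.inr l) ≠ 0 := ((hVmem p).1 hp).2
        have hpc2 := Pool.Agent.Q98.EG.prod_clear (fun l => p (Sum.inr l)) hpne m
        rw [← hpc2] at h1
        exact mul_right_cancel₀ (Finset.prod_ne_zero_iff.2 fun l _ => pow_ne_zero _ (hpne l)) h1
      · rw [hmonτ]
        have h1 := (ha' (∏ l, X (Sum.inr l) ^ (m l).toNat -
          C c * ∏ l, X (Sum.inr l) ^ (-(m l)).toNat)).2 (by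
          intro p hp
          rw [map_sub, map_mul, eval_C, map_prod, map_prod, sub_eq_zero, ← hcon p hp]
          simp only [map_pow, eval_X]
          exact (Pool.Agent.Q98.EG.prod_clear (fun l => p (Sum.inr l)) hp.2 m).symm)
        rw [map_sub, map_mul, algHom_C, map_prod, map_prod, sub_eq_zero] at h1
        simp only [map_pow, aeval_X, Sum.elim_inr] at h1
        have hpc2 := Pool.Agent.Q98.EG.prod_clear y' hyn' m
        rw [← hpc2] at h1
        exact mul_right_cancel₀ (Finset.prod_ne_zero_iff.2 fun l _ =>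
          pow_ne_zero _ (hyn' l)) h1
  have hrot' : Rotund V' := by
    intro M
    obtain ⟨J, hJc, hJ⟩ := hrot M
    refine ⟨J, hJc, ?_⟩
    have hJ3 : J.card ≤ 3 := by
      rw [hJc]
      have := Matrix.rank_le_card_width (M.map (Int.cast : ℤ → ℚ))
      rwa [Fintype.card_fin] at this
    set w : Fin 3 ⊕ Fin 3 → E := Sum.elim (fun i => dt (M i) x) (fun i => mon (M i) y) with hw
    set wk : Fin 3 ⊕ Fin 3 → IntermediateField.adjoin K (Set.range ξ) :=
      Sum.elim (fun i => dt (M i) (fun l => gen K ξ (Sum.inl l)))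
        (fun i => mon (M i) (fun l => gen K ξ (Sum.inr l))) with hwk
    set w' : Fin 3 ⊕ Fin 3 → Ω := Sum.elim (fun i => dt (M i) x') (fun i => mon (M i) y') with hw'
    have hwE : ∀ i, ((wk i : IntermediateField.adjoin K (Set.range ξ)) : E) = w i := by
      rintro (i | i)
      · exact hdtm (M i)
      · exact hmonm (M i)
    have hwτ : ∀ i, τ (wk i) = w' i := by
      rintro (i | i)
      · exact hdtτ (M i)
      · exact hmonτ (M i)
    have h7 : AlgebraicIndependent ℂ (fun j : J => w j) := by
      rw [algebraicIndependent_iff]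
      intro f hf
      have h8 : rename (Subtype.val : J → Fin 3 ⊕ Fin 3) f = 0 := by
        apply hJ
        · intro k hk
          obtain ⟨b, -, rfl⟩ := Finset.mem_image.mp (vars_rename Subtype.val f hk)
          exact b.2
        · rintro _ ⟨p, hp, rfl⟩
          obtain ⟨k, g', hg'⟩ := subst_poly M (rename (Subtype.val : J → Fin 3 ⊕ Fin 3) f)
          have h9 : aeval (Sum.elim x y) g' = 0 := by
            rw [hg' E x y hyn, aeval_rename]
            have : aeval (Sum.elim (fun l => dt (M l) x)
              (fun l => mon (M l) y) ∘ (Subtype.val : J → Fin 3 ⊕ Fin 3)) f = 0 := hf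
            rw [this, mul_zero]
          have h10 := (ha g').1 h9 p hp
          have hpne : ∀ l, p (Sum.inr l) ≠ 0 := ((hVmem p).1 hp).2
          have h11 := hg' ℂ (fun l => p (Sum.inl l)) (fun l => p (Sum.inr l)) hpne
          have h12 : (Sum.elim (fun l => p (Sum.inl l)) fun l => p (Sum.inr l)) = p := by
            funext i
            rcases i with i | i <;> rfl
          rw [h12, aeval_eq_eval, aeval_eq_eval] at h11
          have h13 : (∏ l, p (Sum.inr l)) ^ k ≠ 0 :=
            pow_ne_zero _ (Finset.prod_ne_zero_iff.2 fun l _ => hpne l)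
          have h14 : eval p g' = 0 := h10
          have h15 := h11.symm.trans h14
          exact (mul_eq_zero.1 h15).resolve_left h13
      exact rename_injective _ Subtype.val_injective (by rw [h8, map_zero])
    have h8 : AlgebraicIndependent K (fun j : J => wk j) := by
      apply hval
      have : (fun j : J => ((wk j : IntermediateField.adjoin K (Set.range ξ)) : E)) =
          fun j : J => w j := funext fun j => hwE j
      rw [this]
      exact hdown h7
    have h9 : AlgebraicIndependent ℂ (fun j : J => w' j) := by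
      have h10 := hT' J (fun j : J => wk j) (by rw [Fintype.card_coe]; omega) h8
      have : (fun j : J => τ (wk j)) = fun j : J => w' j := funext fun j => hwτ j
      rwa [this] at h10
    -- descend
    intro f hfv hf
    obtain ⟨k, g', hg'⟩ := subst_poly M f
    have h10 : aeval (Sum.elim x' y') g' = 0 := by
      rw [ha']
      intro p hp
      have hpne : ∀ l, p (Sum.inr l) ≠ 0 := hp.2
      have h11 := hg' ℂ (fun l => p (Sum.inl l)) (fun l => p (Sum.inr l)) hpne
      have h12 : (Sum.elim (fun l => p (Sum.inl l)) fun l => p (Sum.inr l)) = p := by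
        funext i
        rcases i with i | i <;> rfl
      rw [h12, aeval_eq_eval, aeval_eq_eval] at h11
      have h13 : eval (act M p) f = 0 := hf _ ⟨p, hp, rfl⟩
      have h14 : eval p g' = (∏ l, p (Sum.inr l)) ^ k * eval (act M p) f := h11
      rw [h14, h13, mul_zero]
    rw [hg' Ω x' y' hyn'] at h10
    have h11 : aeval w' f = 0 := (mul_eq_zero.1 h10).resolve_left (pow_ne_zero _ hYne)
    exact Pool.Agent.Y563.SE.eq_zero_of_indep h9 hfv h11
  have hlow : ∃ J : Finset (Fin 3 ⊕ Fin 3), J.card = d - 1 ∧ Indep V' J := by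
    obtain ⟨J, hJ, hJc⟩ := Finset.exists_subset_card_eq (show d - 1 ≤ J0.card by omega)
    refine ⟨J, hJc, ?_⟩
    rw [hind', hxy']
    have h1 : AlgebraicIndependent K (fun j : J => ξ j) :=
      hJ0K.comp (fun j : J => (⟨j, hJ j.2⟩ : J0)) (fun a b h => Subtype.ext (congrArg
        (fun z : J0 => (z : Fin 3 ⊕ Fin 3)) h))
    exact hT' J (fun j : J => gen K ξ j) (by rw [Fintype.card_coe]; omega) (hval _ h1)
  have hmapτ : ∀ q : MvPolynomial (Fin 3 ⊕ Fin 3) K,
      aeval η (MvPolynomial.map (algebraMap K ℂ) q) = τ (aeval (gen K ξ) q) := by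
    intro q
    induction q using MvPolynomial.induction_on with
    | C k =>
      rw [map_C, algHom_C, algHom_C, hτK]
      rfl
    | add p q hp hq => rw [map_add, map_add, map_add, map_add, hp, hq]
    | mul_X p i hp =>
      rw [map_mul, map_mul, map_mul, map_mul, hp, map_X, aeval_X, aeval_X]
  have hzero : ∀ q : MvPolynomial (Fin 3 ⊕ Fin 3) K, aeval ξ q = 0 →
      aeval η (MvPolynomial.map (algebraMap K ℂ) q) = 0 := by
    intro q hq
    have h2 : aeval (gen K ξ) q = 0 := by
      apply Subtype.val_injective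
      have h4 : ((aeval (gen K ξ) q : IntermediateField.adjoin K (Set.range ξ)) : E) =
          aeval ξ q :=
        MvPolynomial.comp_aeval_apply (gen K ξ) (IntermediateField.adjoin K (Set.range ξ)).val q
      rw [h4, hq]
      rfl
    rw [hmapτ, h2, map_zero]
  have hVV : V' ⊆ V := by
    intro p hp
    rw [hVmem]
    refine ⟨fun f hf => ?_, hp.2⟩
    have hle : I ≤ I' := by
      rw [hS, Ideal.span_le]
      rintro _ ⟨g, hg, rfl⟩
      show MvPolynomial.map (algebraMap K ℂ) g ∈ I'
      rw [hmem']
      have h1 : aeval ξ g = 0 := by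
        have h2 : MvPolynomial.map (algebraMap K ℂ) g ∈ I := by
          rw [hS]
          exact Ideal.subset_span ⟨g, hg, rfl⟩
        have h3 := (hξ _).2 h2
        rwa [aeval_map_algebraMap] at h3
      exact hzero g h1
    exact hp.1 f (hle hf)
  have hlinV : ∀ p ∈ V', ∑ j, a j * p j = s := by
    intro p hp
    have h1 : (∑ j, C (a j) * X j - C s : MvPolynomial (Fin 3 ⊕ Fin 3) ℂ) ∈ I' := by
      rw [hmem', map_sub, map_sum, algHom_C, ← hlin, sub_eq_zero]
      refine Finset.sum_congr rfl fun j _ => ?_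
      rw [map_mul, algHom_C, aeval_X]
    have h2 := hp.1 _ h1
    rw [map_sub, map_sum, eval_C, sub_eq_zero] at h2
    rw [← h2]
    refine Finset.sum_congr rfl fun j _ => ?_
    rw [map_mul, eval_C, eval_X]
  have hup : ∀ J : Finset (Fin 3 ⊕ Fin 3), J.card = d - 1 + 1 → ¬ Indep V' J := by
    intro J hJ h
    have hJd : J.card = d := by omega
    rw [hind', hxy'] at h
    have hK1 : AlgebraicIndependent K (fun j : J => η j) :=
      h.restrictScalars (algebraMap K ℂ).injective
    have hno : ∀ i, i ∉ J → IsAlgebraic (Algebra.adjoin K (η '' (J : Set (Fin 3 ⊕ Fin 3)))) (η i) := by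
      intro i hi
      by_contra hcon
      have h1 : AlgebraicIndepOn K η (insert i (J : Set (Fin 3 ⊕ Fin 3))) := by
        refine (AlgebraicIndepOn.insert_iff (by simpa using hi)).2 ⟨hK1, hcon⟩
      have h2 := hnoK (insert i J) (by rw [Finset.card_insert_of_notMem hi, hJd])
      rw [algebraicIndependent_iff] at h2
      push Not at h2
      obtain ⟨g, hg, hg0⟩ := h2
      apply hg0
      have h3 : aeval ξ (rename (fun j : {k // k ∈ insert i J} => (j : Fin 3 ⊕ Fin 3)) g) = 0 := by
        rw [aeval_rename]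
        exact hg
      have h4 := hzero _ h3
      rw [aeval_map_algebraMap] at h4
      have h5 : AlgebraicIndependent K
          (fun j : (insert i J : Finset (Fin 3 ⊕ Fin 3)) => η j) := by
        have := h1
        rw [← Finset.coe_insert] at this
        exact this
      have h6 := Pool.Agent.Y563.SE.eq_zero_of_indep h5 (r := rename
        (fun j : {k // k ∈ insert i J} => (j : Fin 3 ⊕ Fin 3)) g) (by
        intro k hk
        obtain ⟨b, -, rfl⟩ := Finset.mem_image.mp (vars_rename _ g hk)
        exact b.2) h4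
      exact rename_injective _ Subtype.val_injective (by rw [h6, map_zero])
    set D : Set Ω := Set.range (fun j => algebraMap ℂ Ω (a j)) ∪ η '' (J : Set (Fin 3 ⊕ Fin 3))
      with hD
    have halg : ∀ i, IsAlgebraic (Algebra.adjoin K D) (η i) := by
      intro i
      by_cases hi : i ∈ J
      · exact isAlgebraic_algebraMap (⟨η i, Algebra.subset_adjoin (Or.inr ⟨i, hi, rfl⟩)⟩ :
          Algebra.adjoin K D)
      · have hle : Algebra.adjoin K (η '' (J : Set (Fin 3 ⊕ Fin 3))) ≤ Algebra.adjoin K D :=
          Algebra.adjoin_mono Set.subset_union_right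
        let _ : Algebra (Algebra.adjoin K (η '' (J : Set (Fin 3 ⊕ Fin 3)))) (Algebra.adjoin K D) :=
          (Subalgebra.inclusion hle).toRingHom.toAlgebra
        have : IsScalarTower (Algebra.adjoin K (η '' (J : Set (Fin 3 ⊕ Fin 3))))
          (Algebra.adjoin K D) Ω := IsScalarTower.of_algebraMap_eq fun _ => rfl
        exact (hno i hi).extendScalars (Subalgebra.inclusion_injective hle)
    have halgs : IsAlgebraic (Algebra.adjoin K D) (algebraMap ℂ Ω s) := by
      rw [← hlin]
      refine Finset.sum_induction _ (fun u => IsAlgebraic (Algebra.adjoin K D) u)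
        (fun _ _ h1 h2 => h1.add h2) isAlgebraic_zero fun j _ => ?_
      refine IsAlgebraic.mul ?_ (halg j)
      exact isAlgebraic_algebraMap (⟨algebraMap ℂ Ω (a j),
        Algebra.subset_adjoin (Or.inl ⟨j, rfl⟩)⟩ : Algebra.adjoin K D)
    have hfam := has.sumElim_comp h
    have htr := hfam.transcendental_adjoin (s := {i | i ≠ Sum.inr (Sum.inr ())})
      (i := Sum.inr (Sum.inr ())) (by simp)
    have hset : (Sum.elim (fun j : J => η j) (algebraMap ℂ Ω ∘ Sum.elim a fun _ : Unit => s)) ''
        {i | i ≠ Sum.inr (Sum.inr ())} = D := by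
      ext u
      constructor
      · rintro ⟨(i | (i | i)), hi, rfl⟩
        · exact Or.inr ⟨i, i.2, rfl⟩
        · exact Or.inl ⟨i, rfl⟩
        · exact absurd rfl hi
      · rintro (⟨i, rfl⟩ | ⟨i, hi, rfl⟩)
        · exact ⟨Sum.inr (Sum.inl i), by simp, rfl⟩
        · exact ⟨Sum.inl ⟨i, hi⟩, by simp, rfl⟩
    rw [hset] at htr
    exact htr halgs
  obtain ⟨K', hK'c, hKK, hTK, hS'⟩ := exists_countable K (insert s (Set.range a))
    (Set.Countable.insert _ (Set.countable_range _)) I'
  exact ⟨I', V', a, s, K', hK'c, hKK, fun j => hTK (Set.mem_insert_of_mem _ ⟨j, rfl⟩),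
    hTK (Set.mem_insert _ _), has, hS', ⟨hI'p, rfl, ⟨p1, hp1⟩⟩, hfree', hrot', ⟨hlow, hup⟩, hVV,
    hlinV⟩

end Pool.Agent.Helper57.NT.Res2
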