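import Pool.Agent.Helper57.NT.Slc2

/-!
Project NT (helper57), part 16a (helper18): the free compositum over a generic hyperplane section.
-/

set_option autoImplicit false

open MvPolynomial MeasureTheory Filter Topology

namespace Pool.Agent.Helper57.NT.Res2

section gen

variable {k : Type} [Field k] {M : Type} [Field M] [Algebra k M]

variable (k) in
/-- algebraic closure operator over `k` -/
noncomputable def clo (S : Set M) : Set M := (AlgebraicIndependent.matroid k M).closure S

theorem mem_clo {S : Set M} {a : M} : a ∈ clo k S ↔ IsAlgebraic (Algebra.adjoin k S) a := by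
  rw [clo, AlgebraicIndependent.matroid_closure_eq, SetLike.mem_coe,
    Subalgebra.mem_algebraicClosure]

theorem subset_clo (S : Set M) : S ⊆ clo k S :=
  (AlgebraicIndependent.matroid k M).subset_closure S (Set.subset_univ S)

theorem clo_mono {S T : Set M} (h : S ⊆ T) : clo k S ⊆ clo k T :=
  (AlgebraicIndependent.matroid k M).closure_subset_closure h

theorem clo_trans {S T : Set M} (h : T ⊆ clo k S) : clo k T ⊆ clo k S :=
  (AlgebraicIndependent.matroid k M).closure_subset_closure_of_subset_closure h

theorem clo_sub {S : Set M} {a b : M} (ha : a ∈ clo k S) (hb : b ∈ clo k S) : a - b ∈ clo k S := by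
  rw [mem_clo] at *
  exact ha.sub hb

theorem clo_add {S : Set M} {a b : M} (ha : a ∈ clo k S) (hb : b ∈ clo k S) : a + b ∈ clo k S := by
  rw [mem_clo] at *
  exact ha.add hb

theorem clo_alg {S : Set M} (c : k) : algebraMap k M c ∈ clo k S := by
  rw [mem_clo]
  exact isAlgebraic_algebraMap (algebraMap k (Algebra.adjoin k S) c)

/-- independent families in the closure of few elements -/
theorem clo_card_le {J : Type} [Fintype J] {g : J → M} (h : AlgebraicIndependent k g)
    (S : Finset M) (hg : ∀ j, g j ∈ clo k (S : Set M)) : Fintype.card J ≤ S.card := by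
  classical
  have h1 : (AlgebraicIndependent.matroid k M).Indep (Set.range g) := by
    rw [AlgebraicIndependent.matroid_indep_iff]
    exact h.coe_range
  have h2 : Set.range g ⊆ (AlgebraicIndependent.matroid k M).closure (S : Set M) := by
    rintro _ ⟨j, rfl⟩
    exact hg j
  have h3 := h1.encard_le_eRk_of_subset h2
  rw [Matroid.eRk_closure_eq] at h3
  have h4 := h3.trans ((AlgebraicIndependent.matroid k M).eRk_le_encard (S : Set M))
  rw [Set.encard_coe_eq_coe_finsetCard, ← Set.image_univ, h.injective.encard_image,
    Set.encard_univ, ENat.card_eq_coe_fintype_card] at h4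
  exact_mod_cast h4

/-- a spanning family of the right size is independent -/
theorem indep_of_span {J : Type} [Fintype J] {g h : J → M} (hg : AlgebraicIndependent k g)
    (hh : ∀ j, g j ∈ clo k (Set.range h)) : AlgebraicIndependent k h := by
  classical
  have h1 : (AlgebraicIndependent.matroid k M).Indep (Set.range g) := by
    rw [AlgebraicIndependent.matroid_indep_iff]
    exact hg.coe_range
  have h2 : Set.range g ⊆ (AlgebraicIndependent.matroid k M).closure (Set.range h) := by
    rintro _ ⟨j, rfl⟩
    exact hh j
  have h3 := h1.encard_le_eRk_of_subset h2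
  rw [Matroid.eRk_closure_eq, ← Set.image_univ, hg.injective.encard_image] at h3
  have h4 : (Set.range h).encard ≤ (Set.univ : Set J).encard := by
    rw [← Set.image_univ]
    exact Set.encard_image_le h _
  have hfin : (Set.range h).Finite := Set.finite_range h
  have h5 : (AlgebraicIndependent.matroid k M).Indep (Set.range h) := by
    rw [Matroid.indep_iff_eRk_eq_encard_of_finite hfin]
    exact le_antisymm ((AlgebraicIndependent.matroid k M).eRk_le_encard _) (h4.trans h3)
  have h6 : Function.Injective h := by
    have h7 : (Set.univ : Set J).encard ≤ (h '' Set.univ).encard := by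
      rw [Set.image_univ]
      exact h3.trans ((AlgebraicIndependent.matroid k M).eRk_le_encard _)
    have h8 := (Set.finite_univ (α := J)).injOn_of_encard_image_eq
      (le_antisymm (Set.encard_image_le h _) h7)
    exact Set.injOn_univ.1 h8
  rw [AlgebraicIndependent.matroid_indep_iff] at h5
  have h7 : AlgebraicIndependent k (fun x : Set.range h => (x : M)) := h5
  have h8 := (algebraicIndependent_equiv (R := k) (Equiv.ofInjective h h6)
    (f := fun x : Set.range h => (x : M))).2 h7
  exact h8

/-- transport of the closure -/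
theorem clo_map {k' : Type} [Field k'] {M' : Type} [Field M'] [Algebra k' M'] (ι : k →+* k')
    (φ : M →+* M') (hφ : ∀ c : k, φ (algebraMap k M c) = algebraMap k' M' (ι c)) (S : Set M)
    (a : M) (h : a ∈ clo k S) : φ a ∈ clo k' (φ '' S) := by
  rw [mem_clo] at *
  have hm : ∀ x : Algebra.adjoin k S, φ (x : M) ∈ Algebra.adjoin k' (φ '' S) := by
    rintro ⟨x, hx⟩
    show φ x ∈ Algebra.adjoin k' (φ '' S)
    induction hx using Algebra.adjoin_induction with
    | mem x hx => exact Algebra.subset_adjoin ⟨x, hx, rfl⟩
    | algebraMap r => rw [hφ]; exact Subalgebra.algebraMap_mem _ _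
    | add x y _ _ hx hy => rw [map_add]; exact add_mem hx hy
    | mul x y _ _ hx hy => rw [map_mul]; exact mul_mem hx hy
  let f : Algebra.adjoin k S →+* Algebra.adjoin k' (φ '' S) :=
    (φ.comp (Algebra.adjoin k S).val.toRingHom).codRestrict (Algebra.adjoin k' (φ '' S)) hm
  refine h.ringHom_of_comp_eq f φ ?_ ?_
  · intro x y hxy
    have h1 : φ (x : M) = φ (y : M) := congrArg Subtype.val hxy
    exact Subtype.ext (φ.injective h1)
  · ext x
    rfl

end gen

/-- a big field -/
theorem exists_big (B : Type) : ∃ (Ω : Type) (_ : Field Ω) (_ : Algebra ℂ Ω) (x : B → Ω),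
    IsAlgClosed Ω ∧ AlgebraicIndependent ℂ x := by
  refine ⟨AlgebraicClosure (FractionRing (MvPolynomial B ℂ)), inferInstance, inferInstance,
    fun b => algebraMap (MvPolynomial B ℂ) _ (X b), inferInstance, ?_⟩
  have h1 : AlgebraicIndependent ℂ (X : B → MvPolynomial B ℂ) := algebraicIndependent_X B ℂ
  exact h1.map' (f := IsScalarTower.toAlgHom ℂ (MvPolynomial B ℂ)
    (AlgebraicClosure (FractionRing (MvPolynomial B ℂ)))) (by
      show Function.Injective (algebraMap (MvPolynomial B ℂ)
        (AlgebraicClosure (FractionRing (MvPolynomial B ℂ))))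
      rw [IsScalarTower.algebraMap_eq (MvPolynomial B ℂ) (FractionRing (MvPolynomial B ℂ))
        (AlgebraicClosure (FractionRing (MvPolynomial B ℂ)))]
      exact (algebraMap (FractionRing (MvPolynomial B ℂ))
        (AlgebraicClosure (FractionRing (MvPolynomial B ℂ)))).injective.comp
        (IsFractionRing.injective (MvPolynomial B ℂ) (FractionRing (MvPolynomial B ℂ))))

/-- extension of a homomorphism over a transcendence basis -/
theorem exists_ext {k M : Type} [Field k] [Field M] [Algebra k M] (ι : k →+* ℂ) :
    ∃ (Ω : Type) (_ : Field Ω) (_ : Algebra ℂ Ω) (φ : M →+* Ω) (B : Set M),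
      (∀ c : k, φ (algebraMap k M c) = algebraMap ℂ Ω (ι c)) ∧
      (AlgebraicIndependent.matroid k M).IsBase B ∧
      AlgebraicIndependent ℂ (fun b : B => φ b) := by
  obtain ⟨B, hB⟩ := exists_isTranscendenceBasis k M
  obtain ⟨Ω, iF, iA, x, hcl, hx⟩ := exists_big B
  let _ : Algebra k ℂ := ι.toAlgebra
  let _ : Algebra k Ω := ((algebraMap ℂ Ω).comp ι).toAlgebra
  have : IsScalarTower k ℂ Ω := IsScalarTower.of_algebraMap_eq fun _ => rfl
  have hx' : AlgebraicIndependent k x := hx.restrictScalars ι.injective
  let ψ : IntermediateField.adjoin k (Set.range (Subtype.val : B → M)) →ₐ[k] Ω :=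
    ((IntermediateField.adjoin k (Set.range x)).val.comp hx'.aevalEquivField.toAlgHom).comp
      hB.1.aevalEquivField.symm.toAlgHom
  let _ : Algebra (IntermediateField.adjoin k (Set.range (Subtype.val : B → M))) Ω :=
    ψ.toRingHom.toAlgebra
  have hψ : ∀ c, algebraMap (IntermediateField.adjoin k (Set.range (Subtype.val : B → M))) Ω c =
    ψ c := fun _ => rfl
  have halg : Algebra.IsAlgebraic (IntermediateField.adjoin k
    (Set.range (Subtype.val : B → M))) M := hB.isAlgebraic_field
  let Φ : M →ₐ[IntermediateField.adjoin k (Set.range (Subtype.val : B → M))] Ω := IsAlgClosed.lift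
  refine ⟨Ω, iF, iA, Φ.toRingHom, B, ?_, ?_, ?_⟩
  · intro c
    have h1 : algebraMap k M c = algebraMap (IntermediateField.adjoin k
      (Set.range (Subtype.val : B → M))) M (algebraMap k _ c) := rfl
    show Φ (algebraMap k M c) = algebraMap ℂ Ω (ι c)
    rw [h1, Φ.commutes, hψ, AlgHom.commutes]
    rfl
  · rw [AlgebraicIndependent.matroid_isBase_iff]
    exact hB
  · have h2 : ∀ b : B, Φ (b : M) = x b := by
      intro b
      have h1 : (b : M) = algebraMap (IntermediateField.adjoin k
        (Set.range (Subtype.val : B → M))) M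
        (hB.1.aevalEquivField (algebraMap (MvPolynomial B k) _ (X b))) := by
        show _ = ((hB.1.aevalEquivField (algebraMap (MvPolynomial B k) _ (X b)) :
          IntermediateField.adjoin k (Set.range (Subtype.val : B → M))) : M)
        rw [hB.1.aevalEquivField_algebraMap_apply_coe, aeval_X]
      rw [h1, Φ.commutes, hψ]
      show ((hx'.aevalEquivField (hB.1.aevalEquivField.symm (hB.1.aevalEquivField
        (algebraMap (MvPolynomial B k) _ (X b)))) : IntermediateField.adjoin k (Set.range x)) : Ω)
        = x b
      rw [AlgEquiv.symm_apply_apply, hx'.aevalEquivField_algebraMap_apply_coe, aeval_X]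
    have h3 : (fun b : B => Φ.toRingHom (b : M)) = x := funext h2
    rw [h3]
    exact hx

/-- the free compositum -/
theorem exists_free {k M : Type} [Field k] [Field M] [Algebra k M] (ι : k →+* ℂ) :
    ∃ (Ω : Type) (_ : Field Ω) (_ : Algebra ℂ Ω) (φ : M →+* Ω),
      (∀ c : k, φ (algebraMap k M c) = algebraMap ℂ Ω (ι c)) ∧
      ∀ (n : ℕ) (T : Fin n → M), AlgebraicIndependent k T →
        AlgebraicIndependent ℂ (fun i => φ (T i)) := by
  classical
  obtain ⟨Ω, iF, iA, φ, B, hφ, hB, hi⟩ := exists_ext (M := M) ι
  refine ⟨Ω, iF, iA, φ, hφ, fun n T hT => ?_⟩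
  -- a finite part of the basis
  have h1 : ∀ i, ∃ S : Finset M, (S : Set M) ⊆ B ∧ T i ∈ clo k (S : Set M) := by
    intro i
    have h2 : T i ∈ (AlgebraicIndependent.matroid k M).closure B := by
      rw [hB.closure_eq]
      exact Set.mem_univ _
    obtain ⟨S, hS1, hS2, -, hS3⟩ := Matroid.exists_mem_finite_closure_of_mem_closure h2
    refine ⟨hS2.toFinset, by simpa using hS1, ?_⟩
    rw [Set.Finite.coe_toFinset]
    exact hS3
  choose S hSB hST using h1
  set S0 : Finset M := Finset.univ.biUnion S with hS0
  have hS0B : (S0 : Set M) ⊆ B := by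
    intro x hx
    rw [hS0, Finset.coe_biUnion] at hx
    simp only [Set.mem_iUnion] at hx
    obtain ⟨i, -, hi⟩ := hx
    exact hSB i hi
  have hTS : Set.range T ⊆ clo k (S0 : Set M) := by
    rintro _ ⟨i, rfl⟩
    refine clo_mono ?_ (hST i)
    rw [hS0]
    exact_mod_cast Finset.subset_biUnion_of_mem S (Finset.mem_univ i)
  have hTi : (AlgebraicIndependent.matroid k M).Indep (Set.range T) := by
    rw [AlgebraicIndependent.matroid_indep_iff]
    exact hT.coe_range
  have hSi : (AlgebraicIndependent.matroid k M).Indep (S0 : Set M) := hB.indep.subset hS0B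
  obtain ⟨J, hJ, hTJ⟩ := hTi.subset_isBasis_of_subset hTS
  have hJc : J.encard = (S0 : Set M).encard := by
    rw [hJ.encard_eq_eRk, clo, Matroid.eRk_closure_eq, hSi.eRk_eq_encard]
  have hJf : J.Finite := by
    rw [← Set.encard_lt_top_iff, hJc]
    exact Set.encard_lt_top_iff.2 S0.finite_toSet
  have := hJf.fintype
  have hcard : Fintype.card S0 = Fintype.card J := by
    have h2 : (Fintype.card J : ℕ∞) = (Fintype.card S0 : ℕ∞) := by
      rw [← ENat.card_eq_coe_fintype_card, ← ENat.card_eq_coe_fintype_card]
      exact hJc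
    exact_mod_cast h2.symm
  let e : S0 ≃ J := Fintype.equivOfCardEq hcard
  have hg : AlgebraicIndependent ℂ (fun b : S0 => φ (b : M)) :=
    hi.comp (fun b : S0 => (⟨b, hS0B b.2⟩ : B)) (fun a b h => Subtype.ext (congrArg (fun z : B => (z : M)) h))
  have hspan := indep_of_span (k := ℂ) hg (h := fun b : S0 => φ (e b : M)) (by
    intro b
    have h2 : (b : M) ∈ clo k J := by
      have h3 := hJ.subset_closure
      exact h3 (subset_clo _ b.2)
    have h3 := clo_map ι φ hφ J b h2
    refine clo_mono ?_ h3
    rintro _ ⟨x, hx, rfl⟩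
    exact ⟨e.symm ⟨x, hx⟩, by simp⟩)
  have hJind : AlgebraicIndependent ℂ (fun x : J => φ (x : M)) :=
    (algebraicIndependent_equiv e (f := fun x : J => φ (x : M))).1 hspan
  exact hJind.comp (fun i => (⟨T i, hTJ ⟨i, rfl⟩⟩ : J))
    (fun a b h => hT.injective (congrArg (fun z : J => (z : M)) h))

section gen2

variable {K : Type} [Field K] {F : Type} [Field F] [Algebra K F] {σ : Type}

/-- translation of one variable -/
theorem exists_trans [DecidableEq σ] (j : σ) :
    ∃ φ : FractionRing (MvPolynomial σ F) ≃ₐ[F] FractionRing (MvPolynomial σ F),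
      ∀ i, φ (algebraMap (MvPolynomial σ F) _ (X i)) =
        algebraMap (MvPolynomial σ F) _ (X i) + if i = j then 1 else 0 := by
  let u : MvPolynomial σ F →ₐ[F] MvPolynomial σ F := aeval fun i => X i + if i = j then 1 else 0
  let v : MvPolynomial σ F →ₐ[F] MvPolynomial σ F := aeval fun i => X i - if i = j then 1 else 0
  let w : MvPolynomial σ F ≃ₐ[F] MvPolynomial σ F := AlgEquiv.ofAlgHom u v
    (by
      refine MvPolynomial.algHom_ext fun i => ?_
      show u (v (X i)) = X i
      simp only [u, v, aeval_X, map_sub]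
      split_ifs <;> simp)
    (by
      refine MvPolynomial.algHom_ext fun i => ?_
      show v (u (X i)) = X i
      simp only [u, v, aeval_X, map_add]
      split_ifs <;> simp)
  refine ⟨IsFractionRing.algEquivOfAlgEquiv w, fun i => ?_⟩
  rw [IsFractionRing.algEquivOfAlgEquiv_algebraMap]
  show algebraMap _ _ (u (X i)) = _
  simp only [u, aeval_X, map_add]
  split_ifs <;> simp

/-- the variables -/
noncomputable def va (F : Type) [Field F] (σ : Type) (i : σ) : FractionRing (MvPolynomial σ F) :=
  algebraMap (MvPolynomial σ F) _ (X i)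

theorem va_indep : AlgebraicIndependent F (va F σ) := by
  have h1 : AlgebraicIndependent F (X : σ → MvPolynomial σ F) := algebraicIndependent_X σ F
  exact h1.map' (f := IsScalarTower.toAlgHom F (MvPolynomial σ F)
    (FractionRing (MvPolynomial σ F))) (IsFractionRing.injective (MvPolynomial σ F)
      (FractionRing (MvPolynomial σ F)))

theorem fact1 [Fintype σ] (ξ : σ → F) (d n : ℕ) (hn : n < d) (J : Finset σ) (hJ : J.card = d)
    (hind : AlgebraicIndependent K (fun j : J => ξ j)) (T : Fin n → F)
    (hT : AlgebraicIndependent K T) :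
    AlgebraicIndependent K (Sum.elim (fun i => algebraMap F (FractionRing (MvPolynomial σ F)) (T i))
      (Sum.elim (va F σ) fun _ : Unit => ∑ j, va F σ j *
        algebraMap F (FractionRing (MvPolynomial σ F)) (ξ j))) := by
  classical
  set M := FractionRing (MvPolynomial σ F) with hM
  set f : M := ∑ j, va F σ j * algebraMap F M (ξ j) with hf
  have h1 : AlgebraicIndependent K (Sum.elim (va F σ) (algebraMap F M ∘ T)) :=
    AlgebraicIndependent.sumElim_comp hT va_indep
  set S : Set M := Set.range (Sum.elim (va F σ) (algebraMap F M ∘ T)) with hS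
  have h2 : f ∉ clo K S := by
    intro h
    have h3 : ∀ j, algebraMap F M (ξ j) ∈ clo K S := by
      intro j
      obtain ⟨φ, hφ⟩ := exists_trans (F := F) (σ := σ) j
      have h4 := clo_map (RingHom.id K) (φ : M →+* M) (fun c => by
        have h5 : algebraMap K M c = algebraMap F M (algebraMap K F c) :=
          IsScalarTower.algebraMap_apply K F M c
        rw [RingHom.id_apply, h5]
        exact φ.commutes _) S f h
      have h5 : (φ : M →+* M) '' S ⊆ clo K S := by
        rintro _ ⟨_, ⟨i | i, rfl⟩, rfl⟩
        · show φ (va F σ i) ∈ clo K S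
          have h6 : φ (va F σ i) = va F σ i + if i = j then 1 else 0 := hφ i
          rw [h6]
          refine clo_add (subset_clo S ⟨Sum.inl i, rfl⟩) ?_
          split_ifs
          · have := clo_alg (k := K) (S := S) 1
            rwa [map_one] at this
          · have := clo_alg (k := K) (S := S) 0
            rwa [map_zero] at this
        · show φ (algebraMap F M (T i)) ∈ clo K S
          rw [φ.commutes]
          exact subset_clo S ⟨Sum.inr i, rfl⟩
      have h6 : φ f ∈ clo K S := clo_trans h5 h4
      have h7 : φ f = f + algebraMap F M (ξ j) := by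
        rw [hf, map_sum]
        have h8 : ∀ i, φ (va F σ i * algebraMap F M (ξ i)) =
            va F σ i * algebraMap F M (ξ i) + if i = j then algebraMap F M (ξ i) else 0 := by
          intro i
          have h9 : φ (va F σ i) = va F σ i + if i = j then 1 else 0 := hφ i
          rw [map_mul, φ.commutes, h9]
          split_ifs <;> ring
        rw [Finset.sum_congr rfl fun i _ => h8 i, Finset.sum_add_distrib, Finset.sum_ite_eq'
          Finset.univ j]
        simp
      have h8 : algebraMap F M (ξ j) = φ f - f := by rw [h7]; ring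
      rw [h8]
      exact clo_sub h6 h
    have h4 : AlgebraicIndependent K (Sum.elim (va F σ) (algebraMap F M ∘ fun j : J => ξ j)) :=
      AlgebraicIndependent.sumElim_comp hind va_indep
    have hSf : S.Finite := Set.finite_range _
    have h5 := clo_card_le h4 hSf.toFinset (by
      rw [Set.Finite.coe_toFinset]
      rintro (i | j)
      · exact subset_clo S ⟨Sum.inl i, rfl⟩
      · exact h3 j)
    have h6 : hSf.toFinset.card ≤ Fintype.card (σ ⊕ Fin n) := by
      have h7 : hSf.toFinset = Finset.univ.image (Sum.elim (va F σ) (algebraMap F M ∘ T)) := by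
        ext x
        simp [hS]
      rw [h7]
      exact Finset.card_image_le.trans (by simp)
    simp only [Fintype.card_sum, Fintype.card_coe, Fintype.card_fin, hJ] at h5 h6
    omega
  rw [mem_clo] at h2
  have h3 : AlgebraicIndependent (Algebra.adjoin K S) (fun _ : Unit => f) := by
    rw [algebraicIndependent_unique_type_iff]
    exact h2
  have h4 := h1.sumElim h3
  let e : Fin n ⊕ (σ ⊕ Unit) ≃ Unit ⊕ (σ ⊕ Fin n) :=
    { toFun := Sum.elim (fun i => Sum.inr (Sum.inr i)) (Sum.elim (fun i => Sum.inr (Sum.inl i))
        fun u => Sum.inl u)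
      invFun := Sum.elim (fun u => Sum.inr (Sum.inr u)) (Sum.elim (fun i => Sum.inr (Sum.inl i))
        fun i => Sum.inl i)
      left_inv := by rintro (i | i | i) <;> rfl
      right_inv := by rintro (i | i | i) <;> rfl }
  have h5 := (algebraicIndependent_equiv e).2 h4
  convert h5 using 1
  funext i
  rcases i with i | i | i <;> rfl

end gen2

open scoped IntermediateField.algebraAdjoinAdjoin in
theorem indep_adjoin {K M : Type} [Field K] [Field M] [Algebra K M] {α β : Type} {T : α → M}
    {u : β → M} (h : AlgebraicIndependent K (Sum.elim T u)) :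
    AlgebraicIndependent (IntermediateField.adjoin K (Set.range u)) T := by
  have h1 := (AlgebraicIndependent.sumElim_iff.1 h).2
  exact h1.extendScalars (IntermediateField.adjoin K (Set.range u))

theorem comp : S_comp := by
  classical
  intro K hK E iE aE ξ d hd hJ hno
  obtain ⟨J, hJc, hJi⟩ := hJ
  let F := IntermediateField.adjoin K (Set.range ξ)
  let η : Fin 3 ⊕ Fin 3 → F := gen K ξ
  have hηi : AlgebraicIndependent K (fun j : J => η j) :=
    AlgebraicIndependent.of_comp F.val hJi
  let M := FractionRing (MvPolynomial (Fin 3 ⊕ Fin 3) F)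
  let f : M := ∑ j, va F (Fin 3 ⊕ Fin 3) j * algebraMap F M (η j)
  let u : (Fin 3 ⊕ Fin 3) ⊕ Unit → M := Sum.elim (va F (Fin 3 ⊕ Fin 3)) fun _ : Unit => f
  have hfact : ∀ n : ℕ, n < d → ∀ T : Fin n → F, AlgebraicIndependent K T →
      AlgebraicIndependent K (Sum.elim (fun i => algebraMap F M (T i)) u) := fun n hn T hT =>
    fact1 η d n hn J hJc hηi T hT
  have hu : AlgebraicIndependent K u := by
    have h1 := hfact 0 (by omega) (fun i => i.elim0) algebraicIndependent_empty_type
    exact h1.comp Sum.inr Sum.inr_injective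
  obtain ⟨c, hc⟩ := (ae_indep (σ := (Fin 3 ⊕ Fin 3) ⊕ Unit) K).exists
  let ι : IntermediateField.adjoin K (Set.range u) →+* ℂ :=
    (((IntermediateField.adjoin K (Set.range c)).val.comp hc.aevalEquivField.toAlgHom).comp
      hu.aevalEquivField.symm.toAlgHom).toRingHom
  have hιK : ∀ x : K, ι (algebraMap K _ x) = (x : ℂ) := by
    intro x
    exact AlgHom.commutes (((IntermediateField.adjoin K (Set.range c)).val.comp
      hc.aevalEquivField.toAlgHom).comp hu.aevalEquivField.symm.toAlgHom) x
  have hιu : ∀ i, ∃ z : IntermediateField.adjoin K (Set.range u),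
      (z : M) = u i ∧ ι z = c i := by
    intro i
    refine ⟨hu.aevalEquivField (algebraMap (MvPolynomial _ K) _ (X i)), ?_, ?_⟩
    · rw [hu.aevalEquivField_algebraMap_apply_coe, aeval_X]
    · show ((hc.aevalEquivField (hu.aevalEquivField.symm (hu.aevalEquivField
        (algebraMap (MvPolynomial _ K) _ (X i)))) : IntermediateField.adjoin K (Set.range c)) : ℂ)
        = c i
      rw [AlgEquiv.symm_apply_apply, hc.aevalEquivField_algebraMap_apply_coe, aeval_X]
  obtain ⟨Ω, iΩ, aΩ, φ, hφ, hT⟩ := exists_free (M := M) ι
  have hφu : ∀ i, φ (u i) = algebraMap ℂ Ω (c i) := by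
    intro i
    obtain ⟨z, hz1, hz2⟩ := hιu i
    rw [← hz1, ← hz2]
    exact hφ z
  refine ⟨fun j => c (Sum.inl j), c (Sum.inr ()), Ω, iΩ, aΩ, φ.comp (algebraMap F M), ?_, ?_, ?_,
    ?_⟩
  · intro x
    have h1 := hφ (algebraMap K _ x)
    rw [hιK] at h1
    exact h1
  · have : (Sum.elim (fun j => c (Sum.inl j)) fun _ : Unit => c (Sum.inr ())) = c := by
      funext i
      rcases i with i | i <;> rfl
    rw [this]
    exact hc
  · have h1 : φ f = algebraMap ℂ Ω (c (Sum.inr ())) := hφu (Sum.inr ())
    rw [← h1]
    show _ = φ (∑ j, va F (Fin 3 ⊕ Fin 3) j * algebraMap F M (η j))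
    rw [map_sum]
    refine Finset.sum_congr rfl fun j _ => ?_
    rw [map_mul]
    have h2 : φ (va F (Fin 3 ⊕ Fin 3) j) = algebraMap ℂ Ω (c (Sum.inl j)) := hφu (Sum.inl j)
    rw [h2]
    rfl
  · intro n hn T hTi
    exact hT n (fun i => algebraMap F M (T i)) (indep_adjoin (hfact n hn T hTi))

end Pool.Agent.Helper57.NT.Res2
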