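import Pool.Agent.Helper57.NT.Soft

/-!
Project NT (helper57): exponential sums along leaves, upper and lower bounds.
-/

set_option autoImplicit false

namespace Pool.Agent.Helper57.NT

open MvPolynomial Filter Topology Metric Pool.Agent.Q72.EG

/-- bounded functions are Lipschitz on smaller discs -/
theorem lip_of_bdd {f : ℂ → ℂ} {z : ℂ} {r C : ℝ} (hf : DifferentiableOn ℂ f (ball z (r + 1)))
    (hb : ∀ s ∈ ball z (r + 1), ‖f s‖ ≤ C) : ∀ s ∈ ball z r, ∀ t ∈ ball z r,
    ‖f s - f t‖ ≤ 2 * C * ‖s - t‖ := by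
  intro s hs t ht
  refine (convex_ball z r).norm_image_sub_le_of_norm_deriv_le (𝕜 := ℂ) (f := f) ?_ ?_ ht hs
  · intro x hx
    exact hf.differentiableAt (isOpen_ball.mem_nhds (ball_subset_ball (by linarith) hx))
  · intro x hx
    have hsub : closedBall x (1 / 2) ⊆ ball z (r + 1) := by
      intro y hy
      rw [mem_closedBall] at hy
      rw [mem_ball] at hx ⊢
      linarith [dist_triangle y x z]
    have h1 := Complex.norm_deriv_le_of_forall_mem_sphere_norm_le (f := f) (c := x) (R := 1 / 2)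
      (C := C) (by norm_num) (by
        refine DifferentiableOn.diffContOnCl ?_
        rw [closure_ball _ (by norm_num)]
        exact hf.mono hsub) (fun y hy => hb y (hsub (sphere_subset_closedBall hy)))
    refine h1.trans (le_of_eq ?_)
    ring

variable {σ : Type} [Fintype σ] {E : Type} [Field E] [Algebra ℂ E]
variable {ξ : σ → E} {i2 i3 : σ} {p : ℕ → ℂ → σ → ℂ}

theorem unif (L : Lf ξ i2 i3 p) (U : Ultrafilter ℕ) (hU : (U : Filter ℕ) ≤ atTop) {κ : ℂ}
    (hκ : ∀ s ∈ ball (0 : ℂ) 13,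
      Tendsto (fun m : ℕ => p m s i2 / Complex.exp m) U (𝓝 (κ * Complex.exp s))) {ε : ℝ}
    (hε : 0 < ε) : ∀ᶠ m : ℕ in (U : Filter ℕ), ∀ s ∈ closedBall (0 : ℂ) 11,
      ‖p m s i2 / Complex.exp m - κ * Complex.exp s‖ ≤ ε := by
  obtain ⟨C, hC⟩ := L.x2
  have hlip : ∀ᶠ m : ℕ in (U : Filter ℕ), ∀ s ∈ ball (0 : ℂ) 12, ∀ t ∈ ball (0 : ℂ) 12,
      ‖p m s i2 / Complex.exp m - p m t i2 / Complex.exp m‖ ≤ (2 * |C| + 1) * ‖s - t‖ := by
    filter_upwards [hU hC, hU L.dif] with m hC hd s hs t ht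
    have h13 : (12 : ℝ) + 1 = 13 := by norm_num
    have h1 := lip_of_bdd (f := fun s => p m s i2 / Complex.exp m) (z := 0) (r := 12) (C := |C|)
      (by
        intro x hx
        rw [h13] at hx
        exact ((hd x hx i2).div_const _).differentiableAt.differentiableWithinAt)
      (by
        intro x hx
        rw [h13] at hx
        rw [norm_div, norm_exp_nat, div_le_iff₀ (Real.exp_pos _)]
        refine (hC x hx).trans ?_
        gcongr
        exact le_abs_self C) s hs t ht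
    refine h1.trans ?_
    gcongr
    linarith
  have h2 := Pool.Agent.Helper57.HT.tluo (φ := (U : Filter ℕ)) (K := 2 * |C| + 1) (by positivity) hlip
    (Λ := fun s => κ * Complex.exp s) (fun s hs => hκ s (ball_subset_ball (by norm_num) hs))
  rw [tendstoLocallyUniformlyOn_iff_forall_isCompact isOpen_ball] at h2
  have h3 := h2 (closedBall 0 11) (closedBall_subset_ball (by norm_num)) (isCompact_closedBall _ _)
  rw [Metric.tendstoUniformlyOn_iff] at h3
  filter_upwards [h3 ε hε] with m hm s hs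
  have := (hm s hs).le
  rwa [dist_comm, dist_eq_norm] at this

theorem exu (L : Lf ξ i2 i3 p) (U : Ultrafilter ℕ) (hU : (U : Filter ℕ) ≤ atTop) {κ : ℂ}
    (hκ : ∀ s ∈ ball (0 : ℂ) 13,
      Tendsto (fun m : ℕ => p m s i2 / Complex.exp m) U (𝓝 (κ * Complex.exp s))) (k : ℤ × ℤ) {ε : ℝ}
    (hε : 0 < ε) : ∀ᶠ m : ℕ in (U : Filter ℕ), ∀ s ∈ closedBall (0 : ℂ) 11,
      |(ex i2 i3 (p m s) k).re - (Complex.exp m * (fr κ k * Complex.exp s)).re| ≤
        ε * Real.exp m := by
  have h1 := unif L U hU hκ (ε := ε / (|(k.1 : ℝ)| + 1)) (by positivity)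
  filter_upwards [h1, hU L.x3] with m h1 h3 s hs
  have hs13 : s ∈ ball (0 : ℂ) 13 := closedBall_subset_ball (by norm_num) hs
  rw [← Complex.sub_re]
  refine (Complex.abs_re_le_norm _).trans ?_
  have h4 : Complex.exp (m : ℂ) ≠ 0 := Complex.exp_ne_zero _
  have e1 : ex i2 i3 (p m s) k - Complex.exp m * (fr κ k * Complex.exp s) =
      Complex.exp m * ((k.1 : ℂ) * (p m s i2 / Complex.exp m - κ * Complex.exp s)) := by
    simp only [ex, fr]
    rw [h3 s hs13]
    field_simp
    ring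
  rw [e1, norm_mul, norm_mul, norm_exp_nat, mul_comm]
  have h5 := h1 s hs
  have h6 : ‖(k.1 : ℂ)‖ = |(k.1 : ℝ)| := by
    rw [← Complex.ofReal_intCast, Complex.norm_real, Real.norm_eq_abs]
  rw [h6]
  gcongr
  calc |(k.1 : ℝ)| * ‖p m s i2 / Complex.exp m - κ * Complex.exp s‖ ≤
      |(k.1 : ℝ)| * (ε / (|(k.1 : ℝ)| + 1)) := by gcongr
    _ ≤ ε := by
      rw [mul_div_assoc', div_le_iff₀ (by positivity)]
      nlinarith [abs_nonneg (k.1 : ℝ)]

theorem re_exp_mul (m : ℕ) (w : ℂ) : (Complex.exp m * w).re = Real.exp m * w.re := by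
  rw [← Complex.ofReal_natCast, ← Complex.ofReal_exp, Complex.re_ofReal_mul]

/-- upper bound -/
theorem upper (L : Lf ξ i2 i3 p) (U : Ultrafilter ℕ) (hU : (U : Filter ℕ) ≤ atTop) {κ : ℂ}
    (hκ : ∀ s ∈ ball (0 : ℂ) 13,
      Tendsto (fun m : ℕ => p m s i2 / Complex.exp m) U (𝓝 (κ * Complex.exp s)))
    (S : Finset (ℤ × ℤ)) (c : ℤ × ℤ → MvPolynomial σ ℂ) {ε : ℝ} (hε : 0 < ε) :
    ∀ᶠ m : ℕ in (U : Filter ℕ), ∀ s ∈ closedBall (0 : ℂ) 11, ∀ H : ℝ,
      (∀ k ∈ S, (fr κ k * Complex.exp s).re ≤ H) →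
      ‖∑ k ∈ S, eval (p m s) (c k) * Complex.exp (ex i2 i3 (p m s) k)‖ ≤
        Real.exp ((H + ε) * Real.exp m) := by
  have h1 : ∀ k ∈ S, ∀ᶠ m : ℕ in (U : Filter ℕ), ∀ s ∈ closedBall (0 : ℂ) 11,
      (S.card + 1) * ‖eval (p m s) (c k)‖ ≤ Real.exp (ε / 2 * Real.exp m) := by
    intro k _
    obtain ⟨C, hC⟩ := L.up (c k)
    filter_upwards [hU hC, hU (small_ev (S.card + 1) C (ε / 2) (by positivity))] with m h1 h2 s hs
    refine le_trans ?_ h2
    gcongr
    exact h1 s (closedBall_subset_ball (by norm_num) hs)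
  have h2 : ∀ k ∈ S, ∀ᶠ m : ℕ in (U : Filter ℕ), ∀ s ∈ closedBall (0 : ℂ) 11,
      |(ex i2 i3 (p m s) k).re - (Complex.exp m * (fr κ k * Complex.exp s)).re| ≤
        ε / 2 * Real.exp m := fun k _ => exu L U hU hκ k (by positivity)
  filter_upwards [(Finset.eventually_all S).2 h1, (Finset.eventually_all S).2 h2] with m h1 h2 s hs H hH
  have hcard : (0 : ℝ) < S.card + 1 := by positivity
  calc ‖∑ k ∈ S, eval (p m s) (c k) * Complex.exp (ex i2 i3 (p m s) k)‖ ≤
      ∑ k ∈ S, ‖eval (p m s) (c k) * Complex.exp (ex i2 i3 (p m s) k)‖ := norm_sum_le _ _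
    _ ≤ ∑ _k ∈ S, (Real.exp ((H + ε) * Real.exp m) / (S.card + 1)) := by
      refine Finset.sum_le_sum fun k hk => ?_
      rw [norm_mul, Complex.norm_exp]
      have h3 : ‖eval (p m s) (c k)‖ ≤ Real.exp (ε / 2 * Real.exp m) / (S.card + 1) := by
        rw [le_div_iff₀ hcard, mul_comm]
        exact h1 k hk s hs
      have h4 : (ex i2 i3 (p m s) k).re ≤ (H + ε / 2) * Real.exp m := by
        have h5 := h2 k hk s hs
        rw [abs_le, re_exp_mul] at h5
        have h6 := hH k hk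
        have := Real.exp_pos (m : ℝ)
        nlinarith [h5.2]
      calc _ ≤ Real.exp (ε / 2 * Real.exp m) / (S.card + 1) *
            Real.exp ((H + ε / 2) * Real.exp m) := by
            refine mul_le_mul h3 (Real.exp_le_exp.2 h4) (Real.exp_pos _).le (by positivity)
        _ = _ := by
            rw [div_mul_eq_mul_div, ← Real.exp_add]
            congr 2
            ring
    _ = S.card * (Real.exp ((H + ε) * Real.exp m) / (S.card + 1)) := by
      rw [Finset.sum_const, nsmul_eq_mul]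
    _ ≤ Real.exp ((H + ε) * Real.exp m) := by
      rw [mul_div_assoc', div_le_iff₀ hcard]
      nlinarith [Real.exp_pos ((H + ε) * Real.exp m)]

/-- lower bound near points with one dominating frequency -/
theorem lower (L : Lf ξ i2 i3 p) (U : Ultrafilter ℕ) (hU : (U : Filter ℕ) ≤ atTop) {κ : ℂ}
    (hκ : ∀ s ∈ ball (0 : ℂ) 13,
      Tendsto (fun m : ℕ => p m s i2 / Complex.exp m) U (𝓝 (κ * Complex.exp s)))
    (S : Finset (ℤ × ℤ)) (c : ℤ × ℤ → MvPolynomial σ ℂ) (hc : ∀ k ∈ S, aeval ξ (c k) ≠ 0)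
    {l : ℤ × ℤ} (hl : l ∈ S) {z : ℂ} (hz : z ∈ ball (0 : ℂ) 11)
    (hlz : ∀ k ∈ S, fr κ k ≠ fr κ l → ((fr κ k - fr κ l) * Complex.exp z).re < 0)
    {r ε : ℝ} (hr : 0 < r) (hε : 0 < ε) :
    ∀ᶠ m : ℕ in (U : Filter ℕ), ∃ s ∈ ball z r,
      Real.exp (((fr κ l * Complex.exp z).re - ε) * Real.exp m) ≤
      ‖∑ k ∈ S, eval (p m s) (c k) * Complex.exp (ex i2 i3 (p m s) k)‖ := by
  classical
  -- the gap
  obtain ⟨δ, hδ, hδk⟩ : ∃ δ : ℝ, 0 < δ ∧ ∀ k ∈ S, fr κ k ≠ fr κ l →
      (fr κ k * Complex.exp z).re ≤ (fr κ l * Complex.exp z).re - δ := by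
    rcases (S.filter fun k => fr κ k ≠ fr κ l).eq_empty_or_nonempty with h | h
    · refine ⟨1, one_pos, fun k hk hkl => ?_⟩
      have : k ∈ S.filter fun k => fr κ k ≠ fr κ l := Finset.mem_filter.2 ⟨hk, hkl⟩
      rw [h] at this
      exact absurd this (Finset.notMem_empty _)
    · obtain ⟨k0, hk0, hmin⟩ := Finset.exists_min_image _
        (fun k => -((fr κ k - fr κ l) * Complex.exp z).re) h
      rw [Finset.mem_filter] at hk0
      refine ⟨-((fr κ k0 - fr κ l) * Complex.exp z).re, by linarith [hlz k0 hk0.1 hk0.2],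
        fun k hk hkl => ?_⟩
      have h1 := hmin k (Finset.mem_filter.2 ⟨hk, hkl⟩)
      have h2 : ((fr κ k - fr κ l) * Complex.exp z).re =
        (fr κ k * Complex.exp z).re - (fr κ l * Complex.exp z).re := by
        rw [sub_mul, Complex.sub_re]
      linarith
  set η : ℝ := min (δ / 8) (ε / 8) with hη
  have hη0 : 0 < η := by positivity
  have hη1 : η ≤ δ / 8 := min_le_left _ _
  have hη2 : η ≤ ε / 8 := min_le_right _ _
  -- a small disc
  have hcont : ∀ k : ℤ × ℤ, ContinuousAt (fun s : ℂ => (fr κ k * Complex.exp s).re) z := fun k =>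
    (Complex.continuous_re.comp (continuous_const.mul Complex.continuous_exp)).continuousAt
  have hev : ∀ᶠ s in 𝓝 z, ∀ k ∈ S, |(fr κ k * Complex.exp s).re - (fr κ k * Complex.exp z).re| < η := by
    rw [Finset.eventually_all]
    intro k _
    have := (Metric.continuousAt_iff.1 (hcont k)) η hη0
    obtain ⟨d, hd, h⟩ := this
    filter_upwards [ball_mem_nhds z hd] with s hs
    have := h hs
    rwa [Real.dist_eq] at this
  obtain ⟨r1, hr1, hr1b⟩ := Metric.eventually_nhds_iff_ball.1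
    (hev.and ((isOpen_ball.eventually_mem hz)))
  set r' := min r r1 with hr'
  have hr'0 : 0 < r' := lt_min hr hr1
  have hsub11 : ball z r' ⊆ closedBall (0 : ℂ) 11 := fun s hs =>
    ball_subset_closedBall (hr1b s (ball_subset_ball (min_le_right _ _) hs)).2
  have hns := nonsmall L U hU hκ l (S.filter fun k => fr κ k = fr κ l)
    ⟨l, Finset.mem_filter.2 ⟨hl, rfl⟩⟩ (fun k hk => (Finset.mem_filter.1 hk).2) c
    (fun k hk => hc k (Finset.mem_filter.1 hk).1) z r' hr'0
    (hsub11.trans (closedBall_subset_ball (by norm_num))) η hη0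
  have hup := upper L U hU hκ (S.filter fun k => ¬ fr κ k = fr κ l) c hη0
  have hexl := exu L U hU hκ l hη0
  have hbig := small_ev 2 0 η hη0
  filter_upwards [hns, hup, hexl, hU hbig] with m hns hup hexl hbig
  obtain ⟨s, hs, hge⟩ := hns
  have hs11 := hsub11 hs
  have hsr := (hr1b s (ball_subset_ball (min_le_right _ _) hs)).1
  refine ⟨s, ball_subset_ball (min_le_left _ _) hs, ?_⟩
  set R := Real.exp (m : ℝ) with hR
  have hR0 : 0 < R := Real.exp_pos _
  set a := (fr κ l * Complex.exp z).re with ha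
  have h1 : ∑ k ∈ S.filter (fun k => fr κ k = fr κ l),
      eval (p m s) (c k) * Complex.exp (ex i2 i3 (p m s) k) =
      Complex.exp (ex i2 i3 (p m s) l) * ∑ k ∈ S.filter (fun k => fr κ k = fr κ l),
      eval (p m s) (c k) * Complex.exp (ex i2 i3 (p m s) (k - l)) := by
    rw [Finset.mul_sum]
    refine Finset.sum_congr rfl fun k _ => ?_
    have : ex i2 i3 (p m s) k = ex i2 i3 (p m s) l + ex i2 i3 (p m s) (k - l) := by
      simp only [ex, Prod.fst_sub, Prod.snd_sub]; push_cast; ring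
    rw [this, Complex.exp_add]; ring
  have h2 : Real.exp ((a - 3 * η) * R) ≤ ‖∑ k ∈ S.filter (fun k => fr κ k = fr κ l),
      eval (p m s) (c k) * Complex.exp (ex i2 i3 (p m s) k)‖ := by
    rw [h1, norm_mul, Complex.norm_exp]
    have h3 := hexl s hs11
    rw [re_exp_mul, abs_le] at h3
    have h4 := hsr l hl
    rw [abs_lt] at h4
    have h5 : (a - 2 * η) * R ≤ (ex i2 i3 (p m s) l).re := by
      nlinarith [h3.1, h4.1]
    calc Real.exp ((a - 3 * η) * R) = Real.exp ((a - 2 * η) * R) * Real.exp (-(η * R)) := by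
          rw [← Real.exp_add]; congr 1; ring
      _ ≤ _ := mul_le_mul (Real.exp_le_exp.2 h5) hge (Real.exp_pos _).le (Real.exp_pos _).le
  have h3 : ‖∑ k ∈ S.filter (fun k => ¬ fr κ k = fr κ l),
      eval (p m s) (c k) * Complex.exp (ex i2 i3 (p m s) k)‖ ≤ Real.exp ((a - 6 * η) * R) := by
    refine (hup s hs11 (a - δ + η) ?_).trans ?_
    · intro k hk
      rw [Finset.mem_filter] at hk
      have h4 := hδk k hk.1 hk.2
      have h5 := hsr k hk.1
      rw [abs_lt] at h5
      linarith [h5.2]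
    · rw [Real.exp_le_exp]
      have : a - δ + η + η ≤ a - 6 * η := by linarith
      nlinarith
  rw [← Finset.sum_filter_add_sum_filter_not S (fun k => fr κ k = fr κ l)]
  have h4 := norm_sub_le_norm_add (∑ k ∈ S.filter (fun k => fr κ k = fr κ l),
      eval (p m s) (c k) * Complex.exp (ex i2 i3 (p m s) k)) (∑ k ∈ S.filter (fun k => ¬ fr κ k = fr κ l),
      eval (p m s) (c k) * Complex.exp (ex i2 i3 (p m s) k))
  rw [zero_mul, Real.exp_zero, mul_one] at hbig
  have h5 : Real.exp ((a - ε) * R) ≤ Real.exp ((a - 3 * η) * R) - Real.exp ((a - 6 * η) * R) := by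
    have e1 : Real.exp ((a - 3 * η) * R) = Real.exp (η * R) * Real.exp ((a - 4 * η) * R) := by
      rw [← Real.exp_add]; congr 1; ring
    have e2 : Real.exp ((a - 6 * η) * R) ≤ Real.exp ((a - 4 * η) * R) := by
      rw [Real.exp_le_exp]; nlinarith
    have e3 : Real.exp ((a - ε) * R) ≤ Real.exp ((a - 4 * η) * R) := by
      rw [Real.exp_le_exp]
      have : a - ε ≤ a - 4 * η := by linarith
      nlinarith
    nlinarith [Real.exp_pos ((a - 4 * η) * R)]
  linarith

end Pool.Agent.Helper57.NT
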